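import Pool.Agent.Lib.P68998g.Star
import Pool.Agent.Lib.P68998f.Count

/-!
A wheel from three elements outside a fan path, and the count of the elements outside a fan path
which spans a hyperplane.
-/

namespace Pool.Agent.Lib.P68998g

open Submodule Finset Pool.Agent.Lib.P68998c Pool.Agent.Lib.P68998f

universe u

section

variable {V : Type u} [AddCommGroup V] [Module (ZMod 2) V]

/-- the elements of the outer circuit of a fan path -/
def rim (y : ℕ → V) (k : ℕ) (q : ℕ) : V :=
  if q = 0 then y 0 else if q = k + 1 then y k else y (q - 1) + y q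

lemma rim_zero (y : ℕ → V) (k : ℕ) : rim y k 0 = y 0 := by simp [rim]

lemma rim_last (y : ℕ → V) (k : ℕ) : rim y k (k + 1) = y k := by simp [rim]

lemma rim_mid (y : ℕ → V) {k q : ℕ} (hq : q + 1 ≤ k) : rim y k (q + 1) = y q + y (q + 1) := by
  have h1 : ¬ (q + 1 = 0) := by omega
  have h2 : ¬ (q + 1 = k + 1) := by omega
  rw [rim, if_neg h1, if_neg h2, Nat.add_sub_cancel]

lemma rim_mem {E : Set V} {y : ℕ → V} {k : ℕ} (hy : FanPath E y k) {q : ℕ} (hq : q ≤ k + 1) :
    rim y k q ∈ E := by
  rcases Nat.eq_zero_or_pos q with rfl | h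
  · rw [rim_zero]; exact hy.1 0 (by omega)
  · rcases Nat.lt_or_ge k q with h1 | h1
    · have : q = k + 1 := by omega
      subst this
      rw [rim_last]; exact hy.1 k le_rfl
    · obtain ⟨q, rfl⟩ : ∃ q', q = q' + 1 := ⟨q - 1, by omega⟩
      rw [rim_mid y h1]
      exact hy.2.1 q (by omega)

lemma sum_rim_prefix (y : ℕ → V) (k : ℕ) : ∀ j : ℕ, j ≤ k →
    ∑ q ∈ range (j + 1), rim y k q = y j := by
  intro j
  induction j with
  | zero => intro _; rw [Finset.sum_range_one, rim_zero]
  | succ j ih =>
    intro hj
    rw [Finset.sum_range_succ, ih (by omega), rim_mid y hj, ← add_assoc, ZModModule.add_self,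
      zero_add]

lemma sum_rim (y : ℕ → V) (k : ℕ) : ∑ q ∈ range (k + 2), rim y k q = 0 := by
  rw [Finset.sum_range_succ, sum_rim_prefix y k k le_rfl, rim_last, ZModModule.add_self]

/-- the contracted rim elements -/
def Cset (y : ℕ → V) (k : ℕ) (Y : Finset ℕ) : Set V := {v | ∃ q, q ≤ k + 1 ∧ q ∉ Y ∧ rim y k q = v}

theorem wheel_of_three {E : Set V} {y : ℕ → V} {k a : ℕ} (hy : FanPath E y k) {p p' : ℕ}
    {M : Finset ℕ} (hpp : p < p') (hp' : p' ≤ k + 1) (hM : M.card = a)
    (hMp : ∀ m ∈ M, p < m ∧ m < p') {x g h : V} (hx : x ∈ E) (hg : g ∈ E) (hh : h ∈ E)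
    (hxy : x ∉ span (ZMod 2) (Set.range fun i : Fin (k + 1) => y i))
    (h1 : x + g + rim y k p ∈ span (ZMod 2) (Cset y k (insert p (insert p' M))))
    (h2 : x + h + rim y k p' ∈ span (ZMod 2) (Cset y k (insert p (insert p' M)))) :
    HasWheel (a + 1) E := by
  classical
  set Y : Finset ℕ := insert p (insert p' M) with hY
  set C := Cset y k Y with hC
  have hp'M : p' ∉ M := fun h => by have := hMp p' h; omega
  have hpM : p ∉ insert p' M := by
    rw [Finset.mem_insert]
    rintro (h | h)
    · omega
    · have := hMp p h; omega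
  have hYcard : Y.card = a + 2 := by
    rw [hY, Finset.card_insert_of_notMem hpM, Finset.card_insert_of_notMem hp'M, hM]
  have hYb : ∀ q ∈ Y, p ≤ q ∧ q ≤ p' := by
    intro q hq
    rw [hY, Finset.mem_insert, Finset.mem_insert] at hq
    rcases hq with rfl | rfl | hq
    · omega
    · omega
    · have := hMp q hq; omega
  have hpY : p ∈ Y := by rw [hY]; simp
  have hp'Y : p' ∈ Y := by rw [hY]; simp
  set c : ℕ → ℕ := fun j => (Y.filter (· ≤ j)).card with hc
  have hcle : ∀ j, c j ≤ a + 2 := fun j => hYcard ▸ Finset.card_filter_le _ _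
  have hc_out : ∀ j, j + 1 ∉ Y → c (j + 1) = c j := by
    intro j hj
    simp only [hc]
    congr 1
    ext q
    simp only [Finset.mem_filter]
    constructor
    · rintro ⟨k1, k2⟩
      refine ⟨k1, ?_⟩
      have : q ≠ j + 1 := fun h => hj (h ▸ k1)
      omega
    · rintro ⟨k1, k2⟩
      exact ⟨k1, by omega⟩
  have hc_in : ∀ j, j + 1 ∈ Y → c (j + 1) = c j + 1 := by
    intro j hj
    have : Y.filter (· ≤ j + 1) = insert (j + 1) (Y.filter (· ≤ j)) := by
      ext q
      simp only [Finset.mem_filter, Finset.mem_insert]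
      constructor
      · rintro ⟨k1, k2⟩
        by_cases h : q = j + 1
        · exact Or.inl h
        · exact Or.inr ⟨k1, by omega⟩
      · rintro (rfl | ⟨k1, k2⟩)
        · exact ⟨hj, le_rfl⟩
        · exact ⟨k1, by omega⟩
    simp only [hc]
    rw [this, Finset.card_insert_of_notMem (by simp)]
  have hc_mono : ∀ i j, i ≤ j → c i ≤ c j := by
    intro i j hij
    apply Finset.card_le_card
    intro q hq
    rw [Finset.mem_filter] at hq ⊢
    exact ⟨hq.1, by omega⟩
  have hc_p : c p = 1 := by
    have : Y.filter (· ≤ p) = {p} := by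
      ext q
      simp only [Finset.mem_filter, Finset.mem_singleton]
      constructor
      · rintro ⟨k1, k2⟩
        have := hYb q k1
        omega
      · rintro rfl
        exact ⟨hpY, le_rfl⟩
    simp only [hc]
    rw [this, Finset.card_singleton]
  have hc_lt : ∀ j, j < p → c j = 0 := by
    intro j hj
    simp only [hc]
    rw [Finset.card_eq_zero, Finset.filter_eq_empty_iff]
    intro q hq
    have := hYb q hq
    omega
  have hc_ge : ∀ j, p' ≤ j → c j = a + 2 := by
    intro j hj
    simp only [hc]
    rw [← hYcard, Finset.filter_true_of_mem]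
    intro q hq
    have := hYb q hq
    omega
  have hc_p' : c (p' - 1) = a + 1 := by
    have k1 := hc_in (p' - 1) (by rw [Nat.sub_add_cancel (by omega)]; exact hp'Y)
    rw [Nat.sub_add_cancel (by omega), hc_ge p' le_rfl] at k1
    omega
  -- classes
  have hstep : ∀ j, j + 1 ≤ k → c (j + 1) = c j → y j + y (j + 1) ∈ span (ZMod 2) C := by
    intro j hj hcj
    refine subset_span ⟨j + 1, by omega, ?_, rim_mid y hj⟩
    intro h
    have := hc_in j h
    omega
  have hclass : ∀ i j, i ≤ j → j ≤ k → c i = c j → y i + y j ∈ span (ZMod 2) C := by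
    intro i j hij
    induction j, hij using Nat.le_induction with
    | base => intro _ _; rw [ZModModule.add_self]; exact zero_mem _
    | succ j hij ih =>
      intro hj hcj
      have k1 := hc_mono i j hij
      have k2 := hc_mono j (j + 1) (by omega)
      have k3 := ih (by omega) (by omega)
      have k4 := hstep j hj (by omega)
      have := add_mem k3 k4
      rwa [← add_add_cancel_mid] at this
  have hclass' : ∀ i j, i ≤ k → j ≤ k → c i = c j → y i + y j ∈ span (ZMod 2) C := by
    intro i j hi hj hcij
    rcases le_total i j with h | h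
    · exact hclass i j h hj hcij
    · rw [add_comm]; exact hclass j i h hi hcij.symm
  have hzero : ∀ j, j ≤ k → c j = 0 → y j ∈ span (ZMod 2) C := by
    intro j hj hcj
    have k0 : c 0 = 0 := Nat.le_zero.1 (hcj ▸ hc_mono 0 j (Nat.zero_le _))
    have k1 : y 0 ∈ span (ZMod 2) C := by
      refine subset_span ⟨0, by omega, ?_, rim_zero y k⟩
      intro h
      have k2 : 0 ∈ Y.filter (· ≤ 0) := Finset.mem_filter.2 ⟨h, le_rfl⟩
      have k3 : 0 < c 0 := Finset.card_pos.2 ⟨0, k2⟩
      omega
    have k4 := hclass' 0 j (by omega) hj (by omega)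
    have := add_mem k1 k4
    rwa [← add_assoc, ZModModule.add_self, zero_add] at this
  have htop : ∀ j, j ≤ k → c j = a + 2 → y j ∈ span (ZMod 2) C := by
    intro j hj hcj
    have k0 : c k = a + 2 := le_antisymm (hcle k) (hcj ▸ hc_mono j k hj)
    have k1 : y k ∈ span (ZMod 2) C := by
      refine subset_span ⟨k + 1, by omega, ?_, rim_last y k⟩
      intro h
      have := hc_in k h
      have := hcle (k + 1)
      omega
    have k4 := hclass' j k hj le_rfl (by omega)
    have := add_mem k4 k1
    rwa [add_assoc, ZModModule.add_self, add_zero] at this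
  -- representatives of the classes `1, ..., a + 1`
  have hrep : ∀ i, 1 ≤ i → i ≤ a + 1 → ∃ j, j ≤ k ∧ c j = i := by
    intro i hi1 hi2
    have hex : ∃ j, i ≤ c j := ⟨p' - 1, by omega⟩
    have k1 := Nat.find_spec hex
    have k2 : Nat.find hex ≤ p' - 1 := Nat.find_min' hex (by omega)
    refine ⟨Nat.find hex, by omega, le_antisymm ?_ k1⟩
    rcases Nat.eq_zero_or_pos (Nat.find hex) with h | h
    · rw [h]
      rcases Nat.eq_zero_or_pos p with hp0 | hp0
      · have := hc_p
        rw [hp0] at this
        omega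
      · have := hc_lt 0 hp0
        omega
    · have k3 := Nat.find_min hex (m := Nat.find hex - 1) (by omega)
      obtain ⟨j, hj⟩ : ∃ j, Nat.find hex = j + 1 := ⟨Nat.find hex - 1, by omega⟩
      rw [hj] at k3 ⊢
      rw [Nat.add_sub_cancel] at k3
      by_cases hjY : j + 1 ∈ Y
      · have := hc_in j hjY; omega
      · have := hc_out j hjY; omega
  have hrim : ∀ i, 1 ≤ i → i ≤ a → ∃ q, q + 1 ≤ k ∧ c q = i ∧ c (q + 1) = i + 1 := by
    intro i hi1 hi2
    have hex : ∃ j, i + 1 ≤ c j := ⟨p' - 1, by omega⟩
    have k1 := Nat.find_spec hex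
    have k2 : Nat.find hex ≤ p' - 1 := Nat.find_min' hex (by omega)
    have k4 : 0 < Nat.find hex := by
      rcases Nat.eq_zero_or_pos (Nat.find hex) with h | h
      · exfalso
        rw [h] at k1
        have := hc_mono 0 p (Nat.zero_le _)
        omega
      · exact h
    have k3 := Nat.find_min hex (m := Nat.find hex - 1) (by omega)
    obtain ⟨j, hj⟩ : ∃ j, Nat.find hex = j + 1 := ⟨Nat.find hex - 1, by omega⟩
    rw [hj] at k3 k1 k2
    rw [Nat.add_sub_cancel] at k3
    refine ⟨j, by omega, ?_, ?_⟩
    · by_cases hjY : j + 1 ∈ Y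
      · have := hc_in j hjY; omega
      · have := hc_out j hjY; omega
    · by_cases hjY : j + 1 ∈ Y
      · have := hc_in j hjY; omega
      · have := hc_out j hjY; omega
  choose! P hPk hPc using hrep
  choose! R hRk hRc hRc' using hrim
  obtain ⟨φ, hφx, hφy⟩ := exists_map' hy.2.2 hxy (Pi.single (0 : Fin (a + 1 + 1)) (1 : ZMod 2))
    (fun j => (fun t : Fin (a + 1 + 1) => if c j = t ∧ (t : ℕ) ≠ 0 then (1 : ZMod 2) else 0))
  have hφC : ∀ v ∈ C, φ v = 0 := by
    rintro v ⟨q, hq, hqY, rfl⟩
    rcases Nat.eq_zero_or_pos q with rfl | h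
    · rw [rim_zero, hφy 0 (by omega)]
      have : c 0 = 0 := by
        simp only [hc]
        rw [Finset.card_eq_zero, Finset.filter_eq_empty_iff]
        intro q hq hq0
        have : q = 0 := by omega
        exact hqY (this ▸ hq)
      funext t
      rw [if_neg]
      · rfl
      · rintro ⟨h1, h2⟩
        omega
    · rcases Nat.lt_or_ge k q with h1 | h1
      · have : q = k + 1 := by omega
        subst this
        rw [rim_last, hφy k le_rfl]
        have k1 : c k = a + 2 := by
          rw [← hc_out k hqY]
          exact hc_ge _ hp'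
        funext t
        rw [if_neg]
        · rfl
        · rintro ⟨h1, h2⟩
          have := t.2
          omega
      · obtain ⟨q, rfl⟩ : ∃ q', q = q' + 1 := ⟨q - 1, by omega⟩
        rw [rim_mid y h1, map_add, hφy q (by omega), hφy (q + 1) h1, hc_out q hqY]
        exact ZModModule.add_self _
  refine ⟨C, fun i => if (i : ℕ) = 0 then x else y (P i),
    fun i => if (i : ℕ) = 0 then g else if (i : ℕ) = a + 1 then h else rim y k (R i + 1),
    ?_, ?_, ?_, ⟨φ, hφC, ?_⟩, ?_⟩
  · rintro v ⟨q, hq, -, rfl⟩
    exact rim_mem hy hq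
  · intro i
    by_cases hi : (i : ℕ) = 0
    · simp only [hi, if_true]; exact hx
    · simp only [hi, if_false]
      exact hy.1 _ (hPk i (by omega) (by have := i.2; omega))
  · intro i
    by_cases hi : (i : ℕ) = 0
    · simp only [hi, if_true]; exact hg
    · by_cases hi2 : (i : ℕ) = a + 1
      · show (if (i : ℕ) = 0 then g else if (i : ℕ) = a + 1 then h else rim y k (R i + 1)) ∈ E
        rw [if_neg hi, if_pos hi2]; exact hh
      · simp only [hi, hi2, if_false]
        have := hRk i (by omega) (by have := i.2; omega)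
        exact rim_mem hy (by omega)
  · intro i
    by_cases hi : (i : ℕ) = 0
    · have : i = 0 := Fin.ext hi
      subst this
      simp only [Fin.val_zero, if_true]
      exact hφx
    · simp only [hi, if_false]
      rw [hφy _ (hPk i (by omega) (by have := i.2; omega)),
        hPc i (by omega) (by have := i.2; omega)]
      funext t
      by_cases hit : i = t
      · subst hit
        rw [if_pos ⟨rfl, hi⟩, Pi.single_eq_same]
      · rw [if_neg, Pi.single_eq_of_ne (Ne.symm hit)]
        rintro ⟨k1, -⟩
        exact hit (Fin.ext k1)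
  · intro i
    have hilt := i.2
    by_cases hi : (i : ℕ) = 0
    · have : i = 0 := Fin.ext hi
      subst this
      have e1 : ((0 + 1 : Fin (a + 1 + 1)) : ℕ) = 1 := by simp
      simp only [Fin.val_zero, if_true, e1]
      rw [if_neg one_ne_zero]
      -- `g + x + y (P 1)`
      have k1 : y (P 1) + y p ∈ span (ZMod 2) C :=
        hclass' _ _ (hPk 1 le_rfl (by omega)) (by omega) (by rw [hPc 1 le_rfl (by omega), hc_p])
      have k2 : y p + rim y k p ∈ span (ZMod 2) C := by
        rcases Nat.eq_zero_or_pos p with hp0 | hp0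
        · rw [hp0, rim_zero, ZModModule.add_self]; exact zero_mem _
        · obtain ⟨s, hs⟩ : ∃ s, p = s + 1 := ⟨p - 1, by omega⟩
          rw [hs, rim_mid y (by omega)]
          have k3 := hzero s (by omega) (hc_lt s (by omega))
          have k4 : y (s + 1) + (y s + y (s + 1)) = y s + (y (s + 1) + y (s + 1)) := by abel
          rw [k4, ZModModule.add_self, add_zero]
          exact k3
      have k5 := add_mem (add_mem k1 k2) h1
      have k6 : y (P 1) + y p + (y p + rim y k p) + (x + g + rim y k p) =
          g + x + y (P 1) + ((y p + y p) + (rim y k p + rim y k p)) := by abel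
      rw [k6, ZModModule.add_self, ZModModule.add_self, add_zero, add_zero] at k5
      exact k5
    · by_cases hi2 : (i : ℕ) = a + 1
      · have e1 : i + 1 = 0 := by
          have : i = Fin.last (a + 1) := Fin.ext hi2
          rw [this]; simp
        simp only [e1, Fin.val_zero, if_true, hi2]
        rw [if_neg (by omega), if_neg (by omega)]
        -- `h + y (P (a + 1)) + x`
        have k1 : y (P (a + 1)) + y (p' - 1) ∈ span (ZMod 2) C :=
          hclass' _ _ (hPk (a + 1) (by omega) le_rfl) (by omega)
            (by rw [hPc (a + 1) (by omega) le_rfl, hc_p'])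
        have k2 : y (p' - 1) + rim y k p' ∈ span (ZMod 2) C := by
          obtain ⟨s, hs⟩ : ∃ s, p' = s + 1 := ⟨p' - 1, by omega⟩
          rw [hs, Nat.add_sub_cancel]
          rcases Nat.lt_or_ge s k with hsk | hsk
          · rw [rim_mid y (by omega), ← add_assoc, ZModModule.add_self, zero_add]
            exact htop (s + 1) (by omega) (hc_ge _ (by omega))
          · have : s = k := by omega
            rw [this, rim_last, ZModModule.add_self]
            exact zero_mem _
        have k5 := add_mem (add_mem k1 k2) h2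
        have k6 : y (P (a + 1)) + y (p' - 1) + (y (p' - 1) + rim y k p') + (x + h + rim y k p') =
            h + y (P (a + 1)) + x + ((y (p' - 1) + y (p' - 1)) +
              (rim y k p' + rim y k p')) := by abel
        rw [k6, ZModModule.add_self, ZModModule.add_self, add_zero, add_zero] at k5
        exact k5
      · have e1 : ((i + 1 : Fin (a + 1 + 1)) : ℕ) = i + 1 := by
          apply Fin.val_add_one_of_lt
          rw [Fin.lt_def, Fin.val_last]
          omega
        simp only [hi, hi2, if_false, e1]
        rw [if_neg (by omega)]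
        have hR1 := hRk i (by omega) (by omega)
        have hR2 := hRc i (by omega) (by omega)
        have hR3 := hRc' i (by omega) (by omega)
        rw [rim_mid y hR1]
        have k1 : y (R i) + y (P i) ∈ span (ZMod 2) C :=
          hclass' _ _ (by omega) (hPk i (by omega) (by omega))
            (by rw [hR2, hPc i (by omega) (by omega)])
        have k2 : y (R i + 1) + y (P (i + 1)) ∈ span (ZMod 2) C :=
          hclass' _ _ hR1 (hPk (i + 1) (by omega) (by omega))
            (by rw [hR3, hPc (i + 1) (by omega) (by omega)])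
        have k3 := add_mem k1 k2
        have k4 : y (R i) + y (P i) + (y (R i + 1) + y (P (i + 1))) =
            y (R i) + y (R i + 1) + y (P i) + y (P (i + 1)) := by abel
        rw [k4] at k3
        exact k3

lemma z2_cases (c : ZMod 2) : c = 0 ∨ c = 1 := by
  revert c; decide

lemma Z_ne {s t : ZMod 2} : s ≠ t → s + t = 1 := by
  revert s t; decide

/-- Coordinates in the outer circuit. -/
lemma rim_coordinates {y : ℕ → V} {k : ℕ} {Φ : V →ₗ[ZMod 2] (ℕ → ZMod 2)}
    (hΦ : ∀ p ≤ k, Φ (y p) = fun q => if q ≤ p then 1 else 0) {u : V}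
    (hu : u ∈ span (ZMod 2) (Set.range fun i : Fin (k + 1) => y i)) :
    u = ∑ q ∈ range (k + 1), Φ u q • rim y k q := by
  induction hu using span_induction with
  | mem v hv =>
    obtain ⟨i, rfl⟩ := hv
    have hi := i.2
    simp only
    rw [hΦ i (by omega), ← sum_rim_prefix y k i (by omega)]
    have h1 : range (k + 1) = range ((i : ℕ) + 1) ∪ (range (k + 1) \ range ((i : ℕ) + 1)) := by
      rw [Finset.union_sdiff_of_subset]
      intro q hq
      rw [Finset.mem_range] at hq ⊢
      omega
    rw [h1, Finset.sum_union Finset.disjoint_sdiff]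
    have h2 : ∑ q ∈ range (k + 1) \ range ((i : ℕ) + 1),
        (if q ≤ (i : ℕ) then (1 : ZMod 2) else 0) • rim y k q = 0 := by
      refine Finset.sum_eq_zero fun q hq => ?_
      rw [Finset.mem_sdiff, Finset.mem_range, Finset.mem_range] at hq
      rw [if_neg (by omega), zero_smul]
    rw [h2, add_zero]
    refine Finset.sum_congr rfl fun q hq => ?_
    rw [Finset.mem_range] at hq
    beta_reduce
    rw [if_pos (by omega), one_smul]
  | zero => simp
  | add u w _ _ h1 h2 =>
    rw [map_add]
    conv_lhs => rw [h1, h2]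
    rw [← Finset.sum_add_distrib]
    refine Finset.sum_congr rfl fun q _ => ?_
    rw [Pi.add_apply, add_smul]
  | smul s u _ h1 =>
    rw [map_smul]
    conv_lhs => rw [h1]
    rw [Finset.smul_sum]
    refine Finset.sum_congr rfl fun q _ => ?_
    rw [Pi.smul_apply, smul_smul, smul_eq_mul]

/-- **The count.** At most `(a + 3) * 2 ^ a / 4` elements of `E` lie outside a fan path which
spans a hyperplane. -/
theorem count_star {a : ℕ} (ha : 1 ≤ a) {E : Finset V}
    (hW : ¬ HasWheel (a + 1) (E : Set V)) {k : ℕ} {y : ℕ → V}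
    (hy : FanPath (E : Set V) y k) (C : Finset V) (hC : C ⊆ E)
    (hCy : ∀ x ∈ C, x ∉ span (ZMod 2) (Set.range fun i : Fin (k + 1) => y i))
    (hCC : ∀ x ∈ C, ∀ x' ∈ C, x + x' ∈ span (ZMod 2) (Set.range fun i : Fin (k + 1) => y i)) :
    4 * C.card ≤ (a + 3) * 2 ^ a := by
  classical
  rcases C.eq_empty_or_nonempty with rfl | ⟨x₁, hx₁⟩
  · simp
  obtain ⟨Φ, hΦx, hΦy⟩ := exists_map' hy.2.2 (hCy x₁ hx₁) (0 : ℕ → ZMod 2)
    (fun p q => if q ≤ p then 1 else 0)
  -- the last coordinate vanishes on the span
  have hlast : ∀ u ∈ span (ZMod 2) (Set.range fun i : Fin (k + 1) => y i), Φ u (k + 1) = 0 := by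
    intro u hu
    induction hu using span_induction with
    | mem v hv =>
      obtain ⟨i, rfl⟩ := hv
      have hi := i.2
      simp only
      rw [hΦy i (by omega)]
      beta_reduce
      rw [if_neg (by omega)]
    | zero => simp
    | add u w _ _ h1 h2 => rw [map_add, Pi.add_apply, h1, h2, add_zero]
    | smul s u _ h1 => rw [map_smul, Pi.smul_apply, h1, smul_zero]
  have hlastC : ∀ x ∈ C, Φ x (k + 1) = 0 := by
    intro x hx
    have h1 := hlast _ (hCC x hx x₁ hx₁)
    rw [map_add, hΦx, add_zero] at h1
    exact h1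
  have hinj : ∀ x ∈ C, ∀ x' ∈ C, cls (fun x : V => Φ x) (Icc 0 (k + 1)) x =
      cls (fun x : V => Φ x) (Icc 0 (k + 1)) x' → x = x' := by
    intro x hx x' hx' h
    rw [cls_eq_iff_base (b := k + 1) (by simp)] at h
    have h1 := rim_coordinates hΦy (hCC x hx x' hx')
    have h2 : x + x' = 0 := by
      rw [h1]
      refine Finset.sum_eq_zero fun q hq => ?_
      rw [Finset.mem_range] at hq
      have h3 := h q (by rw [Finset.mem_Icc]; omega)
      rw [hlastC x hx, hlastC x' hx', add_zero, add_zero] at h3
      rw [map_add, Pi.add_apply, h3, ZModModule.add_self, zero_smul]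
    calc x = x + (x' + x') := by rw [ZModModule.add_self, add_zero]
      _ = (x + x') + x' := by rw [add_assoc]
      _ = x' := by rw [h2, zero_add]
  have hcard : cnt C (fun x : V => Φ x) (Icc 0 (k + 1)) = C.card := by
    unfold cnt
    rw [Finset.card_image_of_injOn]
    intro x hx x' hx' h
    exact hinj x hx x' hx' h
  have hstar : Star a (k + 1) C (fun x : V => Φ x) := by
    intro p p' M hp' hM hMp x hx g hg h hh m₀ hm₀ hxg hxh h1 h2 h3 h4
    obtain ⟨M', hM'M, hM'⟩ := Finset.exists_subset_card_eq hM
    have hpp : p < p' := (hMp m₀ hm₀).1.trans (hMp m₀ hm₀).2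
    have hM'p : ∀ m ∈ M', p < m ∧ m < p' := fun m hm => hMp m (hM'M hm)
    have key : ∀ (w : V) (r s : ℕ), w ∈ C → r ≤ k + 1 → r ∈ insert p (insert p' M') →
        (∀ m ∈ M, Φ x m + Φ x m₀ = Φ w m + Φ w m₀) →
        (∀ q ∈ ({p, p'} : Finset ℕ), q ≠ r → Φ x q + Φ x m₀ = Φ w q + Φ w m₀) →
        Φ x r + Φ x m₀ ≠ Φ w r + Φ w m₀ → r ∉ M' →
        x + w + rim y k r ∈ span (ZMod 2) (Cset y k (insert p (insert p' M'))) := by
      intro w r _ hw hr hrY hwM hwq hwr hrM
      have e1 := rim_coordinates hΦy (hCC x hx w hw)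
      have e2 : x + w = ∑ q ∈ range (k + 2), (Φ (x + w) q + Φ (x + w) m₀) • rim y k q := by
        have e3 : ∑ q ∈ range (k + 2), (Φ (x + w) q + Φ (x + w) m₀) • rim y k q =
            ∑ q ∈ range (k + 2), Φ (x + w) q • rim y k q +
            Φ (x + w) m₀ • ∑ q ∈ range (k + 2), rim y k q := by
          rw [Finset.smul_sum, ← Finset.sum_add_distrib]
          exact Finset.sum_congr rfl fun q _ => add_smul _ _ _
        rw [e3, sum_rim, smul_zero, add_zero, Finset.sum_range_succ,
          hlast _ (hCC x hx w hw), zero_smul, add_zero]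
        exact e1
      have e4 : Φ (x + w) r + Φ (x + w) m₀ = 1 := by
        rw [map_add, Pi.add_apply, Pi.add_apply]
        have e5 : Φ x r + Φ w r + (Φ x m₀ + Φ w m₀) = (Φ x r + Φ x m₀) + (Φ w r + Φ w m₀) := by
          abel
        rw [e5]
        exact Z_ne hwr
      have e6 : x + w + rim y k r =
          ∑ q ∈ (range (k + 2)).erase r, (Φ (x + w) q + Φ (x + w) m₀) • rim y k q := by
        have hrr : r ∈ range (k + 2) := Finset.mem_range.2 (by omega)
        conv_lhs => rw [e2]
        rw [← Finset.add_sum_erase _ _ hrr, e4, one_smul]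
        rw [add_comm (rim y k r), add_assoc, ZModModule.add_self, add_zero]
      rw [e6]
      refine sum_mem fun q hq => ?_
      rw [Finset.mem_erase, Finset.mem_range] at hq
      by_cases hqY : q ∈ insert p (insert p' M')
      · have e7 : Φ x q + Φ x m₀ = Φ w q + Φ w m₀ := by
          rw [Finset.mem_insert, Finset.mem_insert] at hqY
          rcases hqY with h | h | h
          · exact hwq q (by simp [h]) hq.1
          · exact hwq q (by simp [h]) hq.1
          · exact hwM q (hM'M h)
        have e8 : Φ (x + w) q + Φ (x + w) m₀ = 0 := by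
          rw [map_add, Pi.add_apply, Pi.add_apply]
          have e5 : Φ x q + Φ w q + (Φ x m₀ + Φ w m₀) =
              (Φ x q + Φ x m₀) + (Φ w q + Φ w m₀) := by abel
          rw [e5, e7, ZModModule.add_self]
        rw [e8, zero_smul]
        exact zero_mem _
      · exact smul_mem _ _ (subset_span ⟨q, by omega, hqY, rfl⟩)
    have hpM' : p ∉ M' := fun h => by have := hM'p p h; omega
    have hp'M' : p' ∉ M' := fun h => by have := hM'p p' h; omega
    refine hW (wheel_of_three hy hpp hp' hM' hM'p (hC hx) (hC hg) (hC hh) (hCy x hx) ?_ ?_)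
    · refine key g p 0 hg (by omega) (by simp) hxg ?_ h1 hpM'
      intro q hq hqp
      rw [Finset.mem_insert, Finset.mem_singleton] at hq
      rcases hq with rfl | rfl
      · exact absurd rfl hqp
      · exact h2
    · refine key h p' 0 hh hp' (by simp) hxh ?_ h4 hp'M'
      intro q hq hqp
      rw [Finset.mem_insert, Finset.mem_singleton] at hq
      rcases hq with rfl | rfl
      · exact h3
      · exact absurd rfl hqp
  have := star_bound ha hstar (k + 1) 0 (by omega)
  rw [zero_add, hcard] at this
  exact this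

end

end Pool.Agent.Lib.P68998g
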