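import Pool.Agent.Lib.P68998f.Gen
import Pool.Agent.Lib.P68998g.Glue

/-!
The small cocircuit theorem from any bound for the number of elements outside a fan path which
spans a hyperplane, and the instance `(a + 3) * 2 ^ a / 4`.
-/

namespace Pool.Agent.Lib.P68998g

open Submodule Finset Pool.Agent.Lib.P68998c Pool.Agent.Lib.P68998f

universe u

/-- At most `N` elements of `E` lie outside a fan path which spans a hyperplane. -/
def OutBound (a N : ℕ) : Prop :=
  ∀ (V : Type u) [AddCommGroup V] [Module (ZMod 2) V] [FiniteDimensional (ZMod 2) V]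
    (E : Finset V), ¬ HasWheel (a + 1) (E : Set V) → ∀ (k : ℕ) (y : ℕ → V),
    FanPath (E : Set V) y k → ∀ C : Finset V, C ⊆ E →
    (∀ x ∈ C, x ∉ span (ZMod 2) (Set.range fun i : Fin (k + 1) => y i)) →
    (∀ x ∈ C, ∀ x' ∈ C, x + x' ∈ span (ZMod 2) (Set.range fun i : Fin (k + 1) => y i)) →
    C.card ≤ N

theorem base_of_outBound {a N : ℕ} (hN : OutBound.{u} a N) : Base.{u} a N := by
  classical
  intro k V _ _ _ E y h0 hW hy hr
  set P := span (ZMod 2) (Set.range fun i : Fin (k + 1) => y i) with hP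
  have hPr : Module.finrank (ZMod 2) P = k + 1 := by
    rw [hP, finrank_span_eq_card hy.2.2, Fintype.card_fin]
  have hPE : P ≤ span (ZMod 2) (E : Set V) := by
    rw [hP, span_le]
    rintro _ ⟨i, rfl⟩
    exact subset_span (hy.1 i (by omega))
  obtain ⟨x₁, hx₁, hx₁P⟩ : ∃ x ∈ E, x ∉ P := by
    by_contra hcon
    push Not at hcon
    have h1 : span (ZMod 2) (E : Set V) ≤ P := span_le.2 hcon
    have h2 := Submodule.finrank_mono h1
    omega
  have hCC : ∀ x ∈ E, x ∉ P → ∀ x' ∈ E, x' ∉ P → x + x' ∈ P := by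
    intro x hx hxP x' hx' hx'P
    have h1 : P ⊔ span (ZMod 2) {x} ≤ span (ZMod 2) (E : Set V) :=
      sup_le hPE (span_le.2 (Set.singleton_subset_iff.2 (subset_span hx)))
    have h2 : P < P ⊔ span (ZMod 2) {x} := by
      rw [lt_iff_le_and_ne]
      refine ⟨le_sup_left, fun h => hxP ?_⟩
      have h5 : x ∈ P ⊔ span (ZMod 2) {x} :=
        (le_sup_right : span (ZMod 2) {x} ≤ P ⊔ span (ZMod 2) {x}) (mem_span_singleton_self x)
      rw [← h] at h5
      exact h5
    have h3 := Submodule.finrank_lt_finrank_of_lt h2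
    have h4 : P ⊔ span (ZMod 2) {x} = span (ZMod 2) (E : Set V) :=
      Submodule.eq_of_le_of_finrank_le h1 (by omega)
    have h5 : x' ∈ P ⊔ span (ZMod 2) {x} := by
      rw [h4]; exact subset_span hx'
    obtain ⟨p, hp, v, hv, hpv⟩ := Submodule.mem_sup.1 h5
    obtain ⟨c, rfl⟩ := mem_span_singleton.1 hv
    rcases zc c with rfl | rfl
    · rw [zero_smul, add_zero] at hpv
      exact absurd (hpv ▸ hp) hx'P
    · rw [one_smul] at hpv
      have h6 : x + x' = p + (x + x) := by rw [← hpv]; abel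
      rw [h6, ZModModule.add_self, add_zero]
      exact hp
  obtain ⟨g, hg1, hg0⟩ := exists_map' hy.2.2 hx₁P (1 : ZMod 2) (fun _ => 0)
  have hgP : P ≤ LinearMap.ker g := by
    rw [hP, span_le]
    rintro _ ⟨i, rfl⟩
    exact hg0 i (by omega)
  refine ⟨g, hg0, ⟨x₁, Finset.mem_filter.2 ⟨hx₁, hg1⟩⟩, ?_⟩
  have hfil : ∀ x ∈ E.filter (fun x => g x = 1), x ∈ E ∧ x ∉ P := by
    intro x hx
    rw [Finset.mem_filter] at hx
    refine ⟨hx.1, fun h => ?_⟩
    have := hgP h
    rw [LinearMap.mem_ker, hx.2] at this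
    exact one_ne_zero this
  exact hN V E hW k y hy _ (Finset.filter_subset _ _) (fun x hx => (hfil x hx).2)
    (fun x hx x' hx' => hCC x (hfil x hx).1 (hfil x hx).2 x' (hfil x' hx').1 (hfil x' hx').2)

/-- **Small cocircuits** from a bound for the elements outside a fan path. -/
theorem small_cocircuit_of_outBound (a N : ℕ) (h1 : 1 ≤ N) (hN : OutBound.{u} a N) (V : Type u)
    [AddCommGroup V] [Module (ZMod 2) V] [FiniteDimensional (ZMod 2) V] (X : Finset V)
    (h0 : (0 : V) ∉ X) (hX : X.Nonempty) (hW : ¬ HasWheel (a + 1) (X : Set V)) :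
    ∃ f : V →ₗ[ZMod 2] ZMod 2, (X.filter fun x => f x = 1).Nonempty ∧
      (X.filter fun x => f x = 1).card ≤ N :=
  small_cocircuit_gen a N h1 (base_of_outBound hN) V X h0 hX hW

theorem outBound_star (a : ℕ) (ha : 1 ≤ a) : OutBound.{u} a ((a + 3) * 2 ^ a / 4) := by
  intro V _ _ _ E hW k y hy C hC hCy hCC
  rw [Nat.le_div_iff_mul_le (by norm_num), mul_comm]
  exact count_star ha hW hy C hC hCy hCC

/-- **Small cocircuits.** -/
theorem small_cocircuit_star (a : ℕ) (ha : 1 ≤ a) (V : Type u)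
    [AddCommGroup V] [Module (ZMod 2) V] [FiniteDimensional (ZMod 2) V] (X : Finset V)
    (h0 : (0 : V) ∉ X) (hX : X.Nonempty) (hW : ¬ HasWheel (a + 1) (X : Set V)) :
    ∃ f : V →ₗ[ZMod 2] ZMod 2, (X.filter fun x => f x = 1).Nonempty ∧
      4 * (X.filter fun x => f x = 1).card ≤ (a + 3) * 2 ^ a := by
  have h2 : 2 ≤ 2 ^ a := by
    calc 2 = 2 ^ 1 := by norm_num
      _ ≤ 2 ^ a := Nat.pow_le_pow_right (by norm_num) ha
  have h3 : 1 ≤ (a + 3) * 2 ^ a / 4 := by
    rw [Nat.le_div_iff_mul_le (by norm_num)]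
    calc 1 * 4 ≤ 4 * 2 := by norm_num
      _ ≤ (a + 3) * 2 ^ a := Nat.mul_le_mul (by omega) h2
  obtain ⟨f, hf1, hf2⟩ := small_cocircuit_of_outBound a _ h3 (outBound_star a ha) V X h0 hX hW
  refine ⟨f, hf1, ?_⟩
  rw [Nat.le_div_iff_mul_le (by norm_num)] at hf2
  omega

/-- For `a ≤ 4` the bound is less than `2 ^ (a + 1)`. -/
theorem numeric_small {a m : ℕ} (ha : a ≤ 4) (hm : 4 * m ≤ (a + 3) * 2 ^ a) :
    m < 2 ^ (a + 1) := by
  interval_cases a <;> omega

/-- The bound is less than `2 ^ (a - 2 + clog 2 (a + 4))`, written without subtraction. -/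
theorem numeric_star {a m t : ℕ} (hm : 4 * m ≤ (a + 3) * 2 ^ a)
    (ht : a + Nat.clog 2 (a + 4) ≤ t + 2) : m < 2 ^ t := by
  have h1 : a + 4 ≤ 2 ^ Nat.clog 2 (a + 4) := Nat.le_pow_clog (by norm_num) _
  have h2 : 2 ^ (a + Nat.clog 2 (a + 4)) ≤ 2 ^ (t + 2) := Nat.pow_le_pow_right (by norm_num) ht
  rw [pow_add] at h2
  have h3 : 2 ^ a * (a + 4) ≤ 2 ^ a * 2 ^ Nat.clog 2 (a + 4) := Nat.mul_le_mul_left _ h1
  have h4 : 1 ≤ 2 ^ a := Nat.one_le_two_pow
  rw [pow_add] at h2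
  nlinarith

end Pool.Agent.Lib.P68998g
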