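import Pool.Agent.Lib.P68998g.Star

/-!
Two further patterns for families of functions `{0, ..., L} → ZMod 2` modulo constants.
-/

namespace Pool.Agent.Lib.P68998g

open Finset

section

variable {ι : Type*}

/-- no two members differ, relative to a set with `a + 1` positions on which they agree, at a
position before that set and at a position after it -/
def Pair (a L : ℕ) (F : Finset ι) (v : ι → ℕ → ZMod 2) : Prop :=
  ∀ (p p' : ℕ) (M : Finset ℕ), p' ≤ L → a + 1 ≤ M.card → (∀ m ∈ M, p < m ∧ m < p') →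
    ∀ x ∈ F, ∀ y ∈ F, ∀ m₀ ∈ M,
      (∀ m ∈ M, v x m + v x m₀ = v y m + v y m₀) →
      v x p + v x m₀ ≠ v y p + v y m₀ → v x p' + v x m₀ ≠ v y p' + v y m₀ → False

/-- no member can be changed at the first and at the last but one position of a set with `a + 2`
positions -/
def StarB (a L : ℕ) (F : Finset ι) (v : ι → ℕ → ZMod 2) : Prop :=
  ∀ (p p' s : ℕ) (M : Finset ℕ), p < p' → p' < s → s ≤ L → a ≤ M.card + 1 →
    (∀ m ∈ M, p < m ∧ m < p') →
    ∀ x ∈ F, ∀ y ∈ F, ∀ z ∈ F,
      (∀ m ∈ M, v x m + v x s = v y m + v y s) → (∀ m ∈ M, v x m + v x s = v z m + v z s) →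
      v x p + v x s ≠ v y p + v y s → v x p' + v x s = v y p' + v y s →
      v x p + v x s = v z p + v z s → v x p' + v x s ≠ v z p' + v z s → False

end

end Pool.Agent.Lib.P68998g
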