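import Pool.Agent.Lib.P68998g.Words
import Pool.Agent.Lib.P68998g.Pats

/-!
Families of functions `{0, ..., L} → ZMod 2` modulo constants with the properties `Star`, `Pair`
and `StarB` have fewer than `2 ^ (a + 1)` elements, for `a ≤ 6`.
-/

namespace Pool.Agent.Lib.P68998g

open Finset

section

variable {ι : Type*} {F : Finset ι} {v : ι → ℕ → ZMod 2}

/-- the word to the left of the root -/
def lword (v : ι → ℕ → ZMod 2) (i k : ℕ) (x : ι) (j : ℕ) : ZMod 2 := v x (i + k - 1 - j) + v x (i + k)

/-- the word to the right of the root -/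
def rword (v : ι → ℕ → ZMod 2) (i k a : ℕ) (x : ι) (j : ℕ) : ZMod 2 :=
  v x (i + a + 1 + j) + v x (i + k)

lemma exists_reps (F : Finset ι) (v : ι → ℕ → ZMod 2) (S : Finset ℕ) :
    ∃ G ⊆ F, G.card = cnt F v S ∧ ∀ x ∈ G, ∀ y ∈ G, cls v S x = cls v S y → x = y := by
  classical
  obtain ⟨G, hG, hG1, hG2⟩ : ∃ G ⊆ F, Set.InjOn (cls v S) (G : Set ι) ∧
      G.image (cls v S) = F.image (cls v S) := by
    rcases F.eq_empty_or_nonempty with h0 | ⟨x₀, _⟩
    · exact ⟨∅, Finset.empty_subset _, by simp, by rw [h0]⟩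
    have : Nonempty ι := ⟨x₀⟩
    have h1 : ∀ c ∈ F.image (cls v S), ∃ x ∈ F, cls v S x = c := fun c hc =>
      Finset.mem_image.1 hc
    choose! φ hφ1 hφ2 using h1
    refine ⟨(F.image (cls v S)).image φ, ?_, ?_, ?_⟩
    · intro x hx
      obtain ⟨c, hc, rfl⟩ := Finset.mem_image.1 hx
      exact hφ1 c hc
    · intro x hx y hy hxy
      obtain ⟨c, hc, rfl⟩ := Finset.mem_image.1 (Finset.mem_coe.1 hx)
      obtain ⟨c', hc', rfl⟩ := Finset.mem_image.1 (Finset.mem_coe.1 hy)
      rw [hφ2 c hc, hφ2 c' hc'] at hxy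
      rw [hxy]
    · rw [Finset.image_image]
      ext c
      rw [Finset.mem_image]
      constructor
      · rintro ⟨c', hc', rfl⟩
        rw [Function.comp_apply, hφ2 c' hc']
        exact hc'
      · intro hc
        exact ⟨c, hc, hφ2 c hc⟩
  refine ⟨G, hG, ?_, fun x hx y hy h => hG1 hx hy h⟩
  unfold cnt
  rw [← hG2, Finset.card_image_of_injOn hG1]

/-- the members of a class on the middle positions form a rooted family -/
theorem rooted_of {a L k i : ℕ} (hk : k + 1 ≤ a) (hL : i + a + k ≤ L) (h1 : Star a L F v)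
    (h2 : Pair a L F v) (h3 : StarB a L F v) {P : Finset ι} (hP : P ⊆ F)
    (hmid : ∀ x ∈ P, ∀ y ∈ P, ∀ q, i + k ≤ q → q ≤ i + a → v x q + v x (i + k) =
      v y q + v y (i + k))
    (hinj : ∀ x ∈ P, ∀ y ∈ P, cls v (Icc i (i + a + k)) x = cls v (Icc i (i + a + k)) y → x = y) :
    Rooted P (lword v i k) (rword v i k a) k := by
  classical
  -- the first difference
  have first : ∀ (w : ι → ℕ → ZMod 2) (x : ℕ) (e e' : ι), Ag w x e e' → ¬ Ag w k e e' →
      ∃ j, x ≤ j ∧ j < k ∧ Ag w j e e' ∧ w e j ≠ w e' j := by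
    intro w x e e' h4 h5
    have hex : ∃ j, w e j ≠ w e' j ∧ j < k := by
      unfold Ag at h5
      push Not at h5
      obtain ⟨j, hj, hj2⟩ := h5
      exact ⟨j, hj2, hj⟩
    refine ⟨Nat.find hex, ?_, (Nat.find_spec hex).2, ?_, (Nat.find_spec hex).1⟩
    · by_contra hlt
      exact (Nat.find_spec hex).1 (h4 _ (by omega))
    · intro j hj
      by_contra h6
      exact Nat.find_min hex hj ⟨h6, by have := (Nat.find_spec hex).2; omega⟩
  -- agreement on an interval around the root
  have agr : ∀ e ∈ P, ∀ e' ∈ P, ∀ x y, x ≤ k → Ag (lword v i k) x e e' →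
      Ag (rword v i k a) y e e' → ∀ m, i + k - x ≤ m → m ≤ i + a + y →
      v e m + v e (i + k) = v e' m + v e' (i + k) := by
    intro e he e' he' x y hx h4 h5 m m1 m2
    rcases Nat.lt_or_ge m (i + k) with h6 | h6
    · have h7 := h4 (i + k - 1 - m) (by omega)
      unfold lword at h7
      rw [show i + k - 1 - (i + k - 1 - m) = m by omega] at h7
      exact h7
    · rcases Nat.lt_or_ge (i + a) m with h8 | h8
      · have h7 := h5 (m - (i + a + 1)) (by omega)
        unfold rword at h7
        rw [show i + a + 1 + (m - (i + a + 1)) = m by omega] at h7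
        exact h7
      · exact hmid e he e' he' m h6 h8
  have card_mid : ∀ x y, x ≤ k → a - k + 1 + x + y = (Icc (i + k - x) (i + a + y)).card := by
    intro x y hx
    rw [Nat.card_Icc]
    omega
  have hroot : ∀ x y, i + k ∈ Icc (i + k - x) (i + a + y) := by
    intro x y
    rw [Finset.mem_Icc]
    omega
  constructor
  · -- injectivity
    intro e he e' he' h4 h5
    refine hinj e he e' he' ?_
    rw [cls_eq_iff_base (b := i + k) (by rw [Finset.mem_Icc]; omega)]
    intro m hm
    rw [Finset.mem_Icc] at hm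
    exact agr e he e' he' k k le_rfl h4 h5 m (by omega) (by omega)
  · -- pairs
    intro e he e' he' x y h4 h5 h6 h7
    obtain ⟨j, j1, j2, j3, j4⟩ := first _ x e e' h4 h6
    obtain ⟨j', j1', j2', j3', j4'⟩ := first _ y e e' h5 h7
    by_contra hlt
    refine h2 (i + k - 1 - j) (i + a + 1 + j') (Icc (i + k - j) (i + a + j')) (by omega) ?_ ?_
      e (hP he) e' (hP he') (i + k) (hroot _ _) ?_ j4 j4'
    · rw [← card_mid j j' (by omega)]; omega
    · intro m hm
      rw [Finset.mem_Icc] at hm
      omega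
    · intro m hm
      rw [Finset.mem_Icc] at hm
      exact agr e he e' he' j j' (by omega) j3 j3' m hm.1 hm.2
  · -- one
    intro f hf f' hf' z hz x y h4 h5 h6 h7 h8 h9
    obtain ⟨j, j1, j2, j3, j4⟩ := first _ x f z h7 h6
    obtain ⟨j', j1', j2', j3', j4'⟩ := first _ y f f' h8 h5
    by_contra hlt
    have hlf : lword v i k f j = lword v i k f' j := h4 j j2
    have hmm : ∀ m ∈ Icc (i + k - j) (i + a + y), i + k - 1 - j < m ∧ m < i + a + 1 + j' := by
      intro m hm
      rw [Finset.mem_Icc] at hm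
      omega
    have hcard : a ≤ (Icc (i + k - j) (i + a + y)).card := by
      rw [← card_mid j y (by omega)]; omega
    have a1 : ∀ m ∈ Icc (i + k - j) (i + a + y), v f m + v f (i + k) = v z m + v z (i + k) := by
      intro m hm
      rw [Finset.mem_Icc] at hm
      exact agr f hf z hz j y (by omega) j3 h9 m hm.1 hm.2
    have a2 : ∀ m ∈ Icc (i + k - j) (i + a + y), v f m + v f (i + k) = v f' m + v f' (i + k) := by
      intro m hm
      rw [Finset.mem_Icc] at hm
      exact agr f hf f' hf' j y (by omega) (h4.mono (by omega)) (j3'.mono (by omega)) m hm.1 hm.2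
    by_cases hcase : rword v i k a f j' = rword v i k a z j'
    · exact h1 (i + k - 1 - j) (i + a + 1 + j') (Icc (i + k - j) (i + a + y)) (by omega) hcard hmm
        f (hP hf) z (hP hz) f' (hP hf') (i + k) (hroot _ _) a1 a2 j4 hcase hlf j4'
    · have hcase' : rword v i k a f' j' = rword v i k a z j' := by
        have key : ∀ s t u : ZMod 2, s ≠ t → s ≠ u → t = u := by decide
        exact key _ _ _ j4' hcase
      exact h1 (i + k - 1 - j) (i + a + 1 + j') (Icc (i + k - j) (i + a + y)) (by omega) hcard hmm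
        f' (hP hf') z (hP hz) f (hP hf) (i + k) (hroot _ _)
        (fun m hm => (a2 m hm).symm.trans (a1 m hm)) (fun m hm => (a2 m hm).symm)
        (fun h => j4 (hlf.trans h)) hcase' hlf.symm (Ne.symm j4')
  · -- bonus
    intro e he f hf g hg x y q h4 h5 h6 h7 h8 h9 h10 h11 h12
    obtain ⟨j, j1, j2, j3, j4⟩ := first _ x f g h5 h7
    by_contra hlt
    have hx : x ≤ k := by omega
    have hmm : ∀ m ∈ Icc (i + k - x) (i + a + y), i + k - 1 - j < m ∧ m < i + a + 1 + y := by
      intro m hm
      rw [Finset.mem_Icc] at hm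
      omega
    have hcard : a ≤ (Icc (i + k - x) (i + a + y)).card + 1 := by
      rw [← card_mid x y hx]; omega
    -- from the root to the last position
    have conv : ∀ u w : ι, ∀ m, rword v i k a u q = rword v i k a w q →
        (v u m + v u (i + k) = v w m + v w (i + k) ↔
          v u m + v u (i + a + 1 + q) = v w m + v w (i + a + 1 + q)) := by
      intro u w m hq
      unfold rword at hq
      have key : ∀ s t r s' t' r' : ZMod 2, t + r = t' + r' →
          (s + r = s' + r' ↔ s + t = s' + t') := by decide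
      exact key _ _ _ _ _ _ hq
    have hfg : rword v i k a f q = rword v i k a g q := h6 q h11
    have heg : rword v i k a e q = rword v i k a g q := h12.trans hfg
    have a1 : ∀ m ∈ Icc (i + k - x) (i + a + y), v f m + v f (i + k) = v e m + v e (i + k) := by
      intro m hm
      rw [Finset.mem_Icc] at hm
      exact agr f hf e he x y hx h4.symm h8.symm m hm.1 hm.2
    have a2 : ∀ m ∈ Icc (i + k - x) (i + a + y), v f m + v f (i + k) = v g m + v g (i + k) := by
      intro m hm
      rw [Finset.mem_Icc] at hm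
      exact agr f hf g hg x y hx h5 (h6.mono (by omega)) m hm.1 hm.2
    have hfy : rword v i k a f y = rword v i k a g y := h6 y (by omega)
    by_cases hcase : lword v i k f j = lword v i k e j
    · refine h3 (i + k - 1 - j) (i + a + 1 + y) (i + a + 1 + q) (Icc (i + k - x) (i + a + y))
        (by omega) (by omega) (by omega) hcard hmm f (hP hf) g (hP hg) e (hP he)
        (fun m hm => (conv f g m hfg).1 (a2 m hm)) (fun m hm => (conv f e m h12.symm).1 (a1 m hm))
        (fun h => j4 ((conv f g _ hfg).2 h)) ((conv f g _ hfg).1 hfy)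
        ((conv f e _ h12.symm).1 hcase) (fun h => h9 ((conv f e _ h12.symm).2 h).symm)
    · have hcase' : lword v i k g j = lword v i k e j := by
        have key : ∀ s t u : ZMod 2, s ≠ t → s ≠ u → t = u := by decide
        exact key _ _ _ j4 hcase
      refine h3 (i + k - 1 - j) (i + a + 1 + y) (i + a + 1 + q) (Icc (i + k - x) (i + a + y))
        (by omega) (by omega) (by omega) hcard hmm g (hP hg) f (hP hf) e (hP he)
        (fun m hm => (conv g f m hfg.symm).1 (a2 m hm).symm)
        (fun m hm => (conv g e m heg.symm).1 ((a2 m hm).symm.trans (a1 m hm)))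
        (fun h => j4 ((conv g f _ hfg.symm).2 h).symm) ((conv g f _ hfg.symm).1 hfy.symm)
        ((conv g e _ heg.symm).1 hcase')
        (fun h => h9 (((conv g e _ heg.symm).2 h).symm.trans hfy.symm))

/-- intervals with `a + 1 + k` positions -/
theorem chain_window {a L k i : ℕ} (hk : k + 1 ≤ a) (hk5 : k ≤ 5) (hL : i + a + k ≤ L)
    (h1 : Star a L F v) (h2 : Pair a L F v) (h3 : StarB a L F v) :
    cnt F v (Icc i (i + a + k)) < 2 ^ (a + 1) := by
  classical
  obtain ⟨G, hGF, hGc, hGi⟩ := exists_reps F v (Icc i (i + a + k))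
  rw [← hGc]
  have hb : i + k ∈ Icc (i + k) (i + k + (a - k)) := by rw [Finset.mem_Icc]; omega
  have hfib : ∀ c ∈ G.image (cls v (Icc (i + k) (i + k + (a - k)))),
      (G.filter fun x => cls v (Icc (i + k) (i + k + (a - k))) x = c).card ≤
        2 ^ (k + 1) - 1 := by
    intro c _
    have hR := rooted_of (P := G.filter fun x => cls v (Icc (i + k) (i + k + (a - k))) x = c)
      hk hL h1 h2 h3 ((Finset.filter_subset _ _).trans hGF) (by
        intro x hx y hy q q1 q2
        have h4 := (Finset.mem_filter.1 hx).2.trans (Finset.mem_filter.1 hy).2.symm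
        exact (cls_eq_iff_base hb).1 h4 q (by rw [Finset.mem_Icc]; omega))
      (fun x hx y hy => hGi x (Finset.mem_filter.1 hx).1 y (Finset.mem_filter.1 hy).1)
    have := rooted_card hR hk5
    omega
  have h4 := Finset.card_le_mul_card_image G (2 ^ (k + 1) - 1) hfib
  have h5 : (G.image (cls v (Icc (i + k) (i + k + (a - k))))).card ≤ 2 ^ (a - k) :=
    cnt_Icc_le (F := G) (v := v) (i + k) (a - k)
  have h6 : 2 ^ (k + 1) * 2 ^ (a - k) = 2 ^ (a + 1) := by
    rw [← pow_add]
    congr 1
    omega
  have h7 := Nat.one_le_two_pow (n := k + 1)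
  have h8 := Nat.one_le_two_pow (n := a - k)
  calc G.card ≤ (2 ^ (k + 1) - 1) * (G.image (cls v (Icc (i + k) (i + k + (a - k))))).card := h4
    _ ≤ (2 ^ (k + 1) - 1) * 2 ^ (a - k) := Nat.mul_le_mul_left _ h5
    _ < 2 ^ (k + 1) * 2 ^ (a - k) := Nat.mul_lt_mul_of_pos_right (by omega) (by omega)
    _ = 2 ^ (a + 1) := h6

/-- **The counting theorem for `a ≤ 6`.** -/
theorem chain_bound {a L : ℕ} (ha : 1 ≤ a) (ha6 : a ≤ 6) (h1 : Star a L F v) (h2 : Pair a L F v)
    (h3 : StarB a L F v) : ∀ d i : ℕ, i + d ≤ L → cnt F v (Icc i (i + d)) < 2 ^ (a + 1) := by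
  intro d
  induction d with
  | zero =>
    intro i _
    have h4 := cnt_Icc_le (F := F) (v := v) i 0
    have h5 : 2 ^ 0 < 2 ^ (a + 1) := Nat.pow_lt_pow_right (by norm_num) (by omega)
    omega
  | succ d ih =>
    intro i hi
    by_cases hda : d + 1 ≤ a
    · have h4 := cnt_Icc_le (F := F) (v := v) i (d + 1)
      have h5 : 2 ^ (d + 1) < 2 ^ (a + 1) := Nat.pow_lt_pow_right (by norm_num) (by omega)
      omega
    by_cases h4 : cnt F v (Icc (i + 1) (i + (d + 1))) < cnt F v (Icc i (i + (d + 1)))
    · by_cases h5 : cnt F v (Icc i (i + d)) < cnt F v (Icc i (i + (d + 1)))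
      · have h6 := short ha h1 hi h4 h5
        obtain ⟨k, hk⟩ : ∃ k, d + 1 = a + k := ⟨d + 1 - a, by omega⟩
        have h7 := chain_window (F := F) (v := v) (a := a) (L := L) (k := k) (i := i) (by omega)
          (by omega) (by omega) h1 h2 h3
        rw [show i + (d + 1) = i + a + k by omega]
        exact h7
      · have h6 := ih i (by omega)
        omega
    · have h6 := ih (i + 1) (by omega)
      rw [show i + 1 + d = i + (d + 1) by omega] at h6
      omega

end

end Pool.Agent.Lib.P68998g
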