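import Pool.Agent.Lib.P68998g.PairWheel
import Pool.Agent.Lib.P68998g.Chain

/-!
The count of the elements outside a fan path which spans a hyperplane, `a ≤ 6`.
-/

namespace Pool.Agent.Lib.P68998g

open Submodule Finset Pool.Agent.Lib.P68998c Pool.Agent.Lib.P68998f

universe u

section

variable {V : Type u} [AddCommGroup V] [Module (ZMod 2) V]

theorem star_holds {a : ℕ} {E : Finset V} (hW : ¬ HasWheel (a + 1) (E : Set V)) {k : ℕ}
    {y : ℕ → V} (hy : FanPath (E : Set V) y k) (C : Finset V) (hC : C ⊆ E)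
    (hCy : ∀ x ∈ C, x ∉ span (ZMod 2) (Set.range fun i : Fin (k + 1) => y i))
    (hCC : ∀ x ∈ C, ∀ x' ∈ C, x + x' ∈ span (ZMod 2) (Set.range fun i : Fin (k + 1) => y i))
    {Φ : V →ₗ[ZMod 2] (ℕ → ZMod 2)}
    (hΦy : ∀ p ≤ k, Φ (y p) = fun q => if q ≤ p then 1 else 0) :
    Star a (k + 1) C (fun x : V => Φ x) := by
  classical
  intro p p' M hp' hM hMp x hx g hg h hh m₀ hm₀ hxg hxh h1 h2 h3 h4
  obtain ⟨M', hM'M, hM'⟩ := Finset.exists_subset_card_eq hM
  have hpp : p < p' := (hMp m₀ hm₀).1.trans (hMp m₀ hm₀).2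
  have hM'p : ∀ m ∈ M', p < m ∧ m < p' := fun m hm => hMp m (hM'M hm)
  have key : ∀ (w : V) (r s : ℕ), w ∈ C → r ≤ k + 1 → r ∈ insert p (insert p' M') →
      (∀ m ∈ M, Φ x m + Φ x m₀ = Φ w m + Φ w m₀) →
      (∀ q ∈ ({p, p'} : Finset ℕ), q ≠ r → Φ x q + Φ x m₀ = Φ w q + Φ w m₀) →
      Φ x r + Φ x m₀ ≠ Φ w r + Φ w m₀ → r ∉ M' →
      x + w + rim y k r ∈ span (ZMod 2) (Cset y k (insert p (insert p' M'))) := by
    intro w r _ hw hr hrY hwM hwq hwr hrM
    have e1 := rim_coordinates hΦy (hCC x hx w hw)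
    have e2 : x + w = ∑ q ∈ range (k + 2), (Φ (x + w) q + Φ (x + w) m₀) • rim y k q := by
      have e3 : ∑ q ∈ range (k + 2), (Φ (x + w) q + Φ (x + w) m₀) • rim y k q =
          ∑ q ∈ range (k + 2), Φ (x + w) q • rim y k q +
          Φ (x + w) m₀ • ∑ q ∈ range (k + 2), rim y k q := by
        rw [Finset.smul_sum, ← Finset.sum_add_distrib]
        exact Finset.sum_congr rfl fun q _ => add_smul _ _ _
      rw [e3, sum_rim, smul_zero, add_zero, Finset.sum_range_succ,
        last_coordinate hΦy _ (hCC x hx w hw), zero_smul, add_zero]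
      exact e1
    have e4 : Φ (x + w) r + Φ (x + w) m₀ = 1 := by
      rw [map_add, Pi.add_apply, Pi.add_apply]
      have e5 : Φ x r + Φ w r + (Φ x m₀ + Φ w m₀) = (Φ x r + Φ x m₀) + (Φ w r + Φ w m₀) := by
        abel
      rw [e5]
      exact Z_ne hwr
    have e6 : x + w + rim y k r =
        ∑ q ∈ (range (k + 2)).erase r, (Φ (x + w) q + Φ (x + w) m₀) • rim y k q := by
      have hrr : r ∈ range (k + 2) := Finset.mem_range.2 (by omega)
      conv_lhs => rw [e2]
      rw [← Finset.add_sum_erase _ _ hrr, e4, one_smul]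
      rw [add_comm (rim y k r), add_assoc, ZModModule.add_self, add_zero]
    rw [e6]
    refine sum_mem fun q hq => ?_
    rw [Finset.mem_erase, Finset.mem_range] at hq
    by_cases hqY : q ∈ insert p (insert p' M')
    · have e7 : Φ x q + Φ x m₀ = Φ w q + Φ w m₀ := by
        rw [Finset.mem_insert, Finset.mem_insert] at hqY
        rcases hqY with h | h | h
        · exact hwq q (by simp [h]) hq.1
        · exact hwq q (by simp [h]) hq.1
        · exact hwM q (hM'M h)
      have e8 : Φ (x + w) q + Φ (x + w) m₀ = 0 := by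
        rw [map_add, Pi.add_apply, Pi.add_apply]
        have e5 : Φ x q + Φ w q + (Φ x m₀ + Φ w m₀) =
            (Φ x q + Φ x m₀) + (Φ w q + Φ w m₀) := by abel
        rw [e5, e7, ZModModule.add_self]
      rw [e8, zero_smul]
      exact zero_mem _
    · exact smul_mem _ _ (subset_span ⟨q, by omega, hqY, rfl⟩)
  have hpM' : p ∉ M' := fun h => by have := hM'p p h; omega
  have hp'M' : p' ∉ M' := fun h => by have := hM'p p' h; omega
  refine hW (wheel_of_three hy hpp hp' hM' hM'p (hC hx) (hC hg) (hC hh) (hCy x hx) ?_ ?_)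
  · refine key g p 0 hg (by omega) (by simp) hxg ?_ h1 hpM'
    intro q hq hqp
    rw [Finset.mem_insert, Finset.mem_singleton] at hq
    rcases hq with rfl | rfl
    · exact absurd rfl hqp
    · exact h2
  · refine key h p' 0 hh hp' (by simp) hxh ?_ h4 hp'M'
    intro q hq hqp
    rw [Finset.mem_insert, Finset.mem_singleton] at hq
    rcases hq with rfl | rfl
    · exact h3
    · exact absurd rfl hqp

/-- the family of coordinate functions has as many classes as elements -/
theorem cnt_eq_card {k : ℕ} {y : ℕ → V} (C : Finset V)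
    (hCC : ∀ x ∈ C, ∀ x' ∈ C, x + x' ∈ span (ZMod 2) (Set.range fun i : Fin (k + 1) => y i))
    {Φ : V →ₗ[ZMod 2] (ℕ → ZMod 2)}
    (hΦy : ∀ p ≤ k, Φ (y p) = fun q => if q ≤ p then 1 else 0) :
    cnt C (fun x : V => Φ x) (Icc 0 (k + 1)) = C.card := by
  classical
  have hinj : ∀ x ∈ C, ∀ x' ∈ C, cls (fun x : V => Φ x) (Icc 0 (k + 1)) x =
      cls (fun x : V => Φ x) (Icc 0 (k + 1)) x' → x = x' := by
    intro x hx x' hx' h
    rw [cls_eq_iff_base (b := k + 1) (by simp)] at h
    have h1 := rim_coordinates_const hΦy (hCC x hx x' hx') (Φ (x + x') (k + 1))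
    have h2 : x + x' = 0 := by
      rw [h1]
      refine Finset.sum_eq_zero fun q hq => ?_
      rw [Finset.mem_range] at hq
      have h3 := h q (by rw [Finset.mem_Icc]; omega)
      have h4 : Φ (x + x') q + Φ (x + x') (k + 1) = 0 := by
        rw [map_add, Pi.add_apply, Pi.add_apply]
        have e5 : Φ x q + Φ x' q + (Φ x (k + 1) + Φ x' (k + 1)) =
            (Φ x q + Φ x (k + 1)) + (Φ x' q + Φ x' (k + 1)) := by abel
        rw [e5, h3, ZModModule.add_self]
      rw [h4, zero_smul]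
    calc x = x + (x' + x') := by rw [ZModModule.add_self, add_zero]
      _ = (x + x') + x' := by rw [add_assoc]
      _ = x' := by rw [h2, zero_add]
  unfold cnt
  rw [Finset.card_image_of_injOn]
  intro x hx x' hx' h
  exact hinj x hx x' hx' h

/-- **The count**, from the predicate `StarB`. -/
theorem count_lt_of_starB {a : ℕ} (ha : 1 ≤ a) (ha6 : a ≤ 6) {E : Finset V}
    (hW : ¬ HasWheel (a + 1) (E : Set V)) {k : ℕ} {y : ℕ → V}
    (hy : FanPath (E : Set V) y k) (C : Finset V) (hC : C ⊆ E)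
    (hCy : ∀ x ∈ C, x ∉ span (ZMod 2) (Set.range fun i : Fin (k + 1) => y i))
    (hCC : ∀ x ∈ C, ∀ x' ∈ C, x + x' ∈ span (ZMod 2) (Set.range fun i : Fin (k + 1) => y i))
    (hB : ∀ Φ : V →ₗ[ZMod 2] (ℕ → ZMod 2),
      (∀ p ≤ k, Φ (y p) = fun q => if q ≤ p then 1 else 0) →
      StarB a (k + 1) C (fun x : V => Φ x)) :
    C.card < 2 ^ (a + 1) := by
  classical
  rcases C.eq_empty_or_nonempty with rfl | ⟨x₁, hx₁⟩
  · simp
  obtain ⟨Φ, -, hΦy⟩ := exists_map' hy.2.2 (hCy x₁ hx₁) (0 : ℕ → ZMod 2)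
    (fun p q => if q ≤ p then 1 else 0)
  have h := chain_bound ha ha6 (star_holds hW hy C hC hCy hCC hΦy)
    (pair_holds hW hy C hC hCy hCC hΦy) (hB Φ hΦy) (k + 1) 0 (by omega)
  rw [zero_add, cnt_eq_card C hCC hΦy] at h
  exact h

end

end Pool.Agent.Lib.P68998g
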