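import Pool.Agent.Lib.P68998g.Glue
import Pool.Agent.Lib.P68998g.Pats

/-!
A second wheel from three elements outside a fan path: the last two positions are exchanged.
-/

namespace Pool.Agent.Lib.P68998g

open Submodule Finset Pool.Agent.Lib.P68998c Pool.Agent.Lib.P68998f

universe u

section

variable {V : Type u} [AddCommGroup V] [Module (ZMod 2) V]

theorem wheel_swap {E : Set V} {y : ℕ → V} {k a : ℕ} (hy : FanPath E y k) {p p' s : ℕ}
    {M : Finset ℕ} (hpp : p < p') (hps : p' < s) (hs : s ≤ k + 1) (hM : M.card + 1 = a)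
    (hMp : ∀ m ∈ M, p < m ∧ m < p') {x g h : V} (hx : x ∈ E) (hg : g ∈ E) (hh : h ∈ E)
    (hxy : x ∉ span (ZMod 2) (Set.range fun i : Fin (k + 1) => y i))
    (h1 : x + g + rim y k p ∈ span (ZMod 2) (Cset y k (insert p (insert p' (insert s M)))))
    (h2 : x + h + rim y k p' ∈ span (ZMod 2) (Cset y k (insert p (insert p' (insert s M))))) :
    HasWheel (a + 1) E := by
  classical
  set Y : Finset ℕ := insert p (insert p' (insert s M)) with hY
  set C := Cset y k Y with hC
  have hsM : s ∉ M := fun h => by have := hMp s h; omega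
  have hp'M : p' ∉ insert s M := by
    rw [Finset.mem_insert]
    rintro (h | h)
    · omega
    · have := hMp p' h; omega
  have hpM : p ∉ insert p' (insert s M) := by
    rw [Finset.mem_insert, Finset.mem_insert]
    rintro (h | h | h)
    · omega
    · omega
    · have := hMp p h; omega
  have hYcard : Y.card = a + 2 := by
    rw [hY, Finset.card_insert_of_notMem hpM, Finset.card_insert_of_notMem hp'M,
      Finset.card_insert_of_notMem hsM]
    omega
  have hYb : ∀ q ∈ Y, p ≤ q ∧ q ≤ s := by
    intro q hq
    rw [hY, Finset.mem_insert, Finset.mem_insert, Finset.mem_insert] at hq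
    rcases hq with rfl | rfl | rfl | hq
    · omega
    · omega
    · omega
    · have := hMp q hq; omega
  have hYb' : ∀ q ∈ Y, p' < q → q = s := by
    intro q hq hlt
    rw [hY, Finset.mem_insert, Finset.mem_insert, Finset.mem_insert] at hq
    rcases hq with rfl | rfl | rfl | hq
    · omega
    · omega
    · rfl
    · have := hMp q hq; omega
  have hpY : p ∈ Y := by rw [hY]; simp
  have hp'Y : p' ∈ Y := by rw [hY]; simp
  have hsY : s ∈ Y := by rw [hY]; simp
  set c : ℕ → ℕ := fun j => (Y.filter (· ≤ j)).card with hc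
  have hcle : ∀ j, c j ≤ a + 2 := fun j => hYcard ▸ Finset.card_filter_le _ _
  have hc_out : ∀ j, j + 1 ∉ Y → c (j + 1) = c j := by
    intro j hj
    simp only [hc]
    congr 1
    ext q
    simp only [Finset.mem_filter]
    constructor
    · rintro ⟨k1, k2⟩
      refine ⟨k1, ?_⟩
      have : q ≠ j + 1 := fun h => hj (h ▸ k1)
      omega
    · rintro ⟨k1, k2⟩
      exact ⟨k1, by omega⟩
  have hc_in : ∀ j, j + 1 ∈ Y → c (j + 1) = c j + 1 := by
    intro j hj
    have : Y.filter (· ≤ j + 1) = insert (j + 1) (Y.filter (· ≤ j)) := by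
      ext q
      simp only [Finset.mem_filter, Finset.mem_insert]
      constructor
      · rintro ⟨k1, k2⟩
        by_cases h : q = j + 1
        · exact Or.inl h
        · exact Or.inr ⟨k1, by omega⟩
      · rintro (rfl | ⟨k1, k2⟩)
        · exact ⟨hj, le_rfl⟩
        · exact ⟨k1, by omega⟩
    simp only [hc]
    rw [this, Finset.card_insert_of_notMem (by simp)]
  have hc_mono : ∀ i j, i ≤ j → c i ≤ c j := by
    intro i j hij
    apply Finset.card_le_card
    intro q hq
    rw [Finset.mem_filter] at hq ⊢
    exact ⟨hq.1, by omega⟩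
  have hc_p : c p = 1 := by
    have : Y.filter (· ≤ p) = {p} := by
      ext q
      simp only [Finset.mem_filter, Finset.mem_singleton]
      constructor
      · rintro ⟨k1, k2⟩
        have := hYb q k1
        omega
      · rintro rfl
        exact ⟨hpY, le_rfl⟩
    simp only [hc]
    rw [this, Finset.card_singleton]
  have hc_lt : ∀ j, j < p → c j = 0 := by
    intro j hj
    simp only [hc]
    rw [Finset.card_eq_zero, Finset.filter_eq_empty_iff]
    intro q hq
    have := hYb q hq
    omega
  have hc_ge : ∀ j, s ≤ j → c j = a + 2 := by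
    intro j hj
    simp only [hc]
    rw [← hYcard, Finset.filter_true_of_mem]
    intro q hq
    have := hYb q hq
    omega
  have hc_s : c (s - 1) = a + 1 := by
    have k1 := hc_in (s - 1) (by rw [Nat.sub_add_cancel (by omega)]; exact hsY)
    rw [Nat.sub_add_cancel (by omega), hc_ge s le_rfl] at k1
    omega
  have hc_p's : c p' = a + 1 := by
    rw [← hc_s]
    simp only [hc]
    congr 1
    ext q
    simp only [Finset.mem_filter]
    constructor
    · rintro ⟨k1, k2⟩
      exact ⟨k1, by omega⟩
    · rintro ⟨k1, k2⟩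
      refine ⟨k1, ?_⟩
      by_contra h
      have := hYb' q k1 (by omega)
      omega
  have hc_p' : c (p' - 1) = a := by
    have k1 := hc_in (p' - 1) (by rw [Nat.sub_add_cancel (by omega)]; exact hp'Y)
    rw [Nat.sub_add_cancel (by omega), hc_p's] at k1
    omega
  -- classes
  have hstep : ∀ j, j + 1 ≤ k → c (j + 1) = c j → y j + y (j + 1) ∈ span (ZMod 2) C := by
    intro j hj hcj
    refine subset_span ⟨j + 1, by omega, ?_, rim_mid y hj⟩
    intro h
    have := hc_in j h
    omega
  have hclass : ∀ i j, i ≤ j → j ≤ k → c i = c j → y i + y j ∈ span (ZMod 2) C := by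
    intro i j hij
    induction j, hij using Nat.le_induction with
    | base => intro _ _; rw [ZModModule.add_self]; exact zero_mem _
    | succ j hij ih =>
      intro hj hcj
      have k1 := hc_mono i j hij
      have k2 := hc_mono j (j + 1) (by omega)
      have k3 := ih (by omega) (by omega)
      have k4 := hstep j hj (by omega)
      have := add_mem k3 k4
      rwa [← add_add_cancel_mid] at this
  have hclass' : ∀ i j, i ≤ k → j ≤ k → c i = c j → y i + y j ∈ span (ZMod 2) C := by
    intro i j hi hj hcij
    rcases le_total i j with h | h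
    · exact hclass i j h hj hcij
    · rw [add_comm]; exact hclass j i h hi hcij.symm
  have hzero : ∀ j, j ≤ k → c j = 0 → y j ∈ span (ZMod 2) C := by
    intro j hj hcj
    have k0 : c 0 = 0 := Nat.le_zero.1 (hcj ▸ hc_mono 0 j (Nat.zero_le _))
    have k1 : y 0 ∈ span (ZMod 2) C := by
      refine subset_span ⟨0, by omega, ?_, rim_zero y k⟩
      intro h
      have k2 : 0 ∈ Y.filter (· ≤ 0) := Finset.mem_filter.2 ⟨h, le_rfl⟩
      have k3 : 0 < c 0 := Finset.card_pos.2 ⟨0, k2⟩
      omega
    have k4 := hclass' 0 j (by omega) hj (by omega)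
    have := add_mem k1 k4
    rwa [← add_assoc, ZModModule.add_self, zero_add] at this
  have htop : ∀ j, j ≤ k → c j = a + 2 → y j ∈ span (ZMod 2) C := by
    intro j hj hcj
    have k0 : c k = a + 2 := le_antisymm (hcle k) (hcj ▸ hc_mono j k hj)
    have k1 : y k ∈ span (ZMod 2) C := by
      refine subset_span ⟨k + 1, by omega, ?_, rim_last y k⟩
      intro h
      have := hc_in k h
      have := hcle (k + 1)
      omega
    have k4 := hclass' j k hj le_rfl (by omega)
    have := add_mem k4 k1
    rwa [add_assoc, ZModModule.add_self, add_zero] at this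
  -- representatives of the classes `1, ..., a`
  have hrep : ∀ i, 1 ≤ i → i ≤ a → ∃ j, j ≤ k ∧ c j = i := by
    intro i hi1 hi2
    have hex : ∃ j, i ≤ c j := ⟨p' - 1, by omega⟩
    have k1 := Nat.find_spec hex
    have k2 : Nat.find hex ≤ p' - 1 := Nat.find_min' hex (by omega)
    refine ⟨Nat.find hex, by omega, le_antisymm ?_ k1⟩
    rcases Nat.eq_zero_or_pos (Nat.find hex) with h | h
    · rw [h]
      rcases Nat.eq_zero_or_pos p with hp0 | hp0
      · have := hc_p
        rw [hp0] at this
        omega
      · have := hc_lt 0 hp0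
        omega
    · have k3 := Nat.find_min hex (m := Nat.find hex - 1) (by omega)
      obtain ⟨j, hj⟩ : ∃ j, Nat.find hex = j + 1 := ⟨Nat.find hex - 1, by omega⟩
      rw [hj] at k3 ⊢
      rw [Nat.add_sub_cancel] at k3
      by_cases hjY : j + 1 ∈ Y
      · have := hc_in j hjY; omega
      · have := hc_out j hjY; omega
  have hrim : ∀ i, 1 ≤ i → i + 1 ≤ a → ∃ q, q + 1 ≤ k ∧ c q = i ∧ c (q + 1) = i + 1 := by
    intro i hi1 hi2
    have hex : ∃ j, i + 1 ≤ c j := ⟨p' - 1, by omega⟩
    have k1 := Nat.find_spec hex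
    have k2 : Nat.find hex ≤ p' - 1 := Nat.find_min' hex (by omega)
    have k4 : 0 < Nat.find hex := by
      rcases Nat.eq_zero_or_pos (Nat.find hex) with h | h
      · exfalso
        rw [h] at k1
        have := hc_mono 0 p (Nat.zero_le _)
        omega
      · exact h
    have k3 := Nat.find_min hex (m := Nat.find hex - 1) (by omega)
    obtain ⟨j, hj⟩ : ∃ j, Nat.find hex = j + 1 := ⟨Nat.find hex - 1, by omega⟩
    rw [hj] at k3 k1 k2
    rw [Nat.add_sub_cancel] at k3
    refine ⟨j, by omega, ?_, ?_⟩
    · by_cases hjY : j + 1 ∈ Y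
      · have := hc_in j hjY; omega
      · have := hc_out j hjY; omega
    · by_cases hjY : j + 1 ∈ Y
      · have := hc_in j hjY; omega
      · have := hc_out j hjY; omega
  choose! P hPk hPc using hrep
  choose! R hRk hRc hRc' using hrim
  obtain ⟨φ, hφx, hφy⟩ := exists_map' hy.2.2 hxy (Pi.single (0 : Fin (a + 1 + 1)) (1 : ZMod 2))
    (fun j => (fun t : Fin (a + 1 + 1) =>
      if (c j = t ∧ (t : ℕ) ≠ 0) ∨ (c j = a + 1 ∧ (t : ℕ) = a) then (1 : ZMod 2) else 0))
  have hφC : ∀ v ∈ C, φ v = 0 := by
    rintro v ⟨q, hq, hqY, rfl⟩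
    rcases Nat.eq_zero_or_pos q with rfl | h
    · rw [rim_zero, hφy 0 (by omega)]
      have : c 0 = 0 := by
        simp only [hc]
        rw [Finset.card_eq_zero, Finset.filter_eq_empty_iff]
        intro q hq hq0
        have : q = 0 := by omega
        exact hqY (this ▸ hq)
      funext t
      rw [if_neg]
      · rfl
      · rintro (⟨h1, h2⟩ | ⟨h1, h2⟩) <;> omega
    · rcases Nat.lt_or_ge k q with h1 | h1
      · have : q = k + 1 := by omega
        subst this
        rw [rim_last, hφy k le_rfl]
        have k1 : c k = a + 2 := by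
          rw [← hc_out k hqY]
          exact hc_ge _ hs
        funext t
        have := t.2
        rw [if_neg]
        · rfl
        · rintro (⟨h1, h2⟩ | ⟨h1, h2⟩) <;> omega
      · obtain ⟨q, rfl⟩ : ∃ q', q = q' + 1 := ⟨q - 1, by omega⟩
        rw [rim_mid y h1, map_add, hφy q (by omega), hφy (q + 1) h1, hc_out q hqY]
        exact ZModModule.add_self _
  have hp'k : p' - 1 + 1 ≤ k := by omega
  have hrimp' : rim y k p' = y (p' - 1) + y p' := by
    have := rim_mid y hp'k
    rwa [Nat.sub_add_cancel (by omega)] at this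
  have hrim_s : rim y k s ∈ E := rim_mem hy hs
  refine ⟨C, fun i => if (i : ℕ) = 0 then x else if (i : ℕ) = a + 1 then rim y k p' else y (P i),
    fun i => if (i : ℕ) = 0 then g else if (i : ℕ) = a + 1 then h else
      if (i : ℕ) = a then rim y k s else rim y k (R i + 1),
    ?_, ?_, ?_, ⟨φ, hφC, ?_⟩, ?_⟩
  · rintro v ⟨q, hq, -, rfl⟩
    exact rim_mem hy hq
  · intro i
    by_cases hi : (i : ℕ) = 0
    · simp only [hi, if_true]; exact hx
    · by_cases hi2 : (i : ℕ) = a + 1
      · show (if (i : ℕ) = 0 then x else if (i : ℕ) = a + 1 then rim y k p' else y (P i)) ∈ E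
        rw [if_neg hi, if_pos hi2]
        exact rim_mem hy (by omega)
      · simp only [hi, hi2, if_false]
        exact hy.1 _ (hPk i (by omega) (by have := i.2; omega))
  · intro i
    by_cases hi : (i : ℕ) = 0
    · simp only [hi, if_true]; exact hg
    · by_cases hi2 : (i : ℕ) = a + 1
      · show (if (i : ℕ) = 0 then g else if (i : ℕ) = a + 1 then h else
          if (i : ℕ) = a then rim y k s else rim y k (R i + 1)) ∈ E
        rw [if_neg hi, if_pos hi2]; exact hh
      · by_cases hi3 : (i : ℕ) = a
        · show (if (i : ℕ) = 0 then g else if (i : ℕ) = a + 1 then h else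
            if (i : ℕ) = a then rim y k s else rim y k (R i + 1)) ∈ E
          rw [if_neg hi, if_neg hi2, if_pos hi3]; exact hrim_s
        · simp only [hi, hi2, hi3, if_false]
          have := hRk i (by omega) (by have := i.2; omega)
          exact rim_mem hy (by omega)
  · intro i
    by_cases hi : (i : ℕ) = 0
    · have : i = 0 := Fin.ext hi
      subst this
      simp only [Fin.val_zero, if_true]
      exact hφx
    · by_cases hi2 : (i : ℕ) = a + 1
      · show φ (if (i : ℕ) = 0 then x else if (i : ℕ) = a + 1 then rim y k p' else y (P i)) = _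
        rw [if_neg hi, if_pos hi2, hrimp', map_add, hφy _ (by omega), hφy _ (by omega), hc_p',
          hc_p's]
        funext t
        rw [Pi.add_apply]
        by_cases hit : i = t
        · subst hit
          rw [if_neg, if_pos, Pi.single_eq_same, zero_add]
          · exact Or.inl ⟨hi2.symm, hi⟩
          · rintro (⟨h1, h2⟩ | ⟨h1, h2⟩) <;> omega
        · have hit' : (t : ℕ) ≠ a + 1 := fun h => hit (Fin.ext (by omega))
          rw [Pi.single_eq_of_ne (Ne.symm hit)]
          by_cases hta : (t : ℕ) = a
          · rw [if_pos (Or.inl ⟨hta.symm, by omega⟩), if_pos (Or.inr ⟨rfl, hta⟩)]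
            decide
          · rw [if_neg, if_neg, add_zero]
            · rintro (⟨h1, h2⟩ | ⟨h1, h2⟩) <;> omega
            · rintro (⟨h1, h2⟩ | ⟨h1, h2⟩) <;> omega
      · have hilt := i.2
        simp only [hi, hi2, if_false]
        rw [hφy _ (hPk i (by omega) (by omega)), hPc i (by omega) (by omega)]
        funext t
        by_cases hit : i = t
        · subst hit
          rw [if_pos (Or.inl ⟨rfl, hi⟩), Pi.single_eq_same]
        · rw [if_neg, Pi.single_eq_of_ne (Ne.symm hit)]
          rintro (⟨k1, -⟩ | ⟨k1, -⟩)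
          · exact hit (Fin.ext k1)
          · omega
  · intro i
    have hilt := i.2
    by_cases hi : (i : ℕ) = 0
    · have : i = 0 := Fin.ext hi
      subst this
      have e1 : ((0 + 1 : Fin (a + 1 + 1)) : ℕ) = 1 := by simp
      simp only [Fin.val_zero, if_true, e1]
      rw [if_neg one_ne_zero, if_neg (by omega)]
      -- `g + x + y (P 1)`
      have k1 : y (P 1) + y p ∈ span (ZMod 2) C :=
        hclass' _ _ (hPk 1 le_rfl (by omega)) (by omega) (by rw [hPc 1 le_rfl (by omega), hc_p])
      have k2 : y p + rim y k p ∈ span (ZMod 2) C := by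
        rcases Nat.eq_zero_or_pos p with hp0 | hp0
        · rw [hp0, rim_zero, ZModModule.add_self]; exact zero_mem _
        · obtain ⟨s, hs⟩ : ∃ s, p = s + 1 := ⟨p - 1, by omega⟩
          rw [hs, rim_mid y (by omega)]
          have k3 := hzero s (by omega) (hc_lt s (by omega))
          have k4 : y (s + 1) + (y s + y (s + 1)) = y s + (y (s + 1) + y (s + 1)) := by abel
          rw [k4, ZModModule.add_self, add_zero]
          exact k3
      have k5 := add_mem (add_mem k1 k2) h1
      have k6 : y (P 1) + y p + (y p + rim y k p) + (x + g + rim y k p) =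
          g + x + y (P 1) + ((y p + y p) + (rim y k p + rim y k p)) := by abel
      rw [k6, ZModModule.add_self, ZModModule.add_self, add_zero, add_zero] at k5
      exact k5
    · by_cases hi2 : (i : ℕ) = a + 1
      · have e1 : i + 1 = 0 := by
          have : i = Fin.last (a + 1) := Fin.ext hi2
          rw [this]; simp
        simp only [e1, Fin.val_zero, if_true, hi2]
        rw [if_neg (by omega), if_neg (by omega)]
        -- `h + rim p' + x`
        have k6 : x + h + rim y k p' = h + rim y k p' + x := by abel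
        rw [← k6]
        exact h2
      · have e1 : ((i + 1 : Fin (a + 1 + 1)) : ℕ) = i + 1 := by
          apply Fin.val_add_one_of_lt
          rw [Fin.lt_def, Fin.val_last]
          omega
        by_cases hi3 : (i : ℕ) = a
        · simp only [e1, hi3, if_true]
          rw [if_neg (by omega), if_neg (by omega), if_neg (by omega),
            if_neg (by omega), if_neg (by omega)]
          -- `rim s + y (P a) + rim p'`
          have k1 : y (P a) + y (p' - 1) ∈ span (ZMod 2) C :=
            hclass' _ _ (hPk a (by omega) le_rfl) (by omega)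
              (by rw [hPc a (by omega) le_rfl, hc_p'])
          have k2 : y p' + rim y k s ∈ span (ZMod 2) C := by
            obtain ⟨r, hr⟩ : ∃ r, s = r + 1 := ⟨s - 1, by omega⟩
            have hcr : c r = a + 1 := by rw [← hc_s, hr, Nat.add_sub_cancel]
            rcases Nat.lt_or_ge r k with hrk | hrk
            · have k3 := hclass' p' r (by omega) (by omega) (by rw [hc_p's, hcr])
              have k4 := htop (r + 1) (by omega) (hc_ge _ (by omega))
              rw [hr, rim_mid y (by omega), ← add_assoc]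
              exact add_mem k3 k4
            · have : r = k := by omega
              rw [hr, this, rim_last]
              exact hclass' p' k (by omega) le_rfl (by rw [hc_p's, ← this, hcr])
          have k5 := add_mem k1 k2
          have k6 : y (P a) + y (p' - 1) + (y p' + rim y k s) =
              rim y k s + y (P a) + (y (p' - 1) + y p') := by abel
          rw [k6, ← hrimp'] at k5
          exact k5
        · simp only [hi, hi2, hi3, if_false, e1]
          rw [if_neg (by omega), if_neg (by omega)]
          have hR1 := hRk i (by omega) (by omega)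
          have hR2 := hRc i (by omega) (by omega)
          have hR3 := hRc' i (by omega) (by omega)
          rw [rim_mid y hR1]
          have k1 : y (R i) + y (P i) ∈ span (ZMod 2) C :=
            hclass' _ _ (by omega) (hPk i (by omega) (by omega))
              (by rw [hR2, hPc i (by omega) (by omega)])
          have k2 : y (R i + 1) + y (P (i + 1)) ∈ span (ZMod 2) C :=
            hclass' _ _ hR1 (hPk (i + 1) (by omega) (by omega))
              (by rw [hR3, hPc (i + 1) (by omega) (by omega)])
          have k3 := add_mem k1 k2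
          have k4 : y (R i) + y (P i) + (y (R i + 1) + y (P (i + 1))) =
              y (R i) + y (R i + 1) + y (P i) + y (P (i + 1)) := by abel
          rw [k4] at k3
          exact k3

/-- Two elements outside the path whose difference vanishes on `Y` except at `r`. -/
lemma span_of_agree {y : ℕ → V} {k : ℕ} {Φ : V →ₗ[ZMod 2] (ℕ → ZMod 2)}
    (hΦ : ∀ p ≤ k, Φ (y p) = fun q => if q ≤ p then 1 else 0)
    (hlast : ∀ u ∈ span (ZMod 2) (Set.range fun i : Fin (k + 1) => y i), Φ u (k + 1) = 0)
    {x w : V} (hxw : x + w ∈ span (ZMod 2) (Set.range fun i : Fin (k + 1) => y i)) {b r : ℕ}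
    {Y : Finset ℕ} (hr : r ≤ k + 1)
    (hag : ∀ q ∈ Y, q ≠ r → Φ x q + Φ x b = Φ w q + Φ w b)
    (hne : Φ x r + Φ x b ≠ Φ w r + Φ w b) :
    x + w + rim y k r ∈ span (ZMod 2) (Cset y k Y) := by
  classical
  have e1 := rim_coordinates hΦ hxw
  have e2 : x + w = ∑ q ∈ range (k + 2), (Φ (x + w) q + Φ (x + w) b) • rim y k q := by
    have e3 : ∑ q ∈ range (k + 2), (Φ (x + w) q + Φ (x + w) b) • rim y k q =
        ∑ q ∈ range (k + 2), Φ (x + w) q • rim y k q +
        Φ (x + w) b • ∑ q ∈ range (k + 2), rim y k q := by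
      rw [Finset.smul_sum, ← Finset.sum_add_distrib]
      exact Finset.sum_congr rfl fun q _ => add_smul _ _ _
    rw [e3, sum_rim, smul_zero, add_zero, Finset.sum_range_succ,
      hlast _ hxw, zero_smul, add_zero]
    exact e1
  have e4 : Φ (x + w) r + Φ (x + w) b = 1 := by
    rw [map_add, Pi.add_apply, Pi.add_apply]
    have e5 : Φ x r + Φ w r + (Φ x b + Φ w b) = (Φ x r + Φ x b) + (Φ w r + Φ w b) := by
      abel
    rw [e5]
    exact Z_ne hne
  have e6 : x + w + rim y k r =
      ∑ q ∈ (range (k + 2)).erase r, (Φ (x + w) q + Φ (x + w) b) • rim y k q := by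
    have hrr : r ∈ range (k + 2) := Finset.mem_range.2 (by omega)
    conv_lhs => rw [e2]
    rw [← Finset.add_sum_erase _ _ hrr, e4, one_smul]
    rw [add_comm (rim y k r), add_assoc, ZModModule.add_self, add_zero]
  rw [e6]
  refine sum_mem fun q hq => ?_
  rw [Finset.mem_erase, Finset.mem_range] at hq
  by_cases hqY : q ∈ Y
  · have e7 := hag q hqY hq.1
    have e8 : Φ (x + w) q + Φ (x + w) b = 0 := by
      rw [map_add, Pi.add_apply, Pi.add_apply]
      have e5 : Φ x q + Φ w q + (Φ x b + Φ w b) =
          (Φ x q + Φ x b) + (Φ w q + Φ w b) := by abel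
      rw [e5, e7, ZModModule.add_self]
    rw [e8, zero_smul]
    exact zero_mem _
  · exact smul_mem _ _ (subset_span ⟨q, by omega, hqY, rfl⟩)

/-- the coordinates of the elements outside a fan path satisfy `Star` -/
theorem star_of_noWheel {a : ℕ} {E : Finset V}
    (hW : ¬ HasWheel (a + 1) (E : Set V)) {k : ℕ} {y : ℕ → V}
    (hy : FanPath (E : Set V) y k) (C : Finset V) (hC : C ⊆ E)
    (hCy : ∀ x ∈ C, x ∉ span (ZMod 2) (Set.range fun i : Fin (k + 1) => y i))
    (hCC : ∀ x ∈ C, ∀ x' ∈ C, x + x' ∈ span (ZMod 2) (Set.range fun i : Fin (k + 1) => y i))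
    {Φ : V →ₗ[ZMod 2] (ℕ → ZMod 2)}
    (hΦ : ∀ p ≤ k, Φ (y p) = fun q => if q ≤ p then 1 else 0)
    (hlast : ∀ u ∈ span (ZMod 2) (Set.range fun i : Fin (k + 1) => y i), Φ u (k + 1) = 0) :
    Star a (k + 1) C (fun x : V => Φ x) := by
  classical
  intro p p' M hp' hM hMp x hx g hg h hh m₀ hm₀ hxg hxh h1 h2 h3 h4
  obtain ⟨M', hM'M, hM'⟩ := Finset.exists_subset_card_eq hM
  have hpp : p < p' := (hMp m₀ hm₀).1.trans (hMp m₀ hm₀).2
  have hM'p : ∀ m ∈ M', p < m ∧ m < p' := fun m hm => hMp m (hM'M hm)
  refine hW (wheel_of_three hy hpp hp' hM' hM'p (hC hx) (hC hg) (hC hh) (hCy x hx) ?_ ?_)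
  · refine span_of_agree hΦ hlast (hCC x hx g hg) (b := m₀) (by omega) ?_ h1
    intro q hq hqp
    rw [Finset.mem_insert, Finset.mem_insert] at hq
    rcases hq with rfl | rfl | hq
    · exact absurd rfl hqp
    · exact h2
    · exact hxg q (hM'M hq)
  · refine span_of_agree hΦ hlast (hCC x hx h hh) (b := m₀) hp' ?_ h4
    intro q hq hqp
    rw [Finset.mem_insert, Finset.mem_insert] at hq
    rcases hq with rfl | rfl | hq
    · exact h3
    · exact absurd rfl hqp
    · exact hxh q (hM'M hq)

/-- the coordinates of the elements outside a fan path satisfy `StarB` -/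
theorem starB_of_noWheel {a : ℕ} (ha : 1 ≤ a) {E : Finset V}
    (hW : ¬ HasWheel (a + 1) (E : Set V)) {k : ℕ} {y : ℕ → V}
    (hy : FanPath (E : Set V) y k) (C : Finset V) (hC : C ⊆ E)
    (hCy : ∀ x ∈ C, x ∉ span (ZMod 2) (Set.range fun i : Fin (k + 1) => y i))
    (hCC : ∀ x ∈ C, ∀ x' ∈ C, x + x' ∈ span (ZMod 2) (Set.range fun i : Fin (k + 1) => y i))
    {Φ : V →ₗ[ZMod 2] (ℕ → ZMod 2)}
    (hΦ : ∀ p ≤ k, Φ (y p) = fun q => if q ≤ p then 1 else 0)
    (hlast : ∀ u ∈ span (ZMod 2) (Set.range fun i : Fin (k + 1) => y i), Φ u (k + 1) = 0) :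
    StarB a (k + 1) C (fun x : V => Φ x) := by
  classical
  intro p p' s M hpp hps hs hM hMp x hx g hg h hh hxg hxh h1 h2 h3 h4
  obtain ⟨M', hM'M, hM'⟩ := Finset.exists_subset_card_eq (n := a - 1) (s := M) (by omega)
  have hM'p : ∀ m ∈ M', p < m ∧ m < p' := fun m hm => hMp m (hM'M hm)
  refine hW (wheel_swap hy hpp hps hs (by omega) hM'p (hC hx) (hC hg) (hC hh) (hCy x hx) ?_ ?_)
  · refine span_of_agree hΦ hlast (hCC x hx g hg) (b := s) (by omega) ?_ h1
    intro q hq hqp
    rw [Finset.mem_insert, Finset.mem_insert, Finset.mem_insert] at hq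
    rcases hq with rfl | rfl | rfl | hq
    · exact absurd rfl hqp
    · exact h2
    · rw [ZModModule.add_self, ZModModule.add_self]
    · exact hxg q (hM'M hq)
  · refine span_of_agree hΦ hlast (hCC x hx h hh) (b := s) (by omega) ?_ h4
    intro q hq hqp
    rw [Finset.mem_insert, Finset.mem_insert, Finset.mem_insert] at hq
    rcases hq with rfl | rfl | rfl | hq
    · exact h3
    · exact absurd rfl hqp
    · rw [ZModModule.add_self, ZModModule.add_self]
    · exact hxh q (hM'M hq)

/-- Coordinates for the elements outside a fan path which spans a hyperplane. -/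
theorem exists_coordinates {E : Set V} {k : ℕ} {y : ℕ → V} (hy : FanPath E y k) (C : Finset V)
    (hne : C.Nonempty)
    (hCy : ∀ x ∈ C, x ∉ span (ZMod 2) (Set.range fun i : Fin (k + 1) => y i))
    (hCC : ∀ x ∈ C, ∀ x' ∈ C, x + x' ∈ span (ZMod 2) (Set.range fun i : Fin (k + 1) => y i)) :
    ∃ Φ : V →ₗ[ZMod 2] (ℕ → ZMod 2), (∀ p ≤ k, Φ (y p) = fun q => if q ≤ p then 1 else 0) ∧
      (∀ u ∈ span (ZMod 2) (Set.range fun i : Fin (k + 1) => y i), Φ u (k + 1) = 0) ∧
      cnt C (fun x : V => Φ x) (Icc 0 (k + 1)) = C.card := by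
  classical
  obtain ⟨x₁, hx₁⟩ := hne
  obtain ⟨Φ, hΦx, hΦy⟩ := exists_map' hy.2.2 (hCy x₁ hx₁) (0 : ℕ → ZMod 2)
    (fun p q => if q ≤ p then 1 else 0)
  have hlast : ∀ u ∈ span (ZMod 2) (Set.range fun i : Fin (k + 1) => y i), Φ u (k + 1) = 0 := by
    intro u hu
    induction hu using span_induction with
    | mem v hv =>
      obtain ⟨i, rfl⟩ := hv
      have hi := i.2
      simp only
      rw [hΦy i (by omega)]
      beta_reduce
      rw [if_neg (by omega)]
    | zero => simp
    | add u w _ _ h1 h2 => rw [map_add, Pi.add_apply, h1, h2, add_zero]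
    | smul s u _ h1 => rw [map_smul, Pi.smul_apply, h1, smul_zero]
  have hlastC : ∀ x ∈ C, Φ x (k + 1) = 0 := by
    intro x hx
    have h1 := hlast _ (hCC x hx x₁ hx₁)
    rw [map_add, hΦx, add_zero] at h1
    exact h1
  have hinj : ∀ x ∈ C, ∀ x' ∈ C, cls (fun x : V => Φ x) (Icc 0 (k + 1)) x =
      cls (fun x : V => Φ x) (Icc 0 (k + 1)) x' → x = x' := by
    intro x hx x' hx' h
    rw [cls_eq_iff_base (b := k + 1) (by simp)] at h
    have h1 := rim_coordinates hΦy (hCC x hx x' hx')
    have h2 : x + x' = 0 := by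
      rw [h1]
      refine Finset.sum_eq_zero fun q hq => ?_
      rw [Finset.mem_range] at hq
      have h3 := h q (by rw [Finset.mem_Icc]; omega)
      rw [hlastC x hx, hlastC x' hx', add_zero, add_zero] at h3
      rw [map_add, Pi.add_apply, h3, ZModModule.add_self, zero_smul]
    calc x = x + (x' + x') := by rw [ZModModule.add_self, add_zero]
      _ = (x + x') + x' := by rw [add_assoc]
      _ = x' := by rw [h2, zero_add]
  refine ⟨Φ, hΦy, hlast, ?_⟩
  unfold cnt
  rw [Finset.card_image_of_injOn]
  intro x hx x' hx' h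
  exact hinj x hx x' hx' h

end

end Pool.Agent.Lib.P68998g
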