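import Pool.Agent.Lib.P68998g.Crit
import Pool.Agent.Lib.P68998g.CountLt
import Pool.Agent.Lib.P68998g.WheelB

/-!
The small cocircuit theorem and the colouring with `a + 1` functionals for `a ≤ 6`.
-/

namespace Pool.Agent.Lib.P68998g

open Submodule Finset Pool.Agent.Lib.P68998c Pool.Agent.Lib.P68998f

universe u

theorem outBound_lt (a : ℕ) (ha : 1 ≤ a) (ha6 : a ≤ 6) : OutBound.{u} a (2 ^ (a + 1) - 1) := by
  intro V _ _ _ E hW k y hy C hC hCy hCC
  have h := count_lt_of_starB ha ha6 hW hy C hC hCy hCC fun Φ hΦ =>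
    starB_of_noWheel ha hW hy C hC hCy hCC hΦ (last_coordinate hΦ)
  omega

/-- **Small cocircuits** for `a ≤ 6`. -/
theorem small_cocircuit_lt (a : ℕ) (ha : 1 ≤ a) (ha6 : a ≤ 6) (V : Type u)
    [AddCommGroup V] [Module (ZMod 2) V] [FiniteDimensional (ZMod 2) V] (X : Finset V)
    (h0 : (0 : V) ∉ X) (hX : X.Nonempty) (hW : ¬ HasWheel (a + 1) (X : Set V)) :
    ∃ f : V →ₗ[ZMod 2] ZMod 2, (X.filter fun x => f x = 1).Nonempty ∧
      (X.filter fun x => f x = 1).card < 2 ^ (a + 1) := by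
  have h2 : 2 ≤ 2 ^ (a + 1) := by
    calc 2 = 2 ^ 1 := by norm_num
      _ ≤ 2 ^ (a + 1) := Nat.pow_le_pow_right (by norm_num) (by omega)
  obtain ⟨f, hf1, hf2⟩ :=
    small_cocircuit_of_outBound a _ (by omega) (outBound_lt a ha ha6) V X h0 hX hW
  exact ⟨f, hf1, by omega⟩

/-- **Colouring** with `a + 1` functionals for `a ≤ 6`. -/
theorem colour_lt (a : ℕ) (ha : 1 ≤ a) (ha6 : a ≤ 6) (V : Type u)
    [AddCommGroup V] [Module (ZMod 2) V] [FiniteDimensional (ZMod 2) V] (X : Finset V)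
    (h0 : (0 : V) ∉ X) (hW : ¬ HasWheel (a + 1) (X : Set V)) :
    ∃ Φ : Fin (a + 1) → Module.Dual (ZMod 2) V, ∀ x ∈ X, ∃ j, Φ j x ≠ 0 :=
  colour_of_small a ha
    (fun V _ _ _ X h0 hX hW => by
      obtain ⟨f, hf1, hf2⟩ := small_cocircuit_lt a ha ha6 V X h0 hX hW
      exact ⟨f, hf1, hf2.le⟩)
    X.card V X le_rfl h0 hW

end Pool.Agent.Lib.P68998g
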