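import Pool.Agent.Lib.P68998g.Star

/-!
Block submodularity of the counting function of a family with the star condition: for two
intervals which overlap in at least `a` positions,
`cnt (I ∪ J) + cnt (I ∩ J) ≤ cnt I + cnt J`.
-/

namespace Pool.Agent.Lib.P68998g

open Finset

section

variable {ι : Type*} {F : Finset ι} {v : ι → ℕ → ZMod 2}

lemma block_one {a L : ℕ} (ha : 1 ≤ a) (hF : Star a L F v) {c : ℕ} (hc : a ≤ c + 1) :
    ∀ (u i : ℕ), i + u + c + 1 ≤ L →
      cnt F v (Icc i (i + u + c + 1)) + cnt F v (Icc (i + u) (i + u + c)) ≤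
        cnt F v (Icc i (i + u + c)) + cnt F v (Icc (i + u) (i + u + c + 1)) := by
  intro u
  induction u with
  | zero =>
    intro i _
    simp only [Nat.add_zero]
    omega
  | succ u ih =>
    intro i hi
    have e : i + 1 + u + c = i + (u + 1) + c := by omega
    have e' : i + 1 + u = i + (u + 1) := by omega
    have h1 := ih (i + 1) (by omega)
    rw [e, e'] at h1
    have h2 := (step ha hF (i := i) (l := i + (u + 1) + c) (by omega) (by omega)).1
    omega

/-- **Block submodularity.** -/
theorem block {a L : ℕ} (ha : 1 ≤ a) (hF : Star a L F v) {c : ℕ} (hc : a ≤ c + 1) (u i : ℕ) :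
    ∀ w : ℕ, i + u + c + w ≤ L →
      cnt F v (Icc i (i + u + c + w)) + cnt F v (Icc (i + u) (i + u + c)) ≤
        cnt F v (Icc i (i + u + c)) + cnt F v (Icc (i + u) (i + u + c + w)) := by
  intro w
  induction w with
  | zero =>
    intro _
    rw [Nat.add_zero]
  | succ w ih =>
    intro hw
    have h1 := ih (by omega)
    have h2 := block_one ha hF (c := c + w) (by omega) u i (by omega)
    have e : i + u + (c + w) = i + u + c + w := by omega
    have e' : i + u + c + (w + 1) = i + u + c + w + 1 := by omega
    rw [e] at h2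
    rw [e']
    omega

/-- bounds `2 ^ a` on windows of `a + 1 + b` positions give `2 ^ (a + 1)` on windows of
`a + 2 + 2 * b` positions -/
theorem block_double {a L B : ℕ} (ha : 1 ≤ a) (hF : Star a L F v) {b : ℕ}
    (hB : ∀ i, i + a + b ≤ L → cnt F v (Icc i (i + a + b)) ≤ B) {i : ℕ}
    (hi : i + a + 1 + 2 * b ≤ L) :
    cnt F v (Icc i (i + a + 1 + 2 * b)) ≤ 2 * B := by
  have h1 := block ha hF (c := a - 1) (by omega) (b + 1) i (b + 1) (by omega)
  have h2 := hB i (by omega)
  have h3 := hB (i + (b + 1)) (by omega)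
  have e1 : i + (b + 1) + (a - 1) + (b + 1) = i + a + 1 + 2 * b := by omega
  have e2 : i + (b + 1) + (a - 1) = i + a + b := by omega
  have e3 : i + (b + 1) + a + b = i + a + 1 + 2 * b := by omega
  rw [e1, e2] at h1
  rw [e3] at h3
  omega

end

end Pool.Agent.Lib.P68998g
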