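import Pool.Agent.Lib.P68998g.CellB

/-!
Submodularity of the number of classes on intervals with a common part of at least `a` positions.
With the cell bound it gives at most `2 ^ (a + 1) * q` classes on `a + 8 * q` positions.
-/

namespace Pool.Agent.Lib.P68998g

open Finset

section

variable {ι : Type*} {a L : ℕ} {F : Finset ι} {v : ι → ℕ → ZMod 2}

lemma submod_one (ha : 1 ≤ a) (hF : Star a L F v) (i j : ℕ) (hj : j + 1 ≤ L) :
    ∀ d : ℕ, i + d + a ≤ j + 1 →
    cnt F v (Icc i (j + 1)) + cnt F v (Icc (i + d) j) ≤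
      cnt F v (Icc i j) + cnt F v (Icc (i + d) (j + 1)) := by
  intro d
  induction d with
  | zero => intro _; rw [add_zero]; omega
  | succ d ih =>
    intro h
    have h1 := ih (by omega)
    have h2 := (step ha hF (i := i + d) (l := j) (by omega) hj).1
    rw [show i + (d + 1) = i + d + 1 by omega]
    omega

/-- **Block submodularity.** -/
theorem submod (ha : 1 ≤ a) (hF : Star a L F v) {i d l : ℕ} (hd : i + d + a ≤ l + 1) :
    ∀ e : ℕ, l + e ≤ L →
    cnt F v (Icc i (l + e)) + cnt F v (Icc (i + d) l) ≤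
      cnt F v (Icc i l) + cnt F v (Icc (i + d) (l + e)) := by
  intro e
  induction e with
  | zero => intro _; rw [add_zero]
  | succ e ih =>
    intro h
    have h1 := ih (by omega)
    have h2 := submod_one ha hF i (l + e) (by omega) d (by omega)
    rw [show l + (e + 1) = l + e + 1 by omega]
    omega

lemma cnt_pos {S : Finset ℕ} (h : F.Nonempty) : 1 ≤ cnt F v S := by
  classical
  unfold cnt
  exact Finset.card_pos.2 (h.image _)

/-- at most `2 ^ (a + 1)` classes on at most `a + 8` positions -/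
theorem cell_eight (ha : 5 ≤ a) (h1 : Star a L F v) (h2 : Pair a L F v) (h3 : StarB a L F v)
    (h4 : StarBL a L F v) {i d : ℕ} (hd : d + 1 ≤ a + 8) (hL : i + d ≤ L) :
    cnt F v (Icc i (i + d)) ≤ 2 ^ (a + 1) := by
  by_cases hda : d ≤ a + 1
  · exact (cnt_Icc_le (F := F) (v := v) i d).trans (Nat.pow_le_pow_right (by norm_num) hda)
  · obtain ⟨c, hc⟩ : ∃ c, d = a + 1 + c := ⟨d - (a + 1), by omega⟩
    obtain ⟨b, b', hb, hb', hbc⟩ : ∃ b b', b ≤ 3 ∧ b' ≤ 3 ∧ c = b + b' :=
      ⟨min 3 c, c - min 3 c, by omega, by omega, by omega⟩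
    have k4 := cell_bound h1 h2 h3 h4 (s := i) (i := b) (j := b') hb hb' (by omega) (by omega)
    rwa [show i + b + (a + 1) + b' = i + d by omega] at k4

/-- at most `2 ^ (a + 1) * q` classes on at most `a + 8 * q` positions -/
theorem block_le (ha : 5 ≤ a) (h1 : Star a L F v) (h2 : Pair a L F v) (h3 : StarB a L F v)
    (h4 : StarBL a L F v) (hF : F.Nonempty) : ∀ (q i d : ℕ), 1 ≤ q → d + 1 ≤ a + 8 * q →
    i + d ≤ L → cnt F v (Icc i (i + d)) + (q - 1) ≤ 2 ^ (a + 1) * q := by
  intro q
  have hpos : 1 ≤ 2 ^ (a + 1) := Nat.one_le_two_pow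
  induction q with
  | zero => intro i d h; omega
  | succ q ih =>
    intro i d _ hd hL
    rcases Nat.eq_zero_or_pos q with hq | hq
    · subst hq
      have := cell_eight ha h1 h2 h3 h4 (i := i) (d := d) (by omega) hL
      omega
    by_cases hd' : d + 1 ≤ a + 8 * q
    · have k1 := ih i d hq hd' hL
      rw [mul_add, mul_one]
      omega
    · obtain ⟨e, he⟩ : ∃ e, d = a + 7 + e := ⟨d - (a + 7), by omega⟩
      have k1 := submod (by omega) h1 (i := i) (d := 8) (l := i + (a + 7)) (by omega) e (by omega)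
      have k2 := cell_eight ha h1 h2 h3 h4 (i := i) (d := a + 7) (by omega) (by omega)
      have k3 := ih (i + 8) (d - 8) hq (by omega) (by omega)
      have k4 : 1 ≤ cnt F v (Icc (i + 8) (i + (a + 7))) := cnt_pos hF
      rw [show i + 8 + (d - 8) = i + d by omega] at k3
      rw [show i + (a + 7) + e = i + d by omega] at k1
      rw [mul_add, mul_one]
      omega

/-- the number of blocks of eight positions -/
def blocks (a n : ℕ) : ℕ := (min (a - 1) (n - a) + 7) / 8




/-- **The counting theorem with blocks.** -/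
theorem blocks_bound (ha : 1 ≤ a) (h1 : Star a L F v) (h2 : Pair a L F v) (h3 : StarB a L F v)
    (h4 : StarBL a L F v) (hF : F.Nonempty) {n : ℕ} : ∀ d i : ℕ, i + d ≤ L → d + 1 ≤ n →
    cnt F v (Icc i (i + d)) + (max 1 (blocks a n) - 1) ≤ 2 ^ (a + 1) * max 1 (blocks a n) := by
  intro d
  have hpos : 1 ≤ 2 ^ (a + 1) := Nat.one_le_two_pow
  induction d with
  | zero =>
    intro i _ _
    have k1 := cnt_Icc_le (F := F) (v := v) i 0
    rw [pow_zero] at k1
    obtain ⟨q, hq⟩ : ∃ q, max 1 (blocks a n) = q + 1 := ⟨max 1 (blocks a n) - 1, by omega⟩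
    rw [hq, Nat.add_sub_cancel]
    have k2 : 1 * (q + 1) ≤ 2 ^ (a + 1) * (q + 1) := Nat.mul_le_mul_right _ hpos
    omega
  | succ d ih =>
    intro i hi hn
    by_cases k1 : cnt F v (Icc (i + 1) (i + (d + 1))) < cnt F v (Icc i (i + (d + 1)))
    · by_cases k2 : cnt F v (Icc i (i + d)) < cnt F v (Icc i (i + (d + 1)))
      · by_cases ha9 : a ≤ 9
        · have k3 := cell_bound_nine ha ha9 h1 h2 h3 h4 (d + 1) i hi
          have hb : blocks a n ≤ 1 := by unfold blocks; omega
          rw [max_eq_left hb]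
          omega
        · have k3 := shortB (by omega) h1 h3 hi k1 k2
          refine block_le (by omega) h1 h2 h3 h4 hF _ i (d + 1) (le_max_left _ _) ?_ hi
          have : (min (a - 1) (n - a) + 7) / 8 = blocks a n := rfl
          omega
      · have k3 := ih i (by omega) (by omega)
        omega
    · have k3 := ih (i + 1) (by omega) (by omega)
      rw [show i + 1 + d = i + (d + 1) by omega] at k3
      omega

end

end Pool.Agent.Lib.P68998g
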