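import Pool.Agent.Lib.P68998g.Cell

/-!
A minimal interval which carries all classes has at most `2 * a - 1` positions; with the cell bound
this gives at most `2 ^ (a + 1)` classes for `a ≤ 9`.
-/

namespace Pool.Agent.Lib.P68998g

open Finset

section

variable {ι : Type*} {a L : ℕ} {F : Finset ι} {v : ι → ℕ → ZMod 2}

lemma ne_ne_eq : ∀ s t u : ZMod 2, s ≠ t → s ≠ u → t = u := by decide

theorem shortB (ha : 2 ≤ a) (hF : Star a L F v) (hB : StarB a L F v) {i d : ℕ}
    (hd : i + (d + 1) ≤ L)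
    (h1 : cnt F v (Icc (i + 1) (i + (d + 1))) < cnt F v (Icc i (i + (d + 1))))
    (h2 : cnt F v (Icc i (i + d)) < cnt F v (Icc i (i + (d + 1)))) : d + 1 ≤ 2 * a - 2 := by
  classical
  have h0 := short (by omega) hF hd h1 h2
  by_contra hcon
  have hd2 : d = 2 * a - 2 := by omega
  obtain ⟨x, hx, x', hx', hxx, hxx'⟩ := exists_split h1
  obtain ⟨y, hy, y', hy', hyy, hyy'⟩ := exists_split h2
  set I := Icc (i + 1) (i + d) with hI
  have hw : ∀ s : ZMod 2, s = 0 ∨ s = 1 := by decide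
  -- the colour which does not contain the last interior position
  obtain ⟨c, hc⟩ : ∃ c : ZMod 2, v x (i + d) + v y (i + d) ≠ c :=
    ⟨v x (i + d) + v y (i + d) + 1, by
      intro h
      have : ∀ t : ZMod 2, t ≠ t + 1 := by decide
      exact this _ h⟩
  set M := I.filter fun q => v x q + v y q = c with hM
  set M' := I.filter fun q => ¬ (v x q + v y q = c) with hM'
  have hcard : M.card + M'.card = d := by
    rw [hM, hM', Finset.card_filter_add_card_filter_not, hI, Nat.card_Icc]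
    omega
  have hMI : ∀ m ∈ I, i + 1 ≤ m ∧ m ≤ i + d := by
    intro m hm
    rw [hI, Finset.mem_Icc] at hm
    exact hm
  have e1 : Icc i (i + (d + 1)) = insert i (Icc (i + 1) (i + (d + 1))) := by
    ext q; simp only [Finset.mem_Icc, Finset.mem_insert]; omega
  have e2 : Icc i (i + (d + 1)) = insert (i + (d + 1)) (Icc i (i + d)) := by
    ext q; simp only [Finset.mem_Icc, Finset.mem_insert]; omega
  -- everything relative to a position `m₀`
  have rel1 : ∀ m₀ ∈ I, v x i + v x m₀ ≠ v x' i + v x' m₀ := by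
    intro m₀ hm₀ h
    have := hMI m₀ hm₀
    apply hxx'
    rw [e1, cls_insert_iff (b := m₀) (by rw [Finset.mem_Icc]; omega)]
    exact ⟨hxx, h⟩
  have rel2 : ∀ m₀ ∈ I, v y (i + (d + 1)) + v y m₀ ≠ v y' (i + (d + 1)) + v y' m₀ := by
    intro m₀ hm₀ h
    have := hMI m₀ hm₀
    apply hyy'
    rw [e2, cls_insert_iff (b := m₀) (by rw [Finset.mem_Icc]; omega)]
    exact ⟨hyy, h⟩
  have hxx1 : ∀ q, i + 1 ≤ q → q ≤ i + (d + 1) → ∀ m₀ ∈ I, v x q + v x m₀ = v x' q + v x' m₀ := by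
    intro q h3 h4 m₀ hm₀
    have := hMI m₀ hm₀
    exact cls_eq_iff.1 hxx q (by rw [Finset.mem_Icc]; omega) m₀ (by rw [Finset.mem_Icc]; omega)
  have hyy1 : ∀ q, i ≤ q → q ≤ i + d → ∀ m₀ ∈ I, v y q + v y m₀ = v y' q + v y' m₀ := by
    intro q h3 h4 m₀ hm₀
    have := hMI m₀ hm₀
    exact cls_eq_iff.1 hyy q (by rw [Finset.mem_Icc]; omega) m₀ (by rw [Finset.mem_Icc]; omega)
  -- both colours have at most `a - 1` positions
  have hsmall : ∀ N : Finset ℕ, N ⊆ I → (∀ m ∈ N, ∀ m' ∈ N, v x m + v x m' = v y m + v y m') →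
      a ≤ N.card → False := by
    intro N hN hNc hNa
    obtain ⟨m₀, hm₀⟩ : N.Nonempty := Finset.card_pos.1 (by omega)
    have hm₀I := hN hm₀
    have hNp : ∀ m ∈ N, i < m ∧ m < i + (d + 1) := by
      intro m hm
      have := hMI m (hN hm)
      omega
    have main : ∀ f ∈ F, ∀ f' ∈ F, (∀ m ∈ N, v f m + v f m₀ = v f' m + v f' m₀) →
        (∀ m ∈ N, v f m + v f m₀ = v y m + v y m₀) →
        v f i + v f m₀ ≠ v f' i + v f' m₀ →
        v f (i + (d + 1)) + v f m₀ = v f' (i + (d + 1)) + v f' m₀ →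
        v f i + v f m₀ = v y i + v y m₀ → False := by
      intro f hf f' hf' aff' afy h3 h4 h5
      by_cases h6 : v f (i + (d + 1)) + v f m₀ = v y (i + (d + 1)) + v y m₀
      · exact hF i (i + (d + 1)) N hd hNa hNp f hf f' hf' y' hy' m₀ hm₀ aff'
          (fun m hm => (afy m hm).trans (hyy1 m (hNp m hm).1.le (hMI m (hN hm)).2 m₀ hm₀I)) h3 h4
          (h5.trans (hyy1 i le_rfl (by omega) m₀ hm₀I))
          (fun h => rel2 m₀ hm₀I (h6.symm.trans h))
      · exact hF i (i + (d + 1)) N hd hNa hNp f hf f' hf' y hy m₀ hm₀ aff' afy h3 h4 h5 h6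
    have ax : ∀ m ∈ N, v x m + v x m₀ = v x' m + v x' m₀ := fun m hm =>
      hxx1 m (hMI m (hN hm)).1 (by have := hMI m (hN hm); omega) m₀ hm₀I
    have axl := hxx1 (i + (d + 1)) (by omega) le_rfl m₀ hm₀I
    by_cases h7 : v x i + v x m₀ = v y i + v y m₀
    · exact main x hx x' hx' ax (fun m hm => hNc m hm m₀ hm₀) (rel1 m₀ hm₀I) axl h7
    · exact main x' hx' x hx (fun m hm => (ax m hm).symm)
        (fun m hm => (ax m hm).symm.trans (hNc m hm m₀ hm₀)) (rel1 m₀ hm₀I).symm axl.symm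
        (ne_ne_eq _ _ _ (rel1 m₀ hm₀I) h7)
  have key0 : ∀ s t s' t' c : ZMod 2, s + t = c → s' + t' = c → s + s' = t + t' := by decide
  have key1 : ∀ s t s' t' c : ZMod 2, s + t ≠ c → s' + t' ≠ c → s + s' = t + t' := by decide
  have hMc : ∀ m ∈ M, ∀ m' ∈ M, v x m + v x m' = v y m + v y m' := fun m hm m' hm' =>
    key0 _ _ _ _ _ (Finset.mem_filter.1 hm).2 (Finset.mem_filter.1 hm').2
  have hMc' : ∀ m ∈ M', ∀ m' ∈ M', v x m + v x m' = v y m + v y m' := fun m hm m' hm' =>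
    key1 _ _ _ _ _ (Finset.mem_filter.1 hm).2 (Finset.mem_filter.1 hm').2
  have hb1 : ¬ a ≤ M.card := fun h => hsmall M (Finset.filter_subset _ _) hMc h
  have hb2 : ¬ a ≤ M'.card := fun h => hsmall M' (Finset.filter_subset _ _) hMc' h
  have hMcard : M.card = a - 1 := by omega
  obtain ⟨m₀, hm₀⟩ : M.Nonempty := Finset.card_pos.1 (by omega)
  have hm₀I : m₀ ∈ I := (Finset.mem_filter.1 hm₀).1
  have hMp : ∀ m ∈ M, i < m ∧ m < i + d := by
    intro m hm
    have h3 := hMI m (Finset.mem_filter.1 hm).1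
    refine ⟨by omega, lt_of_le_of_ne h3.2 ?_⟩
    rintro rfl
    exact hc (Finset.mem_filter.1 hm).2
  -- the position before the last one is in the other colour
  have hlast : v x (i + d) + v x m₀ ≠ v y (i + d) + v y m₀ := by
    have key2 : ∀ s t s' t' c : ZMod 2, s + t ≠ c → s' + t' = c → s + s' ≠ t + t' := by decide
    exact key2 _ _ _ _ _ hc (Finset.mem_filter.1 hm₀).2
  -- choice of the right hand function
  have main : ∀ f ∈ F, ∀ f' ∈ F, (∀ m ∈ M, v f m + v f m₀ = v f' m + v f' m₀) →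
      (∀ m ∈ M, v f m + v f m₀ = v y m + v y m₀) →
      v f i + v f m₀ ≠ v f' i + v f' m₀ →
      v f (i + d) + v f m₀ = v f' (i + d) + v f' m₀ →
      v f (i + (d + 1)) + v f m₀ = v f' (i + (d + 1)) + v f' m₀ →
      v f i + v f m₀ = v y i + v y m₀ → v f (i + d) + v f m₀ ≠ v y (i + d) + v y m₀ → False := by
    intro f hf f' hf' aff' afy h3 h4 h4' h5 h5'
    have fin : ∀ g ∈ F, (∀ m ∈ M, v f m + v f m₀ = v g m + v g m₀) →
        v f i + v f m₀ = v g i + v g m₀ → v f (i + d) + v f m₀ ≠ v g (i + d) + v g m₀ →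
        v f (i + (d + 1)) + v f m₀ = v g (i + (d + 1)) + v g m₀ → False := by
      intro g hg k1 k2 k3 k4
      exact hB i (i + d) (i + (d + 1)) M (by omega) (by omega) hd (by omega) hMp f hf f' hf' g hg
        (fun m hm => chg_eq _ _ _ _ _ _ (aff' m hm) h4')
        (fun m hm => chg_eq _ _ _ _ _ _ (k1 m hm) k4)
        (chg_ne _ _ _ _ _ _ h3 h4') (chg_eq _ _ _ _ _ _ h4 h4')
        (chg_eq _ _ _ _ _ _ k2 k4) (chg_ne _ _ _ _ _ _ k3 k4)
    by_cases h6 : v f (i + (d + 1)) + v f m₀ = v y (i + (d + 1)) + v y m₀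
    · exact fin y hy afy h5 h5' h6
    · have k0 := hyy1
      refine fin y' hy' (fun m hm => (afy m hm).trans (hyy1 m (hMp m hm).1.le (hMp m hm).2.le m₀
        hm₀I)) (h5.trans (hyy1 i le_rfl (by omega) m₀ hm₀I)) ?_ ?_
      · rw [← hyy1 (i + d) (by omega) le_rfl m₀ hm₀I]
        exact h5'
      · exact ne_ne_eq _ _ _ (Ne.symm h6) (rel2 m₀ hm₀I)
  have ax : ∀ m ∈ M, v x m + v x m₀ = v x' m + v x' m₀ := fun m hm =>
    hxx1 m (hMp m hm).1 (by have := hMp m hm; omega) m₀ hm₀I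
  have axd := hxx1 (i + d) (by omega) (by omega) m₀ hm₀I
  have axl := hxx1 (i + (d + 1)) (by omega) le_rfl m₀ hm₀I
  by_cases h7 : v x i + v x m₀ = v y i + v y m₀
  · exact main x hx x' hx' ax (fun m hm => hMc m hm m₀ hm₀) (rel1 m₀ hm₀I) axd axl h7 hlast
  · exact main x' hx' x hx (fun m hm => (ax m hm).symm)
      (fun m hm => (ax m hm).symm.trans (hMc m hm m₀ hm₀)) (rel1 m₀ hm₀I).symm axd.symm axl.symm
      (ne_ne_eq _ _ _ (rel1 m₀ hm₀I) h7) (fun h => hlast (axd.trans h))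

/-- for `a ≤ 9` there are at most `2 ^ (a + 1)` classes -/
theorem cell_bound_nine (ha : 1 ≤ a) (ha9 : a ≤ 9) (h1 : Star a L F v) (h2 : Pair a L F v)
    (h3 : StarB a L F v) (h4 : StarBL a L F v) : ∀ d i : ℕ, i + d ≤ L →
    cnt F v (Icc i (i + d)) ≤ 2 ^ (a + 1) := by
  classical
  rcases Nat.lt_or_ge a 2 with ha2 | ha2
  · exact cell_bound_all ha (by omega) h1 h2 h3 h4
  intro d
  induction d with
  | zero =>
    intro i _
    exact (cnt_Icc_le (F := F) (v := v) i 0).trans (Nat.pow_le_pow_right (by norm_num) (by omega))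
  | succ d ih =>
    intro i hi
    by_cases hda : d + 1 ≤ a + 1
    · exact (cnt_Icc_le (F := F) (v := v) i (d + 1)).trans
        (Nat.pow_le_pow_right (by norm_num) hda)
    by_cases k1 : cnt F v (Icc (i + 1) (i + (d + 1))) < cnt F v (Icc i (i + (d + 1)))
    · by_cases k2 : cnt F v (Icc i (i + d)) < cnt F v (Icc i (i + (d + 1)))
      · have k3 := shortB ha2 h1 h3 hi k1 k2
        obtain ⟨c, hc⟩ : ∃ c, d + 1 = a + 1 + c := ⟨d + 1 - (a + 1), by omega⟩
        obtain ⟨b, b', hb, hb', hbc⟩ : ∃ b b', b ≤ 3 ∧ b' ≤ 3 ∧ c = b + b' :=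
          ⟨min 3 c, c - min 3 c, by omega, by omega, by omega⟩
        have k4 := cell_bound h1 h2 h3 h4 (s := i) (i := b) (j := b') hb hb' (by omega)
          (by omega)
        rwa [show i + b + (a + 1) + b' = i + (d + 1) by omega] at k4
      · have k3 := ih i (by omega)
        omega
    · have k3 := ih (i + 1) (by omega)
      rw [show i + 1 + d = i + (d + 1) by omega] at k3
      omega

end

end Pool.Agent.Lib.P68998g
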