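import Pool.Agent.Lib.P68998g.BlockMany
import Pool.Agent.Lib.P68998g.CellB

/-!
The cell bound and the block lemma: `⌈a / 9⌉ * 2 ^ (a + 1)` for all intervals.
-/

namespace Pool.Agent.Lib.P68998g

open Finset

section

variable {ι : Type*} {F : Finset ι} {v : ι → ℕ → ZMod 2}

/-- all intervals with at most `a + 8` positions -/
theorem cell_window {a L : ℕ} (ha : 2 ≤ a) (h1 : Star a L F v) (h2 : Pair a L F v)
    (h3 : StarB a L F v) (h4 : StarBL a L F v) (d i : ℕ) (hd : d ≤ (a - 2) + 9)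
    (hi : i + d ≤ L) : cnt F v (Icc i (i + d)) ≤ 2 ^ (a + 1) := by
  by_cases ha8 : a ≤ 8
  · exact cell_bound_all (by omega) ha8 h1 h2 h3 h4 d i hi
  by_cases hd1 : d ≤ a + 1
  · exact (cnt_Icc_le i d).trans (Nat.pow_le_pow_right (by norm_num) hd1)
  · obtain ⟨s, t, hs, ht, hst⟩ : ∃ s t, s ≤ 3 ∧ t ≤ 3 ∧ d = s + (a + 1) + t := by
      by_cases h : d ≤ a + 4
      · exact ⟨0, d - (a + 1), by omega, by omega, by omega⟩
      · exact ⟨d - (a + 4), 3, by omega, by omega, by omega⟩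
    have h := cell_bound h1 h2 h3 h4 (s := i) hs ht (by omega) (by omega)
    rw [show i + s + (a + 1) + t = i + d by omega] at h
    exact h

/-- all intervals -/
theorem bound_nine {a L : ℕ} (ha : 1 ≤ a) (h1 : Star a L F v) (h2 : Pair a L F v)
    (h3 : StarB a L F v) (h4 : StarBL a L F v) :
    ∀ d i, i + d ≤ L → cnt F v (Icc i (i + d)) ≤ (a + 8) / 9 * 2 ^ (a + 1) := by
  by_cases ha2 : 2 ≤ a
  · exact block_final (t := 9) ha2 h1 h3 h4 (by norm_num) (cell_window ha2 h1 h2 h3 h4)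
  · intro d i hi
    have e : a = 1 := by omega
    subst e
    have h := cell_bound_all le_rfl (by norm_num) h1 h2 h3 h4 d i hi
    norm_num at h ⊢
    exact h

end

end Pool.Agent.Lib.P68998g
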