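import Pool.Agent.Lib.P68998g.Block
import Pool.Agent.Lib.P68998g.PatsL

/-!
The block lemma for two intervals which overlap in `a - 1` positions.
-/

namespace Pool.Agent.Lib.P68998g

open Finset

section

variable {ι : Type*} {F : Finset ι} {v : ι → ℕ → ZMod 2}

lemma base_eq : ∀ s t r s' t' r' : ZMod 2, s + r = s' + r' → t + r = t' + r' →
    s + t = s' + t' := by decide

lemma base_ne : ∀ s t r s' t' r' : ZMod 2, s + r ≠ s' + r' → t + r = t' + r' →
    s + t ≠ s' + t' := by decide

lemma base_ne' : ∀ s t r s' t' r' : ZMod 2, s + r = s' + r' → t + r ≠ t' + r' →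
    s + t ≠ s' + t' := by decide

lemma block_key {a L : ℕ} (ha : 2 ≤ a) (h3 : StarB a L F v) (h4 : StarBL a L F v)
    {i u w : ℕ} (hu : 1 ≤ u) (hw : 1 ≤ w) (hL : i + u + (a - 2) + w ≤ L)
    {x y z : ι} (hx : x ∈ F) (hy : y ∈ F) (hz : z ∈ F)
    (hxy : cls v (Icc i (i + u + (a - 2))) x = cls v (Icc i (i + u + (a - 2))) y)
    (nxy : cls v (Icc i (i + u + (a - 2) + w)) x ≠ cls v (Icc i (i + u + (a - 2) + w)) y)
    (hxz : cls v (Icc (i + u) (i + u + (a - 2) + w)) x =
      cls v (Icc (i + u) (i + u + (a - 2) + w)) z)
    (nxz : cls v (Icc i (i + u + (a - 2) + w)) x ≠ cls v (Icc i (i + u + (a - 2) + w)) z) :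
    v x i + v x (i + u + (a - 2) + w) ≠ v y i + v y (i + u + (a - 2) + w) ∧
      v x i + v x (i + u + (a - 2) + w) ≠ v z i + v z (i + u + (a - 2) + w) := by
  have b1 : i + u ∈ Icc i (i + u + (a - 2)) := by rw [Finset.mem_Icc]; omega
  have b2 : i + u ∈ Icc (i + u) (i + u + (a - 2) + w) := by rw [Finset.mem_Icc]; omega
  have b3 : i + u ∈ Icc i (i + u + (a - 2) + w) := by rw [Finset.mem_Icc]; omega
  rw [cls_eq_iff_base b1] at hxy
  rw [cls_eq_iff_base b2] at hxz
  rw [Ne, cls_eq_iff_base b3] at nxy nxz
  push Not at nxy nxz
  obtain ⟨q, hq, hqy⟩ := nxy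
  obtain ⟨q', hq', hqz⟩ := nxz
  rw [Finset.mem_Icc] at hq hq'
  have q1 : i + u + (a - 2) < q := by
    by_contra hc
    exact hqy (hxy q (by rw [Finset.mem_Icc]; omega))
  have q2 : q' < i + u := by
    by_contra hc
    exact hqz (hxz q' (by rw [Finset.mem_Icc]; omega))
  set M := Icc (i + u) (i + u + (a - 2)) with hM
  have hMc : a ≤ M.card + 1 := by rw [hM, Nat.card_Icc]; omega
  have hyM : ∀ p ∈ M, v x p + v x (i + u) = v y p + v y (i + u) := by
    intro p hp
    rw [hM, Finset.mem_Icc] at hp
    exact hxy p (by rw [Finset.mem_Icc]; omega)
  have hzM : ∀ p ∈ M, v x p + v x (i + u) = v z p + v z (i + u) := by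
    intro p hp
    rw [hM, Finset.mem_Icc] at hp
    exact hxz p (by rw [Finset.mem_Icc]; omega)
  have yq' : v x q' + v x (i + u) = v y q' + v y (i + u) :=
    hxy q' (by rw [Finset.mem_Icc]; omega)
  have zq : v x q + v x (i + u) = v z q + v z (i + u) :=
    hxz q (by rw [Finset.mem_Icc]; omega)
  have yi : v x i + v x (i + u) = v y i + v y (i + u) :=
    hxy i (by rw [Finset.mem_Icc]; omega)
  have zj : v x (i + u + (a - 2) + w) + v x (i + u) =
      v z (i + u + (a - 2) + w) + v z (i + u) :=
    hxz _ (by rw [Finset.mem_Icc]; omega)
  have zi : v x i + v x (i + u) ≠ v z i + v z (i + u) := by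
    intro hc
    have hlt : i < q' := by
      rcases Nat.lt_or_ge i q' with h | h
      · exact h
      · exfalso
        have : q' = i := by omega
        rw [this] at hqz
        exact hqz hc
    refine h4 i q' q M hlt (by omega) (by omega) hMc ?_ x hx z hz y hy ?_ ?_ ?_ ?_ ?_ ?_
    · intro m hm
      rw [hM, Finset.mem_Icc] at hm
      omega
    · intro m hm
      exact base_eq _ _ _ _ _ _ (hzM m hm) hc
    · intro m hm
      exact base_eq _ _ _ _ _ _ (hyM m hm) yi
    · exact base_ne _ _ _ _ _ _ hqz hc
    · exact base_eq _ _ _ _ _ _ zq hc
    · exact base_eq _ _ _ _ _ _ yq' yi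
    · exact base_ne _ _ _ _ _ _ hqy yi
  have yj : v x (i + u + (a - 2) + w) + v x (i + u) ≠
      v y (i + u + (a - 2) + w) + v y (i + u) := by
    intro hc
    have hlt : q < i + u + (a - 2) + w := by
      rcases Nat.lt_or_ge q (i + u + (a - 2) + w) with h | h
      · exact h
      · exfalso
        have : q = i + u + (a - 2) + w := by omega
        rw [this] at hqy
        exact hqy hc
    refine h3 q' q (i + u + (a - 2) + w) M (by omega) hlt hL hMc ?_ x hx z hz y hy
      ?_ ?_ ?_ ?_ ?_ ?_
    · intro m hm
      rw [hM, Finset.mem_Icc] at hm
      omega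
    · intro m hm
      exact base_eq _ _ _ _ _ _ (hzM m hm) zj
    · intro m hm
      exact base_eq _ _ _ _ _ _ (hyM m hm) hc
    · exact base_ne _ _ _ _ _ _ hqz zj
    · exact base_eq _ _ _ _ _ _ zq zj
    · exact base_eq _ _ _ _ _ _ yq' hc
    · exact base_ne _ _ _ _ _ _ hqy hc
  exact ⟨base_ne' _ _ _ _ _ _ yi yj, base_ne _ _ _ _ _ _ zi zj⟩

/-- **The block lemma for an overlap of `a - 1` positions.** -/
theorem block_short {a L : ℕ} (ha : 2 ≤ a) (h3 : StarB a L F v) (h4 : StarBL a L F v)
    {i u w : ℕ} (hu : 1 ≤ u) (hw : 1 ≤ w) (hL : i + u + (a - 2) + w ≤ L) :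
    cnt F v (Icc i (i + u + (a - 2) + w)) ≤
      cnt F v (Icc i (i + u + (a - 2))) + cnt F v (Icc (i + u) (i + u + (a - 2) + w)) := by
  classical
  set I1 := Icc i (i + u + (a - 2)) with hI1
  set J1 := Icc (i + u) (i + u + (a - 2) + w) with hJ1
  set U := Icc i (i + u + (a - 2) + w) with hU
  set j0 := i + u + (a - 2) + w with hj0
  let g : ι → (ℕ → ℕ → ZMod 2) ⊕ (ℕ → ℕ → ZMod 2) := fun x =>
    if (∀ y ∈ F, cls v I1 x = cls v I1 y → cls v U x = cls v U y) then Sum.inl (cls v I1 x)
    else if (∀ z ∈ F, cls v J1 x = cls v J1 z → cls v U x = cls v U z) then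
      Sum.inr (cls v J1 x)
    else if v x i = v x j0 then Sum.inl (cls v I1 x) else Sum.inr (cls v J1 x)
  have hker : cnt F v U ≤ (F.image g).card := by
    unfold cnt
    refine card_image_le_of_ker F (cls v U) g ?_
    intro x hx x' hx' hg
    by_contra hne
    have hne' : cls v U x' ≠ cls v U x := fun h => hne h.symm
    by_cases A : ∀ y ∈ F, cls v I1 x = cls v I1 y → cls v U x = cls v U y
    · have g1 : g x = Sum.inl (cls v I1 x) := if_pos A
      by_cases A' : ∀ y ∈ F, cls v I1 x' = cls v I1 y → cls v U x' = cls v U y
      · have g2 : g x' = Sum.inl (cls v I1 x') := if_pos A'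
        rw [g1, g2] at hg
        exact hne (A x' hx' (Sum.inl.inj hg))
      · by_cases B' : ∀ z ∈ F, cls v J1 x' = cls v J1 z → cls v U x' = cls v U z
        · have g2 : g x' = Sum.inr (cls v J1 x') := by
            show (if _ then _ else _) = _
            rw [if_neg A', if_pos B']
          rw [g1, g2] at hg
          exact absurd hg (by simp)
        · by_cases C' : v x' i = v x' j0
          · have g2 : g x' = Sum.inl (cls v I1 x') := by
              show (if _ then _ else _) = _
              rw [if_neg A', if_neg B', if_pos C']
            rw [g1, g2] at hg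
            exact hne (A x' hx' (Sum.inl.inj hg))
          · have g2 : g x' = Sum.inr (cls v J1 x') := by
              show (if _ then _ else _) = _
              rw [if_neg A', if_neg B', if_neg C']
            rw [g1, g2] at hg
            exact absurd hg (by simp)
    · by_cases A' : ∀ y ∈ F, cls v I1 x' = cls v I1 y → cls v U x' = cls v U y
      · have g2 : g x' = Sum.inl (cls v I1 x') := if_pos A'
        rcases hgx : g x with c | c
        · rw [hgx, g2] at hg
          have hc : c = cls v I1 x' := Sum.inl.inj hg
          have hc' : c = cls v I1 x := by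
            have : g x = Sum.inl (cls v I1 x) ∨ g x = Sum.inr (cls v J1 x) := by
              show (if _ then _ else _) = _ ∨ (if _ then _ else _) = _
              split_ifs <;> simp
            rcases this with h | h
            · rw [hgx] at h; exact Sum.inl.inj h
            · rw [hgx] at h; exact absurd h (by simp)
          exact hne' (A' x hx (hc.symm.trans hc'))
        · rw [hgx, g2] at hg
          exact absurd hg (by simp)
      · by_cases B : ∀ z ∈ F, cls v J1 x = cls v J1 z → cls v U x = cls v U z
        · have g1 : g x = Sum.inr (cls v J1 x) := by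
            show (if _ then _ else _) = _
            rw [if_neg A, if_pos B]
          rcases hgx : g x' with c | c
          · rw [hgx, g1] at hg
            exact absurd hg (by simp)
          · rw [hgx, g1] at hg
            have hc : cls v J1 x = c := Sum.inr.inj hg
            have hc' : c = cls v J1 x' := by
              have : g x' = Sum.inl (cls v I1 x') ∨ g x' = Sum.inr (cls v J1 x') := by
                show (if _ then _ else _) = _ ∨ (if _ then _ else _) = _
                split_ifs <;> simp
              rcases this with h | h
              · rw [hgx] at h; exact absurd h (by simp)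
              · rw [hgx] at h; exact Sum.inr.inj h
            exact hne (B x' hx' (hc.trans hc'))
        · by_cases B' : ∀ z ∈ F, cls v J1 x' = cls v J1 z → cls v U x' = cls v U z
          · have g2 : g x' = Sum.inr (cls v J1 x') := by
              show (if _ then _ else _) = _
              rw [if_neg A', if_pos B']
            rcases hgx : g x with c | c
            · rw [hgx, g2] at hg
              exact absurd hg (by simp)
            · rw [hgx, g2] at hg
              have hc : c = cls v J1 x' := Sum.inr.inj hg
              have hc' : c = cls v J1 x := by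
                have : g x = Sum.inl (cls v I1 x) ∨ g x = Sum.inr (cls v J1 x) := by
                  show (if _ then _ else _) = _ ∨ (if _ then _ else _) = _
                  split_ifs <;> simp
                rcases this with h | h
                · rw [hgx] at h; exact absurd h (by simp)
                · rw [hgx] at h; exact Sum.inr.inj h
              exact hne' (B' x hx (hc.symm.trans hc'))
          · push Not at A B A' B'
            obtain ⟨y, hy, hy1, hy2⟩ := A
            obtain ⟨z, hz, hz1, hz2⟩ := B
            by_cases C : v x i = v x j0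
            · have g1 : g x = Sum.inl (cls v I1 x) := by
                show (if _ then _ else _) = _
                rw [if_neg (by push Not; exact ⟨y, hy, hy1, hy2⟩),
                  if_neg (by push Not; exact ⟨z, hz, hz1, hz2⟩), if_pos C]
              by_cases C' : v x' i = v x' j0
              · have g2 : g x' = Sum.inl (cls v I1 x') := by
                  show (if _ then _ else _) = _
                  rw [if_neg (by push Not; exact A'), if_neg (by push Not; exact B'), if_pos C']
                rw [g1, g2] at hg
                have k := (block_key ha h3 h4 hu hw hL hx hx' hz (Sum.inl.inj hg) hne hz1 hz2).1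
                apply k
                rw [← hj0, C, C', CharTwo.add_self_eq_zero, CharTwo.add_self_eq_zero]
              · have g2 : g x' = Sum.inr (cls v J1 x') := by
                  show (if _ then _ else _) = _
                  rw [if_neg (by push Not; exact A'), if_neg (by push Not; exact B'), if_neg C']
                rw [g1, g2] at hg
                exact absurd hg (by simp)
            · have g1 : g x = Sum.inr (cls v J1 x) := by
                show (if _ then _ else _) = _
                rw [if_neg (by push Not; exact ⟨y, hy, hy1, hy2⟩),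
                  if_neg (by push Not; exact ⟨z, hz, hz1, hz2⟩), if_neg C]
              by_cases C' : v x' i = v x' j0
              · have g2 : g x' = Sum.inl (cls v I1 x') := by
                  show (if _ then _ else _) = _
                  rw [if_neg (by push Not; exact A'), if_neg (by push Not; exact B'), if_pos C']
                rw [g1, g2] at hg
                exact absurd hg (by simp)
              · have g2 : g x' = Sum.inr (cls v J1 x') := by
                  show (if _ then _ else _) = _
                  rw [if_neg (by push Not; exact A'), if_neg (by push Not; exact B'), if_neg C']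
                rw [g1, g2] at hg
                have k := (block_key ha h3 h4 hu hw hL hx hy hx' hy1 hy2 (Sum.inr.inj hg) hne).2
                apply k
                have e : ∀ s t s' t' : ZMod 2, s ≠ t → s' ≠ t' → s + t = s' + t' := by decide
                exact e _ _ _ _ C C'
  refine hker.trans ?_
  have hsub : F.image g ⊆ (F.image (cls v I1)).disjSum (F.image (cls v J1)) := by
    intro c hc
    obtain ⟨x, hx, rfl⟩ := Finset.mem_image.1 hc
    have : g x = Sum.inl (cls v I1 x) ∨ g x = Sum.inr (cls v J1 x) := by
      show (if _ then _ else _) = _ ∨ (if _ then _ else _) = _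
      split_ifs <;> simp
    rcases this with h | h
    · rw [h]
      exact Finset.inl_mem_disjSum.2 (Finset.mem_image_of_mem _ hx)
    · rw [h]
      exact Finset.inr_mem_disjSum.2 (Finset.mem_image_of_mem _ hx)
  refine (Finset.card_le_card hsub).trans ?_
  rw [Finset.card_disjSum]
  exact le_rfl

end

end Pool.Agent.Lib.P68998g
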