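import Pool.Agent.Lib.P68998g.Pats

/-!
With the pattern `StarB` a family which branches at both ends lives on at most `2 * a - 1`
positions.
-/

namespace Pool.Agent.Lib.P68998g

open Finset

section

variable {ι : Type*} {F : Finset ι} {v : ι → ℕ → ZMod 2}

/-- if `x`, `x'` differ only at the first of `2 * a` positions, then every member of the family
has, relative to `x`, the same letter at the last two positions -/
lemma last_two {a L : ℕ} (ha : 2 ≤ a) (hF : Star a L F v) (hB : StarB a L F v) {i : ℕ}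
    (hd : i + (2 * a - 1) ≤ L) {x x' g : ι} (hx : x ∈ F) (hx' : x' ∈ F) (hg : g ∈ F)
    (h1 : ∀ p ∈ Icc (i + 1) (i + (2 * a - 1)), ∀ q ∈ Icc (i + 1) (i + (2 * a - 1)),
      v x p + v x q = v x' p + v x' q)
    (h2 : v x i + v x (i + 1) ≠ v x' i + v x' (i + 1)) :
    v x (i + (2 * a - 2)) + v g (i + (2 * a - 2)) =
      v x (i + (2 * a - 1)) + v g (i + (2 * a - 1)) := by
  classical
  by_contra hne
  have hi1 : i + 1 ∈ Icc (i + 1) (i + (2 * a - 1)) := by rw [Finset.mem_Icc]; omega
  -- the choice of the centre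
  obtain ⟨f, hf, f', hf', k1, k2, k3, k4⟩ : ∃ f ∈ F, ∃ f' ∈ F,
      (∀ p ∈ Icc (i + 1) (i + (2 * a - 1)), ∀ q ∈ Icc (i + 1) (i + (2 * a - 1)),
        v x p + v x q = v f p + v f q) ∧
      (∀ p ∈ Icc (i + 1) (i + (2 * a - 1)), ∀ q ∈ Icc (i + 1) (i + (2 * a - 1)),
        v f p + v f q = v f' p + v f' q) ∧
      v f i + v f (i + 1) ≠ v f' i + v f' (i + 1) ∧
      True := ⟨x, hx, x', hx', fun _ _ _ _ => rfl, h1, h2, trivial⟩
  clear k4
  set n1 := i + (2 * a - 1) with hn1
  set n2 := i + (2 * a - 2) with hn2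
  set J := Icc (i + 1) n2 with hJ
  set J' := Icc (i + 1) (n2 - 1) with hJ'
  set MA := J.filter fun q => v x q + v g q = v x n2 + v g n2 with hMA
  set MB := J'.filter fun q => v x q + v g q = v x n1 + v g n1 with hMB
  have hcard : MA.card + MB.card = 2 * a - 2 := by
    have e1 : MB = J.filter fun q => ¬ (v x q + v g q = v x n2 + v g n2) := by
      ext q
      rw [hMB, Finset.mem_filter, Finset.mem_filter, hJ, hJ', Finset.mem_Icc, Finset.mem_Icc]
      have key : ∀ s t r : ZMod 2, t ≠ r → (s = r ↔ ¬ s = t) := by decide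
      rw [key _ _ _ hne]
      constructor
      · rintro ⟨h, h'⟩
        exact ⟨by omega, h'⟩
      · rintro ⟨h, h'⟩
        refine ⟨?_, h'⟩
        have : q ≠ n2 := by rintro rfl; exact h' rfl
        omega
    rw [e1, hMA, Finset.card_filter_add_card_filter_not, hJ, Nat.card_Icc]
    omega
  -- a general form of the two patterns, with either centre
  have hA : MA.card < a := by
    by_contra hc
    push Not at hc
    have hm0 : n2 ∈ MA := by
      rw [hMA, Finset.mem_filter, hJ, Finset.mem_Icc]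
      exact ⟨by omega, rfl⟩
    have hin : ∀ m ∈ MA, m ∈ Icc (i + 1) n1 := by
      intro m hm
      have := (Finset.mem_filter.1 hm).1
      rw [hJ, Finset.mem_Icc] at this
      rw [Finset.mem_Icc]; omega
    have hn1I : n1 ∈ Icc (i + 1) n1 := by rw [Finset.mem_Icc]; omega
    have hn2I : n2 ∈ Icc (i + 1) n1 := by rw [Finset.mem_Icc]; omega
    have hMp : ∀ m ∈ MA, i < m ∧ m < n1 := by
      intro m hm
      have := (Finset.mem_filter.1 hm).1
      rw [hJ, Finset.mem_Icc] at this
      omega
    have agr : ∀ m ∈ MA, v x m + v x n2 = v g m + v g n2 := by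
      intro m hm
      have := (Finset.mem_filter.1 hm).2
      have key : ∀ s t r w : ZMod 2, s + t = r + w → s + r = t + w := by decide
      exact key _ _ _ _ this
    have hdiff : v x n1 + v x n2 ≠ v g n1 + v g n2 := by
      have key : ∀ s t r w : ZMod 2, ¬ s + t = r + w → r + s ≠ w + t := by decide
      exact key _ _ _ _ hne
    have hxx : v x i + v x n2 ≠ v x' i + v x' n2 := by
      have := h1 _ hi1 _ hn2I
      have key : ∀ s t r s' t' r' : ZMod 2, t + r = t' + r' → s + t ≠ s' + t' →
          s + r ≠ s' + r' := by decide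
      exact key _ _ _ _ _ _ this h2
    by_cases h0 : v x i + v x n2 = v g i + v g n2
    · exact hF i n1 MA hd hc hMp x hx x' hx' g hg n2 hm0
        (fun m hm => h1 m (hin m hm) n2 hn2I) agr hxx (h1 n1 hn1I n2 hn2I) h0 hdiff
    · have h0' : v x' i + v x' n2 = v g i + v g n2 := by
        have key : ∀ s t r : ZMod 2, s ≠ t → s ≠ r → t = r := by decide
        exact key _ _ _ hxx h0
      exact hF i n1 MA hd hc hMp x' hx' x hx g hg n2 hm0
        (fun m hm => (h1 m (hin m hm) n2 hn2I).symm)
        (fun m hm => (h1 m (hin m hm) n2 hn2I).symm.trans (agr m hm)) (Ne.symm hxx)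
        (h1 n1 hn1I n2 hn2I).symm h0' (fun h => hdiff ((h1 n1 hn1I n2 hn2I).trans h))
  have hB' : MB.card + 1 < a := by
    by_contra hc
    push Not at hc
    have hin : ∀ m ∈ MB, m ∈ Icc (i + 1) n1 := by
      intro m hm
      have := (Finset.mem_filter.1 hm).1
      rw [hJ', Finset.mem_Icc] at this
      rw [Finset.mem_Icc]; omega
    have hn1I : n1 ∈ Icc (i + 1) n1 := by rw [Finset.mem_Icc]; omega
    have hn2I : n2 ∈ Icc (i + 1) n1 := by rw [Finset.mem_Icc]; omega
    have hMp : ∀ m ∈ MB, i < m ∧ m < n2 := by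
      intro m hm
      have := (Finset.mem_filter.1 hm).1
      rw [hJ', Finset.mem_Icc] at this
      omega
    have agr : ∀ m ∈ MB, v x m + v x n1 = v g m + v g n1 := by
      intro m hm
      have := (Finset.mem_filter.1 hm).2
      have key : ∀ s t r w : ZMod 2, s + t = r + w → s + r = t + w := by decide
      exact key _ _ _ _ this
    have hdiff : v x n2 + v x n1 ≠ v g n2 + v g n1 := by
      have key : ∀ s t r w : ZMod 2, ¬ s + t = r + w → s + r ≠ t + w := by decide
      exact key _ _ _ _ hne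
    have hxx : v x i + v x n1 ≠ v x' i + v x' n1 := by
      have := h1 _ hi1 _ hn1I
      have key : ∀ s t r s' t' r' : ZMod 2, t + r = t' + r' → s + t ≠ s' + t' →
          s + r ≠ s' + r' := by decide
      exact key _ _ _ _ _ _ this h2
    by_cases h0 : v x i + v x n1 = v g i + v g n1
    · exact hB i n2 n1 MB (by omega) (by omega) hd hc hMp x hx x' hx' g hg
        (fun m hm => h1 m (hin m hm) n1 hn1I) agr hxx (h1 n2 hn2I n1 hn1I) h0 hdiff
    · have h0' : v x' i + v x' n1 = v g i + v g n1 := by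
        have key : ∀ s t r : ZMod 2, s ≠ t → s ≠ r → t = r := by decide
        exact key _ _ _ hxx h0
      exact hB i n2 n1 MB (by omega) (by omega) hd hc hMp x' hx' x hx g hg
        (fun m hm => (h1 m (hin m hm) n1 hn1I).symm)
        (fun m hm => (h1 m (hin m hm) n1 hn1I).symm.trans (agr m hm)) (Ne.symm hxx)
        (h1 n2 hn2I n1 hn1I).symm h0' (fun h => hdiff ((h1 n2 hn2I n1 hn1I).trans h))
  omega

/-- **A family which branches at both ends has at most `2 * a - 1` positions.** -/
theorem short_starB {a L : ℕ} (ha : 2 ≤ a) (hF : Star a L F v) (hB : StarB a L F v) {i d : ℕ}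
    (hd : i + (d + 1) ≤ L)
    (h1 : cnt F v (Icc (i + 1) (i + (d + 1))) < cnt F v (Icc i (i + (d + 1))))
    (h2 : cnt F v (Icc i (i + d)) < cnt F v (Icc i (i + (d + 1)))) : d + 1 ≤ 2 * a - 2 := by
  classical
  have h3 := short (by omega) hF hd h1 h2
  by_contra hcon
  have hd' : d + 1 = 2 * a - 1 := by omega
  obtain ⟨x, hx, x', hx', hxx, hxx'⟩ := exists_split h1
  obtain ⟨y, hy, y', hy', hyy, hyy'⟩ := exists_split h2
  have hb1 : i + 1 ∈ Icc (i + 1) (i + (d + 1)) := by rw [Finset.mem_Icc]; omega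
  have hb2 : i + (2 * a - 2) ∈ Icc i (i + d) := by rw [Finset.mem_Icc]; omega
  have e1 : Icc i (i + (d + 1)) = insert i (Icc (i + 1) (i + (d + 1))) := by
    ext q; simp only [Finset.mem_Icc, Finset.mem_insert]; omega
  have e2 : Icc i (i + (d + 1)) = insert (i + (d + 1)) (Icc i (i + d)) := by
    ext q; simp only [Finset.mem_Icc, Finset.mem_insert]; omega
  have kx : v x i + v x (i + 1) ≠ v x' i + v x' (i + 1) := by
    intro h
    apply hxx'
    rw [e1, cls_insert_iff hb1]
    exact ⟨hxx, h⟩
  have ky : v y (i + (d + 1)) + v y (i + (2 * a - 2)) ≠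
      v y' (i + (d + 1)) + v y' (i + (2 * a - 2)) := by
    intro h
    apply hyy'
    rw [e2, cls_insert_iff hb2]
    exact ⟨hyy, h⟩
  rw [hd'] at hxx hd ky
  have hxx1 := cls_eq_iff.1 hxx
  have g1 := last_two ha hF hB hd hx hx' hy hxx1 kx
  have g2 := last_two ha hF hB hd hx hx' hy' hxx1 kx
  apply ky
  have key : ∀ s t p q r w : ZMod 2, s + p = t + q → s + r = t + w → q + p = w + r := by decide
  exact key _ _ _ _ _ _ g1 g2

end

end Pool.Agent.Lib.P68998g
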