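import Pool.Agent.Lib.P68998g.BlockD
import Pool.Agent.Lib.P68998g.ShortB

/-!
From windows to all intervals: a bound `B` for all intervals with at most `(a - 1) + t` positions
gives `q * B` for intervals with at most `(a - 1) + t * q` positions and `⌈a / t⌉ * B` for all.
-/

namespace Pool.Agent.Lib.P68998g

open Finset

section

variable {ι : Type*} {F : Finset ι} {v : ι → ℕ → ZMod 2}

lemma cnt_mono_set {S T : Finset ℕ} (h : S ⊆ T) : cnt F v S ≤ cnt F v T := by
  classical
  unfold cnt
  refine card_image_le_of_ker F (cls v S) (cls v T) ?_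
  intro x _ y _ hxy
  rw [cls_eq_iff] at hxy ⊢
  intro p hp q hq
  exact hxy p (h hp) q (h hq)

/-- intervals with at most `(a - 1) + t * q` positions -/
theorem block_rank {a L B t : ℕ} (ha : 2 ≤ a) (h3 : StarB a L F v) (h4 : StarBL a L F v)
    (ht : 1 ≤ t)
    (hB : ∀ d i, d ≤ (a - 2) + t → i + d ≤ L → cnt F v (Icc i (i + d)) ≤ B) :
    ∀ q, 1 ≤ q → ∀ d i, d ≤ (a - 2) + t * q → i + d ≤ L → cnt F v (Icc i (i + d)) ≤ q * B := by
  intro q hq
  induction q, hq using Nat.le_induction with
  | base =>
    intro d i hd hi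
    rw [one_mul]
    exact hB d i (by omega) hi
  | succ q hq ih =>
    intro d i hd hi
    have e : t * (q + 1) = t * q + t := by ring
    by_cases hdt : d ≤ (a - 2) + t
    · have h1 := hB d i hdt hi
      have h2 : B ≤ (q + 1) * B := Nat.le_mul_of_pos_left B (by omega)
      exact h1.trans h2
    · obtain ⟨u, hu⟩ : ∃ u, d = u + (a - 2) + t := ⟨d - (a - 2) - t, by omega⟩
      have h1 := block_short ha h3 h4 (i := i) (u := u) (w := t) (by omega) ht (by omega)
      have h2 := ih (u + (a - 2)) i (by omega) (by omega)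
      have h5 := hB ((a - 2) + t) (i + u) le_rfl (by omega)
      have e1 : i + u + (a - 2) + t = i + d := by omega
      have e2 : i + (u + (a - 2)) = i + u + (a - 2) := by omega
      have e3 : i + u + (a - 2 + t) = i + d := by omega
      rw [e1] at h1
      rw [e2] at h2
      rw [e3] at h5
      rw [add_mul, one_mul]
      omega

lemma le_mul_ceil {a t : ℕ} (ht : 1 ≤ t) : a ≤ t * ((a + t - 1) / t) := by
  have h1 := Nat.div_add_mod (a + t - 1) t
  have h2 := Nat.mod_lt (a + t - 1) (show t > 0 by omega)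
  omega

/-- all intervals -/
theorem block_final {a L B t : ℕ} (ha : 2 ≤ a) (h1 : Star a L F v) (h3 : StarB a L F v)
    (h4 : StarBL a L F v) (ht : 1 ≤ t)
    (hB : ∀ d i, d ≤ (a - 2) + t → i + d ≤ L → cnt F v (Icc i (i + d)) ≤ B) :
    ∀ d i, i + d ≤ L → cnt F v (Icc i (i + d)) ≤ (a + t - 1) / t * B := by
  have hq : a ≤ t * ((a + t - 1) / t) := le_mul_ceil ht
  have hq1 : 1 ≤ (a + t - 1) / t := by
    rcases Nat.eq_zero_or_pos ((a + t - 1) / t) with h | h
    · rw [h] at hq; omega
    · exact h
  intro d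
  induction d with
  | zero =>
    intro i hi
    exact block_rank ha h3 h4 ht hB _ hq1 0 i (by omega) hi
  | succ d ih =>
    intro i hi
    by_cases c1 : cnt F v (Icc (i + 1) (i + (d + 1))) < cnt F v (Icc i (i + (d + 1)))
    · by_cases c2 : cnt F v (Icc i (i + d)) < cnt F v (Icc i (i + (d + 1)))
      · have h5 := short_starB ha h1 h3 hi c1 c2
        exact block_rank ha h3 h4 ht hB _ hq1 (d + 1) i (by omega) hi
      · have h5 := ih i (by omega)
        omega
    · have h5 := ih (i + 1) (by omega)
      rw [show i + 1 + d = i + (d + 1) by omega] at h5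
      omega

end

end Pool.Agent.Lib.P68998g
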