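import Pool.Agent.Lib.P68998g.OrderW

/-!
The star and the pair patterns with both bonuses.
-/

namespace Pool.Agent.Lib.P68998g

open Submodule Finset Pool.Agent.Lib.P68998c Pool.Agent.Lib.P68998f

universe u

/-- the score of a set of positions with respect to two positions: the number of elements in
between, one more if there is an element before, one more if there is an element behind -/
def score (M : Finset ℕ) (p p' : ℕ) : ℕ :=
  (M.filter fun m => p < m ∧ m < p').card + (if ∃ m ∈ M, m < p then 1 else 0) +
    (if ∃ m ∈ M, p' < m then 1 else 0)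

section

variable {ι : Type*}

/-- the triple condition with both bonuses -/
def StarAll (a L : ℕ) (F : Finset ι) (v : ι → ℕ → ZMod 2) : Prop :=
  ∀ (p p' : ℕ) (M : Finset ℕ), p < p' → p' ≤ L → (∀ m ∈ M, m ≤ L) → a ≤ score M p p' →
    ∀ x ∈ F, ∀ y ∈ F, ∀ z ∈ F, ∀ m₀ ∈ M,
      (∀ m ∈ M, v x m + v x m₀ = v y m + v y m₀) → (∀ m ∈ M, v x m + v x m₀ = v z m + v z m₀) →
      v x p + v x m₀ ≠ v y p + v y m₀ → v x p' + v x m₀ = v y p' + v y m₀ →
      v x p + v x m₀ = v z p + v z m₀ → v x p' + v x m₀ ≠ v z p' + v z m₀ → False

/-- the pair condition with both bonuses -/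
def PairAll (a L : ℕ) (F : Finset ι) (v : ι → ℕ → ZMod 2) : Prop :=
  ∀ (p p' : ℕ) (M : Finset ℕ), p < p' → p' ≤ L → (∀ m ∈ M, m ≤ L) → a + 1 ≤ score M p p' →
    ∀ x ∈ F, ∀ y ∈ F, ∀ m₀ ∈ M,
      (∀ m ∈ M, v x m + v x m₀ = v y m + v y m₀) →
      v x p + v x m₀ ≠ v y p + v y m₀ → v x p' + v x m₀ ≠ v y p' + v y m₀ → False

lemma zmod2_eq {s r s' r' : ZMod 2} (h : s + r = s' + r') : s + s' = (r + r') + 0 := by
  revert s r s' r'; decide

lemma zmod2_ne {s r s' r' : ZMod 2} (h : s + r ≠ s' + r') : s + s' = (r + r') + 1 := by
  revert s r s' r'; decide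

end

section

variable {V : Type u} [AddCommGroup V] [Module (ZMod 2) V]
variable {E : Set V} {y : ℕ → V} {k : ℕ} {C : Finset V} {Φ : V →ₗ[ZMod 2] (ℕ → ZMod 2)}

/-- an admissible order with prescribed ends and the other positions in `M` -/
lemma exists_order (hy : FanPath E y k) {p p' n : ℕ} {M : Finset ℕ} (hpp : p < p')
    (hp' : p' ≤ k + 1) (hM : ∀ m ∈ M, m ≤ k + 1) (hn : n ≤ score M p p') :
    ∃ (e : ℕ → ℕ) (z : ℕ → V), AdmOrd E y k (n + 1) e z ∧ e 0 = p ∧ e (n + 1) = p' ∧
      ∀ i, 0 < i → i < n + 1 → e i ∈ M := by
  classical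
  set B := M.filter fun m => p < m ∧ m < p' with hB
  -- enumeration of `l` positions in between
  have henum : ∀ l ≤ B.card, ∃ f : ℕ → ℕ, (∀ i j, i < j → j < l → f i < f j) ∧
      ∀ i < l, f i ∈ M ∧ p < f i ∧ f i < p' := by
    intro l hl
    obtain ⟨B', hB'B, hB'⟩ := Finset.exists_subset_card_eq hl
    obtain ⟨f, hf1, hf2⟩ := exists_enum_lt B'
    rw [hB'] at hf1 hf2
    refine ⟨f, hf1, fun i hi => ?_⟩
    have h1 := hB'B (hf2 i hi)
    rw [hB, Finset.mem_filter] at h1
    exact ⟨h1.1, h1.2.1, h1.2.2⟩
  by_cases c1 : n ≤ B.card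
  · obtain ⟨f, hf1, hf2⟩ := henum n c1
    set e : ℕ → ℕ := fun i => if i = 0 then p else if i ≤ n then f (i - 1) else p' with he
    have hmono : ∀ i j, i < j → j ≤ n + 1 → e i < e j := by
      intro i j hij hj
      simp only [he]
      split_ifs <;> first
        | omega
        | (have := hf2 (j - 1) (by omega); omega)
        | (have := hf2 (i - 1) (by omega); omega)
        | (have := hf1 (i - 1) (j - 1) (by omega) (by omega); omega)
    have elast : e (n + 1) = p' := by
      simp only [he]; rw [if_neg (by omega), if_neg (by omega)]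
    refine ⟨e, _, admOrd_mono hy hmono (by rw [elast]; exact hp'), by simp [he], elast, ?_⟩
    intro i hi1 hi2
    simp only [he]
    rw [if_neg (by omega), if_pos (by omega)]
    exact (hf2 _ (by omega)).1
  · unfold score at hn
    rw [← hB] at hn
    by_cases c2 : (∃ m ∈ M, m < p) ∧ n ≤ B.card + 1
    · -- one position before `p`
      obtain ⟨⟨s, hsM, hsp⟩, hn1⟩ := c2
      obtain ⟨l, rfl⟩ : ∃ l, n = l + 1 := ⟨n - 1, by omega⟩
      obtain ⟨f, hf1, hf2⟩ := henum l (by omega)
      set e : ℕ → ℕ := fun i => if i = 0 then s else if i = 1 then p else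
        if i ≤ l + 1 then f (i - 2) else p' with he
      have hmono : ∀ i j, i < j → j ≤ l + 1 + 1 → e i < e j := by
        intro i j hij hj
        simp only [he]
        split_ifs <;> first
          | omega
          | (have := hf2 (j - 2) (by omega); omega)
          | (have := hf2 (i - 2) (by omega); omega)
          | (have := hf1 (i - 2) (j - 2) (by omega) (by omega); omega)
      have e0 : e 0 = s := by simp [he]
      have e1 : e 1 = p := by simp [he]
      have elast : e (l + 1 + 1) = p' := by
        simp only [he]; rw [if_neg (by omega), if_neg (by omega), if_neg (by omega)]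
      refine ⟨_, _, (admOrd_mono hy hmono (by rw [elast]; exact hp')).swapFirst hy (by omega),
        ?_, ?_, ?_⟩
      · rw [swp_left, e1]
      · rw [swp_ne (by omega) (by omega), elast]
      · intro i hi1 hi2
        by_cases h1 : i = 1
        · rw [h1, swp_right (by omega), e0]; exact hsM
        · rw [swp_ne (by omega) h1]
          simp only [he]
          rw [if_neg (by omega), if_neg (by omega), if_pos (by omega)]
          exact (hf2 _ (by omega)).1
    · by_cases c3 : (∃ m ∈ M, p' < m) ∧ n ≤ B.card + 1
      · -- one position behind `p'`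
        obtain ⟨⟨s, hsM, hsp⟩, hn1⟩ := c3
        obtain ⟨l, rfl⟩ : ∃ l, n = l + 1 := ⟨n - 1, by omega⟩
        obtain ⟨f, hf1, hf2⟩ := henum l (by omega)
        set e : ℕ → ℕ := fun i => if i = 0 then p else
          if i ≤ l then f (i - 1) else if i = l + 1 then p' else s with he
        have hmono : ∀ i j, i < j → j ≤ l + 1 + 1 → e i < e j := by
          intro i j hij hj
          simp only [he]
          split_ifs <;> first
            | omega
            | (have := hf2 (j - 1) (by omega); omega)
            | (have := hf2 (i - 1) (by omega); omega)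
            | (have := hf1 (i - 1) (j - 1) (by omega) (by omega); omega)
        have e0 : e 0 = p := by simp [he]
        have e1 : e (l + 1) = p' := by
          simp only [he]; rw [if_neg (by omega), if_neg (by omega)]; simp
        have elast : e (l + 1 + 1) = s := by
          simp only [he]; rw [if_neg (by omega), if_neg (by omega), if_neg (by omega)]
        refine ⟨_, _, (admOrd_mono hy hmono (by rw [elast]; exact hM s hsM)).swapLast hy,
          ?_, ?_, ?_⟩
        · rw [swp_ne (by omega) (by omega), e0]
        · rw [swp_right (by omega), e1]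
        · intro i hi1 hi2
          by_cases h1 : i = l + 1
          · rw [h1, swp_left, elast]; exact hsM
          · rw [swp_ne h1 (by omega)]
            simp only [he]
            rw [if_neg (by omega), if_pos (by omega)]
            exact (hf2 _ (by omega)).1
      · -- both
        have hboth : (∃ m ∈ M, m < p) ∧ (∃ m ∈ M, p' < m) ∧ n = B.card + 2 := by
          by_cases q1 : ∃ m ∈ M, m < p
          · by_cases q2 : ∃ m ∈ M, p' < m
            · rw [if_pos q1, if_pos q2] at hn
              refine ⟨q1, q2, ?_⟩
              have : ¬ n ≤ B.card + 1 := fun h => c2 ⟨q1, h⟩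
              omega
            · rw [if_pos q1, if_neg q2] at hn
              exact absurd ⟨q1, by omega⟩ c2
          · by_cases q2 : ∃ m ∈ M, p' < m
            · rw [if_neg q1, if_pos q2] at hn
              exact absurd ⟨q2, by omega⟩ c3
            · rw [if_neg q1, if_neg q2] at hn
              omega
        obtain ⟨⟨s, hsM, hsp⟩, ⟨t, htM, htp⟩, hn2⟩ := hboth
        obtain ⟨l, rfl⟩ : ∃ l, n = l + 2 := ⟨n - 2, by omega⟩
        obtain ⟨f, hf1, hf2⟩ := henum l (by omega)
        set e : ℕ → ℕ := fun i => if i = 0 then s else if i = 1 then p else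
          if i ≤ l + 1 then f (i - 2) else if i = l + 2 then p' else t with he
        have hmono : ∀ i j, i < j → j ≤ l + 2 + 1 → e i < e j := by
          intro i j hij hj
          simp only [he]
          split_ifs <;> first
            | omega
            | (have := hf2 (j - 2) (by omega); omega)
            | (have := hf2 (i - 2) (by omega); omega)
            | (have := hf1 (i - 2) (j - 2) (by omega) (by omega); omega)
        have e0 : e 0 = s := by simp [he]
        have e1 : e 1 = p := by simp [he]
        have e2 : e (l + 2) = p' := by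
          simp only [he]
          rw [if_neg (by omega), if_neg (by omega), if_neg (by omega)]; simp
        have elast : e (l + 2 + 1) = t := by
          simp only [he]
          rw [if_neg (by omega), if_neg (by omega), if_neg (by omega), if_neg (by omega)]
        have hA := (admOrd_mono hy hmono (by rw [elast]; exact hM t htM)).swapFirst hy (by omega)
        have hA2 := hA.swapLast hy
        refine ⟨_, _, hA2, ?_, ?_, ?_⟩
        · rw [swp_ne (by omega) (by omega), swp_left, e1]
        · rw [swp_right (by omega), swp_ne (by omega) (by omega), e2]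
        · intro i hi1 hi2
          by_cases h1 : i = l + 2
          · rw [h1, swp_left, swp_ne (by omega) (by omega), elast]; exact htM
          · rw [swp_ne h1 (by omega)]
            by_cases h3 : i = 1
            · rw [h3, swp_right (by omega), e0]; exact hsM
            · rw [swp_ne (by omega) h3]
              simp only [he]
              rw [if_neg (by omega), if_neg (by omega), if_pos (by omega)]
              exact (hf2 _ (by omega)).1

/-- **The triple condition with both bonuses.** -/
theorem Coord.starAll (hc : Coord E y k C Φ) {a : ℕ} (hW : ¬ HasWheel (a + 1) E) :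
    StarAll a (k + 1) C (fun x : V => Φ x) := by
  intro p p' M hpp hp' hM hs x hx g hg h hh m₀ hm₀ hxg hxh h1 h2 h3 h4
  obtain ⟨e, z, hA, e0, e1, e2⟩ := exists_order hc.fan hpp hp' hM hs
  refine hW (hc.star hA hx hg hh (Φ x m₀ + Φ g m₀) (Φ x m₀ + Φ h m₀) ?_ ?_)
  · intro i hi
    by_cases q0 : i = 0
    · rw [if_pos q0, q0, e0]; exact zmod2_ne h1
    · rw [if_neg q0]
      by_cases q1 : i = a + 1
      · rw [q1, e1]; exact zmod2_eq h2
      · exact zmod2_eq (hxg _ (e2 i (by omega) (by omega)))
  · intro i hi
    by_cases q1 : i = a + 1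
    · rw [if_pos q1, q1, e1]; exact zmod2_ne h4
    · rw [if_neg q1]
      by_cases q0 : i = 0
      · rw [q0, e0]; exact zmod2_eq h3
      · exact zmod2_eq (hxh _ (e2 i (by omega) (by omega)))

/-- **The pair condition with both bonuses.** -/
theorem Coord.pairAll (hc : Coord E y k C Φ) {a : ℕ} (hW : ¬ HasWheel (a + 1) E) :
    PairAll a (k + 1) C (fun x : V => Φ x) := by
  intro p p' M hpp hp' hM hs x hx g hg m₀ hm₀ hxg h1 h2
  obtain ⟨e, z, hA, e0, e1, e2⟩ := exists_order hc.fan hpp hp' hM hs
  refine hW (hc.pair hA hx hg (Φ x m₀ + Φ g m₀) ?_)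
  intro i hi
  by_cases q0 : i = 0
  · rw [if_pos q0, if_neg (by omega), q0, e0, add_zero]; exact zmod2_ne h1
  · rw [if_neg q0]
    by_cases q1 : i = a + 2
    · rw [if_pos q1, q1, zero_add]
      have : e (a + 2) = p' := e1
      rw [this]; exact zmod2_ne h2
    · rw [if_neg q1, add_zero]
      exact zmod2_eq (hxg _ (e2 i (by omega) (by omega)))

end

end Pool.Agent.Lib.P68998g
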