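import Mathlib

/-!
A finite extremal problem on words with eight letters: four letters to the left and four letters to
the right of a gap. A family of such words without forbidden pairs and forbidden triples has at
most sixteen members. The finite checks are done by the kernel.
-/

namespace Pool.Agent.Lib.P68998g

namespace FC

/-- the letters strictly between `p` and `q` at which both differences vanish -/
def btw (p q d e : ℕ) : List ℕ :=
  (List.range 8).filter fun k => decide (p < k) && decide (k < q) && !d.testBit k && !e.testBit k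

/-- forbidden difference of two words -/
def bad2 (d : ℕ) : Bool :=
  (List.range 4).any fun p => d.testBit p && ([4, 5, 6, 7] : List ℕ).any fun q => d.testBit q &&
    decide (4 ≤ (btw p q d 0).length)

/-- forbidden differences of a word to two others -/
def bad3 (d e : ℕ) : Bool :=
  (List.range 4).any fun p => (d.testBit p && !e.testBit p) &&
    ([4, 5, 6, 7] : List ℕ).any fun q => (e.testBit q && !d.testBit q) &&
      (decide (3 ≤ (btw p q d e).length) || (decide (2 ≤ (btw p q d e).length) &&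
        ((List.range 8).any fun k => (decide (q < k) || decide (k < p)) &&
          !d.testBit k && !e.testBit k)))

/-- a list of words contains a forbidden triple -/
def conf (ws : List ℕ) : Bool :=
  ws.any fun x => ws.any fun y => ws.any fun z => bad3 (x ^^^ y) (x ^^^ z)

/-- the witnesses of a label -/
def wit (Z : ℕ) : List (List ℕ) :=
  if Z = 0 then [[0], [1], [2], [3]] else if Z = 1 then [[0, 1], [0, 3], [2, 1], [2, 3]]
  else if Z = 2 then [[0, 2], [1, 3]] else [[0, 1, 2, 3]]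

/-- change of the window pattern for a column label -/
def zc (Z : ℕ) : ℕ := if Z = 0 then 0 else if Z = 1 then 32 else if Z = 2 then 16 else 48

/-- change of the window pattern for a row label -/
def zr (Z : ℕ) : ℕ := if Z = 0 then 0 else if Z = 1 then 4 else if Z = 2 then 8 else 12

/-- the letters to the right of the window -/
def rc (c : ℕ) : ℕ := if c = 0 then 0 else if c = 1 then 128 else if c = 2 then 64 else 192

def checkCC : Bool :=
  (List.range 4).all fun Z => (List.range 4).all fun Y => decide (Z = Y) ||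
    (wit Z).all fun a => (wit Y).all fun b => ([0, 64, 128, 192] : List ℕ).all fun r =>
      conf (a ++ b.map fun c => c ^^^ (zc Z ^^^ zc Y ^^^ r))

def checkRR : Bool :=
  (List.range 4).all fun Z => (List.range 4).all fun Y => decide (Z = Y) ||
    (wit Z).all fun a => (wit Y).all fun b => ([0, 1, 2, 3] : List ℕ).all fun r =>
      conf (a.map rc ++ b.map fun c => rc c ^^^ (zr Z ^^^ zr Y ^^^ r))

def checkCR : Bool :=
  (List.range 4).all fun Z => (List.range 4).all fun Y =>
    (decide (Z = 0) && decide (Y = 0)) || (decide (Z = 3) && decide (Y = 3)) ||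
    (wit Z).all fun a => (wit Y).all fun b =>
      conf (a ++ b.map fun c => rc c ^^^ (zc Z ^^^ zr Y))

/-- the words which are compatible with a full column and a full row -/
def compat : List ℕ :=
  (List.range 256).filter fun w => !conf ([0, 1, 2, 3, 60, 188, 124, 252] ++ [w])

theorem checkCC_true : checkCC = true := by decide +kernel

theorem checkRR_true : checkRR = true := by decide +kernel

theorem checkCR_true : checkCR = true := by decide +kernel

theorem compat_length : compat.length ≤ 16 := by decide +kernel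

/-- the labels of a set of two letter words -/
def Lam (A : Finset ℕ) : Finset ℕ :=
  (Finset.range 4).filter fun Z => ∃ l ∈ wit Z, ∀ c ∈ l, c ∈ A

lemma Lam_card : ∀ A ∈ (Finset.range 4).powerset, (Lam A).card = A.card := by decide +kernel

lemma split_word : ∀ w < 256, (w &&& 3) ^^^ ((w &&& 60) ^^^ (w &&& 192)) = w := by decide +kernel

/-- the inverse of `rc` -/
def cr (r : ℕ) : ℕ := if r = 0 then 0 else if r = 128 then 1 else if r = 64 then 2 else 3

lemma rc_cr : ∀ w < 256, rc (cr (w &&& 192)) = w &&& 192 := by decide +kernel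

lemma cr_lt (r : ℕ) : cr r < 4 := by
  unfold cr
  split_ifs <;> omega

lemma and3 : ∀ w < 256, w &&& 3 < 4 := by decide +kernel

lemma and192 : ∀ w < 256, w &&& 192 ∈ ([0, 64, 128, 192] : List ℕ) := by decide +kernel

lemma and3' : ∀ w < 256, w &&& 3 ∈ ([0, 1, 2, 3] : List ℕ) := by decide +kernel

lemma xor_mem : ∀ r ∈ ([0, 64, 128, 192] : List ℕ), ∀ r' ∈ ([0, 64, 128, 192] : List ℕ),
    r ^^^ r' ∈ ([0, 64, 128, 192] : List ℕ) := by decide

lemma xor_mem' : ∀ r ∈ ([0, 1, 2, 3] : List ℕ), ∀ r' ∈ ([0, 1, 2, 3] : List ℕ),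
    r ^^^ r' ∈ ([0, 1, 2, 3] : List ℕ) := by decide

lemma pure_word : ∀ d < 256, d &&& 60 = 0 → d &&& 3 ≠ 0 → d &&& 192 ≠ 0 → bad2 d = true := by
  decide +kernel

lemma wit_shift : ∀ Z < 4, ∀ a ∈ wit Z, ∀ l ∈ ([0, 1, 2, 3] : List ℕ),
    ∃ a' ∈ wit Z, ∀ c ∈ a', c ^^^ l ∈ a := by decide +kernel

lemma wit_shift' : ∀ Z < 4, ∀ b ∈ wit Z, ∀ r ∈ ([0, 64, 128, 192] : List ℕ),
    ∃ b' ∈ wit Z, ∀ c ∈ b', ∃ c' ∈ b, rc c ^^^ r = rc c' := by decide +kernel

lemma xor_key {c p q r r' k k' : ℕ} (e : k ^^^ p = k' ^^^ q) :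
    (c ^^^ (p ^^^ q ^^^ (r ^^^ r'))) ^^^ (k ^^^ r) = c ^^^ (k' ^^^ r') := by
  apply Nat.eq_of_testBit_eq
  intro i
  have h := congrArg (fun t => Nat.testBit t i) e
  simp only [Nat.testBit_xor] at h ⊢
  revert h
  generalize c.testBit i = b1
  generalize p.testBit i = b2
  generalize q.testBit i = b3
  generalize r.testBit i = b4
  generalize r'.testBit i = b5
  generalize k.testBit i = b6
  generalize k'.testBit i = b7
  revert b1 b2 b3 b4 b5 b6 b7
  decide

lemma xor_key2 {c p q r l k k' : ℕ} (e : k ^^^ p = k' ^^^ q) :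
    (c ^^^ (p ^^^ q)) ^^^ (k ^^^ (r ^^^ l)) = (c ^^^ r) ^^^ (k' ^^^ l) := by
  apply Nat.eq_of_testBit_eq
  intro i
  have h := congrArg (fun t => Nat.testBit t i) e
  simp only [Nat.testBit_xor] at h ⊢
  revert h
  generalize c.testBit i = b1
  generalize p.testBit i = b2
  generalize q.testBit i = b3
  generalize r.testBit i = b4
  generalize l.testBit i = b5
  generalize k.testBit i = b6
  generalize k'.testBit i = b7
  revert b1 b2 b3 b4 b5 b6 b7
  decide

lemma xor_key3 {c r l k : ℕ} : c ^^^ (k ^^^ (r ^^^ l)) = (c ^^^ l) ^^^ (k ^^^ r) := by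
  apply Nat.eq_of_testBit_eq
  intro i
  simp only [Nat.testBit_xor]
  generalize c.testBit i = b1
  generalize r.testBit i = b4
  generalize l.testBit i = b5
  generalize k.testBit i = b6
  revert b1 b4 b5 b6
  decide

lemma xor_cancel (x y t : ℕ) : (x ^^^ t) ^^^ (y ^^^ t) = x ^^^ y := by
  apply Nat.eq_of_testBit_eq
  intro i
  simp only [Nat.testBit_xor]
  generalize x.testBit i = b1
  generalize y.testBit i = b4
  generalize t.testBit i = b5
  revert b1 b4 b5
  decide

lemma xor_eq_of {k k' p : ℕ} (e : k ^^^ p = k' ^^^ p) : k = k' := by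
  apply Nat.eq_of_testBit_eq
  intro i
  have h := congrArg (fun t => Nat.testBit t i) e
  simp only [Nat.testBit_xor] at h
  revert h
  generalize k.testBit i = b1
  generalize k'.testBit i = b4
  generalize p.testBit i = b5
  revert b1 b4 b5
  decide

variable {S : Finset ℕ}

lemma not_conf (h3 : ∀ x ∈ S, ∀ y ∈ S, ∀ z ∈ S, bad3 (x ^^^ y) (x ^^^ z) = false) {t : ℕ}
    {ws : List ℕ} (h : ∀ w ∈ ws, w ^^^ t ∈ S) : conf ws = false := by
  rw [Bool.eq_false_iff]
  intro hc
  simp only [conf, List.any_eq_true] at hc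
  obtain ⟨x, hx, y, hy, z, hz, hb⟩ := hc
  have h5 := h3 _ (h x hx) _ (h y hy) _ (h z hz)
  rw [xor_cancel, xor_cancel, hb] at h5
  exact Bool.noConfusion h5

/-- **The finite extremal problem.** -/
theorem card_le (hS : ∀ w ∈ S, w < 256)
    (h2 : ∀ x ∈ S, ∀ y ∈ S, bad2 (x ^^^ y) = false)
    (h3 : ∀ x ∈ S, ∀ y ∈ S, ∀ z ∈ S, bad3 (x ^^^ y) (x ^^^ z) = false) : S.card ≤ 16 := by
  classical
  set cell : ℕ → Finset ℕ := fun κ => S.filter fun w => w &&& 60 = κ with hcell
  have hcS : ∀ κ, ∀ w ∈ cell κ, w ∈ S := fun κ w hw => (Finset.mem_filter.1 hw).1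
  have hck : ∀ κ, ∀ w ∈ cell κ, w &&& 60 = κ := fun κ w hw => (Finset.mem_filter.1 hw).2
  set P := S.image fun w => w &&& 60 with hP
  have hPne : ∀ κ ∈ P, (cell κ).Nonempty := by
    intro κ hκ
    obtain ⟨x, hx, hxκ⟩ := Finset.mem_image.1 hκ
    exact ⟨x, Finset.mem_filter.2 ⟨hx, hxκ⟩⟩
  have hinj : ∀ κ, ∀ x ∈ cell κ, ∀ y ∈ cell κ, x &&& 3 = y &&& 3 → x &&& 192 = y &&& 192 →
      x = y := by
    intro κ x hx y hy e1 e2
    rw [← split_word x (hS x (hcS κ x hx)), ← split_word y (hS y (hcS κ y hy)), e1, e2,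
      hck κ x hx, hck κ y hy]
  have hside : ∀ κ, ∀ x ∈ cell κ, ∀ y ∈ cell κ, x &&& 3 = y &&& 3 ∨ x &&& 192 = y &&& 192 := by
    intro κ x hx y hy
    by_contra hcon
    push Not at hcon
    have hxy : x ^^^ y < 256 := Nat.xor_lt_two_pow (n := 8) (hS x (hcS κ x hx)) (hS y (hcS κ y hy))
    have e1 : (x ^^^ y) &&& 60 = 0 := by
      rw [Nat.and_xor_distrib_right, hck κ x hx, hck κ y hy, Nat.xor_self]
    have e2 : (x ^^^ y) &&& 3 ≠ 0 := by
      rw [Nat.and_xor_distrib_right]
      intro h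
      exact hcon.1 (Nat.xor_eq_zero_iff.1 h)
    have e3 : (x ^^^ y) &&& 192 ≠ 0 := by
      rw [Nat.and_xor_distrib_right]
      intro h
      exact hcon.2 (Nat.xor_eq_zero_iff.1 h)
    have e4 := pure_word _ hxy e1 e2 e3
    rw [h2 x (hcS κ x hx) y (hcS κ y hy)] at e4
    exact Bool.noConfusion e4
  set Col : ℕ → Prop := fun κ => ∀ x ∈ cell κ, ∀ y ∈ cell κ, x &&& 192 = y &&& 192 with hCol
  have hrow : ∀ κ, ¬ Col κ → ∀ x ∈ cell κ, ∀ y ∈ cell κ, x &&& 3 = y &&& 3 := by
    intro κ hκ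
    simp only [hCol] at hκ
    push Not at hκ
    obtain ⟨x₀, hx₀, y₀, hy₀, h0⟩ := hκ
    have hl₀ : x₀ &&& 3 = y₀ &&& 3 := by
      rcases hside κ x₀ hx₀ y₀ hy₀ with h | h
      · exact h
      · exact absurd h h0
    have key : ∀ x ∈ cell κ, x &&& 3 = x₀ &&& 3 := by
      intro x hx
      by_contra hcon
      have r1 : x &&& 192 = x₀ &&& 192 := by
        rcases hside κ x hx x₀ hx₀ with h | h
        · exact absurd h hcon
        · exact h
      have r2 : x &&& 192 = y₀ &&& 192 := by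
        rcases hside κ x hx y₀ hy₀ with h | h
        · exact absurd (h.trans hl₀.symm) hcon
        · exact h
      exact h0 (r1.symm.trans r2)
    intro x hx y hy
    exact (key x hx).trans (key y hy).symm
  set A : ℕ → Finset ℕ := fun κ => (cell κ).image fun w => w &&& 3 with hA
  set B : ℕ → Finset ℕ := fun κ => (cell κ).image fun w => cr (w &&& 192) with hB
  have hAr : ∀ κ, A κ ∈ (Finset.range 4).powerset := by
    intro κ
    rw [Finset.mem_powerset]
    intro c hc
    obtain ⟨w, hw, rfl⟩ := Finset.mem_image.1 hc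
    exact Finset.mem_range.2 (and3 w (hS w (hcS κ w hw)))
  have hBr : ∀ κ, B κ ∈ (Finset.range 4).powerset := by
    intro κ
    rw [Finset.mem_powerset]
    intro c hc
    obtain ⟨w, hw, rfl⟩ := Finset.mem_image.1 hc
    exact Finset.mem_range.2 (cr_lt _)
  have hAmem : ∀ κ, Col κ → (cell κ).Nonempty → ∃ r ∈ ([0, 64, 128, 192] : List ℕ),
      ∀ c ∈ A κ, c ^^^ (κ ^^^ r) ∈ S := by
    intro κ hκ ⟨x₀, hx₀⟩
    refine ⟨x₀ &&& 192, and192 x₀ (hS x₀ (hcS κ x₀ hx₀)), fun c hc => ?_⟩
    obtain ⟨w, hw, rfl⟩ := Finset.mem_image.1 hc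
    have h5 := split_word w (hS w (hcS κ w hw))
    rw [hck κ w hw, hκ w hw x₀ hx₀] at h5
    rw [h5]
    exact hcS κ w hw
  have hBmem : ∀ κ, ¬ Col κ → (cell κ).Nonempty → ∃ l ∈ ([0, 1, 2, 3] : List ℕ),
      ∀ c ∈ B κ, rc c ^^^ (κ ^^^ l) ∈ S := by
    intro κ hκ ⟨x₀, hx₀⟩
    refine ⟨x₀ &&& 3, and3' x₀ (hS x₀ (hcS κ x₀ hx₀)), fun c hc => ?_⟩
    obtain ⟨w, hw, rfl⟩ := Finset.mem_image.1 hc
    have h5 := split_word w (hS w (hcS κ w hw))
    rw [hck κ w hw, hrow κ hκ w hw x₀ hx₀] at h5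
    rw [rc_cr w (hS w (hcS κ w hw)), Nat.xor_comm κ, ← Nat.xor_assoc, Nat.xor_comm (w &&& 192),
      Nat.xor_assoc, Nat.xor_comm (w &&& 192), h5]
    exact hcS κ w hw
  set Lab : ℕ → Finset ℕ := fun κ => if Col κ
    then (Lam (A κ)).image (fun Z => κ ^^^ zc Z)
    else (Lam (B κ)).image (fun Z => κ ^^^ zr Z) with hLab
  have hLamr : ∀ A : Finset ℕ, ∀ Z ∈ Lam A, Z < 4 := fun A Z hZ =>
    Finset.mem_range.1 (Finset.mem_filter.1 hZ).1
  have hzc : ∀ Z < 4, ∀ Y < 4, zc Z = zc Y → Z = Y := by decide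
  have hzr : ∀ Z < 4, ∀ Y < 4, zr Z = zr Y → Z = Y := by decide
  have hLabcard : ∀ κ, (Lab κ).card = (cell κ).card := by
    intro κ
    simp only [hLab]
    by_cases hκ : Col κ
    · rw [if_pos hκ, Finset.card_image_of_injOn, Lam_card _ (hAr κ), hA]
      · refine Finset.card_image_of_injOn fun x hx y hy h => ?_
        exact hinj κ x hx y hy h (hκ x hx y hy)
      · intro Z hZ Y hY h
        simp only at h
        rw [Nat.xor_comm κ, Nat.xor_comm κ] at h
        exact hzc Z (hLamr _ Z hZ) Y (hLamr _ Y hY) (xor_eq_of h)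
    · rw [if_neg hκ, Finset.card_image_of_injOn, Lam_card _ (hBr κ), hB]
      · refine Finset.card_image_of_injOn fun x hx y hy h => ?_
        have h5 := congrArg rc h
        rw [rc_cr x (hS x (hcS κ x hx)), rc_cr y (hS y (hcS κ y hy))] at h5
        exact hinj κ x hx y hy (hrow κ hκ x hx y hy) h5
      · intro Z hZ Y hY h
        simp only at h
        rw [Nat.xor_comm κ, Nat.xor_comm κ] at h
        exact hzr Z (hLamr _ Z hZ) Y (hLamr _ Y hY) (xor_eq_of h)
  have hLam : ∀ A : Finset ℕ, ∀ Z ∈ Lam A, ∃ l ∈ wit Z, ∀ c ∈ l, c ∈ A := fun A Z hZ =>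
    (Finset.mem_filter.1 hZ).2
  -- column and column
  have hcc : ∀ κ κ', (cell κ).Nonempty → (cell κ').Nonempty → Col κ → Col κ' →
      ∀ Z ∈ Lam (A κ), ∀ Y ∈ Lam (A κ'), κ ^^^ zc Z = κ' ^^^ zc Y → κ = κ' := by
    intro κ κ' hn hn' hκ hκ' Z hZ Y hY e
    by_contra hne
    have hZY : Z ≠ Y := by
      rintro rfl
      exact hne (xor_eq_of e)
    obtain ⟨a, ha, haA⟩ := hLam _ Z hZ
    obtain ⟨b, hb, hbA⟩ := hLam _ Y hY
    obtain ⟨r, hr, hrS⟩ := hAmem κ hκ hn
    obtain ⟨r', hr', hrS'⟩ := hAmem κ' hκ' hn'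
    have h5 := checkCC_true
    simp only [checkCC, List.all_eq_true, Bool.or_eq_true, decide_eq_true_eq] at h5
    have h6 := h5 Z (List.mem_range.2 (hLamr _ Z hZ)) Y (List.mem_range.2 (hLamr _ Y hY))
    have h7 := (h6.resolve_left hZY) a ha b hb _ (xor_mem r hr r' hr')
    rw [not_conf h3 (t := κ ^^^ r)] at h7
    · exact Bool.noConfusion h7
    · intro w hw
      rcases List.mem_append.1 hw with h | h
      · exact hrS w (haA w h)
      · obtain ⟨c, hc, rfl⟩ := List.mem_map.1 h
        rw [xor_key e]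
        exact hrS' c (hbA c hc)
  -- row and row
  have hrr : ∀ κ κ', (cell κ).Nonempty → (cell κ').Nonempty → ¬ Col κ → ¬ Col κ' →
      ∀ Z ∈ Lam (B κ), ∀ Y ∈ Lam (B κ'), κ ^^^ zr Z = κ' ^^^ zr Y → κ = κ' := by
    intro κ κ' hn hn' hκ hκ' Z hZ Y hY e
    by_contra hne
    have hZY : Z ≠ Y := by
      rintro rfl
      exact hne (xor_eq_of e)
    obtain ⟨a, ha, haA⟩ := hLam _ Z hZ
    obtain ⟨b, hb, hbA⟩ := hLam _ Y hY
    obtain ⟨r, hr, hrS⟩ := hBmem κ hκ hn
    obtain ⟨r', hr', hrS'⟩ := hBmem κ' hκ' hn'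
    have h5 := checkRR_true
    simp only [checkRR, List.all_eq_true, Bool.or_eq_true, decide_eq_true_eq] at h5
    have h6 := h5 Z (List.mem_range.2 (hLamr _ Z hZ)) Y (List.mem_range.2 (hLamr _ Y hY))
    have h7 := (h6.resolve_left hZY) a ha b hb _ (xor_mem' r hr r' hr')
    rw [not_conf h3 (t := κ ^^^ r)] at h7
    · exact Bool.noConfusion h7
    · intro w hw
      rcases List.mem_append.1 hw with h | h
      · obtain ⟨c, hc, rfl⟩ := List.mem_map.1 h
        exact hrS c (haA c hc)
      · obtain ⟨c, hc, rfl⟩ := List.mem_map.1 h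
        rw [xor_key e]
        exact hrS' c (hbA c hc)
  -- column and row
  have hcr : ∀ κ κ', (cell κ).Nonempty → (cell κ').Nonempty → Col κ → ¬ Col κ' →
      ∀ Z ∈ Lam (A κ), ∀ Y ∈ Lam (B κ'), κ ^^^ zc Z = κ' ^^^ zr Y → κ ≠ κ' →
      S.card ≤ 16 := by
    intro κ κ' hn hn' hκ hκ' Z hZ Y hY e hne
    obtain ⟨a, ha, haA⟩ := hLam _ Z hZ
    obtain ⟨b, hb, hbA⟩ := hLam _ Y hY
    obtain ⟨r, hr, hrS⟩ := hAmem κ hκ hn
    obtain ⟨l, hl, hlS⟩ := hBmem κ' hκ' hn'
    by_cases hexc : Z = 3 ∧ Y = 3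
    · obtain ⟨rfl, rfl⟩ := hexc
      have hA4 : ∀ c ∈ ([0, 1, 2, 3] : List ℕ), c ∈ A κ := by
        intro c hc
        have h8 : a = [0, 1, 2, 3] := by
          have h9 : ∀ a ∈ wit 3, a = [0, 1, 2, 3] := by decide
          exact h9 a ha
        rw [h8] at haA
        exact haA c hc
      have hB4 : ∀ c ∈ ([0, 1, 2, 3] : List ℕ), c ∈ B κ' := by
        intro c hc
        have h8 : b = [0, 1, 2, 3] := by
          have h9 : ∀ a ∈ wit 3, a = [0, 1, 2, 3] := by decide
          exact h9 b hb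
        rw [h8] at hbA
        exact hbA c hc
      set t := κ ^^^ (r ^^^ l) with ht
      have hK : ∀ w ∈ ([0, 1, 2, 3, 60, 188, 124, 252] : List ℕ), w ^^^ t ∈ S := by
        intro w hw
        have hw' : w ∈ ([0, 1, 2, 3] : List ℕ) ∨ ∃ ρ ∈ ([0, 64, 128, 192] : List ℕ),
            w = ρ ^^^ (zc 3 ^^^ zr 3) := by
          revert w
          decide
        rcases hw' with h | ⟨ρ, hρ, rfl⟩
        · rw [ht, xor_key3]
          exact hrS _ (hA4 _ (xor_mem' w h l hl))
        · rw [ht, xor_key2 e]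
          have h8 := xor_mem ρ hρ r hr
          have h9 : ∀ q ∈ ([0, 64, 128, 192] : List ℕ), rc (cr q) = q := by decide
          have h10 := hlS (cr (ρ ^^^ r)) (hB4 _ (by
            have := cr_lt (ρ ^^^ r)
            generalize cr (ρ ^^^ r) = u at this
            revert u
            decide))
          rwa [h9 _ h8] at h10
      have hκ256 : κ < 256 := by
        obtain ⟨x₀, hx₀⟩ := hn
        rw [← hck κ x₀ hx₀]
        exact lt_of_le_of_lt Nat.and_le_left (hS x₀ (hcS κ x₀ hx₀))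
      have ht256 : t < 256 := by
        have h12 : ∀ q ∈ ([0, 64, 128, 192] : List ℕ), q < 256 := by decide
        have h13 : ∀ q ∈ ([0, 1, 2, 3] : List ℕ), q < 256 := by decide
        have hr256 : r < 256 := h12 r hr
        have hl256 : l < 256 := h13 l hl
        exact Nat.xor_lt_two_pow (n := 8) hκ256 (Nat.xor_lt_two_pow (n := 8) hr256 hl256)
      have hsub : S.image (fun w => w ^^^ t) ⊆ compat.toFinset := by
        intro u hu
        obtain ⟨w, hw, rfl⟩ := Finset.mem_image.1 hu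
        rw [List.mem_toFinset, compat, List.mem_filter, List.mem_range]
        refine ⟨Nat.xor_lt_two_pow (n := 8) (hS w hw) ht256, ?_⟩
        rw [not_conf h3 (t := t)]
        · rfl
        · intro w' hw'
          rcases List.mem_append.1 hw' with h | h
          · exact hK w' h
          · rw [List.mem_singleton] at h
            subst h
            rw [Nat.xor_assoc, Nat.xor_self, Nat.xor_zero]
            exact hw
      have h11 := Finset.card_le_card hsub
      rw [Finset.card_image_of_injective _ (fun x y h => xor_eq_of h)] at h11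
      exact h11.trans ((List.toFinset_card_le _).trans compat_length)
    · exfalso
      have h5 := checkCR_true
      simp only [checkCR, List.all_eq_true, Bool.or_eq_true, Bool.and_eq_true,
        decide_eq_true_eq] at h5
      have h6 := h5 Z (List.mem_range.2 (hLamr _ Z hZ)) Y (List.mem_range.2 (hLamr _ Y hY))
      have h00 : ¬ (Z = 0 ∧ Y = 0) := by
        rintro ⟨rfl, rfl⟩
        exact hne (by simpa [zc, zr] using e)
      obtain ⟨a', ha', haa⟩ := wit_shift Z (hLamr _ Z hZ) a ha l hl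
      obtain ⟨b', hb', hbb⟩ := wit_shift' Y (hLamr _ Y hY) b hb r hr
      have h7 := (h6.resolve_left (not_or.2 ⟨h00, hexc⟩)) a' ha' b' hb'
      rw [not_conf h3 (t := κ ^^^ (r ^^^ l))] at h7
      · exact Bool.noConfusion h7
      · intro w hw
        rcases List.mem_append.1 hw with h | h
        · rw [xor_key3]
          exact hrS _ (haA _ (haa w h))
        · obtain ⟨c, hc, rfl⟩ := List.mem_map.1 h
          rw [xor_key2 e]
          obtain ⟨c', hc', e'⟩ := hbb c hc
          rw [e']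
          exact hlS c' (hbA c' hc')
  by_cases hall : S.card ≤ 16
  · exact hall
  have hdisj : (P : Set ℕ).PairwiseDisjoint Lab := by
    intro κ hκ κ' hκ' hne
    rw [Function.onFun, Finset.disjoint_left]
    intro lam hl hl'
    have hn := hPne κ hκ
    have hn' := hPne κ' hκ'
    simp only [hLab] at hl hl'
    by_cases hc : Col κ
    · by_cases hc' : Col κ'
      · rw [if_pos hc] at hl
        rw [if_pos hc'] at hl'
        obtain ⟨Z, hZ, rfl⟩ := Finset.mem_image.1 hl
        obtain ⟨Z', hZ', h⟩ := Finset.mem_image.1 hl'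
        exact hne (hcc κ κ' hn hn' hc hc' Z hZ Z' hZ' h.symm)
      · rw [if_pos hc] at hl
        rw [if_neg hc'] at hl'
        obtain ⟨Z, hZ, rfl⟩ := Finset.mem_image.1 hl
        obtain ⟨Z', hZ', h⟩ := Finset.mem_image.1 hl'
        exact hall (hcr κ κ' hn hn' hc hc' Z hZ Z' hZ' h.symm hne)
    · by_cases hc' : Col κ'
      · rw [if_neg hc] at hl
        rw [if_pos hc'] at hl'
        obtain ⟨Z, hZ, rfl⟩ := Finset.mem_image.1 hl
        obtain ⟨Z', hZ', h⟩ := Finset.mem_image.1 hl'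
        exact hall (hcr κ' κ hn' hn hc' hc Z' hZ' Z hZ h hne.symm)
      · rw [if_neg hc] at hl
        rw [if_neg hc'] at hl'
        obtain ⟨Z, hZ, rfl⟩ := Finset.mem_image.1 hl
        obtain ⟨Z', hZ', h⟩ := Finset.mem_image.1 hl'
        exact hne (hrr κ κ' hn hn' hc hc' Z hZ Z' hZ' h.symm)
  set T : Finset ℕ := (Finset.range 16).image (fun j => 4 * j) with hT
  have hTcard : T.card = 16 := by rw [hT]; decide
  have hk : ∀ w < 256, w &&& 60 ∈ (Finset.range 16).image (fun j => 4 * j) := by decide +kernel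
  have hTx : ∀ κ ∈ (Finset.range 16).image (fun j => 4 * j), ∀ Z < 4,
      κ ^^^ zc Z ∈ (Finset.range 16).image (fun j => 4 * j) ∧
      κ ^^^ zr Z ∈ (Finset.range 16).image (fun j => 4 * j) := by decide +kernel
  have hLabsub : ∀ κ ∈ P, Lab κ ⊆ T := by
    intro κ hκ lam hlam
    have hκT : κ ∈ T := by
      obtain ⟨x, hx, rfl⟩ := Finset.mem_image.1 hκ
      exact hk x (hS x hx)
    simp only [hLab] at hlam
    by_cases hc : Col κ
    · rw [if_pos hc] at hlam
      obtain ⟨Z, hZ, rfl⟩ := Finset.mem_image.1 hlam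
      exact (hTx κ hκT Z (hLamr _ Z hZ)).1
    · rw [if_neg hc] at hlam
      obtain ⟨Z, hZ, rfl⟩ := Finset.mem_image.1 hlam
      exact (hTx κ hκT Z (hLamr _ Z hZ)).2
  have e1 : S.card = ∑ κ ∈ P, (cell κ).card := Finset.card_eq_sum_card_image _ _
  have e2 : ∑ κ ∈ P, (cell κ).card = (P.biUnion Lab).card := by
    rw [Finset.card_biUnion hdisj]
    exact Finset.sum_congr rfl fun κ _ => (hLabcard κ).symm
  have e3 : (P.biUnion Lab).card ≤ T.card := Finset.card_le_card (Finset.biUnion_subset.2 hLabsub)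
  rw [e1, e2]
  omega

end FC

end Pool.Agent.Lib.P68998g
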