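import Pool.Agent.Lib.P68998g.Cell
import Pool.Agent.Lib.P68998g.FinCell

/-!
At most `2 ^ a` classes on `a + 5` consecutive positions.
-/

namespace Pool.Agent.Lib.P68998g

open Finset

namespace FC

/-- the position of a letter -/
def pos (a s k : ℕ) : ℕ := if k < 4 then s + k else s + (a - 3) + k

lemma pos_lt {a s k k' : ℕ} (h : k < k') : pos a s k < pos a s k' := by
  unfold pos
  split_ifs <;> omega

lemma pos_inj {a s : ℕ} : Function.Injective (pos a s) := by
  intro k k' h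
  rcases Nat.lt_trichotomy k k' with h' | h' | h'
  · exact absurd h (pos_lt h').ne
  · exact h'
  · exact absurd h (pos_lt h').ne'

lemma pos_lt_mid {a s p m : ℕ} (hp : p < 4) (hm : s + 4 ≤ m) : pos a s p < m := by
  unfold pos
  rw [if_pos hp]
  omega

lemma mid_lt_pos {a s q m : ℕ} (ha : 4 ≤ a) (hq : 4 ≤ q) (hm : m ≤ s + a) : m < pos a s q := by
  unfold pos
  rw [if_neg (by omega)]
  omega

lemma pos_le {a s q : ℕ} (ha : 4 ≤ a) (hq : q < 8) : pos a s q ≤ s + a + 4 := by
  unfold pos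
  split_ifs <;> omega

lemma le_pos {a s q : ℕ} : s ≤ pos a s q := by
  unfold pos
  split_ifs <;> omega

/-- the middle positions and the positions of a list of letters -/
def mset (a s : ℕ) (l : List ℕ) : Finset ℕ := Icc (s + 4) (s + a) ∪ l.toFinset.image (pos a s)

lemma mset_card {a s : ℕ} (ha : 4 ≤ a) {l : List ℕ} (hl : l.Nodup) :
    (mset a s l).card = a - 3 + l.length := by
  rw [mset, Finset.card_union_of_disjoint, Nat.card_Icc, Finset.card_image_of_injective _ pos_inj,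
    List.toFinset_card_of_nodup hl]
  · omega
  · rw [Finset.disjoint_left]
    intro m hm hm'
    rw [Finset.mem_Icc] at hm
    obtain ⟨k, _, rfl⟩ := Finset.mem_image.1 hm'
    unfold pos at hm
    split_ifs at hm <;> omega

lemma btw_nodup (p q d e : ℕ) : (btw p q d e).Nodup := List.nodup_range.filter _

lemma mem_btw {p q d e k : ℕ} (h : k ∈ btw p q d e) :
    k < 8 ∧ p < k ∧ k < q ∧ d.testBit k = false ∧ e.testBit k = false := by
  simp only [btw, List.mem_filter, List.mem_range, Bool.and_eq_true, decide_eq_true_eq,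
    Bool.not_eq_true'] at h
  tauto

lemma mset_between {a s p q d e : ℕ} (ha : 4 ≤ a) (hp : p < 4) (hq : 4 ≤ q) :
    ∀ m ∈ mset a s (btw p q d e), pos a s p < m ∧ m < pos a s q := by
  intro m hm
  rcases Finset.mem_union.1 hm with h | h
  · rw [Finset.mem_Icc] at h
    exact ⟨pos_lt_mid hp h.1, mid_lt_pos ha hq h.2⟩
  · obtain ⟨k, hk, rfl⟩ := Finset.mem_image.1 h
    have := mem_btw (List.mem_toFinset.1 hk)
    exact ⟨pos_lt this.2.1, pos_lt this.2.2.1⟩

end FC

section

variable {ι : Type*} {a L : ℕ} {F : Finset ι} {v : ι → ℕ → ZMod 2}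

/-- the word of a member -/
def code (a s : ℕ) (v : ι → ℕ → ZMod 2) (m₀ : ℕ) (x : ι) : ℕ :=
  Nat.ofBits fun k : Fin 8 => decide (v x (FC.pos a s k) + v x m₀ = 1)

lemma code_testBit {s m₀ : ℕ} {x : ι} {k : ℕ} (hk : k < 8) :
    (code a s v m₀ x).testBit k = decide (v x (FC.pos a s k) + v x m₀ = 1) := by
  rw [code, Nat.testBit_ofBits_lt _ _ hk]

lemma code_lt {s m₀ : ℕ} {x : ι} : code a s v m₀ x < 256 :=
  Nat.ofBits_lt_two_pow (n := 8) _

lemma code_eq {s m₀ : ℕ} {x y : ι} {k : ℕ} (hk : k < 8)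
    (h : (code a s v m₀ x ^^^ code a s v m₀ y).testBit k = false) :
    v x (FC.pos a s k) + v x m₀ = v y (FC.pos a s k) + v y m₀ := by
  rw [Nat.testBit_xor, code_testBit hk, code_testBit hk] at h
  revert h
  generalize v x (FC.pos a s k) + v x m₀ = b1
  generalize v y (FC.pos a s k) + v y m₀ = b2
  revert b1 b2
  decide

lemma code_ne {s m₀ : ℕ} {x y : ι} {k : ℕ} (hk : k < 8)
    (h : (code a s v m₀ x ^^^ code a s v m₀ y).testBit k = true) :
    v x (FC.pos a s k) + v x m₀ ≠ v y (FC.pos a s k) + v y m₀ := by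
  rw [Nat.testBit_xor, code_testBit hk, code_testBit hk] at h
  revert h
  generalize v x (FC.pos a s k) + v x m₀ = b1
  generalize v y (FC.pos a s k) + v y m₀ = b2
  revert b1 b2
  decide

lemma agree_mset {s m₀ : ℕ} {x y : ι} {l : List ℕ}
    (hmid : ∀ m ∈ Icc (s + 4) (s + a), v x m + v x m₀ = v y m + v y m₀)
    (hl : ∀ k ∈ l, k < 8 ∧ (code a s v m₀ x ^^^ code a s v m₀ y).testBit k = false) :
    ∀ m ∈ FC.mset a s l, v x m + v x m₀ = v y m + v y m₀ := by
  intro m hm
  rcases Finset.mem_union.1 hm with h | h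
  · exact hmid m h
  · obtain ⟨k, hk, rfl⟩ := Finset.mem_image.1 h
    have := hl k (List.mem_toFinset.1 hk)
    exact code_eq this.1 this.2

lemma mem_four : ∀ q ∈ ([4, 5, 6, 7] : List ℕ), 4 ≤ q ∧ q < 8 := by decide

/-- the words of the members with a given pattern in the middle -/
theorem card_mid_le (ha : 4 ≤ a) (h1 : Star a L F v) (h2 : Pair a L F v) (h3 : StarB a L F v)
    (h4 : StarBL a L F v) {s : ℕ} (hL : s + a + 4 ≤ L) {G : Finset ι} (hG : G ⊆ F)
    (hmid : ∀ x ∈ G, ∀ y ∈ G, ∀ m ∈ Icc (s + 4) (s + a),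
      v x m + v x (s + 4) = v y m + v y (s + 4))
    (hinj : ∀ x ∈ G, ∀ y ∈ G, (∀ q ∈ Icc s (s + a + 4),
      v x q + v x (s + 4) = v y q + v y (s + 4)) → x = y) : G.card ≤ 16 := by
  classical
  set m₀ := s + 4 with hm₀
  set c := code a s v m₀ with hc
  have hcinj : Set.InjOn c G := by
    intro x hx y hy h
    refine hinj x hx y hy fun q hq => ?_
    rw [Finset.mem_Icc] at hq
    by_cases hq1 : q ∈ Icc (s + 4) (s + a)
    · exact hmid x hx y hy q hq1
    · rw [Finset.mem_Icc] at hq1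
      obtain ⟨k, hk, rfl⟩ : ∃ k < 8, q = FC.pos a s k := by
        unfold FC.pos
        by_cases hq2 : q < s + 4
        · exact ⟨q - s, by omega, by rw [if_pos (by omega)]; omega⟩
        · exact ⟨q - s - (a - 3), by omega, by rw [if_neg (by omega)]; omega⟩
      refine code_eq hk ?_
      have h' : code a s v m₀ x = code a s v m₀ y := h
      rw [h', Nat.xor_self, Nat.zero_testBit]
  rw [← Finset.card_image_of_injOn hcinj]
  refine FC.card_le ?_ ?_ ?_
  · intro w hw
    obtain ⟨x, _, rfl⟩ := Finset.mem_image.1 hw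
    exact code_lt
  · intro w hw w' hw'
    obtain ⟨x, hx, rfl⟩ := Finset.mem_image.1 hw
    obtain ⟨y, hy, rfl⟩ := Finset.mem_image.1 hw'
    rw [Bool.eq_false_iff]
    intro hb
    simp only [FC.bad2, List.any_eq_true, Bool.and_eq_true, decide_eq_true_eq] at hb
    obtain ⟨p, hp, hp1, q, hq, hq1, hlen⟩ := hb
    have hp4 : p < 4 := List.mem_range.1 hp
    have hq4 : 4 ≤ q ∧ q < 8 := mem_four q hq
    refine h2 (FC.pos a s p) (FC.pos a s q) (FC.mset a s (FC.btw p q _ 0))
      ((FC.pos_le ha hq4.2).trans hL) ?_ (FC.mset_between ha hp4 hq4.1) x (hG hx) y (hG hy) m₀ ?_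
      (agree_mset (hmid x hx y hy) fun k hk => ⟨(FC.mem_btw hk).1, (FC.mem_btw hk).2.2.2.1⟩)
      (code_ne (by omega) hp1) (code_ne hq4.2 hq1)
    · rw [FC.mset_card ha (FC.btw_nodup _ _ _ _)]
      have h5 : 4 ≤ (FC.btw p q (code a s v m₀ x ^^^ code a s v m₀ y) 0).length := hlen
      omega
    · exact Finset.mem_union_left _ (by rw [Finset.mem_Icc]; omega)
  · intro w hw w' hw' w'' hw''
    obtain ⟨x, hx, rfl⟩ := Finset.mem_image.1 hw
    obtain ⟨y, hy, rfl⟩ := Finset.mem_image.1 hw'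
    obtain ⟨z, hz, rfl⟩ := Finset.mem_image.1 hw''
    rw [Bool.eq_false_iff]
    intro hb
    simp only [FC.bad3, List.any_eq_true, Bool.and_eq_true, Bool.or_eq_true, decide_eq_true_eq,
      Bool.not_eq_true'] at hb
    obtain ⟨p, hp, ⟨hp1, hp2⟩, q, hq, ⟨hq1, hq2⟩, hlen⟩ := hb
    have hp4 : p < 4 := List.mem_range.1 hp
    have hq4 : 4 ≤ q ∧ q < 8 := mem_four q hq
    have hM := FC.mset_card (s := s) ha (FC.btw_nodup p q (c x ^^^ c y) (c x ^^^ c z))
    have hMb := FC.mset_between (s := s) (p := p) (q := q) (d := c x ^^^ c y) (e := c x ^^^ c z)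
      ha hp4 hq4.1
    have hMy := agree_mset (l := FC.btw p q (c x ^^^ c y) (c x ^^^ c z)) (hmid x hx y hy)
      fun k hk => ⟨(FC.mem_btw hk).1, (FC.mem_btw hk).2.2.2.1⟩
    have hMz := agree_mset (l := FC.btw p q (c x ^^^ c y) (c x ^^^ c z)) (hmid x hx z hz)
      fun k hk => ⟨(FC.mem_btw hk).1, (FC.mem_btw hk).2.2.2.2⟩
    have n1 := code_ne (by omega) hp1
    have n2 := code_eq (by omega) hp2
    have n3 := code_ne hq4.2 hq1
    have n4 := code_eq hq4.2 hq2
    rcases hlen with hlen | ⟨hlen, k, hk, ⟨hkpq, hk1⟩, hk2⟩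
    · exact h1 (FC.pos a s p) (FC.pos a s q) _ ((FC.pos_le ha hq4.2).trans hL) (by omega) hMb
        x (hG hx) y (hG hy) z (hG hz) m₀
        (Finset.mem_union_left _ (by rw [Finset.mem_Icc]; omega)) hMy hMz n1 n4 n2 n3
    · have hk8 := List.mem_range.1 hk
      have e1 := code_eq hk8 hk1
      have e2 := code_eq hk8 hk2
      rcases hkpq with hkq | hkp
      · exact h3 (FC.pos a s p) (FC.pos a s q) (FC.pos a s k) _
          (FC.pos_lt (by omega)) (FC.pos_lt hkq) ((FC.pos_le ha hk8).trans hL) (by omega) hMb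
          x (hG hx) y (hG hy) z (hG hz) (fun m hm => chg_eq _ _ _ _ _ _ (hMy m hm) e1)
          (fun m hm => chg_eq _ _ _ _ _ _ (hMz m hm) e2)
          (chg_ne _ _ _ _ _ _ n1 e1) (chg_eq _ _ _ _ _ _ n4 e1)
          (chg_eq _ _ _ _ _ _ n2 e2) (chg_ne _ _ _ _ _ _ n3 e2)
      · exact h4 (FC.pos a s k) (FC.pos a s p) (FC.pos a s q) _
          (FC.pos_lt hkp) (FC.pos_lt (by omega)) ((FC.pos_le ha hq4.2).trans hL) (by omega) hMb
          x (hG hx) y (hG hy) z (hG hz) (fun m hm => chg_eq _ _ _ _ _ _ (hMy m hm) e1)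
          (fun m hm => chg_eq _ _ _ _ _ _ (hMz m hm) e2)
          (chg_ne _ _ _ _ _ _ n1 e1) (chg_eq _ _ _ _ _ _ n4 e1)
          (chg_eq _ _ _ _ _ _ n2 e2) (chg_ne _ _ _ _ _ _ n3 e2)

/-- **The exact cell bound.** At most `2 ^ a` classes on `a + 5` positions. -/
theorem exact_four (ha : 4 ≤ a) (h1 : Star a L F v) (h2 : Pair a L F v) (h3 : StarB a L F v)
    (h4 : StarBL a L F v) {s : ℕ} (hL : s + a + 4 ≤ L) :
    cnt F v (Icc s (s + a + 4)) ≤ 2 ^ a := by
  classical
  -- one member of every class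
  obtain ⟨G, hG, hGi, hGinj⟩ : ∃ G ⊆ F, G.image (cls v (Icc s (s + a + 4))) =
      F.image (cls v (Icc s (s + a + 4))) ∧ Set.InjOn (cls v (Icc s (s + a + 4))) G := by
    obtain ⟨G, hG, h5, h6⟩ := Finset.exists_subset_injOn_image_eq_of_surjOn
      (f := cls v (Icc s (s + a + 4))) (s := (F : Set ι))
      (t := F.image (cls v (Icc s (s + a + 4)))) (by
        intro c hc
        obtain ⟨x, hx, rfl⟩ := Finset.mem_image.1 (Finset.mem_coe.1 hc)
        exact ⟨x, hx, rfl⟩)
    exact ⟨G, Finset.coe_subset.1 hG, h6, h5⟩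
  have e1 : cnt F v (Icc s (s + a + 4)) = G.card := by
    unfold cnt
    rw [← hGi, Finset.card_image_of_injOn hGinj]
  rw [e1]
  set Mid := Icc (s + 4) (s + a) with hMid
  have hm₀ : s + 4 ∈ Mid := by rw [hMid, Finset.mem_Icc]; omega
  set P := G.image (pat v Mid (s + 4)) with hP
  have hPW : P ⊆ (Mid.erase (s + 4)).powerset := by
    intro κ hκ
    obtain ⟨x, hx, rfl⟩ := Finset.mem_image.1 hκ
    rw [Finset.mem_powerset]
    intro q hq
    rw [pat, Finset.mem_filter] at hq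
    refine Finset.mem_erase.2 ⟨?_, hq.1⟩
    rintro rfl
    rw [CharTwo.add_self_eq_zero] at hq
    exact zero_ne_one hq.2
  have hfib : ∀ κ ∈ P, (G.filter fun x => pat v Mid (s + 4) x = κ).card ≤ 16 := by
    intro κ _
    refine card_mid_le ha h1 h2 h3 h4 hL ((Finset.filter_subset _ _).trans hG) ?_ ?_
    · intro x hx y hy m hm
      rw [pat_eq_iff (W := Mid) hm, (Finset.mem_filter.1 hx).2, (Finset.mem_filter.1 hy).2,
        symmDiff_self]
      simp
    · intro x hx y hy h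
      apply hGinj (Finset.mem_filter.1 hx).1 (Finset.mem_filter.1 hy).1
      rw [cls_eq_iff_base (b := s + 4) (by rw [Finset.mem_Icc]; omega)]
      exact h
  have e2 : G.card = ∑ κ ∈ P, (G.filter fun x => pat v Mid (s + 4) x = κ).card :=
    Finset.card_eq_sum_card_image _ _
  have e3 := Finset.sum_le_card_nsmul P _ 16 hfib
  have e4 : P.card ≤ 2 ^ (a - 4) := by
    have h5 := Finset.card_le_card hPW
    rw [Finset.card_powerset, Finset.card_erase_of_mem hm₀, hMid, Nat.card_Icc] at h5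
    rwa [show s + a + 1 - (s + 4) - 1 = a - 4 by omega] at h5
  rw [e2]
  refine e3.trans ?_
  rw [smul_eq_mul]
  calc P.card * 16 ≤ 2 ^ (a - 4) * 2 ^ 4 := Nat.mul_le_mul_right _ e4
    _ = 2 ^ a := by rw [← pow_add]; congr 1; omega

end

end Pool.Agent.Lib.P68998g
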