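import Pool.Agent.Lib.P68998g.BlockCell
import Pool.Agent.Lib.P68998g.ExactFour

/-!
The number of classes from the exact cells: at most `2 ^ (a + 1) * ⌈a / 12⌉`.
-/

namespace Pool.Agent.Lib.P68998g

open Finset

section

variable {ι : Type*} {a L : ℕ} {F : Finset ι} {v : ι → ℕ → ZMod 2}

/-- at most `2 ^ a` classes on at most `a + 5` positions -/
theorem exact_window (ha : 4 ≤ a) (h1 : Star a L F v) (h2 : Pair a L F v) (h3 : StarB a L F v)
    (h4 : StarBL a L F v) (hL : a + 4 ≤ L) (d i : ℕ) (hd : d ≤ (a - 2) + 6) (hi : i + d ≤ L) :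
    cnt F v (Icc i (i + d)) ≤ 2 ^ a := by
  obtain ⟨s, hs, hsL⟩ : ∃ s ≤ i, s + a + 4 ≤ L ∧ i + d ≤ s + a + 4 := by
    by_cases h : i + a + 4 ≤ L
    · exact ⟨i, le_rfl, h, by omega⟩
    · exact ⟨L - (a + 4), by omega, by omega, by omega⟩
  exact (cnt_mono_set (Finset.Icc_subset_Icc hs hsL.2)).trans (exact_four ha h1 h2 h3 h4 hsL.1)

/-- **The counting theorem from the exact cells.** -/
theorem bound_twelve (ha : 1 ≤ a) (h1 : Star a L F v) (h2 : Pair a L F v) (h3 : StarB a L F v)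
    (h4 : StarBL a L F v) :
    ∀ d i, i + d ≤ L → cnt F v (Icc i (i + d)) ≤ (a + 11) / 12 * 2 ^ (a + 1) := by
  intro d i hi
  have hq1 : 1 ≤ (a + 11) / 12 := by omega
  have hle : 2 ^ (a + 1) ≤ (a + 11) / 12 * 2 ^ (a + 1) := Nat.le_mul_of_pos_left _ hq1
  by_cases ha9 : a ≤ 9
  · have h := bound_nine ha h1 h2 h3 h4 d i hi
    rw [show (a + 8) / 9 = 1 by omega, one_mul] at h
    exact h.trans hle
  by_cases hL : a + 4 ≤ L
  · have h := block_final (t := 6) (by omega) h1 h3 h4 (by norm_num)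
      (exact_window (by omega) h1 h2 h3 h4 hL) d i hi
    refine h.trans ?_
    rw [pow_succ', ← mul_assoc]
    exact Nat.mul_le_mul_right _ (by omega)
  · exact (cell_window (by omega) h1 h2 h3 h4 d i (by omega) hi).trans hle

/-- intervals with few positions: at most `q * 2 ^ (a + 1)` classes on `a - 1 + 12 * q`
positions -/
theorem bound_twelve_rank (ha : 1 ≤ a) (h1 : Star a L F v) (h2 : Pair a L F v)
    (h3 : StarB a L F v) (h4 : StarBL a L F v) {q : ℕ} (hq : 1 ≤ q) (d i : ℕ)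
    (hd : d + 2 ≤ a + 12 * q) (hi : i + d ≤ L) :
    cnt F v (Icc i (i + d)) ≤ q * 2 ^ (a + 1) := by
  by_cases ha9 : a ≤ 9
  · have h := bound_nine ha h1 h2 h3 h4 d i hi
    rw [show (a + 8) / 9 = 1 by omega, one_mul] at h
    exact h.trans (Nat.le_mul_of_pos_left _ hq)
  by_cases hL : a + 4 ≤ L
  · have h := block_rank (t := 6) (by omega) h3 h4 (by norm_num)
      (exact_window (by omega) h1 h2 h3 h4 hL) (2 * q) (by omega) d i (by omega) hi
    refine h.trans (le_of_eq ?_)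
    rw [pow_succ]
    ring
  · exact (cell_window (by omega) h1 h2 h3 h4 d i (by omega) hi).trans
      (Nat.le_mul_of_pos_left _ hq)

end

end Pool.Agent.Lib.P68998g
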