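import Mathlib

/-!
Order-shattered sets of a finite family of 0/1 words on the positions `0, ..., n - 1` (the trie
branches first at the position `n - 1`), their number, and the walks which they give.
-/

namespace Pool.Agent.Lib.P68998g

open Finset

section

variable {ι κ : Type*}

/-- the members of `F` with the letter `b` at the position `n` -/
def child (u : ι → ℕ → ZMod 2) (n : ℕ) (F : Finset ι) (b : ZMod 2) : Finset ι :=
  F.filter fun x => u x n = b

lemma mem_child {u : ι → ℕ → ZMod 2} {n : ℕ} {F : Finset ι} {b : ZMod 2} {x : ι} :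
    x ∈ child u n F b ↔ x ∈ F ∧ u x n = b := Finset.mem_filter

/-- `Z` is order-shattered by `F` on the positions `0, ..., n - 1`: there is a subtree of the trie
of `F` (root letter at the position `n - 1`) which branches at all its nodes of the levels in `Z`
and is a path at the other levels. -/
def Shat (u : ι → ℕ → ZMod 2) : ℕ → Finset ι → Finset ℕ → Prop
  | 0, F, Z => F.Nonempty ∧ Z = ∅
  | n + 1, F, Z => (∃ b, Shat u n (child u n F b) (Z.erase n)) ∧
      (n ∈ Z → ∀ b, Shat u n (child u n F b) (Z.erase n))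

variable {u : ι → ℕ → ZMod 2} {w : κ → ℕ → ZMod 2}

lemma Shat.nonempty : ∀ {n : ℕ} {F : Finset ι} {Z : Finset ℕ}, Shat u n F Z → F.Nonempty := by
  intro n
  induction n with
  | zero => intro F Z h; exact h.1
  | succ n ih =>
    intro F Z h
    obtain ⟨b, hb⟩ := h.1
    obtain ⟨x, hx⟩ := ih hb
    exact ⟨x, (mem_child.1 hx).1⟩

lemma Shat.subset : ∀ {n : ℕ} {F : Finset ι} {Z : Finset ℕ}, Shat u n F Z → Z ⊆ range n := by
  intro n
  induction n with
  | zero => intro F Z h; rw [h.2]; exact Finset.empty_subset _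
  | succ n ih =>
    intro F Z h
    obtain ⟨b, hb⟩ := h.1
    intro j hj
    rw [Finset.mem_range]
    by_cases hjn : j = n
    · omega
    · have := ih hb (Finset.mem_erase.2 ⟨hjn, hj⟩)
      rw [Finset.mem_range] at this
      omega

lemma shat_empty : ∀ {n : ℕ} {F : Finset ι}, F.Nonempty → Shat u n F ∅ := by
  intro n
  induction n with
  | zero => intro F h; exact ⟨h, rfl⟩
  | succ n ih =>
    rintro F ⟨x, hx⟩
    refine ⟨⟨u x n, ?_⟩, fun h => absurd h (Finset.notMem_empty _)⟩
    rw [Finset.erase_empty]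
    exact ih ⟨x, mem_child.2 ⟨hx, rfl⟩⟩

open Classical in
/-- the order-shattered sets -/
noncomputable def shat (u : ι → ℕ → ZMod 2) (n : ℕ) (F : Finset ι) : Finset (Finset ℕ) :=
  (range n).powerset.filter (Shat u n F)

lemma mem_shat {n : ℕ} {F : Finset ι} {Z : Finset ℕ} : Z ∈ shat u n F ↔ Shat u n F Z := by
  classical
  unfold shat
  rw [Finset.mem_filter, Finset.mem_powerset]
  exact ⟨fun h => h.2, fun h => ⟨h.subset, h⟩⟩

/-- There are as many order-shattered sets as members. -/
theorem card_shat : ∀ {n : ℕ} {F : Finset ι},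
    (∀ x ∈ F, ∀ y ∈ F, (∀ j < n, u x j = u y j) → x = y) → (shat u n F).card = F.card := by
  classical
  intro n
  induction n with
  | zero =>
    intro F h
    rcases F.eq_empty_or_nonempty with hF | hF
    · subst hF
      rw [Finset.card_empty, Finset.card_eq_zero, Finset.eq_empty_iff_forall_notMem]
      intro Z hZ
      exact Finset.not_nonempty_empty (mem_shat.1 hZ).nonempty
    · have h1 : F.card = 1 := by
        apply le_antisymm
        · rw [Finset.card_le_one]
          intro x hx y hy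
          exact h x hx y hy (fun j hj => absurd hj (Nat.not_lt_zero j))
        · exact Finset.card_pos.2 hF
      have h2 : shat u 0 F = {∅} := by
        ext Z
        rw [mem_shat, Finset.mem_singleton]
        exact ⟨fun k => k.2, fun k => ⟨hF, k⟩⟩
      rw [h1, h2, Finset.card_singleton]
  | succ n ih =>
    intro F h
    have hch : ∀ b, (shat u n (child u n F b)).card = (child u n F b).card := by
      intro b
      apply ih
      intro x hx y hy hxy
      rw [mem_child] at hx hy
      refine h x hx.1 y hy.1 fun j hj => ?_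
      rcases Nat.lt_succ_iff_lt_or_eq.1 hj with hj | hj
      · exact hxy j hj
      · rw [hj, hx.2, hy.2]
    have hF : F.card = (child u n F 0).card + (child u n F 1).card := by
      have e : child u n F 1 = F.filter fun x => ¬ (u x n = 0) := by
        unfold child
        apply Finset.filter_congr
        intro x _
        have : ∀ s : ZMod 2, s = 1 ↔ ¬ s = 0 := by decide
        exact this _
      rw [e]
      exact (Finset.card_filter_add_card_filter_not _).symm
    set S0 := shat u n (child u n F 0) with hS0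
    set S1 := shat u n (child u n F 1) with hS1
    have hn : ∀ Z ∈ S0 ∪ S1, n ∉ Z := by
      intro Z hZ hnZ
      have h1 : Z ⊆ range n := by
        rcases Finset.mem_union.1 hZ with hZ | hZ
        · exact (mem_shat.1 hZ).subset
        · exact (mem_shat.1 hZ).subset
      have h2 := h1 hnZ
      rw [Finset.mem_range] at h2
      omega
    have two : ∀ {P : ZMod 2 → Prop}, (∃ b, P b) ↔ P 0 ∨ P 1 := by
      intro P
      constructor
      · rintro ⟨b, hb⟩
        have : ∀ s : ZMod 2, s = 0 ∨ s = 1 := by decide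
        rcases this b with rfl | rfl
        · exact Or.inl hb
        · exact Or.inr hb
      · rintro (k | k)
        · exact ⟨0, k⟩
        · exact ⟨1, k⟩
    have all : ∀ {P : ZMod 2 → Prop}, (∀ b, P b) ↔ P 0 ∧ P 1 := by
      intro P
      constructor
      · intro k; exact ⟨k 0, k 1⟩
      · rintro ⟨k0, k1⟩ b
        have : ∀ s : ZMod 2, s = 0 ∨ s = 1 := by decide
        rcases this b with rfl | rfl
        · exact k0
        · exact k1
    have hS : shat u (n + 1) F = (S0 ∪ S1) ∪ (S0 ∩ S1).image (insert n) := by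
      ext Z
      rw [mem_shat, Finset.mem_union, Finset.mem_union, Finset.mem_image]
      constructor
      · intro k
        by_cases hnZ : n ∈ Z
        · right
          have k2 := all.1 (k.2 hnZ)
          refine ⟨Z.erase n, Finset.mem_inter.2 ⟨mem_shat.2 k2.1, mem_shat.2 k2.2⟩, ?_⟩
          exact Finset.insert_erase hnZ
        · left
          have k1 := two.1 k.1
          rw [Finset.erase_eq_of_notMem hnZ] at k1
          exact k1.imp mem_shat.2 mem_shat.2
      · rintro (k | ⟨Y, hY, rfl⟩)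
        · have hnZ : n ∉ Z := hn Z (Finset.mem_union.2 k)
          refine ⟨?_, fun h => absurd h hnZ⟩
          rw [Finset.erase_eq_of_notMem hnZ]
          exact two.2 (k.imp mem_shat.1 mem_shat.1)
        · have hY2 := Finset.mem_inter.1 hY
          have hnY : n ∉ Y := hn Y (Finset.mem_union_left _ hY2.1)
          have e : (insert n Y).erase n = Y := Finset.erase_insert hnY
          have k2 : ∀ b, Shat u n (child u n F b) Y :=
            all.2 ⟨mem_shat.1 hY2.1, mem_shat.1 hY2.2⟩
          refine ⟨⟨0, ?_⟩, fun _ b => ?_⟩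
          · rw [e]; exact k2 0
          · rw [e]; exact k2 b
    have hdisj : Disjoint (S0 ∪ S1) ((S0 ∩ S1).image (insert n)) := by
      rw [Finset.disjoint_left]
      intro Z hZ hZ'
      obtain ⟨Y, _, rfl⟩ := Finset.mem_image.1 hZ'
      exact hn _ hZ (Finset.mem_insert_self _ _)
    have hinj : ((S0 ∩ S1).image (insert n)).card = (S0 ∩ S1).card := by
      apply Finset.card_image_of_injOn
      intro Y hY Y' hY' hYY
      have h1 : n ∉ Y := hn Y (Finset.mem_union_left _ (Finset.mem_inter.1 hY).1)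
      have h2 : n ∉ Y' := hn Y' (Finset.mem_union_left _ (Finset.mem_inter.1 hY').1)
      rw [← Finset.erase_insert h1, ← Finset.erase_insert h2]
      exact congrArg (fun t => Finset.erase t n) hYY
    rw [hS, Finset.card_union_of_disjoint hdisj, hinj, Finset.card_union_add_card_inter, hS0, hS1,
      hch, hch, hF]

/-- Two walks with prescribed agreements on `Z ∪ Z'`. -/
theorem walk_pair (ε : ℕ → ZMod 2) : ∀ {n : ℕ} {F : Finset ι} {G : Finset κ} {Z Z' : Finset ℕ},
    Shat u n F Z → Shat w n G Z' →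
    ∃ x ∈ F, ∃ y ∈ G, ∀ j, j ∈ Z ∨ j ∈ Z' → u x j + w y j = ε j := by
  intro n
  induction n with
  | zero =>
    intro F G Z Z' h h'
    obtain ⟨x, hx⟩ := h.1
    obtain ⟨y, hy⟩ := h'.1
    refine ⟨x, hx, y, hy, ?_⟩
    rintro j (hj | hj)
    · rw [h.2] at hj; exact absurd hj (Finset.notMem_empty _)
    · rw [h'.2] at hj; exact absurd hj (Finset.notMem_empty _)
  | succ n ih =>
    intro F G Z Z' h h'
    -- the children
    obtain ⟨b, c, hb, hc, hbc⟩ : ∃ b c, Shat u n (child u n F b) (Z.erase n) ∧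
        Shat w n (child w n G c) (Z'.erase n) ∧ (n ∈ Z ∨ n ∈ Z' → b + c = ε n) := by
      have key : ∀ s t : ZMod 2, t + s + s = t := by decide
      have key' : ∀ s t : ZMod 2, s + (t + s) = t := by decide
      by_cases hZ : n ∈ Z
      · obtain ⟨c, hc⟩ := h'.1
        exact ⟨ε n + c, c, h.2 hZ _, hc, fun _ => key _ _⟩
      · obtain ⟨b, hb⟩ := h.1
        by_cases hZ' : n ∈ Z'
        · exact ⟨b, ε n + b, hb, h'.2 hZ' _, fun _ => key' _ _⟩
        · obtain ⟨c, hc⟩ := h'.1
          exact ⟨b, c, hb, hc, fun k => absurd k (by tauto)⟩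
    obtain ⟨x, hx, y, hy, hxy⟩ := ih hb hc
    rw [mem_child] at hx hy
    refine ⟨x, hx.1, y, hy.1, fun j hj => ?_⟩
    by_cases hjn : j = n
    · subst hjn
      rw [hx.2, hy.2]
      exact hbc hj
    · exact hxy j (hj.imp (fun k => Finset.mem_erase.2 ⟨hjn, k⟩)
        fun k => Finset.mem_erase.2 ⟨hjn, k⟩)

/-- Three walks: two in `F` which separate at the position `p`, the smallest element of `Z ∪ Z'`,
and one in `G` with prescribed agreements on the rest of `Z ∪ Z'`. -/
theorem walk_triple (ε : ℕ → ZMod 2) {p : ℕ} : ∀ {n : ℕ} {F : Finset ι} {G : Finset κ}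
    {Z Z' : Finset ℕ}, Shat u n F Z → Shat w n G Z' → p ∈ Z →
    (∀ j, j ∈ Z ∨ j ∈ Z' → p ≤ j) →
    ∃ x ∈ F, ∃ x' ∈ F, ∃ y ∈ G, u x p ≠ u x' p ∧ (∀ j, p < j → j < n → u x j = u x' j) ∧
      ∀ j, j ∈ Z ∨ j ∈ Z' → p < j → u x j + w y j = ε j := by
  intro n
  induction n with
  | zero =>
    intro F G Z Z' h h' hp _
    rw [h.2] at hp
    exact absurd hp (Finset.notMem_empty _)
  | succ n ih =>
    intro F G Z Z' h h' hp hmin
    have hpn : p < n + 1 := Finset.mem_range.1 (h.subset hp)
    by_cases hpn' : p = n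
    · subst hpn'
      obtain ⟨x, hx⟩ := (h.2 hp 0).nonempty
      obtain ⟨x', hx'⟩ := (h.2 hp 1).nonempty
      obtain ⟨y, hy⟩ := h'.nonempty
      rw [mem_child] at hx hx'
      refine ⟨x, hx.1, x', hx'.1, y, hy, ?_, fun j h1 h2 => by omega, fun j hj h1 => ?_⟩
      · rw [hx.2, hx'.2]; decide
      · exfalso
        have : j < p + 1 := by
          rcases hj with hj | hj
          · exact Finset.mem_range.1 (h.subset hj)
          · exact Finset.mem_range.1 (h'.subset hj)
        omega
    · obtain ⟨b, c, hb, hc, hbc⟩ : ∃ b c, Shat u n (child u n F b) (Z.erase n) ∧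
          Shat w n (child w n G c) (Z'.erase n) ∧ (n ∈ Z ∨ n ∈ Z' → b + c = ε n) := by
        have key : ∀ s t : ZMod 2, t + s + s = t := by decide
        have key' : ∀ s t : ZMod 2, s + (t + s) = t := by decide
        by_cases hZ : n ∈ Z
        · obtain ⟨c, hc⟩ := h'.1
          exact ⟨ε n + c, c, h.2 hZ _, hc, fun _ => key _ _⟩
        · obtain ⟨b, hb⟩ := h.1
          by_cases hZ' : n ∈ Z'
          · exact ⟨b, ε n + b, hb, h'.2 hZ' _, fun _ => key' _ _⟩
          · obtain ⟨c, hc⟩ := h'.1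
            exact ⟨b, c, hb, hc, fun k => absurd k (by tauto)⟩
      obtain ⟨x, hx, x', hx', y, hy, h1, h2, h3⟩ := ih hb hc
        (Finset.mem_erase.2 ⟨hpn', hp⟩)
        (fun j hj => hmin j (hj.imp Finset.mem_of_mem_erase Finset.mem_of_mem_erase))
      rw [mem_child] at hx hx' hy
      refine ⟨x, hx.1, x', hx'.1, y, hy.1, h1, fun j k1 k2 => ?_, fun j hj k1 => ?_⟩
      · by_cases hjn : j = n
        · subst hjn
          rw [hx.2, hx'.2]
        · exact h2 j k1 (by omega)
      · by_cases hjn : j = n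
        · subst hjn
          rw [hx.2, hy.2]
          exact hbc hj
        · exact h3 j (hj.imp (fun k => Finset.mem_erase.2 ⟨hjn, k⟩)
            fun k => Finset.mem_erase.2 ⟨hjn, k⟩) k1

/-- one walk against a fixed word -/
theorem walk_one (r : ℕ → ZMod 2) {n : ℕ} {F : Finset ι} {Z : Finset ℕ} (h : Shat u n F Z) :
    ∃ x ∈ F, ∀ j ∈ Z, u x j = r j := by
  obtain ⟨x, hx, y, hy, hxy⟩ := walk_pair (w := fun (_ : Unit) (_ : ℕ) => (0 : ZMod 2)) r
    (G := {()}) (Z' := ∅) h (shat_empty ⟨(), Finset.mem_singleton_self _⟩)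
  exact ⟨x, hx, fun j hj => by simpa using hxy j (Or.inl hj)⟩

/-- two walks which separate at the smallest element of `Z`, against a fixed word -/
theorem walk_two (r : ℕ → ZMod 2) {n p : ℕ} {F : Finset ι} {Z : Finset ℕ} (h : Shat u n F Z)
    (hp : p ∈ Z) (hmin : ∀ j ∈ Z, p ≤ j) :
    ∃ x ∈ F, ∃ x' ∈ F, u x p ≠ u x' p ∧ (∀ j, p < j → j < n → u x j = u x' j) ∧
      ∀ j ∈ Z, p < j → u x j = r j := by
  obtain ⟨x, hx, x', hx', y, hy, h1, h2, h3⟩ := walk_triple
    (w := fun (_ : Unit) (_ : ℕ) => (0 : ZMod 2)) r (G := {()}) (Z' := ∅) h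
    (shat_empty ⟨(), Finset.mem_singleton_self _⟩) hp (fun j hj => by
      rcases hj with hj | hj
      · exact hmin j hj
      · exact absurd hj (Finset.notMem_empty _))
  exact ⟨x, hx, x', hx', h1, h2, fun j hj hpj => by simpa using h3 j (Or.inl hj) hpj⟩

/-! ### The interface -/

lemma shat_subset {n : ℕ} {F : Finset ι} {Z : Finset ℕ} (h : Z ∈ shat u n F) :
    Z ⊆ Finset.range n := (mem_shat.1 h).subset

lemma empty_mem_shat {n : ℕ} {F : Finset ι} (h : F.Nonempty) : ∅ ∈ shat u n F :=
  mem_shat.2 (shat_empty h)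

lemma nonempty_of_mem_shat {n : ℕ} {F : Finset ι} {Z : Finset ℕ} (h : Z ∈ shat u n F) :
    F.Nonempty := (mem_shat.1 h).nonempty

lemma exists_of_mem_shat {n : ℕ} {F : Finset ι} {Z : Finset ℕ} (h : Z ∈ shat u n F)
    (w : ℕ → ZMod 2) : ∃ x ∈ F, ∀ q ∈ Z, u x q = w q :=
  walk_one w (mem_shat.1 h)

/-- The members `x`, `y` of `F` and `z` of `G` agree on `Z ∪ Z'` outside its smallest element `p`,
where `y` is the odd one out. -/
lemma joint {n : ℕ} {F G : Finset ι} {Z Z' : Finset ℕ} (h : Z ∈ shat u n F)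
    (h' : Z' ∈ shat u n G) {p : ℕ} (hp : p ∈ Z) (hmin : ∀ q ∈ Z ∪ Z', p ≤ q) :
    ∃ x ∈ F, ∃ y ∈ F, ∃ z ∈ G, (∀ q ∈ Z ∪ Z', q ≠ p → u x q = u y q ∧ u x q = u z q) ∧
      u x p ≠ u y p ∧ u x p = u z p := by
  have hmin' : ∀ j, j ∈ Z ∨ j ∈ Z' → p ≤ j := fun j hj => hmin j (Finset.mem_union.2 hj)
  obtain ⟨x, hx, y, hy, z, hz, h1, h2, h3⟩ := walk_triple (fun _ => 0) (mem_shat.1 h)
    (mem_shat.1 h') hp hmin'
  have hn : ∀ q ∈ Z ∪ Z', q < n := by
    intro q hq
    rcases Finset.mem_union.1 hq with hq | hq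
    · exact Finset.mem_range.1 (shat_subset h hq)
    · exact Finset.mem_range.1 (shat_subset h' hq)
  have key : ∀ s t : ZMod 2, s + t = 0 → s = t := by decide
  have a1 : ∀ q ∈ Z ∪ Z', q ≠ p → u x q = u y q := fun q hq hqp =>
    h2 q (lt_of_le_of_ne (hmin q hq) (Ne.symm hqp)) (hn q hq)
  have a2 : ∀ q ∈ Z ∪ Z', q ≠ p → u x q = u z q := fun q hq hqp =>
    key _ _ (h3 q (Finset.mem_union.1 hq) (lt_of_le_of_ne (hmin q hq) (Ne.symm hqp)))
  by_cases hxz : u x p = u z p
  · exact ⟨x, hx, y, hy, z, hz, fun q hq hqp => ⟨a1 q hq hqp, a2 q hq hqp⟩, h1, hxz⟩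
  · refine ⟨y, hy, x, hx, z, hz, fun q hq hqp => ⟨(a1 q hq hqp).symm, ?_⟩, Ne.symm h1, ?_⟩
    · rw [← a1 q hq hqp]; exact a2 q hq hqp
    · have key' : ∀ s t r : ZMod 2, s ≠ t → s ≠ r → t = r := by decide
      exact key' _ _ _ h1 hxz

end

end Pool.Agent.Lib.P68998g
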