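import Pool.Agent.Lib.P68998g.PatsL
import Pool.Agent.Lib.P68998g.Shat

/-!
Families of functions on `i + (a + 2) + j` consecutive positions with `i, j ≤ 3`: at most
`2 ^ (a + 1)` classes modulo constants. The members are injected into the patterns on the window of
`a + 2` positions in the middle: two members with the same pattern differ only to the left, or only
to the right of the window, and the order shattered sets of the left words are used to change the
pattern at the right end of the window, and conversely.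
-/

namespace Pool.Agent.Lib.P68998g

open Finset

section

variable {ι : Type*} {a L : ℕ} {F : Finset ι} {v : ι → ℕ → ZMod 2}

/-- the positions of `W` at which `v x` differs from its value at `m₀` -/
def pat (v : ι → ℕ → ZMod 2) (W : Finset ℕ) (m₀ : ℕ) (x : ι) : Finset ℕ :=
  W.filter fun q => v x q + v x m₀ = 1

lemma zmod_eq_iff {s t : ZMod 2} : s = t ↔ (s = 1 ↔ t = 1) := by
  revert s t; decide

lemma pat_eq_iff {W : Finset ℕ} {m₀ : ℕ} {x z : ι} {q : ℕ} (hq : q ∈ W) :
    v x q + v x m₀ = v z q + v z m₀ ↔ q ∉ symmDiff (pat v W m₀ x) (pat v W m₀ z) := by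
  rw [zmod_eq_iff, Finset.mem_symmDiff]
  simp only [pat, Finset.mem_filter, hq, true_and]
  tauto

/-- letters to the left of the window -/
def uL (v : ι → ℕ → ZMod 2) (s m₀ : ℕ) (x : ι) (q : ℕ) : ZMod 2 := v x (s + q) + v x m₀

/-- letters to the right of the window, from the last one -/
def uR (v : ι → ℕ → ZMod 2) (e m₀ : ℕ) (x : ι) (q : ℕ) : ZMod 2 := v x (e - q) + v x m₀

lemma chg_eq : ∀ s t r s' t' r' : ZMod 2, s + r = s' + r' → t + r = t' + r' →
    s + t = s' + t' := by decide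

lemma chg_ne : ∀ s t r s' t' r' : ZMod 2, s + r ≠ s' + r' → t + r = t' + r' →
    s + t ≠ s' + t' := by decide

/-- the labels of two classes which vary to the left -/
lemma colcol (h1 : Star a L F v) (h3 : StarB a L F v) {s i j : ℕ} (hi : i ≤ 3)
    (hij : i + j ≤ a + 1) (hL : s + i + (a + 1) + j ≤ L) {G G' : Finset ι} (hG : G ⊆ F)
    (hG' : G' ⊆ F) {κ κ' : Finset ℕ}
    (hκ : ∀ x ∈ G, pat v (Icc (s + i) (s + i + (a + 1))) (s + i + j) x = κ)
    (hκ' : ∀ x ∈ G', pat v (Icc (s + i) (s + i + (a + 1))) (s + i + j) x = κ')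
    (hc : ∀ x ∈ G, ∀ y ∈ G, ∀ q < j, uR v (s + i + (a + 1) + j) (s + i + j) x q =
      uR v (s + i + (a + 1) + j) (s + i + j) y q)
    {Z Z' : Finset ℕ} (hZ : Z ∈ shat (uL v s (s + i + j)) i G)
    (hZ' : Z' ∈ shat (uL v s (s + i + j)) i G')
    (hD : symmDiff κ κ' = (symmDiff Z Z').image (fun q => s + i + (a + 1) - q)) {p : ℕ}
    (hp : p ∈ Z) (hmin : ∀ q ∈ Z ∪ Z', p ≤ q) (hne : Z ≠ Z') : False := by
  classical
  obtain ⟨x, hx, y, hy, z, hz, hag, hxy, hxz⟩ := joint hZ hZ' hp hmin
  have hZi := shat_subset hZ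
  have hZi' := shat_subset hZ'
  set D := symmDiff Z Z' with hDdef
  have hDU : D ⊆ Z ∪ Z' := by
    intro q hq
    rw [hDdef, Finset.mem_symmDiff] at hq
    rw [Finset.mem_union]
    tauto
  have hUi : ∀ q ∈ Z ∪ Z', q < i := by
    intro q hq
    rcases Finset.mem_union.1 hq with h | h
    · exact Finset.mem_range.1 (hZi h)
    · exact Finset.mem_range.1 (hZi' h)
  have hDi : ∀ q ∈ D, q < i := fun q hq => hUi q (hDU hq)
  have hpU : p ∈ Z ∪ Z' := Finset.mem_union_left _ hp
  have hpi : p < i := hUi p hpU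
  have hcard : D.card ≤ (Z ∪ Z').card := Finset.card_le_card hDU
  have hUpos : 1 ≤ (Z ∪ Z').card := Finset.card_pos.2 ⟨p, hpU⟩
  set m₀ := s + i + j with hm₀
  set W := Icc (s + i) (s + i + (a + 1)) with hW
  have hWxy : ∀ q ∈ W, v x q + v x m₀ = v y q + v y m₀ := by
    intro q hq
    rw [pat_eq_iff hq, hκ x hx, hκ y hy, symmDiff_self]
    simp
  have hWxz : ∀ q ∈ W, (v x q + v x m₀ = v z q + v z m₀ ↔
      q ∉ D.image (fun q => s + i + (a + 1) - q)) := by
    intro q hq
    rw [pat_eq_iff hq, hκ x hx, hκ' z hz, hD]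
  set A := ((Z ∪ Z').erase p).image (fun q => s + q) with hA
  have hAcard : A.card = (Z ∪ Z').card - 1 := by
    rw [hA, Finset.card_image_of_injective _ (add_right_injective s),
      Finset.card_erase_of_mem hpU]
  have hAm : ∀ m ∈ A, s + p < m ∧ m < s + i ∧ v x m + v x m₀ = v y m + v y m₀ ∧
      v x m + v x m₀ = v z m + v z m₀ := by
    intro m hm
    obtain ⟨q, hq, rfl⟩ := Finset.mem_image.1 hm
    have hq1 := Finset.ne_of_mem_erase hq
    have hq2 := Finset.mem_of_mem_erase hq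
    have h4 := hmin q hq2
    have h5 := hUi q hq2
    have h6 := hag q hq2 hq1
    exact ⟨by omega, by omega, h6.1, h6.2⟩
  by_cases hR : ∃ q < j, uR v (s + i + (a + 1) + j) m₀ x q ≠ uR v (s + i + (a + 1) + j) m₀ z q
  · obtain ⟨q, hq, hqne⟩ := hR
    set B := W \ D.image (fun q => s + i + (a + 1) - q) with hB
    have hBW : ∀ m ∈ B, s + i ≤ m ∧ m ≤ s + i + (a + 1) := by
      intro m hm
      have := (Finset.mem_sdiff.1 hm).1
      rwa [hW, Finset.mem_Icc] at this
    have hdisj : Disjoint A B := by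
      rw [Finset.disjoint_left]
      intro m hm hm'
      have h4 := (hAm m hm).2.1
      have h5 := (hBW m hm').1
      omega
    have hBcard : a + 2 - D.card ≤ B.card := by
      have h4 : W.card = a + 2 := by rw [hW, Nat.card_Icc]; omega
      have h5 := Finset.le_card_sdiff (D.image (fun q => s + i + (a + 1) - q)) W
      have h6 : (D.image (fun q => s + i + (a + 1) - q)).card ≤ D.card := Finset.card_image_le
      rw [← hB] at h5
      omega
    have hm₀B : m₀ ∈ B := by
      rw [hB, Finset.mem_sdiff, hW, Finset.mem_Icc, Finset.mem_image]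
      refine ⟨by omega, ?_⟩
      rintro ⟨q', hq', h4⟩
      have := hDi q' hq'
      omega
    refine h1 (s + p) (s + i + (a + 1) + j - q) (A ∪ B) (by omega) ?_ ?_ x (hG hx) y (hG hy) z
      (hG' hz) m₀ (Finset.mem_union_right _ hm₀B) ?_ ?_ hxy (hc x hx y hy q hq) hxz hqne
    · rw [Finset.card_union_of_disjoint hdisj, hAcard]
      omega
    · intro m hm
      rcases Finset.mem_union.1 hm with h | h
      · have := hAm m h
        omega
      · have := hBW m h
        omega
    · intro m hm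
      rcases Finset.mem_union.1 hm with h | h
      · exact (hAm m h).2.2.1
      · exact hWxy m (Finset.mem_sdiff.1 h).1
    · intro m hm
      rcases Finset.mem_union.1 hm with h | h
      · exact (hAm m h).2.2.2
      · exact (hWxz m (Finset.mem_sdiff.1 h).1).2 (Finset.mem_sdiff.1 h).2
  · push Not at hR
    have hDne : D.Nonempty := by
      rw [Finset.nonempty_iff_ne_empty, hDdef]
      intro h
      exact hne (symmDiff_eq_bot.1 h)
    obtain ⟨δ, hδ, hδmin⟩ : ∃ δ ∈ D, ∀ q ∈ D, δ ≤ q :=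
      ⟨D.min' hDne, Finset.min'_mem _ _, fun q hq => Finset.min'_le _ _ hq⟩
    have hδi := hDi δ hδ
    set p' := s + i + (a + 1) - δ with hp'
    set B := Icc (s + i) (p' - 1) \ (D.erase δ).image (fun q => s + i + (a + 1) - q) with hB
    have hBW : ∀ m ∈ B, s + i ≤ m ∧ m < p' ∧ m ∈ W ∧
        m ∉ D.image (fun q => s + i + (a + 1) - q) := by
      intro m hm
      obtain ⟨h4, h5⟩ := Finset.mem_sdiff.1 hm
      rw [Finset.mem_Icc] at h4
      refine ⟨h4.1, by omega, by rw [hW, Finset.mem_Icc]; omega, ?_⟩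
      intro h6
      obtain ⟨q, hq, h7⟩ := Finset.mem_image.1 h6
      by_cases hqδ : q = δ
      · subst hqδ; omega
      · exact h5 (Finset.mem_image.2 ⟨q, Finset.mem_erase.2 ⟨hqδ, hq⟩, h7⟩)
    have hdisj : Disjoint A B := by
      rw [Finset.disjoint_left]
      intro m hm hm'
      have h4 := (hAm m hm).2.1
      have h5 := (hBW m hm').1
      omega
    have hBcard : a + 1 - δ - (D.card - 1) ≤ B.card := by
      have h4 : (Icc (s + i) (p' - 1)).card = a + 1 - δ := by rw [Nat.card_Icc]; omega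
      have h5 := Finset.le_card_sdiff ((D.erase δ).image (fun q => s + i + (a + 1) - q))
        (Icc (s + i) (p' - 1))
      have h6 : ((D.erase δ).image (fun q => s + i + (a + 1) - q)).card ≤ D.card - 1 := by
        rw [← Finset.card_erase_of_mem hδ]
        exact Finset.card_image_le
      rw [← hB] at h5
      omega
    have hDpos : 1 ≤ D.card := Finset.card_pos.2 hDne
    have hABcard : a + 1 - δ ≤ (A ∪ B).card := by
      rw [Finset.card_union_of_disjoint hdisj, hAcard]
      omega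
    have hABm : ∀ m ∈ A ∪ B, s + p < m ∧ m < p' := by
      intro m hm
      rcases Finset.mem_union.1 hm with h | h
      · have := hAm m h
        omega
      · have := hBW m h
        omega
    have hABxy : ∀ m ∈ A ∪ B, v x m + v x m₀ = v y m + v y m₀ := by
      intro m hm
      rcases Finset.mem_union.1 hm with h | h
      · exact (hAm m h).2.2.1
      · exact hWxy m (hBW m h).2.2.1
    have hABxz : ∀ m ∈ A ∪ B, v x m + v x m₀ = v z m + v z m₀ := by
      intro m hm
      rcases Finset.mem_union.1 hm with h | h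
      · exact (hAm m h).2.2.2
      · exact (hWxz m (hBW m h).2.2.1).2 (hBW m h).2.2.2
    have hp'W : p' ∈ W := by rw [hW, Finset.mem_Icc]; omega
    have hp'ne : v x p' + v x m₀ ≠ v z p' + v z m₀ := by
      intro h
      exact (hWxz p' hp'W).1 h (Finset.mem_image.2 ⟨δ, hδ, rfl⟩)
    by_cases hδ0 : δ = 0
    · have hm₀B : m₀ ∈ B := by
        rw [hB, Finset.mem_sdiff, Finset.mem_Icc, Finset.mem_image]
        refine ⟨by omega, ?_⟩
        rintro ⟨q', hq', h4⟩
        have := hDi q' (Finset.mem_of_mem_erase hq')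
        omega
      exact h1 (s + p) p' (A ∪ B) (by omega) (by omega) hABm x (hG hx) y (hG hy) z
        (hG' hz) m₀ (Finset.mem_union_right _ hm₀B) hABxy hABxz hxy (hWxy p' hp'W) hxz hp'ne
    · set s' := s + i + (a + 1) with hs'
      have hs'W : s' ∈ W := by rw [hW, Finset.mem_Icc]; omega
      have hs'D : s' ∉ D.image (fun q => s + i + (a + 1) - q) := by
        intro h
        obtain ⟨q, hq, h4⟩ := Finset.mem_image.1 h
        have h5 := hδmin q hq
        have h6 := hDi q hq
        omega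
      have e1 := hWxy s' hs'W
      have e2 := (hWxz s' hs'W).2 hs'D
      exact h3 (s + p) p' s' (A ∪ B) (by omega) (by omega) (by omega) (by omega) hABm
        x (hG hx) y (hG hy) z (hG' hz) (fun m hm => chg_eq _ _ _ _ _ _ (hABxy m hm) e1)
        (fun m hm => chg_eq _ _ _ _ _ _ (hABxz m hm) e2)
        (chg_ne _ _ _ _ _ _ hxy e1) (chg_eq _ _ _ _ _ _ (hWxy p' hp'W) e1)
        (chg_eq _ _ _ _ _ _ hxz e2) (chg_ne _ _ _ _ _ _ hp'ne e2)

/-- the labels of two classes which vary to the right -/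
lemma rowrow (h1 : Star a L F v) (h4 : StarBL a L F v) {s i j : ℕ} (hj : j ≤ 3)
    (hij : i + j ≤ a + 1) (hL : s + i + (a + 1) + j ≤ L) {G G' : Finset ι} (hG : G ⊆ F)
    (hG' : G' ⊆ F) {κ κ' : Finset ℕ}
    (hκ : ∀ x ∈ G, pat v (Icc (s + i) (s + i + (a + 1))) (s + i + j) x = κ)
    (hκ' : ∀ x ∈ G', pat v (Icc (s + i) (s + i + (a + 1))) (s + i + j) x = κ')
    (hc : ∀ x ∈ G, ∀ y ∈ G, ∀ q < i, uL v s (s + i + j) x q = uL v s (s + i + j) y q)
    {Z Z' : Finset ℕ} (hZ : Z ∈ shat (uR v (s + i + (a + 1) + j) (s + i + j)) j G)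
    (hZ' : Z' ∈ shat (uR v (s + i + (a + 1) + j) (s + i + j)) j G')
    (hD : symmDiff κ κ' = (symmDiff Z Z').image (fun q => s + i + q)) {p : ℕ}
    (hp : p ∈ Z) (hmin : ∀ q ∈ Z ∪ Z', p ≤ q) (hne : Z ≠ Z') : False := by
  classical
  obtain ⟨x, hx, y, hy, z, hz, hag, hxy, hxz⟩ := joint hZ hZ' hp hmin
  have hZi := shat_subset hZ
  have hZi' := shat_subset hZ'
  set D := symmDiff Z Z' with hDdef
  have hDU : D ⊆ Z ∪ Z' := by
    intro q hq
    rw [hDdef, Finset.mem_symmDiff] at hq
    rw [Finset.mem_union]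
    tauto
  have hUi : ∀ q ∈ Z ∪ Z', q < j := by
    intro q hq
    rcases Finset.mem_union.1 hq with h | h
    · exact Finset.mem_range.1 (hZi h)
    · exact Finset.mem_range.1 (hZi' h)
  have hDi : ∀ q ∈ D, q < j := fun q hq => hUi q (hDU hq)
  have hpU : p ∈ Z ∪ Z' := Finset.mem_union_left _ hp
  have hpi : p < j := hUi p hpU
  have hcard : D.card ≤ (Z ∪ Z').card := Finset.card_le_card hDU
  have hUpos : 1 ≤ (Z ∪ Z').card := Finset.card_pos.2 ⟨p, hpU⟩
  set m₀ := s + i + j with hm₀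
  set W := Icc (s + i) (s + i + (a + 1)) with hW
  set e := s + i + (a + 1) + j with he
  have hWxy : ∀ q ∈ W, v x q + v x m₀ = v y q + v y m₀ := by
    intro q hq
    rw [pat_eq_iff hq, hκ x hx, hκ y hy, symmDiff_self]
    simp
  have hWxz : ∀ q ∈ W, (v x q + v x m₀ = v z q + v z m₀ ↔
      q ∉ D.image (fun q => s + i + q)) := by
    intro q hq
    rw [pat_eq_iff hq, hκ x hx, hκ' z hz, hD]
  set A := ((Z ∪ Z').erase p).image (fun q => e - q) with hA
  have hAcard : A.card = (Z ∪ Z').card - 1 := by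
    rw [hA, Finset.card_image_of_injOn, Finset.card_erase_of_mem hpU]
    intro q hq q' hq' h
    have h5 := hUi q (Finset.mem_of_mem_erase hq)
    have h6 := hUi q' (Finset.mem_of_mem_erase hq')
    simp only at h
    omega
  have hAm : ∀ m ∈ A, s + i + (a + 1) < m ∧ m < e - p ∧ v x m + v x m₀ = v y m + v y m₀ ∧
      v x m + v x m₀ = v z m + v z m₀ := by
    intro m hm
    obtain ⟨q, hq, rfl⟩ := Finset.mem_image.1 hm
    have hq1 := Finset.ne_of_mem_erase hq
    have hq2 := Finset.mem_of_mem_erase hq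
    have h4 := hmin q hq2
    have h5 := hUi q hq2
    have h6 := hag q hq2 hq1
    exact ⟨by omega, by omega, h6.1, h6.2⟩
  by_cases hR : ∃ q < i, uL v s m₀ x q ≠ uL v s m₀ z q
  · obtain ⟨q, hq, hqne⟩ := hR
    set B := W \ D.image (fun q => s + i + q) with hB
    have hBW : ∀ m ∈ B, s + i ≤ m ∧ m ≤ s + i + (a + 1) := by
      intro m hm
      have := (Finset.mem_sdiff.1 hm).1
      rwa [hW, Finset.mem_Icc] at this
    have hdisj : Disjoint A B := by
      rw [Finset.disjoint_left]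
      intro m hm hm'
      have h4 := (hAm m hm).1
      have h5 := (hBW m hm').2
      omega
    have hBcard : a + 2 - D.card ≤ B.card := by
      have h4 : W.card = a + 2 := by rw [hW, Nat.card_Icc]; omega
      have h5 := Finset.le_card_sdiff (D.image (fun q => s + i + q)) W
      have h6 : (D.image (fun q => s + i + q)).card ≤ D.card := Finset.card_image_le
      rw [← hB] at h5
      omega
    have hm₀B : m₀ ∈ B := by
      rw [hB, Finset.mem_sdiff, hW, Finset.mem_Icc, Finset.mem_image]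
      refine ⟨by omega, ?_⟩
      rintro ⟨q', hq', h4⟩
      have := hDi q' hq'
      omega
    refine h1 (s + q) (e - p) (A ∪ B) (by omega) ?_ ?_ x (hG hx) z (hG' hz) y
      (hG hy) m₀ (Finset.mem_union_right _ hm₀B) ?_ ?_ hqne hxz (hc x hx y hy q hq) hxy
    · rw [Finset.card_union_of_disjoint hdisj, hAcard]
      omega
    · intro m hm
      rcases Finset.mem_union.1 hm with h | h
      · have := hAm m h
        omega
      · have := hBW m h
        omega
    · intro m hm
      rcases Finset.mem_union.1 hm with h | h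
      · exact (hAm m h).2.2.2
      · exact (hWxz m (Finset.mem_sdiff.1 h).1).2 (Finset.mem_sdiff.1 h).2
    · intro m hm
      rcases Finset.mem_union.1 hm with h | h
      · exact (hAm m h).2.2.1
      · exact hWxy m (Finset.mem_sdiff.1 h).1
  · push Not at hR
    have hDne : D.Nonempty := by
      rw [Finset.nonempty_iff_ne_empty, hDdef]
      intro h
      exact hne (symmDiff_eq_bot.1 h)
    obtain ⟨δ, hδ, hδmin⟩ : ∃ δ ∈ D, ∀ q ∈ D, δ ≤ q :=
      ⟨D.min' hDne, Finset.min'_mem _ _, fun q hq => Finset.min'_le _ _ hq⟩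
    have hδi := hDi δ hδ
    set p' := s + i + δ with hp'
    set B := Icc (p' + 1) (s + i + (a + 1)) \ (D.erase δ).image (fun q => s + i + q) with hB
    have hBW : ∀ m ∈ B, m ≤ s + i + (a + 1) ∧ p' < m ∧ m ∈ W ∧
        m ∉ D.image (fun q => s + i + q) := by
      intro m hm
      obtain ⟨h4, h5⟩ := Finset.mem_sdiff.1 hm
      rw [Finset.mem_Icc] at h4
      refine ⟨h4.2, by omega, by rw [hW, Finset.mem_Icc]; omega, ?_⟩
      intro h6
      obtain ⟨q, hq, h7⟩ := Finset.mem_image.1 h6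
      by_cases hqδ : q = δ
      · subst hqδ; omega
      · exact h5 (Finset.mem_image.2 ⟨q, Finset.mem_erase.2 ⟨hqδ, hq⟩, h7⟩)
    have hdisj : Disjoint A B := by
      rw [Finset.disjoint_left]
      intro m hm hm'
      have h4 := (hAm m hm).1
      have h5 := (hBW m hm').1
      omega
    have hBcard : a + 1 - δ - (D.card - 1) ≤ B.card := by
      have h4 : (Icc (p' + 1) (s + i + (a + 1))).card = a + 1 - δ := by rw [Nat.card_Icc]; omega
      have h5 := Finset.le_card_sdiff ((D.erase δ).image (fun q => s + i + q))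
        (Icc (p' + 1) (s + i + (a + 1)))
      have h6 : ((D.erase δ).image (fun q => s + i + q)).card ≤ D.card - 1 := by
        rw [← Finset.card_erase_of_mem hδ]
        exact Finset.card_image_le
      rw [← hB] at h5
      omega
    have hDpos : 1 ≤ D.card := Finset.card_pos.2 hDne
    have hABcard : a + 1 - δ ≤ (A ∪ B).card := by
      rw [Finset.card_union_of_disjoint hdisj, hAcard]
      omega
    have hABm : ∀ m ∈ A ∪ B, p' < m ∧ m < e - p := by
      intro m hm
      rcases Finset.mem_union.1 hm with h | h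
      · have := hAm m h
        omega
      · have := hBW m h
        omega
    have hABxy : ∀ m ∈ A ∪ B, v x m + v x m₀ = v y m + v y m₀ := by
      intro m hm
      rcases Finset.mem_union.1 hm with h | h
      · exact (hAm m h).2.2.1
      · exact hWxy m (hBW m h).2.2.1
    have hABxz : ∀ m ∈ A ∪ B, v x m + v x m₀ = v z m + v z m₀ := by
      intro m hm
      rcases Finset.mem_union.1 hm with h | h
      · exact (hAm m h).2.2.2
      · exact (hWxz m (hBW m h).2.2.1).2 (hBW m h).2.2.2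
    have hp'W : p' ∈ W := by rw [hW, Finset.mem_Icc]; omega
    have hp'ne : v x p' + v x m₀ ≠ v z p' + v z m₀ := by
      intro h
      exact (hWxz p' hp'W).1 h (Finset.mem_image.2 ⟨δ, hδ, rfl⟩)
    by_cases hδ0 : δ = 0
    · have hm₀B : m₀ ∈ B := by
        rw [hB, Finset.mem_sdiff, Finset.mem_Icc, Finset.mem_image]
        refine ⟨by omega, ?_⟩
        rintro ⟨q', hq', h4⟩
        have := hDi q' (Finset.mem_of_mem_erase hq')
        omega
      exact h1 p' (e - p) (A ∪ B) (by omega) (by omega) hABm x (hG hx) z (hG' hz) y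
        (hG hy) m₀ (Finset.mem_union_right _ hm₀B) hABxz hABxy hp'ne hxz (hWxy p' hp'W) hxy
    · set s' := s + i with hs'
      have hs'W : s' ∈ W := by rw [hW, Finset.mem_Icc]; omega
      have hs'D : s' ∉ D.image (fun q => s' + q) := by
        intro h
        obtain ⟨q, hq, h4⟩ := Finset.mem_image.1 h
        have h5 := hδmin q hq
        omega
      have e1 := hWxy s' hs'W
      have e2 := (hWxz s' hs'W).2 hs'D
      exact h4 s' p' (e - p) (A ∪ B) (by omega) (by omega) (by omega) (by omega) hABm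
        x (hG hx) z (hG' hz) y (hG hy) (fun m hm => chg_eq _ _ _ _ _ _ (hABxz m hm) e2)
        (fun m hm => chg_eq _ _ _ _ _ _ (hABxy m hm) e1)
        (chg_ne _ _ _ _ _ _ hp'ne e2) (chg_eq _ _ _ _ _ _ hxz e2)
        (chg_eq _ _ _ _ _ _ (hWxy p' hp'W) e1) (chg_ne _ _ _ _ _ _ hxy e1)

/-- the labels of a class which varies to the left and of a class which varies to the right -/
lemma colrow (h1 : Star a L F v) {s i j : ℕ}
    (hij : i + j ≤ a + 1) (hL : s + i + (a + 1) + j ≤ L) {G G' : Finset ι} (hG : G ⊆ F)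
    (hG' : G' ⊆ F) {κ κ' : Finset ℕ}
    (hκ : ∀ x ∈ G, pat v (Icc (s + i) (s + i + (a + 1))) (s + i + j) x = κ)
    (hκ' : ∀ x ∈ G', pat v (Icc (s + i) (s + i + (a + 1))) (s + i + j) x = κ')
    (hc : ∀ x ∈ G, ∀ y ∈ G, ∀ q < j, uR v (s + i + (a + 1) + j) (s + i + j) x q =
      uR v (s + i + (a + 1) + j) (s + i + j) y q)
    {Z Z' : Finset ℕ} (hZ : Z ∈ shat (uL v s (s + i + j)) i G)
    (hZ' : Z' ∈ shat (uR v (s + i + (a + 1) + j) (s + i + j)) j G')
    (hD : symmDiff κ κ' ⊆ Z.image (fun q => s + i + (a + 1) - q) ∪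
      Z'.image (fun q => s + i + q)) (hne : Z.Nonempty) (hne' : Z'.Nonempty) : False := by
  classical
  have hZi := shat_subset hZ
  have hZi' := shat_subset hZ'
  have hZl : ∀ q ∈ Z, q < i := fun q hq => Finset.mem_range.1 (hZi hq)
  have hZl' : ∀ q ∈ Z', q < j := fun q hq => Finset.mem_range.1 (hZi' hq)
  obtain ⟨p, hp, hpmin⟩ : ∃ p ∈ Z, ∀ q ∈ Z, p ≤ q :=
    ⟨Z.min' hne, Finset.min'_mem _ _, fun q hq => Finset.min'_le _ _ hq⟩
  obtain ⟨k, hk, hkmin⟩ : ∃ k ∈ Z', ∀ q ∈ Z', k ≤ q :=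
    ⟨Z'.min' hne', Finset.min'_mem _ _, fun q hq => Finset.min'_le _ _ hq⟩
  have hpi := hZl p hp
  have hkj := hZl' k hk
  set m₀ := s + i + j with hm₀
  set W := Icc (s + i) (s + i + (a + 1)) with hW
  set e := s + i + (a + 1) + j with he
  obtain ⟨x₀, hx₀, -⟩ := exists_of_mem_shat hZ (fun _ => 0)
  obtain ⟨z, hz, hzq⟩ := exists_of_mem_shat hZ'
    (fun q => if q = k then uR v e m₀ x₀ q + 1 else uR v e m₀ x₀ q)
  obtain ⟨x, hx, hxq⟩ := exists_of_mem_shat hZ (uL v s m₀ z)
  obtain ⟨y, hy, hyq⟩ := exists_of_mem_shat hZ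
    (fun q => if q = p then uL v s m₀ z q + 1 else uL v s m₀ z q)
  have hone : ∀ t : ZMod 2, t + 1 ≠ t := by decide
  have hWxy : ∀ q ∈ W, v x q + v x m₀ = v y q + v y m₀ := by
    intro q hq
    rw [pat_eq_iff hq, hκ x hx, hκ y hy, symmDiff_self]
    simp
  have hWxz : ∀ q ∈ W, q ∉ Z.image (fun q => s + i + (a + 1) - q) ∪
      Z'.image (fun q => s + i + q) → v x q + v x m₀ = v z q + v z m₀ := by
    intro q hq h
    rw [pat_eq_iff hq, hκ x hx, hκ' z hz]
    exact fun h' => h (hD h')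
  set A := (Z.erase p).image (fun q => s + q) with hA
  set A' := (Z'.erase k).image (fun q => e - q) with hA'
  set B := W \ (Z.image (fun q => s + i + (a + 1) - q) ∪ Z'.image (fun q => s + i + q)) with hB
  have hAcard : A.card = Z.card - 1 := by
    rw [hA, Finset.card_image_of_injective _ (add_right_injective s), Finset.card_erase_of_mem hp]
  have hAcard' : A'.card = Z'.card - 1 := by
    rw [hA', Finset.card_image_of_injOn, Finset.card_erase_of_mem hk]
    intro q hq q' hq' h
    have h5 := hZl' q (Finset.mem_of_mem_erase hq)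
    have h6 := hZl' q' (Finset.mem_of_mem_erase hq')
    simp only at h
    omega
  have hBcard : a + 2 - Z.card - Z'.card ≤ B.card := by
    have h4 : W.card = a + 2 := by rw [hW, Nat.card_Icc]; omega
    have h5 := Finset.le_card_sdiff
      (Z.image (fun q => s + i + (a + 1) - q) ∪ Z'.image (fun q => s + i + q)) W
    have h6 := Finset.card_union_le (Z.image (fun q => s + i + (a + 1) - q))
      (Z'.image (fun q => s + i + q))
    have h7 : (Z.image (fun q => s + i + (a + 1) - q)).card ≤ Z.card := Finset.card_image_le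
    have h8 : (Z'.image (fun q => s + i + q)).card ≤ Z'.card := Finset.card_image_le
    rw [← hB] at h5
    omega
  have hAm : ∀ m ∈ A, s + p < m ∧ m < s + i ∧ v x m + v x m₀ = v y m + v y m₀ ∧
      v x m + v x m₀ = v z m + v z m₀ := by
    intro m hm
    obtain ⟨q, hq, rfl⟩ := Finset.mem_image.1 hm
    have hq1 := Finset.ne_of_mem_erase hq
    have hq2 := Finset.mem_of_mem_erase hq
    have h4 := hpmin q hq2
    have h5 := hZl q hq2
    have h6 := hxq q hq2
    have h7 := hyq q hq2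
    simp only [if_neg hq1] at h7
    exact ⟨by omega, by omega, h6.trans h7.symm, h6⟩
  have hAm' : ∀ m ∈ A', s + i + (a + 1) < m ∧ m < e - k ∧ v x m + v x m₀ = v y m + v y m₀ ∧
      v x m + v x m₀ = v z m + v z m₀ := by
    intro m hm
    obtain ⟨q, hq, rfl⟩ := Finset.mem_image.1 hm
    have hq1 := Finset.ne_of_mem_erase hq
    have hq2 := Finset.mem_of_mem_erase hq
    have h4 := hkmin q hq2
    have h5 := hZl' q hq2
    have h6 := hzq q hq2
    simp only [if_neg hq1] at h6
    exact ⟨by omega, by omega, hc x hx y hy q h5, (hc x hx x₀ hx₀ q h5).trans h6.symm⟩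
  have hBm : ∀ m ∈ B, s + i ≤ m ∧ m ≤ s + i + (a + 1) ∧ v x m + v x m₀ = v y m + v y m₀ ∧
      v x m + v x m₀ = v z m + v z m₀ := by
    intro m hm
    obtain ⟨h4, h5⟩ := Finset.mem_sdiff.1 hm
    have h6 := h4
    rw [hW, Finset.mem_Icc] at h6
    exact ⟨h6.1, h6.2, hWxy m h4, hWxz m h4 h5⟩
  have hm₀B : m₀ ∈ B := by
    rw [hB, Finset.mem_sdiff, hW, Finset.mem_Icc, Finset.mem_union, Finset.mem_image,
      Finset.mem_image]
    refine ⟨by omega, ?_⟩
    rintro (⟨q', hq', h4⟩ | ⟨q', hq', h4⟩)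
    · have := hZl q' hq'
      omega
    · have := hZl' q' hq'
      omega
  have hd1 : Disjoint A B := by
    rw [Finset.disjoint_left]
    intro m hm hm'
    have h4 := hAm m hm
    have h5 := hBm m hm'
    omega
  have hd2 : Disjoint (A ∪ B) A' := by
    rw [Finset.disjoint_left]
    intro m hm hm'
    have h5 := hAm' m hm'
    rcases Finset.mem_union.1 hm with h | h
    · have := hAm m h
      omega
    · have := hBm m h
      omega
  have hZpos : 1 ≤ Z.card := Finset.card_pos.2 hne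
  have hZpos' : 1 ≤ Z'.card := Finset.card_pos.2 hne'
  have hZc : Z.card ≤ i := by
    have := Finset.card_le_card hZi
    rwa [Finset.card_range] at this
  have hZc' : Z'.card ≤ j := by
    have := Finset.card_le_card hZi'
    rwa [Finset.card_range] at this
  refine h1 (s + p) (e - k) (A ∪ B ∪ A') (by omega) ?_ ?_ x (hG hx) y (hG hy) z (hG' hz) m₀
    (Finset.mem_union_left _ (Finset.mem_union_right _ hm₀B)) ?_ ?_ ?_ (hc x hx y hy k hkj) ?_ ?_
  · rw [Finset.card_union_of_disjoint hd2, Finset.card_union_of_disjoint hd1, hAcard, hAcard']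
    omega
  · intro m hm
    rcases Finset.mem_union.1 hm with h | h
    · rcases Finset.mem_union.1 h with h | h
      · have := hAm m h
        omega
      · have := hBm m h
        omega
    · have := hAm' m h
      omega
  · intro m hm
    rcases Finset.mem_union.1 hm with h | h
    · rcases Finset.mem_union.1 h with h | h
      · exact (hAm m h).2.2.1
      · exact (hBm m h).2.2.1
    · exact (hAm' m h).2.2.1
  · intro m hm
    rcases Finset.mem_union.1 hm with h | h
    · rcases Finset.mem_union.1 h with h | h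
      · exact (hAm m h).2.2.2
      · exact (hBm m h).2.2.2
    · exact (hAm' m h).2.2.2
  · have h6 := hxq p hp
    have h7 := hyq p hp
    simp only [if_true] at h7
    intro h
    have h8 : uL v s m₀ x p = uL v s m₀ y p := h
    rw [h6, h7] at h8
    exact hone _ h8.symm
  · exact hxq p hp
  · have h6 := hzq k hk
    simp only [if_true] at h6
    intro h
    have h8 : uR v e m₀ x k = uR v e m₀ z k := h
    rw [h6, hc x hx x₀ hx₀ k hkj] at h8
    exact hone _ h8.symm

lemma image_inj_of {i : ℕ} {f : ℕ → ℕ} (hf : ∀ q < i, ∀ q' < i, f q = f q' → q = q')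
    {Z Z' : Finset ℕ} (hZ : Z ⊆ range i) (hZ' : Z' ⊆ range i) (h : Z.image f = Z'.image f) :
    Z = Z' := by
  ext q
  constructor
  · intro hq
    have h1 : f q ∈ Z'.image f := h ▸ Finset.mem_image_of_mem f hq
    obtain ⟨q', hq', h2⟩ := Finset.mem_image.1 h1
    have := hf q' (Finset.mem_range.1 (hZ' hq')) q (Finset.mem_range.1 (hZ hq)) h2
    rwa [← this]
  · intro hq
    have h1 : f q ∈ Z.image f := h ▸ Finset.mem_image_of_mem f hq
    obtain ⟨q', hq', h2⟩ := Finset.mem_image.1 h1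
    have := hf q' (Finset.mem_range.1 (hZ hq')) q (Finset.mem_range.1 (hZ' hq)) h2
    rwa [← this]

lemma image_symmDiff_of {i : ℕ} {f : ℕ → ℕ} (hf : ∀ q < i, ∀ q' < i, f q = f q' → q = q')
    {Z Z' : Finset ℕ} (hZ : Z ⊆ range i) (hZ' : Z' ⊆ range i) :
    (symmDiff Z Z').image f = symmDiff (Z.image f) (Z'.image f) := by
  have key : ∀ A B : Finset ℕ, A ⊆ range i → B ⊆ range i → ∀ q ∈ A, f q ∈ B.image f → q ∈ B := by
    intro A B hA hB q hq h
    obtain ⟨q', hq', h2⟩ := Finset.mem_image.1 h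
    have := hf q' (Finset.mem_range.1 (hB hq')) q (Finset.mem_range.1 (hA hq)) h2
    rwa [← this]
  ext m
  rw [Finset.mem_symmDiff]
  constructor
  · intro h
    obtain ⟨q, hq, rfl⟩ := Finset.mem_image.1 h
    rcases Finset.mem_symmDiff.1 hq with ⟨h1, h2⟩ | ⟨h1, h2⟩
    · exact Or.inl ⟨Finset.mem_image_of_mem f h1, fun h3 => h2 (key Z Z' hZ hZ' q h1 h3)⟩
    · exact Or.inr ⟨Finset.mem_image_of_mem f h1, fun h3 => h2 (key Z' Z hZ' hZ q h1 h3)⟩
  · rintro (⟨h1, h2⟩ | ⟨h1, h2⟩)
    · obtain ⟨q, hq, rfl⟩ := Finset.mem_image.1 h1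
      exact Finset.mem_image_of_mem f (Finset.mem_symmDiff.2
        (Or.inl ⟨hq, fun h3 => h2 (Finset.mem_image_of_mem f h3)⟩))
    · obtain ⟨q, hq, rfl⟩ := Finset.mem_image.1 h1
      exact Finset.mem_image_of_mem f (Finset.mem_symmDiff.2
        (Or.inr ⟨hq, fun h3 => h2 (Finset.mem_image_of_mem f h3)⟩))

lemma sd_of_eq {κ κ' A B : Finset ℕ} (h : symmDiff κ A = symmDiff κ' B) :
    symmDiff κ κ' = symmDiff A B := by
  ext m
  have h1 := Finset.ext_iff.1 h m
  simp only [Finset.mem_symmDiff] at h1 ⊢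
  tauto

theorem cell_core (h1 : Star a L F v) (h2 : Pair a L F v) (h3 : StarB a L F v)
    (h4 : StarBL a L F v) {s i j : ℕ} (hi : i ≤ 3) (hj : j ≤ 3) (hij : i + j ≤ a + 1)
    (hL : s + i + (a + 1) + j ≤ L) {G : Finset ι} (hG : G ⊆ F)
    (hinj : ∀ x ∈ G, ∀ y ∈ G, (∀ q ∈ Icc s (s + i + (a + 1) + j),
      v x q + v x (s + i + j) = v y q + v y (s + i + j)) → x = y) :
    G.card ≤ 2 ^ (a + 1) := by
  classical
  set m₀ := s + i + j with hm₀
  set W := Icc (s + i) (s + i + (a + 1)) with hW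
  set e := s + i + (a + 1) + j with he
  have hm₀W : m₀ ∈ W := by rw [hW, Finset.mem_Icc]; omega
  have hWcard : W.card = a + 2 := by rw [hW, Nat.card_Icc]; omega
  set Gk : Finset ℕ → Finset ι := fun κ => G.filter fun x => pat v W m₀ x = κ with hGk
  have hGkG : ∀ κ, Gk κ ⊆ G := fun κ => Finset.filter_subset _ _
  have hGkF : ∀ κ, Gk κ ⊆ F := fun κ => (hGkG κ).trans hG
  have hGkp : ∀ κ, ∀ x ∈ Gk κ, pat v W m₀ x = κ := fun κ x hx => (Finset.mem_filter.1 hx).2
  set P := G.image (pat v W m₀) with hP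
  have hPne : ∀ κ ∈ P, (Gk κ).Nonempty := by
    intro κ hκ
    obtain ⟨x, hx, hxκ⟩ := Finset.mem_image.1 hκ
    exact ⟨x, Finset.mem_filter.2 ⟨hx, hxκ⟩⟩
  have hPW : ∀ κ ∈ P, κ ⊆ W.erase m₀ := by
    intro κ hκ
    obtain ⟨x, hx, rfl⟩ := Finset.mem_image.1 hκ
    intro q hq
    rw [pat, Finset.mem_filter] at hq
    refine Finset.mem_erase.2 ⟨?_, hq.1⟩
    rintro rfl
    rw [CharTwo.add_self_eq_zero] at hq
    exact zero_ne_one hq.2
  have hWeq : ∀ κ, ∀ x ∈ Gk κ, ∀ y ∈ Gk κ, ∀ q ∈ W, v x q + v x m₀ = v y q + v y m₀ := by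
    intro κ x hx y hy q hq
    rw [pat_eq_iff hq, hGkp κ x hx, hGkp κ y hy, symmDiff_self]
    simp
  -- equal pattern, equal words on both sides
  have hinj' : ∀ κ, ∀ x ∈ Gk κ, ∀ y ∈ Gk κ, (∀ q < i, uL v s m₀ x q = uL v s m₀ y q) →
      (∀ q < j, uR v e m₀ x q = uR v e m₀ y q) → x = y := by
    intro κ x hx y hy hl hr
    refine hinj x (hGkG κ hx) y (hGkG κ hy) fun q hq => ?_
    rw [Finset.mem_Icc] at hq
    rcases Nat.lt_or_ge q (s + i) with h | h
    · obtain ⟨t, rfl⟩ : ∃ t, q = s + t := ⟨q - s, by omega⟩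
      exact hl t (by omega)
    · rcases Nat.lt_or_ge (s + i + (a + 1)) q with h' | h'
      · have h5 := hr (e - q) (by omega)
        simp only [uR] at h5
        rwa [show e - (e - q) = q by omega] at h5
      · exact hWeq κ x hx y hy q (by rw [hW, Finset.mem_Icc]; omega)
  -- members with the same pattern differ on one side only
  have hside : ∀ κ, ∀ x ∈ Gk κ, ∀ y ∈ Gk κ, (∀ q < i, uL v s m₀ x q = uL v s m₀ y q) ∨
      (∀ q < j, uR v e m₀ x q = uR v e m₀ y q) := by
    intro κ x hx y hy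
    by_contra hcon
    push Not at hcon
    obtain ⟨⟨q, hq, hql⟩, ⟨q', hq', hqr⟩⟩ := hcon
    refine h2 (s + q) (e - q') W (by omega) (by omega) ?_ x (hGkF κ hx) y (hGkF κ hy) m₀ hm₀W
      (hWeq κ x hx y hy) hql hqr
    intro m hm
    rw [hW, Finset.mem_Icc] at hm
    omega
  set Col : Finset ℕ → Prop := fun κ => ∀ x ∈ Gk κ, ∀ y ∈ Gk κ, ∀ q < j,
    uR v e m₀ x q = uR v e m₀ y q with hCol
  have hrow : ∀ κ, ¬ Col κ → ∀ x ∈ Gk κ, ∀ y ∈ Gk κ, ∀ q < i, uL v s m₀ x q = uL v s m₀ y q := by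
    intro κ hκ
    simp only [hCol] at hκ
    push Not at hκ
    obtain ⟨x₀, hx₀, y₀, hy₀, q₀, hq₀, h0⟩ := hκ
    have hl₀ : ∀ q < i, uL v s m₀ x₀ q = uL v s m₀ y₀ q := by
      rcases hside κ x₀ hx₀ y₀ hy₀ with h | h
      · exact h
      · exact absurd (h q₀ hq₀) h0
    have key : ∀ x ∈ Gk κ, ∀ q < i, uL v s m₀ x q = uL v s m₀ x₀ q := by
      intro x hx
      by_contra hcon
      have r1 : ∀ q < j, uR v e m₀ x q = uR v e m₀ x₀ q := by
        rcases hside κ x hx x₀ hx₀ with h | h
        · exact absurd h hcon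
        · exact h
      have r2 : ∀ q < j, uR v e m₀ x q = uR v e m₀ y₀ q := by
        rcases hside κ x hx y₀ hy₀ with h | h
        · exact absurd (fun q hq => (h q hq).trans (hl₀ q hq).symm) hcon
        · exact h
      exact h0 ((r1 q₀ hq₀).symm.trans (r2 q₀ hq₀))
    intro x hx y hy q hq
    exact (key x hx q hq).trans (key y hy q hq).symm
  -- labels
  set f : ℕ → ℕ := fun q => s + i + (a + 1) - q with hf
  set g : ℕ → ℕ := fun q => s + i + q with hg
  have hfi : ∀ q < i, ∀ q' < i, f q = f q' → q = q' := by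
    intro q hq q' hq' h
    simp only [hf] at h
    omega
  have hgi : ∀ q < j, ∀ q' < j, g q = g q' → q = q' := by
    intro q hq q' hq' h
    simp only [hg] at h
    omega
  have hfW : ∀ Z : Finset ℕ, Z ⊆ range i → Z.image f ⊆ W.erase m₀ := by
    intro Z hZ m hm
    obtain ⟨q, hq, rfl⟩ := Finset.mem_image.1 hm
    have h5 := Finset.mem_range.1 (hZ hq)
    rw [Finset.mem_erase, hW, Finset.mem_Icc]
    simp only [hf]
    omega
  have hgW : ∀ Z : Finset ℕ, Z ⊆ range j → Z.image g ⊆ W.erase m₀ := by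
    intro Z hZ m hm
    obtain ⟨q, hq, rfl⟩ := Finset.mem_image.1 hm
    have h5 := Finset.mem_range.1 (hZ hq)
    rw [Finset.mem_erase, hW, Finset.mem_Icc]
    simp only [hg]
    omega
  set Lab : Finset ℕ → Finset (Finset ℕ) := fun κ => if Col κ
    then (shat (uL v s m₀) i (Gk κ)).image (fun Z => symmDiff κ (Z.image f))
    else (shat (uR v e m₀) j (Gk κ)).image (fun Z => symmDiff κ (Z.image g)) with hLab
  have hLabcard : ∀ κ, (Lab κ).card = (Gk κ).card := by
    intro κ
    simp only [hLab]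
    by_cases hκ : Col κ
    · rw [if_pos hκ, Finset.card_image_of_injOn, card_shat]
      · intro x hx y hy h
        exact hinj' κ x hx y hy h (hκ x hx y hy)
      · intro Z hZ Z' hZ' h
        simp only [symmDiff_right_inj] at h
        exact image_inj_of hfi (shat_subset (Finset.mem_coe.1 hZ))
          (shat_subset (Finset.mem_coe.1 hZ')) h
    · rw [if_neg hκ, Finset.card_image_of_injOn, card_shat]
      · intro x hx y hy h
        exact hinj' κ x hx y hy (hrow κ hκ x hx y hy) h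
      · intro Z hZ Z' hZ' h
        simp only [symmDiff_right_inj] at h
        exact image_inj_of hgi (shat_subset (Finset.mem_coe.1 hZ))
          (shat_subset (Finset.mem_coe.1 hZ')) h
  have hLabsub : ∀ κ ∈ P, Lab κ ⊆ (W.erase m₀).powerset := by
    intro κ hκ lam hlam
    rw [Finset.mem_powerset]
    have key : ∀ A B : Finset ℕ, A ⊆ W.erase m₀ → B ⊆ W.erase m₀ → symmDiff A B ⊆ W.erase m₀ := by
      intro A B hA hB q hq
      rcases Finset.mem_symmDiff.1 hq with h | h
      · exact hA h.1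
      · exact hB h.1
    simp only [hLab] at hlam
    by_cases hc : Col κ
    · rw [if_pos hc] at hlam
      obtain ⟨Z, hZ, rfl⟩ := Finset.mem_image.1 hlam
      exact key _ _ (hPW κ hκ) (hfW Z (shat_subset hZ))
    · rw [if_neg hc] at hlam
      obtain ⟨Z, hZ, rfl⟩ := Finset.mem_image.1 hlam
      exact key _ _ (hPW κ hκ) (hgW Z (shat_subset hZ))
  have hcc : ∀ κ κ', Col κ → Col κ' → ∀ Z ∈ shat (uL v s m₀) i (Gk κ),
      ∀ Z' ∈ shat (uL v s m₀) i (Gk κ'), symmDiff κ (Z.image f) = symmDiff κ' (Z'.image f) →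
      κ = κ' := by
    intro κ κ' hκ hκ' Z hZ Z' hZ' h
    by_contra hne
    have e1 := sd_of_eq h
    rw [← image_symmDiff_of hfi (shat_subset hZ) (shat_subset hZ')] at e1
    have hZne : Z ≠ Z' := by
      rintro rfl
      rw [symmDiff_self] at e1
      simp only [Finset.bot_eq_empty, Finset.image_empty] at e1
      exact hne (symmDiff_eq_bot.1 e1)
    have hUne : (Z ∪ Z').Nonempty := by
      rw [Finset.nonempty_iff_ne_empty]
      intro h5
      obtain ⟨h6, h7⟩ := Finset.union_eq_empty.1 h5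
      exact hZne (h6.trans h7.symm)
    obtain ⟨p, hp, hpmin⟩ : ∃ p ∈ Z ∪ Z', ∀ q ∈ Z ∪ Z', p ≤ q :=
      ⟨(Z ∪ Z').min' hUne, Finset.min'_mem _ _, fun q hq => Finset.min'_le _ _ hq⟩
    rcases Finset.mem_union.1 hp with h5 | h5
    · exact colcol h1 h3 hi hij hL (hGkF κ) (hGkF κ') (hGkp κ) (hGkp κ') hκ hZ hZ' e1 h5 hpmin
        hZne
    · rw [symmDiff_comm κ, symmDiff_comm Z] at e1
      rw [Finset.union_comm] at hpmin
      exact colcol h1 h3 hi hij hL (hGkF κ') (hGkF κ) (hGkp κ') (hGkp κ) hκ' hZ' hZ e1 h5 hpmin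
        hZne.symm
  have hrr : ∀ κ κ', ¬ Col κ → ¬ Col κ' → ∀ Z ∈ shat (uR v e m₀) j (Gk κ),
      ∀ Z' ∈ shat (uR v e m₀) j (Gk κ'), symmDiff κ (Z.image g) = symmDiff κ' (Z'.image g) →
      κ = κ' := by
    intro κ κ' hκ hκ' Z hZ Z' hZ' h
    by_contra hne
    have e1 := sd_of_eq h
    rw [← image_symmDiff_of hgi (shat_subset hZ) (shat_subset hZ')] at e1
    have hZne : Z ≠ Z' := by
      rintro rfl
      rw [symmDiff_self] at e1
      simp only [Finset.bot_eq_empty, Finset.image_empty] at e1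
      exact hne (symmDiff_eq_bot.1 e1)
    have hUne : (Z ∪ Z').Nonempty := by
      rw [Finset.nonempty_iff_ne_empty]
      intro h5
      obtain ⟨h6, h7⟩ := Finset.union_eq_empty.1 h5
      exact hZne (h6.trans h7.symm)
    obtain ⟨p, hp, hpmin⟩ : ∃ p ∈ Z ∪ Z', ∀ q ∈ Z ∪ Z', p ≤ q :=
      ⟨(Z ∪ Z').min' hUne, Finset.min'_mem _ _, fun q hq => Finset.min'_le _ _ hq⟩
    rcases Finset.mem_union.1 hp with h5 | h5
    · exact rowrow h1 h4 hj hij hL (hGkF κ) (hGkF κ') (hGkp κ) (hGkp κ') (hrow κ hκ) hZ hZ' e1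
        h5 hpmin hZne
    · rw [symmDiff_comm κ, symmDiff_comm Z] at e1
      rw [Finset.union_comm] at hpmin
      exact rowrow h1 h4 hj hij hL (hGkF κ') (hGkF κ) (hGkp κ') (hGkp κ) (hrow κ' hκ') hZ' hZ e1
        h5 hpmin hZne.symm
  have hcr : ∀ κ κ', (Gk κ).Nonempty → (Gk κ').Nonempty → Col κ → ¬ Col κ' →
      ∀ Z ∈ shat (uL v s m₀) i (Gk κ), ∀ Z' ∈ shat (uR v e m₀) j (Gk κ'),
      symmDiff κ (Z.image f) = symmDiff κ' (Z'.image g) → κ = κ' := by
    intro κ κ' hn hn' hκ hκ' Z hZ Z' hZ' h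
    by_contra hne
    have e1 := sd_of_eq h
    rcases Z.eq_empty_or_nonempty with rfl | hZne
    · rcases Z'.eq_empty_or_nonempty with rfl | hZne'
      · simp only [Finset.image_empty, symmDiff_self, Finset.bot_eq_empty] at e1
        exact hne (symmDiff_eq_bot.1 e1)
      · obtain ⟨p, hp, hpmin⟩ : ∃ p ∈ Z', ∀ q ∈ Z', p ≤ q :=
          ⟨Z'.min' hZne', Finset.min'_mem _ _, fun q hq => Finset.min'_le _ _ hq⟩
        refine rowrow h1 h4 hj hij hL (hGkF κ') (hGkF κ) (hGkp κ') (hGkp κ) (hrow κ' hκ') hZ'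
          (empty_mem_shat hn) ?_ hp (by rwa [Finset.union_empty]) hZne'.ne_empty
        rw [symmDiff_comm κ', e1, Finset.image_empty, ← Finset.bot_eq_empty, bot_symmDiff,
          symmDiff_bot]
    · rcases Z'.eq_empty_or_nonempty with rfl | hZne'
      · obtain ⟨p, hp, hpmin⟩ : ∃ p ∈ Z, ∀ q ∈ Z, p ≤ q :=
          ⟨Z.min' hZne, Finset.min'_mem _ _, fun q hq => Finset.min'_le _ _ hq⟩
        refine colcol h1 h3 hi hij hL (hGkF κ) (hGkF κ') (hGkp κ) (hGkp κ') hκ hZ
          (empty_mem_shat hn') ?_ hp (by rwa [Finset.union_empty]) hZne.ne_empty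
        rw [e1, Finset.image_empty, ← Finset.bot_eq_empty, symmDiff_bot, symmDiff_bot]
      · refine colrow h1 hij hL (hGkF κ) (hGkF κ') (hGkp κ) (hGkp κ') hκ hZ hZ' ?_ hZne hZne'
        rw [e1]
        intro m hm
        rcases Finset.mem_symmDiff.1 hm with h5 | h5
        · exact Finset.mem_union_left _ h5.1
        · exact Finset.mem_union_right _ h5.1
  have hdisj : (P : Set (Finset ℕ)).PairwiseDisjoint Lab := by
    intro κ hκ κ' hκ' hne
    rw [Function.onFun, Finset.disjoint_left]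
    intro lam hl hl'
    apply hne
    simp only [hLab] at hl hl'
    by_cases hc : Col κ
    · by_cases hc' : Col κ'
      · rw [if_pos hc] at hl
        rw [if_pos hc'] at hl'
        obtain ⟨Z, hZ, rfl⟩ := Finset.mem_image.1 hl
        obtain ⟨Z', hZ', h⟩ := Finset.mem_image.1 hl'
        exact hcc κ κ' hc hc' Z hZ Z' hZ' h.symm
      · rw [if_pos hc] at hl
        rw [if_neg hc'] at hl'
        obtain ⟨Z, hZ, rfl⟩ := Finset.mem_image.1 hl
        obtain ⟨Z', hZ', h⟩ := Finset.mem_image.1 hl'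
        exact hcr κ κ' (hPne κ hκ) (hPne κ' hκ') hc hc' Z hZ Z' hZ' h.symm
    · by_cases hc' : Col κ'
      · rw [if_neg hc] at hl
        rw [if_pos hc'] at hl'
        obtain ⟨Z, hZ, rfl⟩ := Finset.mem_image.1 hl
        obtain ⟨Z', hZ', h⟩ := Finset.mem_image.1 hl'
        exact (hcr κ' κ (hPne κ' hκ') (hPne κ hκ) hc' hc Z' hZ' Z hZ h).symm
      · rw [if_neg hc] at hl
        rw [if_neg hc'] at hl'
        obtain ⟨Z, hZ, rfl⟩ := Finset.mem_image.1 hl
        obtain ⟨Z', hZ', h⟩ := Finset.mem_image.1 hl'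
        exact hrr κ κ' hc hc' Z hZ Z' hZ' h.symm
  have e1 : G.card = ∑ κ ∈ P, (Gk κ).card := Finset.card_eq_sum_card_image _ _
  have e2 : ∑ κ ∈ P, (Gk κ).card = (P.biUnion Lab).card := by
    rw [Finset.card_biUnion hdisj]
    exact Finset.sum_congr rfl fun κ _ => (hLabcard κ).symm
  have e3 : (P.biUnion Lab).card ≤ ((W.erase m₀).powerset).card :=
    Finset.card_le_card (Finset.biUnion_subset.2 hLabsub)
  rw [Finset.card_powerset, Finset.card_erase_of_mem hm₀W, hWcard] at e3
  rw [e1, e2]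
  exact e3

/-- **The cell bound.** -/
theorem cell_bound (h1 : Star a L F v) (h2 : Pair a L F v) (h3 : StarB a L F v)
    (h4 : StarBL a L F v) {s i j : ℕ} (hi : i ≤ 3) (hj : j ≤ 3) (hij : i + j ≤ a + 1)
    (hL : s + i + (a + 1) + j ≤ L) :
    cnt F v (Icc s (s + i + (a + 1) + j)) ≤ 2 ^ (a + 1) := by
  classical
  -- one member of every class
  obtain ⟨G, hG, hGi, hGinj⟩ : ∃ G ⊆ F, G.image (cls v (Icc s (s + i + (a + 1) + j))) =
      F.image (cls v (Icc s (s + i + (a + 1) + j))) ∧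
      Set.InjOn (cls v (Icc s (s + i + (a + 1) + j))) G := by
    obtain ⟨G, hG, h5, h6⟩ := Finset.exists_subset_injOn_image_eq_of_surjOn
      (f := cls v (Icc s (s + i + (a + 1) + j))) (s := (F : Set ι))
      (t := F.image (cls v (Icc s (s + i + (a + 1) + j)))) (by
        intro c hc
        obtain ⟨x, hx, rfl⟩ := Finset.mem_image.1 (Finset.mem_coe.1 hc)
        exact ⟨x, hx, rfl⟩)
    exact ⟨G, Finset.coe_subset.1 hG, h6, h5⟩
  have e1 : cnt F v (Icc s (s + i + (a + 1) + j)) = G.card := by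
    unfold cnt
    rw [← hGi, Finset.card_image_of_injOn hGinj]
  rw [e1]
  refine cell_core h1 h2 h3 h4 hi hj hij hL hG fun x hx y hy h => ?_
  apply hGinj hx hy
  rw [cls_eq_iff_base (b := s + i + j) (by rw [Finset.mem_Icc]; omega)]
  exact h

/-- for `a ≤ 8` there are at most `2 ^ (a + 1)` classes -/
theorem cell_bound_all (ha : 1 ≤ a) (ha8 : a ≤ 8) (h1 : Star a L F v) (h2 : Pair a L F v)
    (h3 : StarB a L F v) (h4 : StarBL a L F v) : ∀ d i : ℕ, i + d ≤ L →
    cnt F v (Icc i (i + d)) ≤ 2 ^ (a + 1) := by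
  classical
  intro d
  induction d with
  | zero =>
    intro i _
    exact (cnt_Icc_le (F := F) (v := v) i 0).trans (Nat.pow_le_pow_right (by norm_num) (by omega))
  | succ d ih =>
    intro i hi
    by_cases hda : d + 1 ≤ a + 1
    · exact (cnt_Icc_le (F := F) (v := v) i (d + 1)).trans
        (Nat.pow_le_pow_right (by norm_num) hda)
    by_cases k1 : cnt F v (Icc (i + 1) (i + (d + 1))) < cnt F v (Icc i (i + (d + 1)))
    · by_cases k2 : cnt F v (Icc i (i + d)) < cnt F v (Icc i (i + (d + 1)))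
      · have k3 := short ha h1 hi k1 k2
        obtain ⟨c, hc⟩ : ∃ c, d + 1 = a + 1 + c := ⟨d + 1 - (a + 1), by omega⟩
        obtain ⟨b, b', hb, hb', hbc⟩ : ∃ b b', b ≤ 3 ∧ b' ≤ 3 ∧ c = b + b' :=
          ⟨min 3 c, c - min 3 c, by omega, by omega, by omega⟩
        have k4 := cell_bound h1 h2 h3 h4 (s := i) (i := b) (j := b') hb hb' (by omega)
          (by omega)
        rwa [show i + b + (a + 1) + b' = i + (d + 1) by omega] at k4
      · have k3 := ih i (by omega)
        omega
    · have k3 := ih (i + 1) (by omega)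
      rw [show i + 1 + d = i + (d + 1) by omega] at k3
      omega

end

end Pool.Agent.Lib.P68998g
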