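import Pool.Agent.Lib.P68998g.Fourteen

/-!
One colouring theorem which contains the form for all ranks and the form for small ranks.
-/

namespace Pool.Agent.Lib.P68998g

open Submodule Finset Pool.Agent.Lib.P68998c Pool.Agent.Lib.P68998f

universe u

/-- **Colouring** with `t` functionals if
`t ≥ a + 1 + clog 2 ⌈min (a, rank + 1 - a) / 14⌉`. -/
theorem colour_min (a t : ℕ) (ha : 1 ≤ a) (V : Type u) [AddCommGroup V] [Module (ZMod 2) V]
    [FiniteDimensional (ZMod 2) V] (X : Finset V) (h0 : (0 : V) ∉ X)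
    (hW : ¬ HasWheel (a + 1) (X : Set V))
    (ht : a + 1 + Nat.clog 2 ((min a (Module.finrank (ZMod 2)
      (span (ZMod 2) (X : Set V)) + 1 - a) + 13) / 14) ≤ t) :
    ∃ Φ : Fin t → Module.Dual (ZMod 2) V, ∀ x ∈ X, ∃ j, Φ j x ≠ 0 := by
  set R := Module.finrank (ZMod 2) (span (ZMod 2) (X : Set V)) with hR
  rcases le_total a (R + 1 - a) with h | h
  · rw [min_eq_left h] at ht
    exact colour_of_pureA a (a + 1) ((a + 13) / 14) t ha (by omega) ht (pureA_fourteen ha) V X h0 hW
  · rw [min_eq_right h] at ht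
    rcases Nat.eq_zero_or_pos (R + 1 - a) with h1 | h1
    · refine colour_of_pureAR a (a + 1) 1 t (a + 14 * 1 - 1) ha (by omega) ?_
        (pureAR_fourteen ha le_rfl) V X h0 hW (by omega)
      rw [Nat.clog_one_right]
      omega
    · exact colour_of_pureAR a (a + 1) ((R + 1 - a + 13) / 14) t
        (a + 14 * ((R + 1 - a + 13) / 14) - 1) ha (by omega) ht (pureAR_fourteen ha (by omega))
        V X h0 hW (by omega)

end Pool.Agent.Lib.P68998g
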