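import Pool.Agent.Lib.P68998g.Pure
import Pool.Agent.Lib.P68998g.CritT
import Pool.Agent.Lib.P68998g.BlockCell

/-!
Colourings from bounds of the form `q * 2 ^ s`.
-/

namespace Pool.Agent.Lib.P68998g

open Submodule Finset Pool.Agent.Lib.P68998c Pool.Agent.Lib.P68998f

universe u

lemma mul_pow_le {q s t : ℕ} (h : s + Nat.clog 2 q ≤ t) : q * 2 ^ s ≤ 2 ^ t := by
  calc q * 2 ^ s ≤ 2 ^ Nat.clog 2 q * 2 ^ s :=
        Nat.mul_le_mul_right _ (Nat.le_pow_clog (by norm_num) _)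
    _ = 2 ^ (s + Nat.clog 2 q) := by rw [← pow_add, add_comm]
    _ ≤ 2 ^ t := Nat.pow_le_pow_right (by norm_num) h

theorem colour_of_pure (a s q t : ℕ) (ha : 1 ≤ a) (hat : a + 1 ≤ t)
    (hst : s + Nat.clog 2 q ≤ t) (hN : Pure.{u} a (q * 2 ^ s)) (V : Type u) [AddCommGroup V]
    [Module (ZMod 2) V] [FiniteDimensional (ZMod 2) V] (X : Finset V) (h0 : (0 : V) ∉ X)
    (hW : ¬ HasWheel (a + 1) (X : Set V)) :
    ∃ Φ : Fin t → Module.Dual (ZMod 2) V, ∀ x ∈ X, ∃ j, Φ j x ≠ 0 :=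
  colour_of_outBoundT a t _ ha hat (mul_pow_le hst) (outBound_of_pure ha hN) V X h0 hW

theorem colour_of_pureR (a s q t rho : ℕ) (ha : 1 ≤ a) (hat : a + 1 ≤ t)
    (hst : s + Nat.clog 2 q ≤ t) (hN : PureR.{u} a rho (q * 2 ^ s)) (V : Type u) [AddCommGroup V]
    [Module (ZMod 2) V] [FiniteDimensional (ZMod 2) V] (X : Finset V) (h0 : (0 : V) ∉ X)
    (hW : ¬ HasWheel (a + 1) (X : Set V))
    (hr : Module.finrank (ZMod 2) (span (ZMod 2) (X : Set V)) ≤ rho) :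
    ∃ Φ : Fin t → Module.Dual (ZMod 2) V, ∀ x ∈ X, ∃ j, Φ j x ≠ 0 :=
  colour_of_outBoundRT a t rho _ ha hat (mul_pow_le hst) (outBoundR_of_pure ha hN) V X h0 hW hr

theorem pure_nine {a : ℕ} (ha : 1 ≤ a) : Pure.{u} a ((a + 8) / 9 * 2 ^ (a + 1)) := by
  intro ι F v L h1 h2 h3 h4
  have h := bound_nine ha h1 h2 h3 h4 L 0 (by omega)
  rwa [zero_add] at h

/-- **Colouring** with `a + 1 + clog 2 ((a + 8) / 9)` functionals. -/
theorem colour_nine (a : ℕ) (ha : 1 ≤ a) (V : Type u) [AddCommGroup V] [Module (ZMod 2) V]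
    [FiniteDimensional (ZMod 2) V] (X : Finset V) (h0 : (0 : V) ∉ X)
    (hW : ¬ HasWheel (a + 1) (X : Set V)) :
    ∃ Φ : Fin (a + 1 + Nat.clog 2 ((a + 8) / 9)) → Module.Dual (ZMod 2) V,
      ∀ x ∈ X, ∃ j, Φ j x ≠ 0 :=
  colour_of_pure a (a + 1) ((a + 8) / 9) _ ha (by omega) le_rfl (pure_nine ha) V X h0 hW

theorem pureR_nine {a q : ℕ} (ha : 1 ≤ a) (hq : 1 ≤ q) :
    PureR.{u} a (a + 9 * q - 1) (q * 2 ^ (a + 1)) := by
  intro ι F v L hL h1 h2 h3 h4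
  rcases Nat.lt_or_ge 1 a with ha2 | ha1
  · have h := block_rank (t := 9) (by omega) h3 h4 (by norm_num)
      (cell_window (by omega) h1 h2 h3 h4) q hq L 0 (by omega) (by omega)
    rwa [zero_add] at h
  · have h := cell_bound_all ha (by omega) h1 h2 h3 h4 L 0 (by omega)
    rw [zero_add] at h
    exact h.trans (Nat.le_mul_of_pos_left _ hq)

/-- **Colouring** with `a + 1 + clog 2 q` functionals for rank at most `a + 9 * q - 1`. -/
theorem colour_rank_nine (a q : ℕ) (ha : 1 ≤ a) (hq : 1 ≤ q) (V : Type u) [AddCommGroup V]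
    [Module (ZMod 2) V] [FiniteDimensional (ZMod 2) V] (X : Finset V) (h0 : (0 : V) ∉ X)
    (hW : ¬ HasWheel (a + 1) (X : Set V))
    (hr : Module.finrank (ZMod 2) (span (ZMod 2) (X : Set V)) ≤ a + 9 * q - 1) :
    ∃ Φ : Fin (a + 1 + Nat.clog 2 q) → Module.Dual (ZMod 2) V, ∀ x ∈ X, ∃ j, Φ j x ≠ 0 :=
  colour_of_pureR a (a + 1) q _ (a + 9 * q - 1) ha (by omega) le_rfl (pureR_nine ha hq) V X h0 hW hr

end Pool.Agent.Lib.P68998g
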