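import Mathlib

/-!
Counting lemmas for finite sets of triples `(c, b, b')` with `b`, `b'` in `ZMod 2`.
-/

namespace Pool.Agent.Lib.P68998g

open Finset

lemma card_image_le_of_ker {ι γ δ : Type*} [DecidableEq γ] [DecidableEq δ] (F : Finset ι)
    (f : ι → γ) (g : ι → δ) (h : ∀ x ∈ F, ∀ y ∈ F, g x = g y → f x = f y) :
    (F.image f).card ≤ (F.image g).card := by
  classical
  rcases F.eq_empty_or_nonempty with rfl | ⟨x₀, hx₀⟩
  · simp
  have hex : ∀ c : δ, ∃ d : γ, ∀ x ∈ F, g x = c → f x = d := by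
    intro c
    by_cases hc : ∃ x ∈ F, g x = c
    · obtain ⟨x, hx, hxc⟩ := hc
      exact ⟨f x, fun y hy hyc => h y hy x hx (hyc.trans hxc.symm)⟩
    · exact ⟨f x₀, fun y hy hyc => absurd ⟨y, hy, hyc⟩ hc⟩
  choose θ hθ using hex
  have : F.image f ⊆ (F.image g).image θ := by
    intro d hd
    obtain ⟨x, hx, rfl⟩ := Finset.mem_image.1 hd
    exact Finset.mem_image.2 ⟨g x, Finset.mem_image_of_mem _ hx, (hθ (g x) x hx rfl).symm⟩
  exact (Finset.card_le_card this).trans Finset.card_image_le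

lemma card_image_eq_of_ker {ι γ δ : Type*} [DecidableEq γ] [DecidableEq δ] (F : Finset ι)
    (f : ι → γ) (g : ι → δ) (h : ∀ x ∈ F, ∀ y ∈ F, g x = g y ↔ f x = f y) :
    (F.image f).card = (F.image g).card :=
  le_antisymm (card_image_le_of_ker F f g fun x hx y hy => (h x hx y hy).1)
    (card_image_le_of_ker F g f fun x hx y hy => (h x hx y hy).2)

lemma fibre_ineq (B : Finset (ZMod 2 × ZMod 2)) (hB : B.Nonempty)
    (h : ∀ u w : ZMod 2, ¬ ((u, w) ∈ B ∧ (u + 1, w) ∈ B ∧ (u, w + 1) ∈ B)) :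
    B.card + 1 ≤ (B.image Prod.fst).card + (B.image Prod.snd).card ∧
      2 * B.card ≤ (B.image Prod.fst).card + (B.image Prod.snd).card + 1 := by
  revert B
  decide

section

variable {γ : Type*} [DecidableEq γ]

/-- the fibre of `A` over `c` -/
def fib (A : Finset (γ × (ZMod 2 × ZMod 2))) (c : γ) : Finset (ZMod 2 × ZMod 2) :=
  (A.filter fun z => z.1 = c).image Prod.snd

lemma mem_fib {A : Finset (γ × (ZMod 2 × ZMod 2))} {c : γ} {b : ZMod 2 × ZMod 2} :
    b ∈ fib A c ↔ (c, b) ∈ A := by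
  simp only [fib, Finset.mem_image, Finset.mem_filter]
  constructor
  · rintro ⟨⟨c', b'⟩, ⟨h1, h2⟩, h3⟩
    simp only at h2 h3
    subst h2; subst h3
    exact h1
  · intro h
    exact ⟨(c, b), ⟨h, rfl⟩, rfl⟩

lemma card_eq_sum_fib (A : Finset (γ × (ZMod 2 × ZMod 2))) :
    A.card = ∑ c ∈ A.image Prod.fst, (fib A c).card := by
  rw [Finset.card_eq_sum_card_image Prod.fst A]
  refine Finset.sum_congr rfl fun c _ => ?_
  rw [fib, Finset.card_image_of_injOn]
  rintro ⟨c1, b1⟩ h1 ⟨c2, b2⟩ h2 h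
  simp only [Finset.coe_filter, Set.mem_setOf_eq] at h1 h2
  simp only at h
  rw [h1.2, h2.2, h]

lemma card_image_eq_sum (A : Finset (γ × (ZMod 2 × ZMod 2))) (g : ZMod 2 × ZMod 2 → ZMod 2) :
    (A.image fun z => (z.1, g z.2)).card =
      ∑ c ∈ A.image Prod.fst, ((fib A c).image g).card := by
  rw [Finset.card_eq_sum_card_fiberwise (f := Prod.fst) (t := A.image Prod.fst)]
  · refine Finset.sum_congr rfl fun c _ => ?_
    apply Finset.card_bij (fun z _ => z.2)
    · rintro ⟨c', b⟩ hz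
      simp only [Finset.mem_filter, Finset.mem_image] at hz
      obtain ⟨⟨z, hz, hzz⟩, h2⟩ := hz
      simp only [Prod.mk.injEq] at hzz
      simp only [Finset.mem_image]
      refine ⟨z.2, mem_fib.2 ?_, hzz.2⟩
      have : z = (c, z.2) := by rw [← h2, ← hzz.1]
      rwa [← this]
    · rintro ⟨c1, b1⟩ h1 ⟨c2, b2⟩ h2 h
      simp only [Finset.mem_filter] at h1 h2
      simp only at h
      rw [h1.2, h2.2, h]
    · intro b hb
      obtain ⟨d, hd, rfl⟩ := Finset.mem_image.1 hb
      refine ⟨(c, g d), ?_, rfl⟩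
      simp only [Finset.mem_filter, Finset.mem_image]
      exact ⟨⟨(c, d), mem_fib.1 hd, rfl⟩, trivial⟩
  · intro z hz
    simp only [Finset.coe_image, Set.mem_image, Finset.mem_coe] at hz ⊢
    obtain ⟨w, hw, rfl⟩ := hz
    exact ⟨w, hw, rfl⟩

theorem count (A : Finset (γ × (ZMod 2 × ZMod 2)))
    (h : ∀ (c : γ) (u w : ZMod 2),
      ¬ ((c, (u, w)) ∈ A ∧ (c, (u + 1, w)) ∈ A ∧ (c, (u, w + 1)) ∈ A)) :
    A.card + (A.image Prod.fst).card ≤
        (A.image fun z => (z.1, z.2.1)).card + (A.image fun z => (z.1, z.2.2)).card ∧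
      2 * A.card ≤ (A.image fun z => (z.1, z.2.1)).card + (A.image fun z => (z.1, z.2.2)).card +
        (A.image Prod.fst).card := by
  have key : ∀ c ∈ A.image Prod.fst,
      (fib A c).card + 1 ≤ ((fib A c).image Prod.fst).card + ((fib A c).image Prod.snd).card ∧
      2 * (fib A c).card ≤
        ((fib A c).image Prod.fst).card + ((fib A c).image Prod.snd).card + 1 := by
    intro c hc
    apply fibre_ineq
    · obtain ⟨z, hz, rfl⟩ := Finset.mem_image.1 hc
      exact ⟨z.2, mem_fib.2 hz⟩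
    · rintro u w ⟨h1, h2, h3⟩
      exact h c u w ⟨mem_fib.1 h1, mem_fib.1 h2, mem_fib.1 h3⟩
  have e1 := card_image_eq_sum A Prod.fst
  have e2 := card_image_eq_sum A Prod.snd
  rw [e1, e2, card_eq_sum_fib A]
  constructor
  · have := Finset.sum_le_sum fun c hc => (key c hc).1
    rw [Finset.sum_add_distrib, Finset.sum_add_distrib, Finset.sum_const, smul_eq_mul,
      mul_one] at this
    exact this
  · have := Finset.sum_le_sum fun c hc => (key c hc).2
    rw [← Finset.mul_sum, Finset.sum_add_distrib, Finset.sum_add_distrib, Finset.sum_const,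
      smul_eq_mul, mul_one] at this
    exact this

end

end Pool.Agent.Lib.P68998g
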