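import Pool.Agent.Lib.P68998g.Base

/-!
Criticality: cocircuits with at most `2 ^ (a + 1)` elements are small enough for a greedy
colouring with `a + 1` functionals.
-/

namespace Pool.Agent.Lib.P68998g

open Submodule Finset Pool.Agent.Lib.P68998c Pool.Agent.Lib.P68998f

universe u

section

variable {V : Type u} [AddCommGroup V] [Module (ZMod 2) V]

/-- Independent vectors of `E` all of whose pair sums are in `E` give a wheel. -/
lemma wheel_of_clique {a : ℕ} {E : Set V} (ha : 1 ≤ a) (c : Fin (a + 1 + 1) → V)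
    (hc : LinearIndependent (ZMod 2) c) (hcE : ∀ i, c i ∈ E)
    (hcc : ∀ i j, i ≠ j → c i + c j ∈ E) : HasWheel (a + 1) E := by
  classical
  obtain ⟨φ, hφ⟩ := LinearMap.exists_leftInverse_of_injective
    (Fintype.linearCombination (ZMod 2) c) (by
      rw [LinearMap.ker_eq_bot]
      exact hc.fintypeLinearCombination_injective)
  have hne : ∀ i : Fin (a + 1 + 1), i ≠ i + 1 := by
    intro i h
    have h1 : (1 : Fin (a + 1 + 1)) = 0 := by simpa using h.symm
    have h2 := congrArg Fin.val h1
    rw [Fin.val_one', Fin.val_zero, Nat.mod_eq_of_lt (by omega)] at h2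
    omega
  refine ⟨∅, c, fun i => c i + c (i + 1), Set.empty_subset _, hcE, fun i => hcc _ _ (hne i),
    ⟨φ, fun x hx => absurd hx (Set.notMem_empty x), fun i => ?_⟩, fun i => ?_⟩
  · have h1 := congrArg (fun g => g (Pi.single i 1)) hφ
    simp only [LinearMap.comp_apply, LinearMap.id_apply, Fintype.linearCombination_apply_single,
      one_smul] at h1
    exact h1
  · have h1 : c i + c (i + 1) + c i + c (i + 1) = (c i + c i) + (c (i + 1) + c (i + 1)) := by abel
    rw [h1, ZModModule.add_self, ZModModule.add_self, add_zero]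
    exact zero_mem _

/-- If a cocircuit has at least `2 ^ (a + 1)` elements then the sum of two of them is not in the
set. -/
lemma exists_gap {a : ℕ} (ha : 1 ≤ a) [FiniteDimensional (ZMod 2) V] {X : Finset V}
    (hW : ¬ HasWheel (a + 1) (X : Set V)) (f : V →ₗ[ZMod 2] ZMod 2)
    (hcard : 2 ^ (a + 1) ≤ (X.filter fun x => f x = 1).card) :
    ∃ c ∈ X.filter (fun x => f x = 1), ∃ c' ∈ X.filter (fun x => f x = 1),
      c ≠ c' ∧ c + c' ∉ X := by
  classical
  by_contra hcon
  push Not at hcon
  set C := X.filter fun x => f x = 1 with hC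
  set S := span (ZMod 2) (C : Set V) with hS
  obtain ⟨c₀, hc₀⟩ : C.Nonempty := by
    rw [← Finset.card_pos]
    exact lt_of_lt_of_le (by positivity) hcard
  -- the dimension of the span
  have hfinV : Finite V := Module.finite_of_finite (ZMod 2)
  have hD : a + 1 + 1 ≤ Module.finrank (ZMod 2) S := by
    have h1 : (C ∪ C.image fun x => c₀ + x).card = 2 * C.card := by
      rw [Finset.card_union_of_disjoint, Finset.card_image_of_injective _ (add_right_injective c₀),
        two_mul]
      rw [Finset.disjoint_left]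
      intro x hx hx'
      obtain ⟨z, hz, rfl⟩ := Finset.mem_image.1 hx'
      rw [hC, Finset.mem_filter] at hx hz hc₀
      have h2 := hx.2
      rw [map_add, hz.2, hc₀.2] at h2
      exact absurd h2 (by decide)
    have h2 : ((C ∪ C.image fun x => c₀ + x : Finset V) : Set V) ⊆ (S : Set V) := by
      intro x hx
      rw [Finset.mem_coe, Finset.mem_union, Finset.mem_image] at hx
      rcases hx with hx | ⟨z, hz, rfl⟩
      · exact subset_span hx
      · exact add_mem (subset_span hc₀) (subset_span hz)
    have h3 : Nat.card S = 2 ^ Module.finrank (ZMod 2) S := by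
      rw [Module.natCard_eq_pow_finrank (K := ZMod 2), Nat.card_zmod]
    have h4 : (C ∪ C.image fun x => c₀ + x).card ≤ Nat.card S := by
      have h5 := Set.ncard_le_ncard h2 (Set.toFinite _)
      rw [Set.ncard_coe_finset] at h5
      exact h5
    rw [h1, h3] at h4
    have h6 : 2 ^ (a + 1 + 1) ≤ 2 ^ Module.finrank (ZMod 2) S := by
      refine le_trans ?_ h4
      rw [pow_succ]
      omega
    exact (Nat.pow_le_pow_iff_right (by norm_num)).1 h6
  obtain ⟨g, hg, -, hgi⟩ := Submodule.exists_fun_fin_finrank_span_eq (ZMod 2) (C : Set V)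
  have hgi' := hgi.comp (Fin.castLE hD) (Fin.castLE_injective hD)
  refine hW (wheel_of_clique ha _ hgi' (fun i => ?_) fun i j hij => ?_)
  · exact Finset.mem_coe.2 (Finset.mem_filter.1 (Finset.mem_coe.1 (hg (Fin.castLE hD i)))).1
  · exact Finset.mem_coe.2 (hcon _ (Finset.mem_coe.1 (hg _)) _ (Finset.mem_coe.1 (hg _))
      (fun h => hij (hgi'.injective h)))

end

/-- **Criticality.** -/
theorem colour_of_small (a : ℕ) (ha : 1 ≤ a)
    (hS : ∀ (V : Type u) [AddCommGroup V] [Module (ZMod 2) V] [FiniteDimensional (ZMod 2) V]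
      (X : Finset V), (0 : V) ∉ X → X.Nonempty → ¬ HasWheel (a + 1) (X : Set V) →
      ∃ f : V →ₗ[ZMod 2] ZMod 2, (X.filter fun x => f x = 1).Nonempty ∧
        (X.filter fun x => f x = 1).card ≤ 2 ^ (a + 1)) (m : ℕ) :
    ∀ (V : Type u) [AddCommGroup V] [Module (ZMod 2) V] [FiniteDimensional (ZMod 2) V]
      (X : Finset V), X.card ≤ m → (0 : V) ∉ X → ¬ HasWheel (a + 1) (X : Set V) →
      ∃ Φ : Fin (a + 1) → Module.Dual (ZMod 2) V, ∀ x ∈ X, ∃ j, Φ j x ≠ 0 := by
  classical
  induction m with
  | zero =>
    intro V _ _ _ X hm h0 hW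
    have h1 : X = ∅ := Finset.card_eq_zero.1 (by omega)
    subst h1
    exact ⟨fun _ => 0, fun x hx => absurd hx (Finset.notMem_empty x)⟩
  | succ m ih =>
    intro V _ _ _ X hm h0 hW
    rcases X.eq_empty_or_nonempty with rfl | hX
    · exact ⟨fun _ => 0, fun x hx => absurd hx (Finset.notMem_empty x)⟩
    obtain ⟨f, hf1, hf2⟩ := hS V X h0 hX hW
    set X₀ := X.filter fun x => f x = 0 with hX₀
    set C := X.filter fun x => f x = 1 with hC
    have hsub : X₀ ⊂ X := by
      rw [hX₀, Finset.filter_ssubset]
      obtain ⟨x, hx⟩ := hf1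
      rw [hC, Finset.mem_filter] at hx
      refine ⟨x, hx.1, ?_⟩
      rw [hx.2]
      exact one_ne_zero
    have hcard₀ : X₀.card ≤ m := by
      have := Finset.card_lt_card hsub
      omega
    -- it is enough to colour the hyperplane so that a value is missing on `C`
    obtain ⟨Φ', hΦ', hlt⟩ : ∃ Φ' : Fin (a + 1) → Module.Dual (ZMod 2) V,
        (∀ x ∈ X₀, ∃ j, Φ' j x ≠ 0) ∧
        (C.image fun x => fun j => Φ' j x).card < 2 ^ (a + 1) := by
      rcases lt_or_ge C.card (2 ^ (a + 1)) with hlt | hge
      · obtain ⟨Φ', hΦ'⟩ := ih V X₀ hcard₀ (fun h => h0 (hsub.1 h))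
          (fun h => hW (h.mono (by exact_mod_cast hsub.1)))
        exact ⟨Φ', hΦ', lt_of_le_of_lt Finset.card_image_le hlt⟩
      · obtain ⟨c, hc, c', hc', hne, hgap⟩ := exists_gap ha hW f hge
        have hc2 := Finset.mem_filter.1 hc
        have hc2' := Finset.mem_filter.1 hc'
        set π₁ := (span (ZMod 2) {c}).mkQ with hπ₁
        set π₂ := (span (ZMod 2) {π₁ c'}).mkQ with hπ₂
        have hk1 : π₁ c = 0 := by
          rw [hπ₁, mkQ_apply, Quotient.mk_eq_zero]; exact mem_span_singleton_self c
        have hker2 : ∀ w, π₂ w = 0 ↔ w ∈ span (ZMod 2) {π₁ c'} := fun w =>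
          Quotient.mk_eq_zero (span (ZMod 2) {π₁ c'})
        have hk2 : π₂ (π₁ c') = 0 := (hker2 _).2 (mem_span_singleton_self _)
        set X₂ := X₀.image fun x => π₂ (π₁ x) with hX₂
        have hW₂ : ¬ HasWheel (a + 1) (X₂ : Set ((V ⧸ span (ZMod 2) {c}) ⧸
            span (ZMod 2) {π₁ c'})) := by
          intro h
          refine hW (hasWheel_of_quotient (e := c) (Finset.mem_coe.2 hc2.1) (subset_refl _)
            (hasWheel_of_quotient (e := π₁ c') (Set.mem_image_of_mem _ (Finset.mem_coe.2 hc2'.1))
              ?_ h))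
          intro w hw
          rw [Finset.mem_coe, hX₂, Finset.mem_image] at hw
          obtain ⟨x, hx, rfl⟩ := hw
          exact ⟨π₁ x, ⟨x, Finset.mem_coe.2 (hsub.1 hx), rfl⟩, rfl⟩
        have h0₂ : (0 : (V ⧸ span (ZMod 2) {c}) ⧸ span (ZMod 2) {π₁ c'}) ∉ X₂ := by
          intro h
          rw [hX₂, Finset.mem_image] at h
          obtain ⟨x, hx, hx0⟩ := h
          rw [hX₀, Finset.mem_filter] at hx
          obtain ⟨t, ht⟩ := mem_span_singleton.1 ((hker2 _).1 hx0)
          have h1 : x - t • c' ∈ span (ZMod 2) {c} := by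
            rw [← Quotient.mk_eq_zero, ← mkQ_apply, map_sub, map_smul, ← hπ₁, ht, sub_self]
          rw [mem_span_singleton] at h1
          obtain ⟨s, hs⟩ := h1
          have h2 : x = s • c + t • c' := by rw [hs, sub_add_cancel]
          have h3 := hx.2
          rw [h2, map_add, map_smul, map_smul, hc2.2, hc2'.2, smul_eq_mul, smul_eq_mul, mul_one,
            mul_one] at h3
          rcases zc s with rfl | rfl
          · rw [zero_add] at h3
            subst h3
            rw [zero_smul, zero_smul, add_zero] at h2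
            exact h0 (h2 ▸ hx.1)
          · have h4 : t = 1 := by
              revert h3
              rcases zc t with rfl | rfl <;> decide
            subst h4
            rw [one_smul, one_smul] at h2
            exact hgap (h2 ▸ hx.1)
        obtain ⟨Φ₂, hΦ₂⟩ := ih _ X₂ (Finset.card_image_le.trans hcard₀) h0₂ hW₂
        refine ⟨fun j => (Φ₂ j).comp (π₂.comp π₁), fun x hx => ?_, ?_⟩
        · exact hΦ₂ _ (Finset.mem_image_of_mem _ hx)
        · have h1 : (C.image fun x => fun j => ((Φ₂ j).comp (π₂.comp π₁)) x) ⊆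
              ((C.erase c).image fun x => fun j => ((Φ₂ j).comp (π₂.comp π₁)) x) := by
            intro w hw
            rw [Finset.mem_image] at hw
            obtain ⟨x, hx, rfl⟩ := hw
            by_cases hxc : x = c
            · subst hxc
              rw [Finset.mem_image]
              refine ⟨c', Finset.mem_erase.2 ⟨Ne.symm hne, hc'⟩, ?_⟩
              funext j
              simp only [LinearMap.comp_apply, hk1, hk2, map_zero]
            · exact Finset.mem_image_of_mem _ (Finset.mem_erase.2 ⟨hxc, hx⟩)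
          refine lt_of_le_of_lt ((Finset.card_le_card h1).trans Finset.card_image_le) ?_
          have h2 := Finset.card_erase_lt_of_mem hc
          exact lt_of_lt_of_le h2 hf2
    have hcard : (C.image fun x => fun j => Φ' j x).card <
        (Finset.univ : Finset (Fin (a + 1) → ZMod 2)).card := by
      rw [Finset.card_univ, Fintype.card_fun, ZMod.card, Fintype.card_fin]
      exact hlt
    obtain ⟨ε, -, hε⟩ := Finset.exists_mem_notMem_of_card_lt_card hcard
    refine ⟨fun j => Φ' j + ε j • f, fun x hx => ?_⟩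
    rcases zc (f x) with h00 | h1
    · obtain ⟨j, hj⟩ := hΦ' x (Finset.mem_filter.2 ⟨hx, h00⟩)
      refine ⟨j, ?_⟩
      rw [LinearMap.add_apply, LinearMap.smul_apply, h00, smul_zero, add_zero]
      exact hj
    · by_contra hcon
      push Not at hcon
      refine hε (Finset.mem_image.2 ⟨x, Finset.mem_filter.2 ⟨hx, h1⟩, funext fun j => ?_⟩)
      have h2 := hcon j
      rw [LinearMap.add_apply, LinearMap.smul_apply, h1, smul_eq_mul, mul_one] at h2
      have h3 : ∀ y z : ZMod 2, y + z = 0 → y = z := by decide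
      exact h3 _ _ h2

/-- **Colouring** with `a + 1` functionals if at most `2 ^ (a + 1)` elements lie outside a fan path
which spans a hyperplane. -/
theorem colour_of_outBound (a : ℕ) (ha : 1 ≤ a) (hN : OutBound.{u} a (2 ^ (a + 1)))
    (V : Type u) [AddCommGroup V] [Module (ZMod 2) V] [FiniteDimensional (ZMod 2) V]
    (X : Finset V) (h0 : (0 : V) ∉ X) (hW : ¬ HasWheel (a + 1) (X : Set V)) :
    ∃ Φ : Fin (a + 1) → Module.Dual (ZMod 2) V, ∀ x ∈ X, ∃ j, Φ j x ≠ 0 :=
  colour_of_small a ha
    (fun V _ _ _ X h0 hX hW =>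
      small_cocircuit_of_outBound a (2 ^ (a + 1)) Nat.one_le_two_pow hN V X h0 hX hW)
    X.card V X le_rfl h0 hW

end Pool.Agent.Lib.P68998g
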