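import Pool.Agent.Lib.P68998g.WheelB
import Pool.Agent.Lib.P68998g.CountLt

/-!
The strict bound `2 ^ (a + 1)` for the number of elements outside a fan path which spans a
hyperplane, for `a ≤ 6`.
-/

namespace Pool.Agent.Lib.P68998g

open Submodule Finset Pool.Agent.Lib.P68998c Pool.Agent.Lib.P68998f

universe u

section

variable {V : Type u} [AddCommGroup V] [Module (ZMod 2) V]

/-- the last coordinate vanishes on the span of the path -/
lemma last_eq_zero {y : ℕ → V} {k : ℕ} {Φ : V →ₗ[ZMod 2] (ℕ → ZMod 2)}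
    (hΦ : ∀ p ≤ k, Φ (y p) = fun q => if q ≤ p then 1 else 0) :
    ∀ u ∈ span (ZMod 2) (Set.range fun i : Fin (k + 1) => y i), Φ u (k + 1) = 0 := by
  intro u hu
  induction hu using span_induction with
  | mem v hv =>
    obtain ⟨i, rfl⟩ := hv
    have hi := i.2
    simp only
    rw [hΦ i (by omega)]
    beta_reduce
    rw [if_neg (by omega)]
  | zero => simp
  | add u w _ _ h1 h2 => rw [map_add, Pi.add_apply, h1, h2, add_zero]
  | smul s u _ h1 => rw [map_smul, Pi.smul_apply, h1, smul_zero]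

/-- **The strict count.** Fewer than `2 ^ (a + 1)` elements of `E` lie outside a fan path which
spans a hyperplane, if `a ≤ 6`. -/
theorem count_lt {a : ℕ} (ha : 1 ≤ a) (ha6 : a ≤ 6) {E : Finset V}
    (hW : ¬ HasWheel (a + 1) (E : Set V)) {k : ℕ} {y : ℕ → V}
    (hy : FanPath (E : Set V) y k) (C : Finset V) (hC : C ⊆ E)
    (hCy : ∀ x ∈ C, x ∉ span (ZMod 2) (Set.range fun i : Fin (k + 1) => y i))
    (hCC : ∀ x ∈ C, ∀ x' ∈ C, x + x' ∈ span (ZMod 2) (Set.range fun i : Fin (k + 1) => y i)) :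
    C.card < 2 ^ (a + 1) :=
  count_lt_of_starB ha ha6 hW hy C hC hCy hCC fun _ hΦ =>
    starB_of_noWheel ha hW hy C hC hCy hCC hΦ (last_eq_zero hΦ)

end

end Pool.Agent.Lib.P68998g
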