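import Mathlib

/-!
Families of words with forbidden differences and forbidden triangles: a fold which removes two
letters at a time and at most doubles the number of words.
-/

namespace Pool.Agent.Lib.P68998g.FoldQ

open Finset

/-- is the plane spanned by `a` and `b` in the list? -/
def look (N : List (ℕ × ℕ)) (a b : ℕ) : Bool :=
  N.any fun t =>
    (Nat.beq t.1 a && (Nat.beq t.2 b || Nat.beq t.2 (a ^^^ b))) ||
    ((Nat.beq t.1 b && (Nat.beq t.2 a || Nat.beq t.2 (a ^^^ b))) ||
    (Nat.beq t.1 (a ^^^ b) && (Nat.beq t.2 a || Nat.beq t.2 b)))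

/-- no two words differ by a member of `L`, no three words form a triangle from `N` -/
def Adm (L : List ℕ) (N : List (ℕ × ℕ)) (P : Finset ℕ) : Prop :=
  (∀ D ∈ L, ∀ x ∈ P, x ^^^ D ∈ P → False) ∧
  ∀ t ∈ N, ∀ x ∈ P, x ^^^ t.1 ∈ P → x ^^^ t.2 ∈ P → False

/-- some difference of two of the words is in the table -/
def hit2 (T : ℕ) : List ℕ → Bool
  | [] => false
  | x :: ws => ws.any (fun y => Nat.testBit T (x ^^^ y)) || hit2 T ws

/-- some triangle with the vertex `x` is in the list -/
def hit3a (N : List (ℕ × ℕ)) (x : ℕ) : List ℕ → Bool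
  | [] => false
  | y :: ws => ws.any (fun z => look N (x ^^^ y) (x ^^^ z)) || hit3a N x ws

/-- some triangle of three of the words is in the list -/
def hit3 (N : List (ℕ × ℕ)) : List ℕ → Bool
  | [] => false
  | x :: ws => hit3a N x ws || hit3 N ws

/-- the words cannot all be present -/
def hit (T : ℕ) (N : List (ℕ × ℕ)) (ws : List ℕ) : Bool := hit2 T ws || hit3 N ws

/-- the possible origins of a word after a fold -/
def reals (p q : ℕ) : List (List ℕ) := [[0, q], [p], [p ^^^ q]]

/-- a difference which is excluded after the fold -/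
def check2 (T : ℕ) (N : List (ℕ × ℕ)) (p q D : ℕ) : Bool :=
  (reals p q).all fun r => (reals p q).all fun r' => hit T N (r ++ r'.map (fun u => D ^^^ u))

/-- a triangle which is excluded after the fold -/
def check3 (T : ℕ) (N : List (ℕ × ℕ)) (p q a b : ℕ) : Bool :=
  (reals p q).all fun r => (reals p q).all fun r' => (reals p q).all fun r'' =>
    hit T N (r ++ (r'.map (fun u => a ^^^ u) ++ r''.map (fun u => b ^^^ u)))

/-- the check for one step -/
def checkStep (T : ℕ) (N : List (ℕ × ℕ)) (p q : ℕ) (L' : List ℕ) (N' : List (ℕ × ℕ)) : Bool :=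
  look N q p && (L'.all (check2 T N p q) && N'.all fun t => check3 T N p q t.1 t.2)

/-- the table of a list -/
def mask : List ℕ → ℕ
  | [] => 0
  | D :: L => mask L ||| 2 ^ D

lemma mem_of_mask (L : List ℕ) (D : ℕ) (h : (mask L).testBit D = true) : D ∈ L := by
  induction L with
  | nil => simp [mask] at h
  | cons E L ih =>
    rw [mask, Nat.testBit_or, Bool.or_eq_true] at h
    rcases h with h | h
    · exact List.mem_cons_of_mem _ (ih h)
    · rw [Nat.testBit_two_pow] at h
      have : E = D := by simpa using h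
      rw [this]
      exact List.mem_cons_self

lemma x1 (x y g : ℕ) : (x ^^^ g) ^^^ (x ^^^ y) = y ^^^ g := by
  apply Nat.eq_of_testBit_eq
  intro i
  simp only [Nat.testBit_xor]
  cases x.testBit i <;> cases y.testBit i <;> cases g.testBit i <;> rfl

lemma x2 (x a : ℕ) : (x ^^^ a) ^^^ a = x := by
  rw [Nat.xor_assoc, Nat.xor_self, Nat.xor_zero]

lemma x3 (x a b : ℕ) : (x ^^^ a) ^^^ (a ^^^ b) = x ^^^ b := by
  rw [Nat.xor_assoc, ← Nat.xor_assoc a a b, Nat.xor_self, Nat.zero_xor]

lemma x4 (x a b : ℕ) : (x ^^^ b) ^^^ (a ^^^ b) = x ^^^ a := by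
  rw [Nat.xor_comm a b, x3]

lemma look_sound {L : List ℕ} {N : List (ℕ × ℕ)} {P : Finset ℕ} (hP : Adm L N P) {a b x : ℕ}
    (h : look N a b = true) (h0 : x ∈ P) (ha : x ^^^ a ∈ P) (hb : x ^^^ b ∈ P) : False := by
  unfold look at h
  rw [List.any_eq_true] at h
  obtain ⟨⟨t1, t2⟩, ht, h⟩ := h
  have hN := hP.2 _ ht
  simp only [Bool.or_eq_true, Bool.and_eq_true, Nat.beq_eq] at h
  simp only at hN
  rcases h with ⟨rfl, rfl | rfl⟩ | ⟨rfl, rfl | rfl⟩ | ⟨rfl, rfl | rfl⟩
  · exact hN x h0 ha hb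
  · exact hN (x ^^^ t1) ha (by rw [x2]; exact h0) (by rw [x3]; exact hb)
  · exact hN x h0 hb ha
  · exact hN (x ^^^ t1) hb (by rw [x2]; exact h0) (by rw [x4]; exact ha)
  · exact hN (x ^^^ t2) ha (by rw [x3]; exact hb) (by rw [x2]; exact h0)
  · exact hN (x ^^^ t2) hb (by rw [x4]; exact ha) (by rw [x2]; exact h0)

lemma hit2_sound {L : List ℕ} {N : List (ℕ × ℕ)} {P : Finset ℕ} {T : ℕ} (hP : Adm L N P)
    (hT : ∀ D, T.testBit D = true → D ∈ L) (g : ℕ) :
    ∀ ws : List ℕ, hit2 T ws = true → (∀ w ∈ ws, w ^^^ g ∈ P) → False := by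
  intro ws
  induction ws with
  | nil => intro h; simp [hit2] at h
  | cons x ws ih =>
    intro h hw
    rw [hit2, Bool.or_eq_true, List.any_eq_true] at h
    rcases h with ⟨y, hy, h⟩ | h
    · refine hP.1 _ (hT _ h) (x ^^^ g) (hw x List.mem_cons_self) ?_
      rw [x1]
      exact hw y (List.mem_cons_of_mem _ hy)
    · exact ih h fun w hw' => hw w (List.mem_cons_of_mem _ hw')

lemma hit3a_sound {L : List ℕ} {N : List (ℕ × ℕ)} {P : Finset ℕ} (hP : Adm L N P) (g x : ℕ)
    (hx : x ^^^ g ∈ P) :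
    ∀ ws : List ℕ, hit3a N x ws = true → (∀ w ∈ ws, w ^^^ g ∈ P) → False := by
  intro ws
  induction ws with
  | nil => intro h; simp [hit3a] at h
  | cons y ws ih =>
    intro h hw
    rw [hit3a, Bool.or_eq_true, List.any_eq_true] at h
    rcases h with ⟨z, hz, h⟩ | h
    · refine look_sound hP h hx ?_ ?_
      · rw [x1]; exact hw y List.mem_cons_self
      · rw [x1]; exact hw z (List.mem_cons_of_mem _ hz)
    · exact ih h fun w hw' => hw w (List.mem_cons_of_mem _ hw')

lemma hit3_sound {L : List ℕ} {N : List (ℕ × ℕ)} {P : Finset ℕ} (hP : Adm L N P) (g : ℕ) :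
    ∀ ws : List ℕ, hit3 N ws = true → (∀ w ∈ ws, w ^^^ g ∈ P) → False := by
  intro ws
  induction ws with
  | nil => intro h; simp [hit3] at h
  | cons x ws ih =>
    intro h hw
    rw [hit3, Bool.or_eq_true] at h
    rcases h with h | h
    · exact hit3a_sound hP g x (hw x List.mem_cons_self) ws h
        fun w hw' => hw w (List.mem_cons_of_mem _ hw')
    · exact ih h fun w hw' => hw w (List.mem_cons_of_mem _ hw')

lemma hit_sound {L : List ℕ} {N : List (ℕ × ℕ)} {P : Finset ℕ} {T : ℕ} (hP : Adm L N P)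
    (hT : ∀ D, T.testBit D = true → D ∈ L) (g : ℕ) (ws : List ℕ) (h : hit T N ws = true)
    (hw : ∀ w ∈ ws, w ^^^ g ∈ P) : False := by
  rw [hit, Bool.or_eq_true] at h
  rcases h with h | h
  · exact hit2_sound hP hT g ws h hw
  · exact hit3_sound hP g ws h hw

section step

variable {L L' : List ℕ} {N N' : List (ℕ × ℕ)} {P : Finset ℕ} {T p q K : ℕ} {S' : ℕ → Prop}

/-- the words `w` of the next level such that `w ^^^ c` is present -/
noncomputable def lift (S' : ℕ → Prop) (P : Finset ℕ) (c : ℕ) : Finset ℕ := by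
  classical
  exact (P.image fun x => x ^^^ c).filter S'

lemma mem_lift {c w : ℕ} : w ∈ lift S' P c ↔ S' w ∧ w ^^^ c ∈ P := by
  classical
  unfold lift
  rw [Finset.mem_filter, Finset.mem_image]
  constructor
  · rintro ⟨⟨x, hx, rfl⟩, h⟩
    exact ⟨h, by rw [x2]; exact hx⟩
  · rintro ⟨h1, h2⟩
    exact ⟨⟨_, h2, x2 _ _⟩, h1⟩

/-- one half of the folded family -/
noncomputable def half (S' : ℕ → Prop) (P : Finset ℕ) (p q s : ℕ) : Finset ℕ := by
  classical
  exact (lift S' P s ∩ lift S' P (q ^^^ s)) ∪ (lift S' P (p ^^^ s) ∪ lift S' P (p ^^^ q ^^^ s))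

lemma half_real {s w : ℕ} (h : w ∈ half S' P p q s) :
    ∃ r ∈ reals p q, ∀ u ∈ r, u ^^^ (w ^^^ s) ∈ P := by
  classical
  unfold half at h
  have key : ∀ c, w ∈ lift S' P (c ^^^ s) → c ^^^ (w ^^^ s) ∈ P := by
    intro c hc
    have := (mem_lift.1 hc).2
    rwa [show c ^^^ (w ^^^ s) = w ^^^ (c ^^^ s) by
      rw [← Nat.xor_assoc, Nat.xor_comm c w, Nat.xor_assoc]]
  rw [Finset.mem_union, Finset.mem_inter, Finset.mem_union] at h
  rcases h with ⟨h1, h2⟩ | h1 | h1
  · refine ⟨[0, q], by simp [reals], ?_⟩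
    intro u hu
    simp only [List.mem_cons, List.not_mem_nil, or_false] at hu
    rcases hu with rfl | rfl
    · exact key 0 (by rw [Nat.zero_xor]; exact h1)
    · exact key _ h2
  · refine ⟨[p], by simp [reals], ?_⟩
    intro u hu
    simp only [List.mem_cons, List.not_mem_nil, or_false] at hu
    rw [hu]
    exact key _ h1
  · refine ⟨[p ^^^ q], by simp [reals], ?_⟩
    intro u hu
    simp only [List.mem_cons, List.not_mem_nil, or_false] at hu
    rw [hu]
    exact key _ h1

lemma half_adm (hP : Adm L N P) (hT : ∀ D, T.testBit D = true → D ∈ L)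
    (hc : checkStep T N p q L' N' = true) (s : ℕ) : Adm L' N' (half S' P p q s) := by
  unfold checkStep at hc
  rw [Bool.and_eq_true, Bool.and_eq_true, List.all_eq_true, List.all_eq_true] at hc
  obtain ⟨-, hc2, hc3⟩ := hc
  have key : ∀ (w D u : ℕ), u ^^^ ((w ^^^ D) ^^^ s) = (D ^^^ u) ^^^ (w ^^^ s) := by
    intro w D u
    apply Nat.eq_of_testBit_eq
    intro i
    simp only [Nat.testBit_xor]
    cases w.testBit i <;> cases D.testBit i <;> cases u.testBit i <;> cases s.testBit i <;> rfl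
  constructor
  · intro D hD w hw hw'
    obtain ⟨r, hr, h1⟩ := half_real hw
    obtain ⟨r', hr', h2⟩ := half_real hw'
    have h3 := hc2 D hD
    unfold check2 at h3
    have h4 := List.all_eq_true.1 (List.all_eq_true.1 h3 r hr) r' hr'
    refine hit_sound hP hT (w ^^^ s) _ h4 ?_
    intro u hu
    rw [List.mem_append] at hu
    rcases hu with hu | hu
    · exact h1 u hu
    · obtain ⟨u', hu', rfl⟩ := List.mem_map.1 hu
      rw [← key]
      exact h2 u' hu'
  · intro t ht w hw hw' hw''
    obtain ⟨r, hr, h1⟩ := half_real hw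
    obtain ⟨r', hr', h2⟩ := half_real hw'
    obtain ⟨r'', hr'', h2'⟩ := half_real hw''
    have h3 := hc3 t ht
    unfold check3 at h3
    have h4 := List.all_eq_true.1 (List.all_eq_true.1 (List.all_eq_true.1 h3 r hr) r' hr') r'' hr''
    refine hit_sound hP hT (w ^^^ s) _ h4 ?_
    intro u hu
    rw [List.mem_append, List.mem_append] at hu
    rcases hu with hu | hu | hu
    · exact h1 u hu
    · obtain ⟨u', hu', rfl⟩ := List.mem_map.1 hu
      rw [← key]
      exact h2 u' hu'
    · obtain ⟨u', hu', rfl⟩ := List.mem_map.1 hu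
      rw [← key]
      exact h2' u' hu'

lemma half_sub (s : ℕ) : ∀ w ∈ half S' P p q s, S' w := by
  classical
  intro w hw
  unfold half at hw
  rw [Finset.mem_union, Finset.mem_inter, Finset.mem_union] at hw
  rcases hw with ⟨h1, -⟩ | h1 | h1 <;> exact (mem_lift.1 h1).1

/-- **One fold.** -/
theorem step {S : ℕ → Prop}
    (hS : ∀ x, S x → ∃ w, S' w ∧ (x = w ∨ x = w ^^^ p ∨ x = w ^^^ q ∨ x = w ^^^ (p ^^^ q)))
    (hT : ∀ D, T.testBit D = true → D ∈ L) (hc : checkStep T N p q L' N' = true)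
    (hK : ∀ P' : Finset ℕ, (∀ w ∈ P', S' w) → Adm L' N' P' → P'.card ≤ K)
    (hPS : ∀ x ∈ P, S x) (hP : Adm L N P) : P.card ≤ 2 * K := by
  classical
  have hd : look N q p = true := by
    unfold checkStep at hc
    rw [Bool.and_eq_true] at hc
    exact hc.1
  have k1 := hK _ (half_sub (S' := S') (P := P) (p := p) (q := q) 0) (half_adm hP hT hc 0)
  have k2 := hK _ (half_sub (S' := S') (P := P) (p := p) (q := q) p) (half_adm hP hT hc p)
  unfold half at k1 k2
  simp only [Nat.xor_zero, Nat.xor_self] at k1 k2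
  rw [show p ^^^ q ^^^ p = q by rw [Nat.xor_comm p q, x2], Nat.xor_comm q p] at k2
  set I0 := lift S' P 0 with hI0
  set Iq := lift S' P q with hIq
  set Ip := lift S' P p with hIp
  set Ipq := lift S' P (p ^^^ q) with hIpq
  have hcov : P ⊆ (I0 ∪ (Ip.image fun w => w ^^^ p)) ∪
      ((Iq.image fun w => w ^^^ q) ∪ (Ipq.image fun w => w ^^^ (p ^^^ q))) := by
    intro x hx
    obtain ⟨w, hw, h | h | h | h⟩ := hS x (hPS x hx)
    · refine Finset.mem_union_left _ (Finset.mem_union_left _ ?_)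
      rw [hI0, mem_lift, Nat.xor_zero, h]
      exact ⟨hw, h ▸ hx⟩
    · refine Finset.mem_union_left _ (Finset.mem_union_right _ (Finset.mem_image.2 ⟨w, ?_, h.symm⟩))
      rw [hIp, mem_lift]
      exact ⟨hw, h ▸ hx⟩
    · refine Finset.mem_union_right _ (Finset.mem_union_left _ (Finset.mem_image.2 ⟨w, ?_, h.symm⟩))
      rw [hIq, mem_lift]
      exact ⟨hw, h ▸ hx⟩
    · refine Finset.mem_union_right _ (Finset.mem_union_right _
        (Finset.mem_image.2 ⟨w, ?_, h.symm⟩))
      rw [hIpq, mem_lift]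
      exact ⟨hw, h ▸ hx⟩
  have c1 : P.card ≤ (I0.card + Ip.card) + (Iq.card + Ipq.card) :=
    (Finset.card_le_card hcov).trans ((Finset.card_union_le _ _).trans
      (Nat.add_le_add ((Finset.card_union_le _ _).trans (Nat.add_le_add_left
        Finset.card_image_le _)) ((Finset.card_union_le _ _).trans (Nat.add_le_add
        Finset.card_image_le Finset.card_image_le))))
  have e1 := Finset.card_union_add_card_inter I0 Iq
  have e2 := Finset.card_union_add_card_inter Ip Ipq
  -- the collisions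
  have col : ∀ x, x ∈ P → x ^^^ q ∈ P → x ^^^ p ∈ P → False := fun x a b c =>
    look_sound hP hd a b c
  have d1 : Disjoint (I0 ∩ Iq) (Ip ∪ Ipq) := by
    rw [Finset.disjoint_left]
    intro w h1 h2
    rw [Finset.mem_inter, hI0, hIq, mem_lift, mem_lift, Nat.xor_zero] at h1
    rw [Finset.mem_union, hIp, hIpq, mem_lift, mem_lift] at h2
    rcases h2 with h2 | h2
    · exact col w h1.1.2 h1.2.2 h2.2
    · refine col (w ^^^ q) h1.2.2 (by rw [x2]; exact h1.1.2) ?_
      rw [Nat.xor_assoc, Nat.xor_comm q p]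
      exact h2.2
  have d2 : Disjoint (Ip ∩ Ipq) (I0 ∪ Iq) := by
    rw [Finset.disjoint_left]
    intro w h1 h2
    rw [Finset.mem_inter, hIp, hIpq, mem_lift, mem_lift] at h1
    rw [Finset.mem_union, hI0, hIq, mem_lift, mem_lift, Nat.xor_zero] at h2
    rcases h2 with h2 | h2
    · refine col (w ^^^ p) h1.1.2 ?_ (by rw [x2]; exact h2.2)
      rw [Nat.xor_assoc]
      exact h1.2.2
    · refine col (w ^^^ (p ^^^ q)) h1.2.2 ?_ ?_
      · rw [← Nat.xor_assoc, x2]; exact h1.1.2
      · rw [Nat.xor_comm p q, ← Nat.xor_assoc, x2]; exact h2.2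
  have u1 := Finset.card_union_of_disjoint d1
  have u2 := Finset.card_union_of_disjoint d2
  omega

end step

end Pool.Agent.Lib.P68998g.FoldQ
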