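import Pool.Agent.Lib.P68998g.FoldQ

/-!
A certificate for words with five letters on each side: at most `32` words.
-/

namespace Pool.Agent.Lib.P68998g.FoldQ

open Finset

/-- differences, level 0 -/
def L0 : List ℕ := [
  33, 36, 37, 38, 39, 40, 41, 44, 45, 46, 47, 48, 49, 52, 53, 54, 55, 56, 57, 60, 61, 62, 66,
  67, 68, 69, 70, 71, 72, 73, 74, 75, 76, 77, 82, 83, 84, 85, 86, 87, 88, 89, 90, 91, 92, 93,
  98, 99, 100, 101, 102, 103, 104, 105, 106, 107, 108, 109, 129, 132, 133, 134, 135, 136, 137,
  140, 141, 142, 145, 148, 149, 150, 161, 164, 165, 166, 167, 168, 169, 172, 173, 174, 194, 195,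
  196, 197, 198, 199, 209, 210, 211, 212, 213, 214, 225, 226, 227, 228, 229, 230, 258, 259, 260,
  261, 265, 266, 290, 291, 292, 293, 296, 297, 298, 299, 306, 307, 308, 309, 313, 314, 324, 325,
  328, 329, 340, 341, 345, 356, 357, 361, 386, 387, 388, 389, 401, 402, 418, 419, 420, 421, 452,
  453, 465, 481, 545, 548, 550, 552, 556, 558, 561, 564, 566, 569, 578, 580, 582, 584, 586, 588,
  594, 596, 598, 601, 602, 610, 612, 614, 617, 618, 641, 644, 646, 649, 657, 673, 676, 678, 681,
  706, 708, 710, 721, 722, 737, 738, 770, 802, 804, 809, 810, 818, 836, 841, 898, 930]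

/-- triangles, level 0 -/
def N0 : List (ℕ × ℕ) := [
  (1, 512), (1, 516), (1, 572), (1, 604), (1, 620), (1, 652), (1, 660), (1, 684), (1, 724),
  (1, 740), (1, 772), (1, 776), (1, 820), (1, 824), (1, 852), (1, 856), (1, 868), (1, 872),
  (1, 900), (1, 912), (1, 932), (1, 964), (1, 976), (1, 992), (4, 264), (4, 312), (4, 344),
  (4, 360), (4, 400), (4, 464), (4, 480), (5, 264), (5, 312), (5, 344), (5, 360), (5, 400),
  (5, 464), (5, 480), (7, 208), (7, 224), (15, 128), (15, 160), (31, 32), (32, 144), (32, 151),
  (32, 283), (32, 403), (32, 542), (32, 662), (32, 794), (32, 914), (128, 267), (128, 526),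
  (128, 778), (160, 267), (160, 526), (160, 778), (208, 518), (224, 518)]

/-- differences, level 1 -/
def L1 : List ℕ := [
  36, 38, 40, 44, 46, 52, 54, 56, 60, 66, 68, 70, 72, 74, 76, 82, 84, 86, 88, 90, 92, 98, 100,
  102, 104, 106, 108, 132, 134, 136, 140, 148, 164, 166, 168, 172, 194, 196, 198, 210, 212, 226,
  228, 258, 260, 290, 292, 296, 298, 306, 308, 324, 328, 340, 356, 386, 388, 418, 420, 452]

/-- triangles, level 1 -/
def N1 : List (ℕ × ℕ) := [
  (4, 264), (4, 312), (4, 344), (4, 360), (4, 400), (4, 464), (4, 480), (6, 208), (6, 224),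
  (14, 128), (14, 160), (16, 32), (30, 32), (32, 144), (32, 150), (32, 282), (32, 402),
  (128, 266), (160, 266)]

/-- differences, level 2 -/
def L2 : List ℕ := [
  66, 68, 70, 72, 74, 76, 132, 134, 194, 196, 258, 260, 324, 386]

/-- triangles, level 2 -/
def N2 : List (ℕ × ℕ) := [
  (4, 264), (4, 328), (4, 384), (4, 448), (6, 192), (8, 128), (12, 128), (14, 128), (128, 266)]

/-- differences, level 3 -/
def L3 : List ℕ := [
  66, 68, 258]

/-- triangles, level 3 -/
def N3 : List (ℕ × ℕ) := [
  (4, 256), (4, 320), (6, 64)]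

/-- differences, level 4 -/
def L4 : List ℕ := []

/-- triangles, level 4 -/
def N4 : List (ℕ × ℕ) := [
  (2, 64)]

/-- differences, level 5 -/
def L5 : List ℕ := []

/-- triangles, level 5 -/
def N5 : List (ℕ × ℕ) := []

/-- the table of `L0` -/
def T0 : ℕ :=
  (0x0000007e007e00fc000073f2007273f200003ffc3ffc3ffc73f3f3f200000000 <<< 0) |||
  (0x00000002000200300000003c0006003c0000023002300330063c0f3c0000063c <<< 256) |||
  (0x0000000600060054000002520002025200000654065415540252515200000000 <<< 512) |||
  (0x40000000400000000000002100004061400000004 <<< 768)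

/-- the table of `L1` -/
def T1 : ℕ :=
  (0x0000001400140054000011500010115000001554155415541150515000000000 <<< 0) |||
  (0x10000000140000001400000010001001100014051400000014 <<< 256)

/-- the table of `L2` -/
def T2 : ℕ :=
  (0x0000000000000014000000000000005000000000000015540000000000000000 <<< 0) |||
  (0x400000000000000100000000000000014 <<< 256)

/-- the table of `L3` -/
def T3 : ℕ :=
  0x40000000000000000000000000000000000000000000000140000000000000000

/-- the table of `L4` -/
def T4 : ℕ :=
  0x0


theorem mask0 : mask L0 = T0 := by decide +kernel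

theorem cert0 : checkStep T0 N0 512 1 L1 N1 = true := by decide +kernel

theorem mask1 : mask L1 = T1 := by decide +kernel

theorem cert1 : checkStep T1 N1 16 32 L2 N2 = true := by decide +kernel

theorem mask2 : mask L2 = T2 := by decide +kernel

theorem cert2 : checkStep T2 N2 8 128 L3 N3 = true := by decide +kernel

theorem mask3 : mask L3 = T3 := by decide +kernel

theorem cert3 : checkStep T3 N3 256 4 L4 N4 = true := by decide +kernel

theorem mask4 : mask L4 = T4 := by decide +kernel

theorem cert4 : checkStep T4 N4 64 2 L5 N5 = true := by decide +kernel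

end Pool.Agent.Lib.P68998g.FoldQ
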