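import Pool.Agent.Lib.P68998g.FoldQCert
import Pool.Agent.Lib.P68998g.Bonus
import Pool.Agent.Lib.P68998g.Chain

/-!
Windows with `a + 6` positions carry at most `2 ^ a` classes.
-/

namespace Pool.Agent.Lib.P68998g.FoldQ

open Finset

lemma sup_step {M M' p q : ℕ} (hM : M < 1024)
    (h : ∀ x < 1024, x &&& M = x → (x = x &&& M' ∨ x = (x &&& M') ^^^ p ∨ x = (x &&& M') ^^^ q ∨
      x = (x &&& M') ^^^ (p ^^^ q))) :
    ∀ x, x &&& M = x → ∃ w, w &&& M' = w ∧
      (x = w ∨ x = w ^^^ p ∨ x = w ^^^ q ∨ x = w ^^^ (p ^^^ q)) := by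
  intro x hx
  refine ⟨x &&& M', by rw [Nat.and_assoc, Nat.and_self], h x ?_ hx⟩
  have : x &&& M ≤ M := Nat.and_le_right
  omega

/-- at most `32` words -/
theorem card_le (P : Finset ℕ) (hP : ∀ x ∈ P, x < 1024) (h : Adm L0 N0 P) : P.card ≤ 32 := by
  have hT : ∀ (L : List ℕ) (T : ℕ), mask L = T → ∀ D, T.testBit D = true → D ∈ L := by
    rintro L T rfl D hD
    exact mem_of_mask L D hD
  refine step (S := fun x => x &&& 1023 = x) (S' := fun x => x &&& 510 = x) (K := 16)
    (sup_step (by norm_num) (by decide +kernel)) (hT _ _ mask0) cert0 ?_ ?_ h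
  swap
  · intro x hx
    have := hP x hx
    show x &&& 1023 = x
    rw [show (1023 : ℕ) = 2 ^ 10 - 1 by norm_num, Nat.and_two_pow_sub_one_eq_mod]
    exact Nat.mod_eq_of_lt (by omega)
  intro P1 hP1 h1
  refine step (S := fun x => x &&& 510 = x) (S' := fun x => x &&& 462 = x) (K := 8)
    (sup_step (by norm_num) (by decide +kernel)) (hT _ _ mask1) cert1 ?_ hP1 h1
  intro P2 hP2 h2
  refine step (S := fun x => x &&& 462 = x) (S' := fun x => x &&& 326 = x) (K := 4)
    (sup_step (by norm_num) (by decide +kernel)) (hT _ _ mask2) cert2 ?_ hP2 h2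
  intro P3 hP3 h3
  refine step (S := fun x => x &&& 326 = x) (S' := fun x => x &&& 66 = x) (K := 2)
    (sup_step (by norm_num) (by decide +kernel)) (hT _ _ mask3) cert3 ?_ hP3 h3
  intro P4 hP4 h4
  refine step (S := fun x => x &&& 66 = x) (S' := fun x => x &&& 0 = x) (K := 1)
    (sup_step (by norm_num) (by decide +kernel)) (hT _ _ mask4) cert4 ?_ hP4 h4
  intro P5 hP5 _
  refine Finset.card_le_one.2 ?_
  intro x hx y hy
  have e1 := hP5 x hx
  have e2 := hP5 y hy
  simp only [Nat.and_zero] at e1 e2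
  rw [← e1, ← e2]

/-- the number of zeros inside the position `i`, one more if there is a zero outside -/
def sco (Z : ℕ → Bool) (i : ℕ) : ℕ :=
  ((Finset.range 5).filter fun k => i < k ∧ Z k = true).card +
    if ∃ k ∈ Finset.range i, Z k = true then 1 else 0

/-- a forbidden difference -/
def viol2 (D : ℕ) : Bool :=
  (List.range 5).any fun i => (List.range 5).any fun j =>
    D.testBit i && (D.testBit (5 + j) &&
      decide (5 ≤ sco (fun k => !D.testBit k) i + sco (fun k => !D.testBit (5 + k)) j))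

/-- a forbidden triangle -/
def viol3 (a b : ℕ) : Bool :=
  (List.range 5).any fun i => (List.range 5).any fun j =>
    (a.testBit i || b.testBit i) && ((a.testBit (5 + j) || b.testBit (5 + j)) &&
      (((a.testBit i != a.testBit (5 + j)) || (b.testBit i != b.testBit (5 + j))) &&
        decide (4 ≤ sco (fun k => !a.testBit k && !b.testBit k) i +
          sco (fun k => !a.testBit (5 + k) && !b.testBit (5 + k)) j)))

theorem all2 : L0.all viol2 = true := by decide +kernel

theorem all3 : (N0.all fun t => viol3 t.1 t.2) = true := by decide +kernel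

section

variable {ι : Type*} {a L s : ℕ} {F : Finset ι} {v : ι → ℕ → ZMod 2}

/-- the letters on the left, the outermost one first -/
def lw (v : ι → ℕ → ZMod 2) (s : ℕ) (x : ι) (k : ℕ) : Bool := decide (v x (s + k) + v x (s + 5) = 1)

/-- the letters on the right, the outermost one first -/
def rwd (v : ι → ℕ → ZMod 2) (s a : ℕ) (x : ι) (k : ℕ) : Bool :=
  decide (v x (s + a + 5 - k) + v x (s + 5) = 1)

/-- the code of a member -/
def code (v : ι → ℕ → ZMod 2) (s a : ℕ) (x : ι) : ℕ :=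
  Nat.ofBits fun k : Fin 10 => if (k : ℕ) < 5 then lw v s x k else rwd v s a x (k - 5)

lemma code_lt (x : ι) : code v s a x < 1024 := Nat.ofBits_lt_two_pow _

lemma code_left (x : ι) {k : ℕ} (hk : k < 5) : (code v s a x).testBit k = lw v s x k := by
  unfold code
  rw [Nat.testBit_ofBits_lt _ k (by omega)]
  simp [hk]

lemma code_right (x : ι) {k : ℕ} (hk : k < 5) : (code v s a x).testBit (5 + k) = rwd v s a x k := by
  unfold code
  rw [Nat.testBit_ofBits_lt _ (5 + k) (by omega)]
  simp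

lemma dec_eq {u w : ZMod 2} : decide (u = 1) = decide (w = 1) ↔ u = w := by
  revert u w; decide

/-- a lower bound for the score -/
lemma score_lower (ha : 5 ≤ a) {M : Finset ℕ} (hmid : ∀ m, s + 5 ≤ m → m ≤ s + a → m ∈ M)
    {Zl Zr : ℕ → Bool} (hl : ∀ k < 5, Zl k = true → s + k ∈ M)
    (hr : ∀ k < 5, Zr k = true → s + a + 5 - k ∈ M) {i j : ℕ} (hi : i < 5) (hj : j < 5) :
    (a - 4) + (sco Zl i + sco Zr j) ≤ score M (s + i) (s + a + 5 - j) := by
  classical
  set A := (Finset.range 5).filter fun k => i < k ∧ Zl k = true with hA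
  set B := (Finset.range 5).filter fun k => j < k ∧ Zr k = true with hB
  have hA' : ∀ k ∈ A, k < 5 ∧ i < k ∧ s + k ∈ M := by
    intro k hk
    rw [hA, Finset.mem_filter, Finset.mem_range] at hk
    exact ⟨hk.1, hk.2.1, hl k hk.1 hk.2.2⟩
  have hB' : ∀ k ∈ B, k < 5 ∧ j < k ∧ s + a + 5 - k ∈ M := by
    intro k hk
    rw [hB, Finset.mem_filter, Finset.mem_range] at hk
    exact ⟨hk.1, hk.2.1, hr k hk.1 hk.2.2⟩
  have c1 : (A.image fun k => s + k).card = A.card :=
    Finset.card_image_of_injective _ fun k k' h => by simpa using h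
  have c2 : (B.image fun k => s + a + 5 - k).card = B.card := by
    refine Finset.card_image_of_injOn ?_
    intro k hk k' hk' h
    have h1 := (hB' k (Finset.mem_coe.1 hk)).1
    have h2 := (hB' k' (Finset.mem_coe.1 hk')).1
    simp only at h
    omega
  have hsub : (Icc (s + 5) (s + a) ∪ A.image fun k => s + k) ∪ (B.image fun k => s + a + 5 - k) ⊆
      M.filter fun m => s + i < m ∧ m < s + a + 5 - j := by
    intro m hm
    rw [Finset.mem_union, Finset.mem_union, Finset.mem_Icc, Finset.mem_image,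
      Finset.mem_image] at hm
    rw [Finset.mem_filter]
    rcases hm with (hm | ⟨k, hk, rfl⟩) | ⟨k, hk, rfl⟩
    · exact ⟨hmid m hm.1 hm.2, by omega, by omega⟩
    · have := hA' k hk
      exact ⟨this.2.2, by omega, by omega⟩
    · have := hB' k hk
      exact ⟨this.2.2, by omega, by omega⟩
  have d1 : Disjoint (Icc (s + 5) (s + a)) (A.image fun k => s + k) := by
    rw [Finset.disjoint_left]
    intro m h1 h2
    rw [Finset.mem_Icc] at h1
    obtain ⟨k, hk, rfl⟩ := Finset.mem_image.1 h2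
    have := hA' k hk
    omega
  have d2 : Disjoint (Icc (s + 5) (s + a) ∪ A.image fun k => s + k)
      (B.image fun k => s + a + 5 - k) := by
    rw [Finset.disjoint_left]
    intro m h1 h2
    obtain ⟨k, hk, rfl⟩ := Finset.mem_image.1 h2
    have h3 := hB' k hk
    rw [Finset.mem_union, Finset.mem_Icc, Finset.mem_image] at h1
    rcases h1 with h1 | ⟨k', hk', h1⟩
    · omega
    · have := hA' k' hk'
      omega
  have c3 := Finset.card_le_card hsub
  rw [Finset.card_union_of_disjoint d2, Finset.card_union_of_disjoint d1, c1, c2,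
    Nat.card_Icc] at c3
  have b1 : (if ∃ k ∈ Finset.range i, Zl k = true then 1 else 0) ≤
      (if ∃ m ∈ M, m < s + i then 1 else 0) := by
    split_ifs with h1 h2
    · exact le_rfl
    · exfalso
      obtain ⟨k, hk, hk2⟩ := h1
      rw [Finset.mem_range] at hk
      exact h2 ⟨s + k, hl k (by omega) hk2, by omega⟩
    · exact Nat.zero_le _
    · exact le_rfl
  have b2 : (if ∃ k ∈ Finset.range j, Zr k = true then 1 else 0) ≤
      (if ∃ m ∈ M, s + a + 5 - j < m then 1 else 0) := by
    split_ifs with h1 h2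
    · exact le_rfl
    · exfalso
      obtain ⟨k, hk, hk2⟩ := h1
      rw [Finset.mem_range] at hk
      exact h2 ⟨s + a + 5 - k, hr k (by omega) hk2, by omega⟩
    · exact Nat.zero_le _
    · exact le_rfl
  unfold sco score
  rw [← hA, ← hB]
  omega

/-- the pair condition for a class on the middle positions -/
lemma pair_fibre (ha : 5 ≤ a) (hL : s + a + 5 ≤ L) (h2 : PairAll a L F v) {x y : ι} (hx : x ∈ F)
    (hy : y ∈ F)
    (hmid : ∀ q, s + 5 ≤ q → q ≤ s + a → v x q + v x (s + 5) = v y q + v y (s + 5))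
    {Zl Zr : ℕ → Bool} (hl : ∀ k < 5, Zl k = true → lw v s x k = lw v s y k)
    (hr : ∀ k < 5, Zr k = true → rwd v s a x k = rwd v s a y k) {i j : ℕ} (hi : i < 5)
    (hj : j < 5) (h3 : lw v s x i ≠ lw v s y i) (h4 : rwd v s a x j ≠ rwd v s a y j)
    (hs : 5 ≤ sco Zl i + sco Zr j) : False := by
  classical
  set M := (Icc s (s + a + 5)).filter fun m => v x m + v x (s + 5) = v y m + v y (s + 5) with hM
  have h5 := score_lower (s := s) (M := M) ha (by
      intro m h1 h2
      rw [hM, Finset.mem_filter, Finset.mem_Icc]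
      exact ⟨by omega, hmid m h1 h2⟩) (Zl := Zl) (Zr := Zr) (by
      intro k hk h1
      rw [hM, Finset.mem_filter, Finset.mem_Icc]
      exact ⟨by omega, dec_eq.1 (hl k hk h1)⟩) (by
      intro k hk h1
      rw [hM, Finset.mem_filter, Finset.mem_Icc]
      exact ⟨by omega, dec_eq.1 (hr k hk h1)⟩) hi hj
  refine h2 (s + i) (s + a + 5 - j) M (by omega) (by omega) ?_ (by omega) x hx y hy (s + 5) ?_ ?_
    (fun h => h3 (dec_eq.2 h)) (fun h => h4 (dec_eq.2 h))
  · intro m hm
    rw [hM, Finset.mem_filter, Finset.mem_Icc] at hm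
    omega
  · rw [hM, Finset.mem_filter, Finset.mem_Icc]
    exact ⟨by omega, hmid _ le_rfl (by omega)⟩
  · intro m hm
    rw [hM, Finset.mem_filter] at hm
    exact hm.2

/-- the triple condition for a class on the middle positions -/
lemma star_fibre (ha : 5 ≤ a) (hL : s + a + 5 ≤ L) (h1 : StarAll a L F v) {x y z : ι} (hx : x ∈ F)
    (hy : y ∈ F) (hz : z ∈ F)
    (hmy : ∀ q, s + 5 ≤ q → q ≤ s + a → v x q + v x (s + 5) = v y q + v y (s + 5))
    (hmz : ∀ q, s + 5 ≤ q → q ≤ s + a → v x q + v x (s + 5) = v z q + v z (s + 5))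
    {Zl Zr : ℕ → Bool}
    (hl : ∀ k < 5, Zl k = true → lw v s x k = lw v s y k ∧ lw v s x k = lw v s z k)
    (hr : ∀ k < 5, Zr k = true → rwd v s a x k = rwd v s a y k ∧ rwd v s a x k = rwd v s a z k)
    {i j : ℕ} (hi : i < 5) (hj : j < 5) (h3 : lw v s x i ≠ lw v s y i)
    (h4 : lw v s x i = lw v s z i) (h5 : rwd v s a x j = rwd v s a y j)
    (h6 : rwd v s a x j ≠ rwd v s a z j) (hs : 4 ≤ sco Zl i + sco Zr j) : False := by
  classical
  set M := (Icc s (s + a + 5)).filter fun m => v x m + v x (s + 5) = v y m + v y (s + 5) ∧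
    v x m + v x (s + 5) = v z m + v z (s + 5) with hM
  have h7 := score_lower (s := s) (M := M) ha (by
      intro m h1 h2
      rw [hM, Finset.mem_filter, Finset.mem_Icc]
      exact ⟨by omega, hmy m h1 h2, hmz m h1 h2⟩) (Zl := Zl) (Zr := Zr) (by
      intro k hk h1
      rw [hM, Finset.mem_filter, Finset.mem_Icc]
      exact ⟨by omega, dec_eq.1 (hl k hk h1).1, dec_eq.1 (hl k hk h1).2⟩) (by
      intro k hk h1
      rw [hM, Finset.mem_filter, Finset.mem_Icc]
      exact ⟨by omega, dec_eq.1 (hr k hk h1).1, dec_eq.1 (hr k hk h1).2⟩) hi hj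
  refine h1 (s + i) (s + a + 5 - j) M (by omega) (by omega) ?_ (by omega) x hx y hy z hz (s + 5)
    ?_ ?_ ?_ (fun h => h3 (dec_eq.2 h)) (dec_eq.1 h5) (dec_eq.1 h4) (fun h => h6 (dec_eq.2 h))
  · intro m hm
    rw [hM, Finset.mem_filter, Finset.mem_Icc] at hm
    omega
  · rw [hM, Finset.mem_filter, Finset.mem_Icc]
    exact ⟨by omega, hmy _ le_rfl (by omega), hmz _ le_rfl (by omega)⟩
  · intro m hm
    rw [hM, Finset.mem_filter] at hm
    exact hm.2.1
  · intro m hm
    rw [hM, Finset.mem_filter] at hm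
    exact hm.2.2

lemma six : ∀ lx ly lz rx ry rz : Bool, ((lx ^^ ly) || (lx ^^ lz)) = true →
    ((rx ^^ ry) || (rx ^^ rz)) = true →
    (((lx ^^ ly) != (rx ^^ ry)) || ((lx ^^ lz) != (rx ^^ rz))) = true →
    (lx ≠ ly ∧ lx = lz ∧ rx = ry ∧ rx ≠ rz) ∨ (lx ≠ lz ∧ lx = ly ∧ rx = rz ∧ rx ≠ ry) ∨
    (ly ≠ lx ∧ ly = lz ∧ ry = rx ∧ ry ≠ rz) ∨ (ly ≠ lz ∧ ly = lx ∧ ry = rz ∧ ry ≠ rx) ∨
    (lz ≠ lx ∧ lz = ly ∧ rz = rx ∧ rz ≠ ry) ∨ (lz ≠ ly ∧ lz = lx ∧ rz = ry ∧ rz ≠ rx) := by
  intro lx ly lz rx ry rz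
  cases lx <;> cases ly <;> cases lz <;> cases rx <;> cases ry <;> cases rz <;> simp

/-- a class on the middle positions has at most `32` members -/
theorem fibre_card (ha : 5 ≤ a) (hL : s + a + 5 ≤ L) (h1 : StarAll a L F v) (h2 : PairAll a L F v)
    {P : Finset ι} (hP : P ⊆ F)
    (hmid : ∀ x ∈ P, ∀ y ∈ P, ∀ q, s + 5 ≤ q → q ≤ s + a →
      v x q + v x (s + 5) = v y q + v y (s + 5))
    (hinj : ∀ x ∈ P, ∀ y ∈ P, cls v (Icc s (s + a + 5)) x = cls v (Icc s (s + a + 5)) y → x = y) :
    P.card ≤ 32 := by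
  classical
  have hcard : (P.image (code v s a)).card = P.card := by
    refine Finset.card_image_of_injOn ?_
    intro x hx y hy h
    have hx' := Finset.mem_coe.1 hx
    have hy' := Finset.mem_coe.1 hy
    have h' : code v s a x = code v s a y := h
    refine hinj x hx' y hy' ?_
    rw [cls_eq_iff_base (b := s + 5) (by rw [Finset.mem_Icc]; omega)]
    intro m hm
    rw [Finset.mem_Icc] at hm
    rcases Nat.lt_or_ge m (s + 5) with h3 | h3
    · have h4 : lw v s x (m - s) = lw v s y (m - s) := by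
        rw [← code_left (a := a) x (by omega), ← code_left (a := a) y (by omega), h']
      have h5 := dec_eq.1 h4
      rwa [show s + (m - s) = m by omega] at h5
    · rcases Nat.lt_or_ge (s + a) m with h6 | h6
      · have h4 : rwd v s a x (s + a + 5 - m) = rwd v s a y (s + a + 5 - m) := by
          rw [← code_right x (by omega), ← code_right y (by omega), h']
        have h5 := dec_eq.1 h4
        rwa [show s + a + 5 - (s + a + 5 - m) = m by omega] at h5
      · exact hmid x hx' y hy' m h3 h6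
  rw [← hcard]
  refine card_le _ ?_ ⟨?_, ?_⟩
  · intro X hX
    obtain ⟨x, -, rfl⟩ := Finset.mem_image.1 hX
    exact code_lt x
  · intro D hD X hX hXD
    obtain ⟨x, hx, rfl⟩ := Finset.mem_image.1 hX
    obtain ⟨y, hy, hxy⟩ := Finset.mem_image.1 hXD
    have bit : ∀ k, D.testBit k = ((code v s a x).testBit k ^^ (code v s a y).testBit k) := by
      intro k
      rw [hxy, Nat.testBit_xor]
      cases (code v s a x).testBit k <;> cases D.testBit k <;> rfl
    have bl : ∀ k < 5, D.testBit k = (lw v s x k ^^ lw v s y k) := fun k hk => by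
      rw [bit, code_left x hk, code_left y hk]
    have br : ∀ k < 5, D.testBit (5 + k) = (rwd v s a x k ^^ rwd v s a y k) := fun k hk => by
      rw [bit, code_right x hk, code_right y hk]
    have hv := List.all_eq_true.1 all2 D hD
    unfold viol2 at hv
    rw [List.any_eq_true] at hv
    obtain ⟨i, hi, hv⟩ := hv
    rw [List.any_eq_true] at hv
    obtain ⟨j, hj, hv⟩ := hv
    rw [List.mem_range] at hi hj
    rw [Bool.and_eq_true, Bool.and_eq_true, decide_eq_true_eq, bl i hi, br j hj] at hv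
    obtain ⟨v1, v2, v3⟩ := hv
    refine pair_fibre ha hL h2 (hP hx) (hP hy) (hmid x hx y hy)
      (Zl := fun k => !D.testBit k) (Zr := fun k => !D.testBit (5 + k)) ?_ ?_ hi hj ?_ ?_ v3
    · intro k hk h3
      simp only [bl k hk] at h3
      revert h3
      cases lw v s x k <;> cases lw v s y k <;> simp
    · intro k hk h3
      simp only [br k hk] at h3
      revert h3
      cases rwd v s a x k <;> cases rwd v s a y k <;> simp
    · revert v1
      cases lw v s x i <;> cases lw v s y i <;> simp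
    · revert v2
      cases rwd v s a x j <;> cases rwd v s a y j <;> simp
  · intro t ht X hX hXa hXb
    obtain ⟨x, hx, rfl⟩ := Finset.mem_image.1 hX
    obtain ⟨y, hy, hxy⟩ := Finset.mem_image.1 hXa
    obtain ⟨z, hz, hxz⟩ := Finset.mem_image.1 hXb
    have bit1 : ∀ k, t.1.testBit k = ((code v s a x).testBit k ^^ (code v s a y).testBit k) := by
      intro k
      rw [hxy, Nat.testBit_xor]
      cases (code v s a x).testBit k <;> cases t.1.testBit k <;> rfl
    have bit2 : ∀ k, t.2.testBit k = ((code v s a x).testBit k ^^ (code v s a z).testBit k) := by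
      intro k
      rw [hxz, Nat.testBit_xor]
      cases (code v s a x).testBit k <;> cases t.2.testBit k <;> rfl
    have bl1 : ∀ k < 5, t.1.testBit k = (lw v s x k ^^ lw v s y k) := fun k hk => by
      rw [bit1, code_left x hk, code_left y hk]
    have br1 : ∀ k < 5, t.1.testBit (5 + k) = (rwd v s a x k ^^ rwd v s a y k) := fun k hk => by
      rw [bit1, code_right x hk, code_right y hk]
    have bl2 : ∀ k < 5, t.2.testBit k = (lw v s x k ^^ lw v s z k) := fun k hk => by
      rw [bit2, code_left x hk, code_left z hk]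
    have br2 : ∀ k < 5, t.2.testBit (5 + k) = (rwd v s a x k ^^ rwd v s a z k) := fun k hk => by
      rw [bit2, code_right x hk, code_right z hk]
    have hv := List.all_eq_true.1 all3 t ht
    unfold viol3 at hv
    rw [List.any_eq_true] at hv
    obtain ⟨i, hi, hv⟩ := hv
    rw [List.any_eq_true] at hv
    obtain ⟨j, hj, hv⟩ := hv
    rw [List.mem_range] at hi hj
    rw [Bool.and_eq_true, Bool.and_eq_true, Bool.and_eq_true, decide_eq_true_eq, bl1 i hi,
      br1 j hj, bl2 i hi, br2 j hj] at hv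
    obtain ⟨v1, v2, v3, v4⟩ := hv
    have zl : ∀ k < 5, (!t.1.testBit k && !t.2.testBit k) = true →
        lw v s x k = lw v s y k ∧ lw v s x k = lw v s z k := by
      intro k hk h3
      rw [bl1 k hk, bl2 k hk] at h3
      revert h3
      cases lw v s x k <;> cases lw v s y k <;> cases lw v s z k <;> simp
    have zr : ∀ k < 5, (!t.1.testBit (5 + k) && !t.2.testBit (5 + k)) = true →
        rwd v s a x k = rwd v s a y k ∧ rwd v s a x k = rwd v s a z k := by
      intro k hk h3
      rw [br1 k hk, br2 k hk] at h3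
      revert h3
      cases rwd v s a x k <;> cases rwd v s a y k <;> cases rwd v s a z k <;> simp
    have zl1 := fun k hk h => (zl k hk h).1
    have zl2 := fun k hk h => (zl k hk h).2
    have zr1 := fun k hk h => (zr k hk h).1
    have zr2 := fun k hk h => (zr k hk h).2
    rcases six _ _ _ _ _ _ v1 v2 v3 with ⟨a1, a2, a3, a4⟩ | ⟨a1, a2, a3, a4⟩ | ⟨a1, a2, a3, a4⟩ |
      ⟨a1, a2, a3, a4⟩ | ⟨a1, a2, a3, a4⟩ | ⟨a1, a2, a3, a4⟩
    · exact star_fibre ha hL h1 (hP hx) (hP hy) (hP hz) (hmid x hx y hy) (hmid x hx z hz)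
        zl zr hi hj a1 a2 a3 a4 v4
    · exact star_fibre ha hL h1 (hP hx) (hP hz) (hP hy) (hmid x hx z hz) (hmid x hx y hy)
        (fun k hk h => ⟨zl2 k hk h, zl1 k hk h⟩) (fun k hk h => ⟨zr2 k hk h, zr1 k hk h⟩) hi hj
        a1 a2 a3 a4 v4
    · exact star_fibre ha hL h1 (hP hy) (hP hx) (hP hz) (hmid y hy x hx) (hmid y hy z hz)
        (fun k hk h => ⟨(zl1 k hk h).symm, (zl1 k hk h).symm.trans (zl2 k hk h)⟩)
        (fun k hk h => ⟨(zr1 k hk h).symm, (zr1 k hk h).symm.trans (zr2 k hk h)⟩) hi hj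
        a1 a2 a3 a4 v4
    · exact star_fibre ha hL h1 (hP hy) (hP hz) (hP hx) (hmid y hy z hz) (hmid y hy x hx)
        (fun k hk h => ⟨(zl1 k hk h).symm.trans (zl2 k hk h), (zl1 k hk h).symm⟩)
        (fun k hk h => ⟨(zr1 k hk h).symm.trans (zr2 k hk h), (zr1 k hk h).symm⟩) hi hj
        a1 a2 a3 a4 v4
    · exact star_fibre ha hL h1 (hP hz) (hP hx) (hP hy) (hmid z hz x hx) (hmid z hz y hy)
        (fun k hk h => ⟨(zl2 k hk h).symm, (zl2 k hk h).symm.trans (zl1 k hk h)⟩)
        (fun k hk h => ⟨(zr2 k hk h).symm, (zr2 k hk h).symm.trans (zr1 k hk h)⟩) hi hj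
        a1 a2 a3 a4 v4
    · exact star_fibre ha hL h1 (hP hz) (hP hy) (hP hx) (hmid z hz y hy) (hmid z hz x hx)
        (fun k hk h => ⟨(zl2 k hk h).symm.trans (zl1 k hk h), (zl2 k hk h).symm⟩)
        (fun k hk h => ⟨(zr2 k hk h).symm.trans (zr1 k hk h), (zr2 k hk h).symm⟩) hi hj
        a1 a2 a3 a4 v4

/-- **Windows with `a + 6` positions carry at most `2 ^ a` classes.** -/
theorem cnt_five (ha : 5 ≤ a) (hL : s + a + 5 ≤ L) (h1 : StarAll a L F v)
    (h2 : PairAll a L F v) : cnt F v (Icc s (s + a + 5)) ≤ 2 ^ a := by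
  classical
  obtain ⟨G, hGF, hGc, hGi⟩ := exists_reps F v (Icc s (s + a + 5))
  rw [← hGc]
  have hb : s + 5 ∈ Icc (s + 5) (s + 5 + (a - 5)) := by rw [Finset.mem_Icc]; omega
  have hfib : ∀ c ∈ G.image (cls v (Icc (s + 5) (s + 5 + (a - 5)))),
      (G.filter fun x => cls v (Icc (s + 5) (s + 5 + (a - 5))) x = c).card ≤ 32 := by
    intro c _
    refine fibre_card ha hL h1 h2 ((Finset.filter_subset _ _).trans hGF) ?_ ?_
    · intro x hx y hy q q1 q2
      have h4 := (Finset.mem_filter.1 hx).2.trans (Finset.mem_filter.1 hy).2.symm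
      exact (cls_eq_iff_base hb).1 h4 q (by rw [Finset.mem_Icc]; omega)
    · exact fun x hx y hy => hGi x (Finset.mem_filter.1 hx).1 y (Finset.mem_filter.1 hy).1
  have h4 := Finset.card_le_mul_card_image G 32 hfib
  have h5 : (G.image (cls v (Icc (s + 5) (s + 5 + (a - 5))))).card ≤ 2 ^ (a - 5) :=
    cnt_Icc_le (F := G) (v := v) (s + 5) (a - 5)
  calc G.card ≤ 32 * (G.image (cls v (Icc (s + 5) (s + 5 + (a - 5))))).card := h4
    _ ≤ 32 * 2 ^ (a - 5) := Nat.mul_le_mul_left _ h5
    _ = 2 ^ a := by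
      rw [show (32 : ℕ) = 2 ^ 5 by norm_num, ← pow_add]
      congr 1
      omega

end

end Pool.Agent.Lib.P68998g.FoldQ
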