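import Pool.Agent.Lib.P68998g.FoldQMain
import Pool.Agent.Lib.P68998g.ColourT

/-!
The number of classes from the exact windows with `a + 6` positions: at most
`2 ^ (a + 1) * ⌈a / 14⌉`, and the colourings which follow.
-/

namespace Pool.Agent.Lib.P68998g

open Submodule Finset Pool.Agent.Lib.P68998c Pool.Agent.Lib.P68998f

universe u

section

variable {ι : Type*} {a L : ℕ} {F : Finset ι} {v : ι → ℕ → ZMod 2}

lemma card_le_score {M : Finset ℕ} {p p' : ℕ} (h : ∀ m ∈ M, p < m ∧ m < p') :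
    M.card ≤ score M p p' := by
  unfold score
  rw [Finset.filter_true_of_mem h]
  omega

theorem StarAll.star (h : StarAll a L F v) : Star a L F v := by
  intro p p' M hp' hM hMp x hx y hy z hz m₀ hm₀ e1 e2 e3 e4 e5 e6
  have h0 := hMp m₀ hm₀
  exact h p p' M (by omega) hp' (fun m hm => by have := hMp m hm; omega)
    (hM.trans (card_le_score hMp)) x hx y hy z hz m₀ hm₀ e1 e2 e3 e4 e5 e6

theorem PairAll.pair (h : PairAll a L F v) : Pair a L F v := by
  intro p p' M hp' hM hMp x hx y hy m₀ hm₀ e1 e2 e3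
  have h0 := hMp m₀ hm₀
  exact h p p' M (by omega) hp' (fun m hm => by have := hMp m hm; omega)
    (hM.trans (card_le_score hMp)) x hx y hy m₀ hm₀ e1 e2 e3

theorem StarAll.starB (h : StarAll a L F v) : StarB a L F v := by
  classical
  intro p p' s M hpp hps hs hM hMp x hx y hy z hz e1 e2 e3 e4 e5 e6
  refine h p p' (insert s M) hpp (by omega) ?_ ?_ x hx y hy z hz s (Finset.mem_insert_self _ _)
    ?_ ?_ e3 e4 e5 e6
  · intro m hm
    rw [Finset.mem_insert] at hm
    rcases hm with rfl | hm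
    · exact hs
    · have := hMp m hm; omega
  · have h1 : ((insert s M).filter fun m => p < m ∧ m < p') = M := by
      ext m
      rw [Finset.mem_filter, Finset.mem_insert]
      constructor
      · rintro ⟨rfl | hm, h2⟩
        · omega
        · exact hm
      · intro hm
        exact ⟨Or.inr hm, hMp m hm⟩
    have h2 : ∃ m ∈ insert s M, p' < m := ⟨s, Finset.mem_insert_self _ _, hps⟩
    unfold score
    rw [h1, if_pos h2]
    omega
  · intro m hm
    rw [Finset.mem_insert] at hm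
    rcases hm with rfl | hm
    · have : ∀ c d : ZMod 2, c + c = d + d := by decide
      exact this _ _
    · exact e1 m hm
  · intro m hm
    rw [Finset.mem_insert] at hm
    rcases hm with rfl | hm
    · have : ∀ c d : ZMod 2, c + c = d + d := by decide
      exact this _ _
    · exact e2 m hm

theorem StarAll.starBL (h : StarAll a L F v) : StarBL a L F v := by
  classical
  intro s p p' M hsp hpp hp' hM hMp x hx y hy z hz e1 e2 e3 e4 e5 e6
  refine h p p' (insert s M) hpp (by omega) ?_ ?_ x hx y hy z hz s (Finset.mem_insert_self _ _)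
    ?_ ?_ e3 e4 e5 e6
  · intro m hm
    rw [Finset.mem_insert] at hm
    rcases hm with rfl | hm
    · omega
    · have := hMp m hm; omega
  · have h1 : ((insert s M).filter fun m => p < m ∧ m < p') = M := by
      ext m
      rw [Finset.mem_filter, Finset.mem_insert]
      constructor
      · rintro ⟨rfl | hm, h2⟩
        · omega
        · exact hm
      · intro hm
        exact ⟨Or.inr hm, hMp m hm⟩
    have h2 : ∃ m ∈ insert s M, m < p := ⟨s, Finset.mem_insert_self _ _, hsp⟩
    unfold score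
    rw [h1, if_pos h2]
    omega
  · intro m hm
    rw [Finset.mem_insert] at hm
    rcases hm with rfl | hm
    · have : ∀ c d : ZMod 2, c + c = d + d := by decide
      exact this _ _
    · exact e1 m hm
  · intro m hm
    rw [Finset.mem_insert] at hm
    rcases hm with rfl | hm
    · have : ∀ c d : ZMod 2, c + c = d + d := by decide
      exact this _ _
    · exact e2 m hm

/-- at most `2 ^ a` classes on at most `a + 6` positions -/
theorem exact_window7 (ha : 5 ≤ a) (h1 : StarAll a L F v) (h2 : PairAll a L F v)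
    (hL : a + 5 ≤ L) (d i : ℕ) (hd : d ≤ (a - 2) + 7) (hi : i + d ≤ L) :
    cnt F v (Icc i (i + d)) ≤ 2 ^ a := by
  obtain ⟨s, hs, hsL⟩ : ∃ s ≤ i, s + a + 5 ≤ L ∧ i + d ≤ s + a + 5 := by
    by_cases h : i + a + 5 ≤ L
    · exact ⟨i, le_rfl, h, by omega⟩
    · exact ⟨L - (a + 5), by omega, by omega, by omega⟩
  exact (cnt_mono_set (Finset.Icc_subset_Icc hs hsL.2)).trans (FoldQ.cnt_five ha hsL.1 h1 h2)

/-- **The counting theorem from the exact windows.** -/
theorem bound_fourteen (ha : 1 ≤ a) (h1 : StarAll a L F v) (h2 : PairAll a L F v) :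
    ∀ d i, i + d ≤ L → cnt F v (Icc i (i + d)) ≤ (a + 13) / 14 * 2 ^ (a + 1) := by
  intro d i hi
  have hq1 : 1 ≤ (a + 13) / 14 := by omega
  have hle : 2 ^ (a + 1) ≤ (a + 13) / 14 * 2 ^ (a + 1) := Nat.le_mul_of_pos_left _ hq1
  by_cases ha9 : a ≤ 9
  · have h := bound_nine ha h1.star h2.pair h1.starB h1.starBL d i hi
    rw [show (a + 8) / 9 = 1 by omega, one_mul] at h
    exact h.trans hle
  by_cases hL : a + 5 ≤ L
  · have h := block_final (t := 7) (by omega) h1.star h1.starB h1.starBL (by norm_num)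
      (exact_window7 (by omega) h1 h2 hL) d i hi
    refine h.trans ?_
    rw [pow_succ', ← mul_assoc]
    exact Nat.mul_le_mul_right _ (by omega)
  · exact (cell_window (by omega) h1.star h2.pair h1.starB h1.starBL d i (by omega) hi).trans hle

/-- intervals with few positions: at most `q * 2 ^ (a + 1)` classes on `a - 1 + 14 * q`
positions -/
theorem bound_fourteen_rank (ha : 1 ≤ a) (h1 : StarAll a L F v) (h2 : PairAll a L F v) {q : ℕ}
    (hq : 1 ≤ q) (d i : ℕ) (hd : d + 2 ≤ a + 14 * q) (hi : i + d ≤ L) :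
    cnt F v (Icc i (i + d)) ≤ q * 2 ^ (a + 1) := by
  by_cases ha9 : a ≤ 9
  · have h := bound_nine ha h1.star h2.pair h1.starB h1.starBL d i hi
    rw [show (a + 8) / 9 = 1 by omega, one_mul] at h
    exact h.trans (Nat.le_mul_of_pos_left _ hq)
  by_cases hL : a + 5 ≤ L
  · have h := block_rank (t := 7) (by omega) h1.starB h1.starBL (by norm_num)
      (exact_window7 (by omega) h1 h2 hL) (2 * q) (by omega) d i (by omega) hi
    refine h.trans (le_of_eq ?_)
    rw [pow_succ]
    ring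
  · exact (cell_window (by omega) h1.star h2.pair h1.starB h1.starBL d i (by omega) hi).trans
      (Nat.le_mul_of_pos_left _ hq)

end

/-- A bound for the number of classes of a family of functions on at most `rho` positions. -/
def PureAR (a rho N : ℕ) : Prop :=
  ∀ (ι : Type u) (F : Finset ι) (v : ι → ℕ → ZMod 2) (L : ℕ), L + 1 ≤ rho →
    StarAll a L F v → PairAll a L F v → cnt F v (Icc 0 L) ≤ N

/-- A bound for the number of classes of a family of functions. -/
def PureA (a N : ℕ) : Prop :=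
  ∀ (ι : Type u) (F : Finset ι) (v : ι → ℕ → ZMod 2) (L : ℕ),
    StarAll a L F v → PairAll a L F v → cnt F v (Icc 0 L) ≤ N

section

variable {V : Type u} [AddCommGroup V] [Module (ZMod 2) V]

/-- The number of elements outside a fan path from a bound for the classes. -/
theorem card_le_of_pureA {a N : ℕ} {E : Finset V}
    (hW : ¬ HasWheel (a + 1) (E : Set V)) {k : ℕ} {y : ℕ → V}
    (hy : FanPath (E : Set V) y k) (C : Finset V) (hC : C ⊆ E)
    (hCy : ∀ x ∈ C, x ∉ span (ZMod 2) (Set.range fun i : Fin (k + 1) => y i))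
    (hCC : ∀ x ∈ C, ∀ x' ∈ C, x + x' ∈ span (ZMod 2) (Set.range fun i : Fin (k + 1) => y i))
    (hN : C.Nonempty → ∀ v : V → ℕ → ZMod 2, StarAll a (k + 1) C v → PairAll a (k + 1) C v →
      cnt C v (Icc 0 (k + 1)) ≤ N) :
    C.card ≤ N := by
  classical
  rcases C.eq_empty_or_nonempty with rfl | ⟨x₁, hx₁⟩
  · simp
  obtain ⟨Φ, -, hΦ⟩ := exists_map' hy.2.2 (hCy x₁ hx₁) (0 : ℕ → ZMod 2)
    (fun p q => if q ≤ p then 1 else 0)
  have hc : Coord (E : Set V) y k C Φ := ⟨hy, fun x hx => Finset.mem_coe.2 (hC hx), hCy, hCC, hΦ⟩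
  have h := hN ⟨x₁, hx₁⟩ (fun x : V => Φ x) (hc.starAll hW) (hc.pairAll hW)
  rwa [cnt_eq_card C hCC hΦ] at h

end

theorem outBound_of_pureA {a N : ℕ} (hN : PureA.{u} a N) : OutBound.{u} a N := by
  intro V _ _ _ E hW k y hy C hC hCy hCC
  exact card_le_of_pureA hW hy C hC hCy hCC fun _ v h1 h2 => hN V C v (k + 1) h1 h2

theorem outBoundR_of_pureA {a rho N : ℕ} (hN : PureAR.{u} a rho N) : OutBoundR.{u} a rho N := by
  intro V _ _ _ E hW hr k y hy C hC hCy hCC
  refine card_le_of_pureA hW hy C hC hCy hCC fun hne v h1 h2 => hN V C v (k + 1) ?_ h1 h2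
  obtain ⟨x, hx⟩ := hne
  have := path_le_rank hy (hC hx) (hCy x hx)
  omega

theorem colour_of_pureA (a s q t : ℕ) (ha : 1 ≤ a) (hat : a + 1 ≤ t)
    (hst : s + Nat.clog 2 q ≤ t) (hN : PureA.{u} a (q * 2 ^ s)) (V : Type u) [AddCommGroup V]
    [Module (ZMod 2) V] [FiniteDimensional (ZMod 2) V] (X : Finset V) (h0 : (0 : V) ∉ X)
    (hW : ¬ HasWheel (a + 1) (X : Set V)) :
    ∃ Φ : Fin t → Module.Dual (ZMod 2) V, ∀ x ∈ X, ∃ j, Φ j x ≠ 0 :=
  colour_of_outBoundT a t _ ha hat (mul_pow_le hst) (outBound_of_pureA hN) V X h0 hW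

theorem colour_of_pureAR (a s q t rho : ℕ) (ha : 1 ≤ a) (hat : a + 1 ≤ t)
    (hst : s + Nat.clog 2 q ≤ t) (hN : PureAR.{u} a rho (q * 2 ^ s)) (V : Type u) [AddCommGroup V]
    [Module (ZMod 2) V] [FiniteDimensional (ZMod 2) V] (X : Finset V) (h0 : (0 : V) ∉ X)
    (hW : ¬ HasWheel (a + 1) (X : Set V))
    (hr : Module.finrank (ZMod 2) (span (ZMod 2) (X : Set V)) ≤ rho) :
    ∃ Φ : Fin t → Module.Dual (ZMod 2) V, ∀ x ∈ X, ∃ j, Φ j x ≠ 0 :=
  colour_of_outBoundRT a t rho _ ha hat (mul_pow_le hst) (outBoundR_of_pureA hN) V X h0 hW hr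

theorem pureA_fourteen {a : ℕ} (ha : 1 ≤ a) : PureA.{u} a ((a + 13) / 14 * 2 ^ (a + 1)) := by
  intro ι F v L h1 h2
  have h := bound_fourteen ha h1 h2 L 0 (by omega)
  rwa [zero_add] at h

/-- **Colouring** with `a + 1 + clog 2 ((a + 13) / 14)` functionals. -/
theorem colour_fourteen (a : ℕ) (ha : 1 ≤ a) (V : Type u) [AddCommGroup V] [Module (ZMod 2) V]
    [FiniteDimensional (ZMod 2) V] (X : Finset V) (h0 : (0 : V) ∉ X)
    (hW : ¬ HasWheel (a + 1) (X : Set V)) :
    ∃ Φ : Fin (a + 1 + Nat.clog 2 ((a + 13) / 14)) → Module.Dual (ZMod 2) V,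
      ∀ x ∈ X, ∃ j, Φ j x ≠ 0 :=
  colour_of_pureA a (a + 1) ((a + 13) / 14) _ ha (by omega) le_rfl (pureA_fourteen ha) V X h0 hW

theorem pureAR_fourteen {a q : ℕ} (ha : 1 ≤ a) (hq : 1 ≤ q) :
    PureAR.{u} a (a + 14 * q - 1) (q * 2 ^ (a + 1)) := by
  intro ι F v L hL h1 h2
  have h := bound_fourteen_rank ha h1 h2 hq L 0 (by omega) (by omega)
  rwa [zero_add] at h

/-- **Colouring** with `a + 1 + clog 2 q` functionals for rank at most `a + 14 * q - 1`. -/
theorem colour_rank_fourteen (a q : ℕ) (ha : 1 ≤ a) (hq : 1 ≤ q) (V : Type u) [AddCommGroup V]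
    [Module (ZMod 2) V] [FiniteDimensional (ZMod 2) V] (X : Finset V) (h0 : (0 : V) ∉ X)
    (hW : ¬ HasWheel (a + 1) (X : Set V))
    (hr : Module.finrank (ZMod 2) (span (ZMod 2) (X : Set V)) ≤ a + 14 * q - 1) :
    ∃ Φ : Fin (a + 1 + Nat.clog 2 q) → Module.Dual (ZMod 2) V, ∀ x ∈ X, ∃ j, Φ j x ≠ 0 :=
  colour_of_pureAR a (a + 1) q _ (a + 14 * q - 1) ha (by omega) le_rfl (pureAR_fourteen ha hq)
    V X h0 hW hr

end Pool.Agent.Lib.P68998g
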