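import Pool.Agent.Lib.P68998g.Glue

/-!
A fan path after contraction of some elements of its outer circuit, and the wheels which arise when
the elements outside the fan path are used as rim elements.
-/

namespace Pool.Agent.Lib.P68998g

open Submodule Finset Pool.Agent.Lib.P68998c Pool.Agent.Lib.P68998f

universe u

section

variable {V : Type u} [AddCommGroup V] [Module (ZMod 2) V]

/-- A contracted fan: after contracting `C ⊆ E` the spokes `z 0, ..., z n` together with `x` are
linearly independent, `ρ 0 = z 0`, `ρ (i + 1) = z i + z (i + 1)` for `i < n`, `ρ (n + 1) = z n`. -/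
structure MFan (E : Set V) (x : V) (n : ℕ) (C : Set V) (z ρ : ℕ → V) : Prop where
  hC : C ⊆ E
  hz : ∀ i ≤ n, z i ∈ E
  hρ : ∀ i ≤ n + 1, ρ i ∈ E
  h0 : z 0 + ρ 0 ∈ span (ZMod 2) C
  hm : ∀ i < n, z i + z (i + 1) + ρ (i + 1) ∈ span (ZMod 2) C
  hn : z n + ρ (n + 1) ∈ span (ZMod 2) C
  hφ : ∀ (N : ℕ) (c : Fin N → ZMod 2) (u : ℕ → Fin N → ZMod 2),
    ∃ φ : V →ₗ[ZMod 2] (Fin N → ZMod 2), (∀ v ∈ C, φ v = 0) ∧ φ x = c ∧ ∀ i ≤ n, φ (z i) = u i

lemma map_span_eq_zero {W : Type*} [AddCommGroup W] [Module (ZMod 2) W] {C : Set V}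
    {φ : V →ₗ[ZMod 2] W} (h : ∀ v ∈ C, φ v = 0) {v : V} (hv : v ∈ span (ZMod 2) C) : φ v = 0 := by
  have h1 : span (ZMod 2) C ≤ LinearMap.ker φ := span_le.2 fun w hw => LinearMap.mem_ker.2 (h w hw)
  exact LinearMap.mem_ker.1 (h1 hv)

/-- exchange the first two rim elements -/
lemma MFan.swapLeft {E : Set V} {x : V} {n : ℕ} {C : Set V} {z ρ : ℕ → V}
    (h : MFan E x n C z ρ) (hn1 : 1 ≤ n) :
    MFan E x n C (fun i => if i = 0 then ρ 1 else z i)
      (fun i => if i = 0 then ρ 1 else if i = 1 then ρ 0 else ρ i) where
  hC := h.hC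
  hz := by
    intro i hi
    split_ifs with h1
    · exact h.hρ 1 (by omega)
    · exact h.hz i hi
  hρ := by
    intro i hi
    split_ifs with h1 h2
    · exact h.hρ 1 (by omega)
    · exact h.hρ 0 (by omega)
    · exact h.hρ i hi
  h0 := by
    simp only [if_true]
    rw [ZModModule.add_self]
    exact zero_mem _
  hm := by
    intro i hi
    rcases Nat.eq_zero_or_pos i with rfl | hi0
    · simp only [if_true, zero_add, one_ne_zero, if_false]
      have h1 := add_mem (h.hm 0 (by omega)) h.h0
      have h2 : z 0 + z (0 + 1) + ρ (0 + 1) + (z 0 + ρ 0) =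
          (z 0 + z 0) + (ρ 1 + z 1 + ρ 0) := by
        rw [zero_add]; abel
      rw [h2, ZModModule.add_self, zero_add] at h1
      exact h1
    · have e1 : i ≠ 0 := by omega
      have e2 : i + 1 ≠ 0 := by omega
      have e3 : i + 1 ≠ 1 := by omega
      simp only [e1, e2, e3, if_false]
      exact h.hm i hi
  hn := by
    have e1 : n ≠ 0 := by omega
    have e2 : n + 1 ≠ 0 := by omega
    have e3 : n + 1 ≠ 1 := by omega
    simp only [e1, e2, e3, if_false]
    exact h.hn
  hφ := by
    intro N c u
    obtain ⟨φ, hφC, hφx, hφz⟩ := h.hφ N c (fun i => if i = 0 then u 0 + u 1 else u i)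
    refine ⟨φ, hφC, hφx, ?_⟩
    intro i hi
    split_ifs with h1
    · have h2 := map_span_eq_zero hφC (h.hm 0 (by omega))
      rw [map_add, map_add, hφz 0 (by omega), hφz (0 + 1) (by omega)] at h2
      simp only [if_true, zero_add, one_ne_zero, if_false] at h2
      have h3 : u 0 + u 1 + u 1 + φ (ρ 1) = u 0 + (u 1 + u 1) + φ (ρ 1) := by abel
      rw [h3, ZModModule.add_self, add_zero] at h2
      have h4 := congrArg (u 0 + ·) h2
      beta_reduce at h4
      rw [← add_assoc, ZModModule.add_self, zero_add, add_zero] at h4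
      rw [h4, h1]
    · have h2 := hφz i hi
      beta_reduce at h2
      rw [if_neg h1] at h2
      exact h2

/-- exchange the last two rim elements -/
lemma MFan.swapRight {E : Set V} {x : V} {n : ℕ} {C : Set V} {z ρ : ℕ → V}
    (h : MFan E x n C z ρ) (hn1 : 1 ≤ n) :
    MFan E x n C (fun i => if i = n then ρ n else z i)
      (fun i => if i = n then ρ (n + 1) else if i = n + 1 then ρ n else ρ i) where
  hC := h.hC
  hz := by
    intro i hi
    split_ifs with h1
    · exact h.hρ n (by omega)
    · exact h.hz i hi
  hρ := by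
    intro i hi
    split_ifs with h1 h2
    · exact h.hρ (n + 1) (by omega)
    · exact h.hρ n (by omega)
    · exact h.hρ i hi
  h0 := by
    have e1 : 0 ≠ n := by omega
    have e2 : 0 ≠ n + 1 := by omega
    simp only [e1, e2, if_false]
    exact h.h0
  hm := by
    intro i hi
    rcases Nat.lt_or_ge (i + 1) n with hi0 | hi0
    · have e1 : i ≠ n := by omega
      have e2 : i + 1 ≠ n := by omega
      have e3 : i + 1 ≠ n + 1 := by omega
      simp only [e1, e2, e3, if_false]
      exact h.hm i hi
    · obtain rfl : n = i + 1 := by omega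
      have e1 : i ≠ i + 1 := by omega
      simp only [e1, if_true, if_false]
      have h1 := add_mem (h.hm i hi) h.hn
      have h2 : z i + z (i + 1) + ρ (i + 1) + (z (i + 1) + ρ (i + 1 + 1)) =
          (z (i + 1) + z (i + 1)) + (z i + ρ (i + 1) + ρ (i + 1 + 1)) := by abel
      rw [h2, ZModModule.add_self, zero_add] at h1
      exact h1
  hn := by
    have e1 : n + 1 ≠ n := by omega
    simp only [e1, if_true, if_false]
    rw [ZModModule.add_self]
    exact zero_mem _
  hφ := by
    intro N c u
    obtain ⟨m, rfl⟩ : ∃ m, n = m + 1 := ⟨n - 1, by omega⟩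
    obtain ⟨φ, hφC, hφx, hφz⟩ := h.hφ N c (fun i => if i = m + 1 then u m + u (m + 1) else u i)
    refine ⟨φ, hφC, hφx, ?_⟩
    intro i hi
    split_ifs with h1
    · have h2 := map_span_eq_zero hφC (h.hm m (by omega))
      rw [map_add, map_add, hφz m (by omega), hφz (m + 1) (by omega)] at h2
      have e1 : m ≠ m + 1 := by omega
      simp only [e1, if_true, if_false] at h2
      have h3 : u m + (u m + u (m + 1)) + φ (ρ (m + 1)) =
          (u m + u m) + u (m + 1) + φ (ρ (m + 1)) := by abel
      rw [h3, ZModModule.add_self, zero_add] at h2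
      have h4 := congrArg (u (m + 1) + ·) h2
      beta_reduce at h4
      rw [← add_assoc, ZModModule.add_self, zero_add, add_zero] at h4
      rw [h4, h1]
    · have h2 := hφz i hi
      beta_reduce at h2
      rw [if_neg h1] at h2
      exact h2

/-- the wheel of a contracted fan with centre spoke `x` and the two rim elements `g`, `h` at it -/
theorem MFan.wheel {E : Set V} {x : V} {n : ℕ} {C : Set V} {z ρ : ℕ → V}
    (hF : MFan E x n C z ρ) {g h : V} (hx : x ∈ E) (hg : g ∈ E) (hh : h ∈ E)
    (h1 : x + g + ρ 0 ∈ span (ZMod 2) C) (h2 : x + h + ρ (n + 1) ∈ span (ZMod 2) C) :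
    HasWheel (n + 1) E := by
  obtain ⟨φ, hφC, hφx, hφz⟩ := hF.hφ (n + 1 + 1) (Pi.single (0 : Fin (n + 1 + 1)) (1 : ZMod 2))
    (fun i => (fun t : Fin (n + 1 + 1) => if (t : ℕ) = i + 1 then (1 : ZMod 2) else 0))
  refine ⟨C, fun i => if (i : ℕ) = 0 then x else z (i - 1),
    fun i => if (i : ℕ) = 0 then g else if (i : ℕ) = n + 1 then h else ρ i,
    hF.hC, ?_, ?_, ⟨φ, hφC, ?_⟩, ?_⟩
  · intro i
    by_cases hi : (i : ℕ) = 0
    · simp only [hi, if_true]; exact hx
    · simp only [hi, if_false]
      exact hF.hz _ (by have := i.2; omega)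
  · intro i
    by_cases hi : (i : ℕ) = 0
    · simp only [hi, if_true]; exact hg
    · by_cases hi2 : (i : ℕ) = n + 1
      · show (if (i : ℕ) = 0 then g else if (i : ℕ) = n + 1 then h else ρ i) ∈ E
        rw [if_neg hi, if_pos hi2]; exact hh
      · simp only [hi, hi2, if_false]
        exact hF.hρ _ (by have := i.2; omega)
  · intro i
    by_cases hi : (i : ℕ) = 0
    · have : i = 0 := Fin.ext hi
      subst this
      simp only [Fin.val_zero, if_true]
      exact hφx
    · simp only [hi, if_false]
      rw [hφz _ (by have := i.2; omega)]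
      funext t
      by_cases hit : i = t
      · subst hit
        rw [if_pos (by omega), Pi.single_eq_same]
      · rw [if_neg, Pi.single_eq_of_ne (Ne.symm hit)]
        intro k1
        exact hit (Fin.ext (by omega))
  · intro i
    have hilt := i.2
    by_cases hi : (i : ℕ) = 0
    · have : i = 0 := Fin.ext hi
      subst this
      have e1 : ((0 + 1 : Fin (n + 1 + 1)) : ℕ) = 1 := by simp
      simp only [Fin.val_zero, if_true, e1]
      rw [if_neg one_ne_zero, Nat.sub_self]
      have k5 := add_mem h1 hF.h0
      have k6 : x + g + ρ 0 + (z 0 + ρ 0) = g + x + z 0 + (ρ 0 + ρ 0) := by abel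
      rw [k6, ZModModule.add_self, add_zero] at k5
      exact k5
    · by_cases hi2 : (i : ℕ) = n + 1
      · have e1 : i + 1 = 0 := by
          have : i = Fin.last (n + 1) := Fin.ext hi2
          rw [this]; simp
        simp only [e1, Fin.val_zero, if_true, hi2]
        rw [if_neg (by omega), if_neg (by omega), Nat.add_sub_cancel]
        have k5 := add_mem h2 hF.hn
        have k6 : x + h + ρ (n + 1) + (z n + ρ (n + 1)) =
            h + z n + x + (ρ (n + 1) + ρ (n + 1)) := by abel
        rw [k6, ZModModule.add_self, add_zero] at k5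
        exact k5
      · have e1 : ((i + 1 : Fin (n + 1 + 1)) : ℕ) = i + 1 := by
          apply Fin.val_add_one_of_lt
          rw [Fin.lt_def, Fin.val_last]
          omega
        simp only [hi, hi2, if_false, e1]
        rw [if_neg (by omega)]
        obtain ⟨j, hj⟩ : ∃ j, (i : ℕ) = j + 1 := ⟨i - 1, by omega⟩
        rw [hj, Nat.add_sub_cancel, Nat.add_sub_cancel]
        have k1 := hF.hm j (by omega)
        have k2 : z j + z (j + 1) + ρ (j + 1) = ρ (j + 1) + z j + z (j + 1) := by abel
        rw [k2] at k1
        exact k1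

/-- partial sums of the rim -/
def psum (y : ℕ → V) (k : ℕ) (j : ℕ) : V := ∑ q ∈ range j, rim y k q

lemma psum_succ (y : ℕ → V) (k : ℕ) (j : ℕ) : psum y k (j + 1) = psum y k j + rim y k j :=
  Finset.sum_range_succ _ _

lemma psum_interval_mem {y : ℕ → V} {k : ℕ} {C : Set V} {i : ℕ} :
    ∀ {j : ℕ}, i ≤ j → (∀ q, i ≤ q → q < j → rim y k q ∈ span (ZMod 2) C) →
    psum y k i + psum y k j ∈ span (ZMod 2) C := by
  intro j hij
  induction j, hij using Nat.le_induction with
  | base => intro _; rw [ZModModule.add_self]; exact zero_mem _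
  | succ j hij ih =>
    intro h
    rw [psum_succ, ← add_assoc]
    exact add_mem (ih fun q h1 h2 => h q h1 (by omega)) (h j hij (by omega))

/-- The contracted fan of a fan path. -/
theorem mfan_of_fanPath {E : Set V} {y : ℕ → V} {k n : ℕ} (hy : FanPath E y k) {x : V}
    (hxy : x ∉ span (ZMod 2) (Set.range fun i : Fin (k + 1) => y i)) {q : ℕ → ℕ}
    (hq : ∀ i j, i < j → j ≤ n + 1 → q i < q j) (hqk : q (n + 1) ≤ k + 1) :
    MFan E x n (Cset y k ((range (n + 2)).image q)) (fun i => y (q i))
      (fun i => rim y k (q i)) := by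
  classical
  set Y : Finset ℕ := (range (n + 2)).image q with hY
  have hqle : ∀ i ≤ n, q i ≤ k := by
    intro i hi
    have := hq i (n + 1) (by omega) le_rfl
    omega
  have hqY : ∀ i ≤ n + 1, q i ∈ Y := fun i hi =>
    Finset.mem_image_of_mem _ (Finset.mem_range.2 (by omega))
  have hq_inj : ∀ i j, i ≤ n + 1 → j ≤ n + 1 → q i = q j → i = j := by
    intro i j hi hj hij
    rcases lt_trichotomy i j with h | h | h
    · have := hq i j h hj; omega
    · exact h
    · have := hq j i h hi; omega
  have hrimC : ∀ j, j ≤ k + 1 → j ∉ Y → rim y k j ∈ span (ZMod 2) (Cset y k Y) :=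
    fun j h1 h2 => subset_span ⟨j, h1, h2, rfl⟩
  have hps : ∀ j ≤ k, psum y k (j + 1) = y j := fun j hj => sum_rim_prefix y k j hj
  -- no element of `Y` strictly between `q i` and `q (i + 1)`
  have hbetween : ∀ i ≤ n, ∀ j, q i + 1 ≤ j → j < q (i + 1) → j ∉ Y := by
    intro i hi j h1 h2 h3
    obtain ⟨l, hl, rfl⟩ := Finset.mem_image.1 h3
    rw [Finset.mem_range] at hl
    rcases Nat.lt_or_ge i l with h4 | h4
    · rcases Nat.lt_or_ge (i + 1) l with h5 | h5
      · have := hq (i + 1) l h5 (by omega)
        omega
      · have : l = i + 1 := by omega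
        subst this
        omega
    · rcases Nat.lt_or_ge l i with h5 | h5
      · have := hq l i h5 (by omega)
        omega
      · have : l = i := by omega
        subst this
        omega
  have hbefore : ∀ j, j < q 0 → j ∉ Y := by
    intro j h1 h3
    obtain ⟨l, hl, rfl⟩ := Finset.mem_image.1 h3
    rw [Finset.mem_range] at hl
    rcases Nat.eq_zero_or_pos l with rfl | h4
    · omega
    · have := hq 0 l h4 (by omega)
      omega
  have hafter : ∀ j, q (n + 1) < j → j ∉ Y := by
    intro j h1 h3
    obtain ⟨l, hl, rfl⟩ := Finset.mem_image.1 h3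
    rw [Finset.mem_range] at hl
    rcases Nat.lt_or_ge l (n + 1) with h4 | h4
    · have := hq l (n + 1) h4 le_rfl
      omega
    · have : l = n + 1 := by omega
      subst this
      omega
  refine ⟨?_, ?_, ?_, ?_, ?_, ?_, ?_⟩
  · rintro v ⟨j, hj, -, rfl⟩
    exact rim_mem hy hj
  · intro i hi
    exact hy.1 _ (hqle i hi)
  · intro i hi
    rcases Nat.lt_or_ge i (n + 1) with h | h
    · exact rim_mem hy (by have := hqle i (by omega); omega)
    · have : i = n + 1 := by omega
      subst this
      exact rim_mem hy hqk
  · have h1 := psum_interval_mem (y := y) (k := k) (C := Cset y k Y) (i := 0) (j := q 0)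
      (Nat.zero_le _) (fun j _ hj => hrimC j (by have := hqle 0 (by omega); omega)
        (hbefore j hj))
    have h2 : psum y k 0 = 0 := Finset.sum_range_zero _
    rw [h2, zero_add] at h1
    rw [← hps (q 0) (hqle 0 (by omega)), psum_succ, add_assoc, ZModModule.add_self, add_zero]
    exact h1
  · intro i hi
    have h1 := psum_interval_mem (y := y) (k := k) (C := Cset y k Y) (i := q i + 1)
      (j := q (i + 1)) (by have := hq i (i + 1) (by omega) (by omega); omega)
      (fun j hj1 hj2 => hrimC j (by have := hqle (i + 1) (by omega); omega)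
        (hbetween i (by omega) j hj1 hj2))
    rw [← hps (q i) (hqle i (by omega)), ← hps (q (i + 1)) (hqle (i + 1) (by omega)),
      psum_succ y k (q (i + 1)), add_assoc, add_assoc, ZModModule.add_self, add_zero]
    exact h1
  · have h1 := psum_interval_mem (y := y) (k := k) (C := Cset y k Y) (i := q n + 1)
      (j := q (n + 1)) (by have := hq n (n + 1) (by omega) (by omega); omega)
      (fun j hj1 hj2 => hrimC j (by omega) (hbetween n le_rfl j hj1 hj2))
    have h2 := psum_interval_mem (y := y) (k := k) (C := Cset y k Y) (i := q (n + 1) + 1)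
      (j := k + 2) (by omega)
      (fun j hj1 hj2 => hrimC j (by omega) (hafter j (by omega)))
    have h3 : psum y k (k + 2) = 0 := sum_rim y k
    rw [h3, add_zero, psum_succ] at h2
    have h4 := add_mem h1 h2
    rw [hps (q n) (hqle n le_rfl)] at h4
    have h5 : y (q n) + psum y k (q (n + 1)) + (psum y k (q (n + 1)) + rim y k (q (n + 1))) =
        y (q n) + rim y k (q (n + 1)) + (psum y k (q (n + 1)) + psum y k (q (n + 1))) := by abel
    rw [h5, ZModModule.add_self, add_zero] at h4
    exact h4
  · intro N c u
    set idx : ℕ → ℕ := fun j => ((range (n + 2)).filter fun i => q i ≤ j).card with hidx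
    have hidx_q : ∀ i ≤ n, idx (q i) = i + 1 := by
      intro i hi
      have : (range (n + 2)).filter (fun l => q l ≤ q i) = range (i + 1) := by
        ext l
        rw [Finset.mem_filter, Finset.mem_range, Finset.mem_range]
        constructor
        · rintro ⟨h1, h2⟩
          by_contra h3
          have := hq i l (by omega) (by omega)
          omega
        · intro h1
          refine ⟨by omega, ?_⟩
          rcases Nat.lt_or_ge l i with h2 | h2
          · exact (hq l i h2 (by omega)).le
          · have : l = i := by omega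
            rw [this]
      simp only [hidx]
      rw [this, Finset.card_range]
    have hidx_out : ∀ j, j + 1 ∉ Y → idx (j + 1) = idx j := by
      intro j hj
      simp only [hidx]
      congr 1
      ext l
      simp only [Finset.mem_filter]
      constructor
      · rintro ⟨h1, h2⟩
        refine ⟨h1, ?_⟩
        have : q l ≠ j + 1 := fun h => hj (h ▸ Finset.mem_image_of_mem _ h1)
        omega
      · rintro ⟨h1, h2⟩
        exact ⟨h1, by omega⟩
    obtain ⟨φ, hφx, hφy⟩ := exists_map' hy.2.2 hxy c
      (fun j => if idx j = 0 ∨ idx j = n + 2 then 0 else u (idx j - 1))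
    refine ⟨φ, ?_, hφx, ?_⟩
    · rintro v ⟨j, hj, hjY, rfl⟩
      rcases Nat.eq_zero_or_pos j with rfl | h
      · rw [rim_zero, hφy 0 (by omega)]
        have : idx 0 = 0 := by
          simp only [hidx]
          rw [Finset.card_eq_zero, Finset.filter_eq_empty_iff]
          intro l hl hl0
          exact hjY ((Nat.le_zero.1 hl0) ▸ Finset.mem_image_of_mem _ hl)
        rw [if_pos (Or.inl this)]
      · rcases Nat.lt_or_ge k j with h1 | h1
        · have : j = k + 1 := by omega
          subst this
          rw [rim_last, hφy k le_rfl]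
          have k1 : idx k = n + 2 := by
            simp only [hidx]
            rw [Finset.filter_true_of_mem, Finset.card_range]
            intro l hl
            rw [Finset.mem_range] at hl
            have h2 : q l ≤ k + 1 := by
              rcases Nat.lt_or_ge l (n + 1) with h | h
              · have := hqle l (by omega); omega
              · have : l = n + 1 := by omega
                subst this
                exact hqk
            have : q l ≠ k + 1 := fun h =>
              hjY (h ▸ Finset.mem_image_of_mem _ (Finset.mem_range.2 hl))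
            omega
          rw [if_pos (Or.inr k1)]
        · obtain ⟨j, rfl⟩ : ∃ j', j = j' + 1 := ⟨j - 1, by omega⟩
          rw [rim_mid y h1, map_add, hφy j (by omega), hφy (j + 1) h1, hidx_out j hjY]
          exact ZModModule.add_self _
    · intro i hi
      rw [hφy _ (hqle i hi), hidx_q i hi, if_neg (by omega), Nat.add_sub_cancel]

end

end Pool.Agent.Lib.P68998g
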