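import Pool.Agent.Lib.P68998g.Glue

/-!
Wheels from an admissible order of the positions of the outer circuit of a fan path: the star
wheel (three elements outside the fan path) and the pair wheel (two elements, one contracted).
The first two and the last two positions may be swapped.
-/

namespace Pool.Agent.Lib.P68998g

open Submodule Finset Pool.Agent.Lib.P68998c Pool.Agent.Lib.P68998f

universe u

section

variable {V : Type u} [AddCommGroup V] [Module (ZMod 2) V]

/-- A linear map with prescribed values on the outer circuit. -/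
lemma exists_rim_map {E : Set V} {y : ℕ → V} {k : ℕ} (hy : FanPath E y k) {x : V}
    (hx : x ∉ span (ZMod 2) (Set.range fun i : Fin (k + 1) => y i)) {W : Type*} [AddCommGroup W]
    [Module (ZMod 2) W] (c : W) (ψ : ℕ → W) (hψ : ∑ q ∈ range (k + 2), ψ q = 0) :
    ∃ φ : V →ₗ[ZMod 2] W, φ x = c ∧ ∀ q ≤ k + 1, φ (rim y k q) = ψ q := by
  obtain ⟨φ, h1, h2⟩ := exists_map' hy.2.2 hx c (fun p => ∑ q ∈ range (p + 1), ψ q)
  refine ⟨φ, h1, ?_⟩
  intro q hq
  rcases Nat.eq_zero_or_pos q with rfl | h
  · rw [rim_zero, h2 0 (by omega), Finset.sum_range_one]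
  · rcases Nat.lt_or_ge k q with h3 | h3
    · have : q = k + 1 := by omega
      subst this
      rw [rim_last, h2 k le_rfl]
      rw [Finset.sum_range_succ] at hψ
      calc ∑ q ∈ range (k + 1), ψ q = ∑ q ∈ range (k + 1), ψ q + (ψ (k + 1) + ψ (k + 1)) := by
            rw [ZModModule.add_self, add_zero]
        _ = ψ (k + 1) := by rw [← add_assoc, hψ, zero_add]
    · obtain ⟨q, rfl⟩ : ∃ q', q = q' + 1 := ⟨q - 1, by omega⟩
      rw [rim_mid y h3, map_add, h2 q (by omega), h2 (q + 1) h3, Finset.sum_range_succ _ (q + 1),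
        ← add_assoc, ZModModule.add_self, zero_add]

/-- An admissible order of a set of positions: `e 0, ..., e N` are the positions and
`z 0, ..., z (N - 1)` are elements which represent the partial sums. -/
structure AdmOrd (E : Set V) (y : ℕ → V) (k N : ℕ) (e : ℕ → ℕ) (z : ℕ → V) : Prop where
  le : ∀ i ≤ N, e i ≤ k + 1
  inj : ∀ i ≤ N, ∀ j ≤ N, e i = e j → i = j
  mem : ∀ i < N, z i ∈ E
  sum : ∀ i < N, z i + ∑ t ∈ range (i + 1), rim y k (e t) ∈
    span (ZMod 2) (Cset y k ((range (N + 1)).image e))

lemma AdmOrd.total {E : Set V} {y : ℕ → V} {k N : ℕ} {e : ℕ → ℕ} {z : ℕ → V}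
    (h : AdmOrd E y k N e z) :
    ∑ t ∈ range (N + 1), rim y k (e t) ∈ span (ZMod 2) (Cset y k ((range (N + 1)).image e)) := by
  classical
  have h1 : ∑ t ∈ range (N + 1), rim y k (e t) = ∑ q ∈ (range (N + 1)).image e, rim y k q := by
    rw [Finset.sum_image]
    intro i hi j hj hij
    simp only [Finset.coe_range, Set.mem_Iio] at hi hj
    exact h.inj i (by omega) j (by omega) hij
  have h2 : (range (N + 1)).image e ⊆ range (k + 2) := by
    intro q hq
    obtain ⟨i, hi, rfl⟩ := Finset.mem_image.1 hq
    rw [Finset.mem_range] at hi ⊢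
    have := h.le i (by omega)
    omega
  have h3 := Finset.sum_sdiff (f := rim y k) h2
  rw [sum_rim] at h3
  have h4 : ∑ q ∈ (range (N + 1)).image e, rim y k q =
      ∑ q ∈ range (k + 2) \ (range (N + 1)).image e, rim y k q := by
    set A := ∑ q ∈ range (k + 2) \ (range (N + 1)).image e, rim y k q
    set B := ∑ q ∈ (range (N + 1)).image e, rim y k q
    calc B = (A + A) + B := by rw [ZModModule.add_self, zero_add]
      _ = A + (A + B) := by rw [add_assoc]
      _ = A := by rw [h3, add_zero]
  rw [h1, h4]
  refine sum_mem fun q hq => subset_span ⟨q, ?_, ?_, rfl⟩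
  · have := Finset.mem_range.1 (Finset.mem_sdiff.1 hq).1; omega
  · exact (Finset.mem_sdiff.1 hq).2

/-- values for `exists_rim_map`: the position `e i` gets the value `w i` -/
lemma exists_place {W : Type*} [AddCommGroup W] {k N : ℕ} {e : ℕ → ℕ}
    (hle : ∀ i ≤ N, e i ≤ k + 1) (hinj : ∀ i ≤ N, ∀ j ≤ N, e i = e j → i = j) (w : ℕ → W) :
    ∃ ψ : ℕ → W, (∀ i ≤ N, ψ (e i) = w i) ∧ (∀ q, q ∉ (range (N + 1)).image e → ψ q = 0) ∧
      ∑ q ∈ range (k + 2), ψ q = ∑ i ∈ range (N + 1), w i := by
  classical
  refine ⟨fun q => ∑ i ∈ range (N + 1), if e i = q then w i else 0, ?_, ?_, ?_⟩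
  · intro i hi
    beta_reduce
    rw [Finset.sum_eq_single i]
    · rw [if_pos rfl]
    · intro j hj hji
      rw [Finset.mem_range] at hj
      rw [if_neg]
      intro h
      exact hji (hinj j (by omega) i hi h)
    · intro h
      exact absurd (Finset.mem_range.2 (by omega)) h
  · intro q hq
    beta_reduce
    refine Finset.sum_eq_zero fun i hi => ?_
    rw [if_neg]
    intro h
    exact hq (Finset.mem_image.2 ⟨i, hi, h⟩)
  · beta_reduce
    rw [Finset.sum_comm]
    refine Finset.sum_congr rfl fun i hi => ?_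
    rw [Finset.mem_range] at hi
    rw [Finset.sum_ite_eq, if_pos]
    rw [Finset.mem_range]
    have := hle i (by omega)
    omega

/-- telescoping -/
lemma sum_tele {W : Type*} [AddCommGroup W] [Module (ZMod 2) W] (w : ℕ → W) (n : ℕ) :
    ∑ i ∈ range (n + 1), (if i = 0 then w 0 else w (i - 1) + w i) = w n := by
  induction n with
  | zero => simp
  | succ n ih =>
    rw [Finset.sum_range_succ, ih, if_neg (by omega), Nat.add_sub_cancel, ← add_assoc,
      ZModModule.add_self, zero_add]

/-- **The star wheel.** -/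
theorem star_wheel {E : Set V} {y : ℕ → V} {k a : ℕ} (hy : FanPath E y k) {e : ℕ → ℕ}
    {z : ℕ → V} (hA : AdmOrd E y k (a + 1) e z) {x g h : V} (hx : x ∈ E) (hg : g ∈ E) (hh : h ∈ E)
    (hxy : x ∉ span (ZMod 2) (Set.range fun i : Fin (k + 1) => y i))
    (h1 : x + g + rim y k (e 0) ∈ span (ZMod 2) (Cset y k ((range (a + 1 + 1)).image e)))
    (h2 : x + h + rim y k (e (a + 1)) ∈ span (ZMod 2) (Cset y k ((range (a + 1 + 1)).image e))) :
    HasWheel (a + 1) E := by
  classical
  set C := Cset y k ((range (a + 1 + 1)).image e) with hC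
  -- the unit vectors
  set U : ℕ → (Fin (a + 1 + 1) → ZMod 2) := fun i t => if (t : ℕ) = i then 1 else 0 with hU
  have hUs : ∀ i : Fin (a + 1 + 1), U i = Pi.single i 1 := by
    intro i
    funext t
    simp only [hU]
    by_cases hit : i = t
    · subst hit; simp
    · rw [if_neg, Pi.single_eq_of_ne (Ne.symm hit)]
      intro h; exact hit (Fin.ext h.symm)
  -- values on the positions
  set w : ℕ → (Fin (a + 1 + 1) → ZMod 2) := fun i =>
    if i = 0 then U 1 else if i = a + 1 then U (a + 1) else U i + U (i + 1) with hw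
  obtain ⟨ψ, hψ1, hψ2, hψ3⟩ := exists_place hA.le hA.inj w
  have hpart : ∀ i ≤ a, ∑ t ∈ range (i + 1), w t = U (i + 1) := by
    intro i hi
    induction i with
    | zero => rw [Finset.sum_range_one]; simp [hw]
    | succ i ih =>
      rw [Finset.sum_range_succ, ih (by omega)]
      simp only [hw]
      rw [if_neg (by omega), if_neg (by omega), ← add_assoc, ZModModule.add_self, zero_add]
  have hsum : ∑ q ∈ range (k + 2), ψ q = 0 := by
    rw [hψ3, Finset.sum_range_succ, hpart a le_rfl]
    simp only [hw]
    rw [if_neg (by omega), if_true]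
    exact ZModModule.add_self _
  obtain ⟨φ, hφx, hφr⟩ := exists_rim_map hy hxy (U 0) ψ hsum
  have hφC : ∀ v ∈ C, φ v = 0 := by
    rintro v ⟨q, hq, hqY, rfl⟩
    rw [hφr q hq]
    exact hψ2 q hqY
  have hφS : ∀ v ∈ span (ZMod 2) C, φ v = 0 := by
    intro v hv
    have h3 : span (ZMod 2) C ≤ LinearMap.ker φ := span_le.2 fun v hv => hφC v hv
    exact h3 hv
  have hφz : ∀ i ≤ a, φ (z i) = U (i + 1) := by
    intro i hi
    have h3 := hφS _ (hA.sum i (by omega))
    rw [map_add, map_sum] at h3
    have h4 : ∑ t ∈ range (i + 1), φ (rim y k (e t)) = U (i + 1) := by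
      rw [← hpart i hi]
      refine Finset.sum_congr rfl fun t ht => ?_
      rw [Finset.mem_range] at ht
      rw [hφr _ (hA.le t (by omega)), hψ1 t (by omega)]
    rw [h4] at h3
    calc φ (z i) = φ (z i) + (U (i + 1) + U (i + 1)) := by rw [ZModModule.add_self, add_zero]
      _ = U (i + 1) := by rw [← add_assoc, h3, zero_add]
  refine ⟨C, fun i => if (i : ℕ) = 0 then x else z (i - 1),
    fun i => if (i : ℕ) = 0 then g else if (i : ℕ) = a + 1 then h else rim y k (e i),
    ?_, ?_, ?_, ⟨φ, hφC, ?_⟩, ?_⟩
  · rintro v ⟨q, hq, -, rfl⟩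
    exact rim_mem hy hq
  · intro i
    by_cases hi : (i : ℕ) = 0
    · simp only [hi, if_true]; exact hx
    · simp only [hi, if_false]
      exact hA.mem _ (by have := i.2; omega)
  · intro i
    by_cases hi : (i : ℕ) = 0
    · simp only [hi, if_true]; exact hg
    · by_cases hi2 : (i : ℕ) = a + 1
      · show (if (i : ℕ) = 0 then g else if (i : ℕ) = a + 1 then h else rim y k (e i)) ∈ E
        rw [if_neg hi, if_pos hi2]; exact hh
      · simp only [hi, hi2, if_false]
        exact rim_mem hy (hA.le _ (by have := i.2; omega))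
  · intro i
    by_cases hi : (i : ℕ) = 0
    · have : i = 0 := Fin.ext hi
      subst this
      simp only [Fin.val_zero, if_true]
      rw [hφx, ← hUs 0]
      rfl
    · simp only [hi, if_false]
      rw [hφz _ (by have := i.2; omega), Nat.sub_add_cancel (by omega), hUs i]
  · intro i
    have hilt := i.2
    by_cases hi : (i : ℕ) = 0
    · have : i = 0 := Fin.ext hi
      subst this
      have e1 : ((0 + 1 : Fin (a + 1 + 1)) : ℕ) = 1 := by simp
      simp only [Fin.val_zero, if_true, e1]
      rw [if_neg one_ne_zero]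
      have k1 := hA.sum 0 (by omega)
      rw [zero_add, Finset.sum_range_one] at k1
      have k2 := add_mem k1 h1
      have k3 : z 0 + rim y k (e 0) + (x + g + rim y k (e 0)) =
          g + x + z 0 + (rim y k (e 0) + rim y k (e 0)) := by abel
      rw [k3, ZModModule.add_self, add_zero] at k2
      exact k2
    · by_cases hi2 : (i : ℕ) = a + 1
      · have e1 : i + 1 = 0 := by
          have : i = Fin.last (a + 1) := Fin.ext hi2
          rw [this]; simp
        simp only [e1, Fin.val_zero, if_true, hi2]
        rw [if_neg (by omega), if_neg (by omega), Nat.add_sub_cancel]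
        have k1 := hA.sum a (by omega)
        have k2 := hA.total
        rw [Finset.sum_range_succ] at k2
        have k3 := add_mem (add_mem k1 k2) h2
        have k4 : z a + ∑ t ∈ range (a + 1), rim y k (e t) + (∑ t ∈ range (a + 1), rim y k (e t) +
            rim y k (e (a + 1))) + (x + h + rim y k (e (a + 1))) = h + z a + x +
            ((∑ t ∈ range (a + 1), rim y k (e t) + ∑ t ∈ range (a + 1), rim y k (e t)) +
              (rim y k (e (a + 1)) + rim y k (e (a + 1)))) := by abel
        rw [k4, ZModModule.add_self, ZModModule.add_self, add_zero, add_zero] at k3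
        exact k3
      · have e1 : ((i + 1 : Fin (a + 1 + 1)) : ℕ) = i + 1 := by
          apply Fin.val_add_one_of_lt
          rw [Fin.lt_def, Fin.val_last]
          omega
        simp only [hi, hi2, if_false, e1]
        rw [if_neg (by omega), Nat.add_sub_cancel]
        have k1 := hA.sum ((i : ℕ) - 1) (by omega)
        have k2 := hA.sum (i : ℕ) (by omega)
        rw [Nat.sub_add_cancel (by omega)] at k1
        rw [Finset.sum_range_succ] at k2
        have k3 := add_mem k1 k2
        have k4 : z ((i : ℕ) - 1) + ∑ t ∈ range (i : ℕ), rim y k (e t) +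
            (z i + (∑ t ∈ range (i : ℕ), rim y k (e t) + rim y k (e i))) =
            rim y k (e i) + z ((i : ℕ) - 1) + z i +
            (∑ t ∈ range (i : ℕ), rim y k (e t) + ∑ t ∈ range (i : ℕ), rim y k (e t)) := by abel
        rw [k4, ZModModule.add_self, add_zero] at k3
        exact k3

/-- **The pair wheel.** -/
theorem pair_wheel {E : Set V} {y : ℕ → V} {k a : ℕ} (hy : FanPath E y k) {e : ℕ → ℕ}
    {z : ℕ → V} (hA : AdmOrd E y k (a + 2) e z) {x g : V} (hx : x ∈ E) (hg : g ∈ E)
    (hxy : x ∉ span (ZMod 2) (Set.range fun i : Fin (k + 1) => y i))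
    (h1 : x + g + (rim y k (e 0) + rim y k (e (a + 2))) ∈
      span (ZMod 2) (Cset y k ((range (a + 2 + 1)).image e))) :
    HasWheel (a + 1) E := by
  classical
  set C := Cset y k ((range (a + 2 + 1)).image e) with hC
  set U : ℕ → (Fin (a + 1 + 1) → ZMod 2) := fun i t => if (t : ℕ) = i then 1 else 0 with hU
  have hUs : ∀ i : Fin (a + 1 + 1), U i = Pi.single i 1 := by
    intro i
    funext t
    simp only [hU]
    by_cases hit : i = t
    · subst hit; simp
    · rw [if_neg, Pi.single_eq_of_ne (Ne.symm hit)]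
      intro h; exact hit (Fin.ext h.symm)
  set w : ℕ → (Fin (a + 1 + 1) → ZMod 2) := fun i =>
    if i = 0 then U 0 else if i = a + 2 then U (a + 1) else U (i - 1) + U i with hw
  obtain ⟨ψ, hψ1, hψ2, hψ3⟩ := exists_place hA.le hA.inj w
  have hpart : ∀ i ≤ a + 1, ∑ t ∈ range (i + 1), w t = U i := by
    intro i hi
    induction i with
    | zero => rw [Finset.sum_range_one]; simp [hw]
    | succ i ih =>
      rw [Finset.sum_range_succ, ih (by omega)]
      simp only [hw]
      rw [if_neg (by omega), if_neg (by omega), Nat.add_sub_cancel, ← add_assoc,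
        ZModModule.add_self, zero_add]
  have hsum : ∑ q ∈ range (k + 2), ψ q = 0 := by
    rw [hψ3, Finset.sum_range_succ, hpart (a + 1) le_rfl]
    simp only [hw]
    rw [if_neg (by omega), if_true]
    exact ZModModule.add_self _
  obtain ⟨φ, hφx, hφr⟩ := exists_rim_map hy hxy (0 : Fin (a + 1 + 1) → ZMod 2) ψ hsum
  have hφC : ∀ v ∈ C, φ v = 0 := by
    rintro v ⟨q, hq, hqY, rfl⟩
    rw [hφr q hq]
    exact hψ2 q hqY
  have hφS : ∀ v ∈ span (ZMod 2) C, φ v = 0 := by
    intro v hv
    have h3 : span (ZMod 2) C ≤ LinearMap.ker φ := span_le.2 fun v hv => hφC v hv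
    exact h3 hv
  have hφz : ∀ i ≤ a + 1, φ (z i) = U i := by
    intro i hi
    have h3 := hφS _ (hA.sum i (by omega))
    rw [map_add, map_sum] at h3
    have h4 : ∑ t ∈ range (i + 1), φ (rim y k (e t)) = U i := by
      rw [← hpart i hi]
      refine Finset.sum_congr rfl fun t ht => ?_
      rw [Finset.mem_range] at ht
      rw [hφr _ (hA.le t (by omega)), hψ1 t (by omega)]
    rw [h4] at h3
    calc φ (z i) = φ (z i) + (U i + U i) := by rw [ZModModule.add_self, add_zero]
      _ = U i := by rw [← add_assoc, h3, zero_add]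
  have hCx : span (ZMod 2) C ≤ span (ZMod 2) (insert x C) := span_mono (Set.subset_insert _ _)
  refine ⟨insert x C, fun i => z i,
    fun i => if (i : ℕ) = a + 1 then g else rim y k (e (i + 1)), ?_, ?_, ?_, ⟨φ, ?_, ?_⟩, ?_⟩
  · rintro v (rfl | ⟨q, hq, -, rfl⟩)
    · exact hx
    · exact rim_mem hy hq
  · intro i
    exact hA.mem _ (by have := i.2; omega)
  · intro i
    by_cases hi : (i : ℕ) = a + 1
    · simp only [hi, if_true]; exact hg
    · simp only [hi, if_false]
      exact rim_mem hy (hA.le _ (by have := i.2; omega))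
  · rintro v (rfl | hv)
    · exact hφx
    · exact hφC v hv
  · intro i
    rw [hφz _ (by have := i.2; omega), hUs i]
  · intro i
    have hilt := i.2
    by_cases hi2 : (i : ℕ) = a + 1
    · have e1 : i + 1 = 0 := by
        have : i = Fin.last (a + 1) := Fin.ext hi2
        rw [this]; simp
      simp only [e1, Fin.val_zero, hi2, if_true]
      have k0 := hA.sum 0 (by omega)
      rw [zero_add, Finset.sum_range_one] at k0
      have k1 := hA.sum (a + 1) (by omega)
      have k2 := hA.total
      rw [Finset.sum_range_succ] at k2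
      have k3 := hCx (add_mem (add_mem (add_mem k1 k2) k0) h1)
      have k5 : x ∈ span (ZMod 2) (insert x C) := subset_span (Set.mem_insert _ _)
      have k6 := add_mem k3 k5
      set S := ∑ t ∈ range (a + 1 + 1), rim y k (e t)
      have k4 : z (a + 1) + S + (S + rim y k (e (a + 2))) + (z 0 + rim y k (e 0)) +
          (x + g + (rim y k (e 0) + rim y k (e (a + 2)))) + x = g + z (a + 1) + z 0 +
          ((S + S) + (rim y k (e (a + 2)) + rim y k (e (a + 2))) +
            (rim y k (e 0) + rim y k (e 0)) + (x + x)) := by abel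
      rw [k4] at k6
      simp only [ZModModule.add_self, add_zero] at k6
      exact k6
    · have e1 : ((i + 1 : Fin (a + 1 + 1)) : ℕ) = i + 1 := by
        apply Fin.val_add_one_of_lt
        rw [Fin.lt_def, Fin.val_last]
        omega
      simp only [hi2, if_false, e1]
      have k1 := hA.sum (i : ℕ) (by omega)
      have k2 := hA.sum ((i : ℕ) + 1) (by omega)
      rw [Finset.sum_range_succ] at k2
      have k3 := hCx (add_mem k1 k2)
      set S := ∑ t ∈ range ((i : ℕ) + 1), rim y k (e t)
      have k4 : z i + S + (z ((i : ℕ) + 1) + (S + rim y k (e (i + 1)))) =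
          rim y k (e (i + 1)) + z i + z ((i : ℕ) + 1) + (S + S) := by abel
      rw [k4, ZModModule.add_self, add_zero] at k3
      exact k3

end

end Pool.Agent.Lib.P68998g
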