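import Pool.Agent.Lib.P68998g.Order

/-!
Admissible orders (increasing, first two swapped, last two swapped) and wheels from patterns of
coordinates in the outer circuit.
-/

namespace Pool.Agent.Lib.P68998g

open Submodule Finset Pool.Agent.Lib.P68998c Pool.Agent.Lib.P68998f

universe u

section

variable {V : Type u} [AddCommGroup V] [Module (ZMod 2) V]

/-- the increasing order is admissible -/
lemma admOrd_mono {E : Set V} {y : ℕ → V} {k N : ℕ} (hy : FanPath E y k) {e : ℕ → ℕ}
    (he : ∀ i j, i < j → j ≤ N → e i < e j) (hN : e N ≤ k + 1) :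
    AdmOrd E y k N e (fun i => y (e i)) := by
  classical
  have hle : ∀ i ≤ N, e i ≤ k + 1 := by
    intro i hi
    rcases Nat.lt_or_ge i N with h | h
    · have := he i N h le_rfl; omega
    · have : i = N := by omega
      rw [this]; exact hN
  have hinj : ∀ i ≤ N, ∀ j ≤ N, e i = e j → i = j := by
    intro i hi j hj hij
    rcases lt_trichotomy i j with h | h | h
    · have := he i j h hj; omega
    · exact h
    · have := he j i h hi; omega
  refine ⟨hle, hinj, ?_, ?_⟩
  · intro i hi
    have := he i N hi le_rfl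
    exact hy.1 _ (by omega)
  · intro i hi
    have hik : e i ≤ k := by have := he i N hi le_rfl; omega
    have h1 : ∑ t ∈ range (i + 1), rim y k (e t) = ∑ q ∈ (range (i + 1)).image e, rim y k q := by
      rw [Finset.sum_image]
      intro s hs t ht hst
      simp only [Finset.coe_range, Set.mem_Iio] at hs ht
      exact hinj s (by omega) t (by omega) hst
    have h2 : (range (i + 1)).image e ⊆ range (e i + 1) := by
      intro q hq
      obtain ⟨t, ht, rfl⟩ := Finset.mem_image.1 hq
      rw [Finset.mem_range] at ht ⊢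
      rcases Nat.lt_or_ge t i with h | h
      · have := he t i h (by omega); omega
      · have : t = i := by omega
        rw [this]; omega
    have h3 := Finset.sum_sdiff (f := rim y k) h2
    rw [sum_rim_prefix y k _ hik] at h3
    have h4 : y (e i) + ∑ t ∈ range (i + 1), rim y k (e t) =
        ∑ q ∈ range (e i + 1) \ (range (i + 1)).image e, rim y k q := by
      rw [h1, ← h3, add_assoc, ZModModule.add_self, add_zero]
    rw [h4]
    refine sum_mem fun q hq => subset_span ⟨q, ?_, ?_, rfl⟩
    · have := Finset.mem_range.1 (Finset.mem_sdiff.1 hq).1; omega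
    · intro hq2
      obtain ⟨hq1, hq3⟩ := Finset.mem_sdiff.1 hq
      obtain ⟨t, ht, rfl⟩ := Finset.mem_image.1 hq2
      rw [Finset.mem_range] at ht hq1
      refine hq3 (Finset.mem_image.2 ⟨t, Finset.mem_range.2 ?_, rfl⟩)
      by_contra hcon
      have := he i t (by omega) (by omega)
      omega

/-- two swapped positions -/
def swp (s t : ℕ) (e : ℕ → ℕ) (i : ℕ) : ℕ := if i = s then e t else if i = t then e s else e i

lemma swp_left (s t : ℕ) (e : ℕ → ℕ) : swp s t e s = e t := by simp [swp]

lemma swp_right {s t : ℕ} (h : s ≠ t) (e : ℕ → ℕ) : swp s t e t = e s := by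
  simp [swp, h.symm]

lemma swp_ne {s t i : ℕ} (h1 : i ≠ s) (h2 : i ≠ t) (e : ℕ → ℕ) : swp s t e i = e i := by
  simp [swp, h1, h2]

lemma swp_image {s t n : ℕ} (hs : s < n) (ht : t < n) (e : ℕ → ℕ) :
    (range n).image (swp s t e) = (range n).image e := by
  ext q
  simp only [Finset.mem_image, Finset.mem_range]
  constructor
  · rintro ⟨i, hi, rfl⟩
    by_cases h1 : i = s
    · subst h1; exact ⟨t, ht, (swp_left _ _ _).symm⟩
    · by_cases h2 : i = t
      · subst h2; exact ⟨s, hs, (swp_right (Ne.symm h1) _).symm⟩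
      · exact ⟨i, hi, (swp_ne h1 h2 _).symm⟩
  · rintro ⟨i, hi, rfl⟩
    by_cases h1 : i = s
    · subst h1
      by_cases h2 : i = t
      · subst h2; exact ⟨i, hi, swp_left _ _ _⟩
      · exact ⟨t, ht, swp_right h2 _⟩
    · by_cases h2 : i = t
      · subst h2; exact ⟨s, hs, swp_left _ _ _⟩
      · exact ⟨i, hi, swp_ne h1 h2 _⟩

lemma swp_inj {s t N : ℕ} (hs : s ≤ N) (ht : t ≤ N) {e : ℕ → ℕ}
    (he : ∀ i ≤ N, ∀ j ≤ N, e i = e j → i = j) :
    ∀ i ≤ N, ∀ j ≤ N, swp s t e i = swp s t e j → i = j := by
  intro i hi j hj hij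
  unfold swp at hij
  split_ifs at hij with h1 h2 h3 h4 h5 h6 h7 h8
  all_goals first
    | omega
    | (have := he _ (by omega) _ (by omega) hij; omega)

lemma swp_le {s t N B : ℕ} (hs : s ≤ N) (ht : t ≤ N) {e : ℕ → ℕ}
    (he : ∀ i ≤ N, e i ≤ B) : ∀ i ≤ N, swp s t e i ≤ B := by
  intro i hi
  unfold swp
  split_ifs
  · exact he _ ht
  · exact he _ hs
  · exact he _ hi

/-- swap of the first two positions -/
lemma AdmOrd.swapFirst {E : Set V} {y : ℕ → V} {k N : ℕ} {e : ℕ → ℕ} {z : ℕ → V}
    (hy : FanPath E y k) (h : AdmOrd E y k N e z) (hN : 1 ≤ N) :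
    AdmOrd E y k N (swp 0 1 e) (fun i => if i = 0 then rim y k (e 1) else z i) := by
  classical
  refine ⟨swp_le (by omega) hN h.le, swp_inj (by omega) hN h.inj, ?_, ?_⟩
  · intro i hi
    by_cases h0 : i = 0
    · simp only [h0, if_true]; exact rim_mem hy (h.le 1 hN)
    · simp only [h0, if_false]; exact h.mem i hi
  · intro i hi
    rw [swp_image (by omega) (by omega)]
    by_cases h0 : i = 0
    · subst h0
      simp only [if_true, zero_add, Finset.sum_range_one]
      rw [swp_left, ZModModule.add_self]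
      exact zero_mem _
    · simp only [h0, if_false]
      have h1 : ∑ t ∈ range (i + 1), rim y k (swp 0 1 e t) =
          ∑ t ∈ range (i + 1), rim y k (e t) := by
        obtain ⟨j, rfl⟩ : ∃ j, i = j + 1 := ⟨i - 1, by omega⟩
        rw [Finset.sum_range_succ' _ (j + 1), Finset.sum_range_succ' _ (j + 1),
          Finset.sum_range_succ' _ j, Finset.sum_range_succ' _ j]
        have h2 : ∑ t ∈ range j, rim y k (swp 0 1 e (t + 1 + 1)) =
            ∑ t ∈ range j, rim y k (e (t + 1 + 1)) := by
          refine Finset.sum_congr rfl fun t _ => ?_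
          rw [swp_ne (by omega) (by omega)]
        rw [h2, zero_add, swp_left, swp_right (by omega)]
        abel
      rw [h1]
      exact h.sum i hi

/-- swap of the last two positions -/
lemma AdmOrd.swapLast {E : Set V} {y : ℕ → V} {k N : ℕ} {e : ℕ → ℕ} {z : ℕ → V}
    (hy : FanPath E y k) (h : AdmOrd E y k (N + 1) e z) :
    AdmOrd E y k (N + 1) (swp N (N + 1) e) (fun i => if i = N then rim y k (e N) else z i) := by
  classical
  refine ⟨swp_le (by omega) le_rfl h.le, swp_inj (by omega) le_rfl h.inj, ?_, ?_⟩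
  · intro i hi
    by_cases h0 : i = N
    · simp only [h0, if_true]; exact rim_mem hy (h.le N (by omega))
    · simp only [h0, if_false]; exact h.mem i hi
  · intro i hi
    rw [swp_image (by omega) (by omega)]
    have h3 : ∀ n ≤ N, ∑ t ∈ range n, rim y k (swp N (N + 1) e t) =
        ∑ t ∈ range n, rim y k (e t) := by
      intro n hn
      refine Finset.sum_congr rfl fun t ht => ?_
      rw [Finset.mem_range] at ht
      rw [swp_ne (by omega) (by omega)]
    by_cases h0 : i = N
    · subst h0
      simp only [if_true]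
      rw [Finset.sum_range_succ, h3 i le_rfl, swp_left]
      have h1 := h.total
      rw [Finset.sum_range_succ, Finset.sum_range_succ] at h1
      have h2 : rim y k (e i) + (∑ t ∈ range i, rim y k (e t) + rim y k (e (i + 1))) =
          ∑ t ∈ range i, rim y k (e t) + rim y k (e i) + rim y k (e (i + 1)) := by abel
      rw [h2]
      exact h1
    · simp only [h0, if_false]
      rw [h3 (i + 1) (by omega)]
      exact h.sum i hi

/-- Coordinates of the elements outside the fan path. -/
structure Coord (E : Set V) (y : ℕ → V) (k : ℕ) (C : Finset V)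
    (Φ : V →ₗ[ZMod 2] (ℕ → ZMod 2)) : Prop where
  fan : FanPath E y k
  sub : ∀ x ∈ C, x ∈ E
  out : ∀ x ∈ C, x ∉ span (ZMod 2) (Set.range fun i : Fin (k + 1) => y i)
  add : ∀ x ∈ C, ∀ x' ∈ C, x + x' ∈ span (ZMod 2) (Set.range fun i : Fin (k + 1) => y i)
  phi : ∀ p ≤ k, Φ (y p) = fun q => if q ≤ p then 1 else 0

variable {E : Set V} {y : ℕ → V} {k : ℕ} {C : Finset V} {Φ : V →ₗ[ZMod 2] (ℕ → ZMod 2)}

lemma Coord.last (h : Coord E y k C Φ) {u : V}
    (hu : u ∈ span (ZMod 2) (Set.range fun i : Fin (k + 1) => y i)) : Φ u (k + 1) = 0 := by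
  induction hu using span_induction with
  | mem v hv =>
    obtain ⟨i, rfl⟩ := hv
    have hi := i.2
    simp only
    rw [h.phi i (by omega)]
    beta_reduce
    rw [if_neg (by omega)]
  | zero => simp
  | add u w _ _ h1 h2 => rw [map_add, Pi.add_apply, h1, h2, add_zero]
  | smul s u _ h1 => rw [map_smul, Pi.smul_apply, h1, smul_zero]

/-- the difference of two elements modulo the contracted part of the circuit -/
lemma Coord.diff (h : Coord E y k C Φ) {x w : V} (hx : x ∈ C) (hw : w ∈ C) {N : ℕ} {e : ℕ → ℕ}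
    (hle : ∀ i ≤ N, e i ≤ k + 1) (hinj : ∀ i ≤ N, ∀ j ≤ N, e i = e j → i = j) (c : ZMod 2)
    (δ : ℕ → ZMod 2) (hδ : ∀ i ≤ N, Φ x (e i) + Φ w (e i) = c + δ i) :
    x + w + ∑ i ∈ range (N + 1), δ i • rim y k (e i) ∈
      span (ZMod 2) (Cset y k ((range (N + 1)).image e)) := by
  classical
  have e1 := rim_coordinates h.phi (h.add x hx w hw)
  have e2 : x + w = ∑ q ∈ range (k + 2), (Φ (x + w) q + c) • rim y k q := by
    have e3 : ∑ q ∈ range (k + 2), (Φ (x + w) q + c) • rim y k q =
        ∑ q ∈ range (k + 2), Φ (x + w) q • rim y k q +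
        c • ∑ q ∈ range (k + 2), rim y k q := by
      rw [Finset.smul_sum, ← Finset.sum_add_distrib]
      exact Finset.sum_congr rfl fun q _ => add_smul _ _ _
    rw [e3, sum_rim, smul_zero, add_zero, Finset.sum_range_succ,
      h.last (h.add x hx w hw), zero_smul, add_zero]
    exact e1
  have e4 : (range (N + 1)).image e ⊆ range (k + 2) := by
    intro q hq
    obtain ⟨i, hi, rfl⟩ := Finset.mem_image.1 hq
    rw [Finset.mem_range] at hi ⊢
    have := hle i (by omega)
    omega
  have e5 := Finset.sum_sdiff (f := fun q => (Φ (x + w) q + c) • rim y k q) e4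
  rw [← e2] at e5
  have e6 : ∑ q ∈ (range (N + 1)).image e, (Φ (x + w) q + c) • rim y k q =
      ∑ i ∈ range (N + 1), δ i • rim y k (e i) := by
    rw [Finset.sum_image]
    · refine Finset.sum_congr rfl fun i hi => ?_
      rw [Finset.mem_range] at hi
      have e7 : Φ (x + w) (e i) + c = δ i := by
        rw [map_add, Pi.add_apply, hδ i (by omega)]
        have key : ∀ c d : ZMod 2, c + d + c = d := by decide
        exact key _ _
      rw [e7]
    · intro i hi j hj hij
      simp only [Finset.coe_range, Set.mem_Iio] at hi hj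
      exact hinj i (by omega) j (by omega) hij
  rw [e6] at e5
  have e8 : x + w + ∑ i ∈ range (N + 1), δ i • rim y k (e i) =
      ∑ q ∈ range (k + 2) \ (range (N + 1)).image e, (Φ (x + w) q + c) • rim y k q := by
    set A := ∑ i ∈ range (N + 1), δ i • rim y k (e i)
    set S := ∑ q ∈ range (k + 2) \ (range (N + 1)).image e, (Φ (x + w) q + c) • rim y k q
    calc x + w + A = (S + A) + A := by rw [e5]
      _ = S := by rw [add_assoc, ZModModule.add_self, add_zero]
  rw [e8]
  refine sum_mem fun q hq => smul_mem _ _ (subset_span ⟨q, ?_, ?_, rfl⟩)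
  · have := Finset.mem_range.1 (Finset.mem_sdiff.1 hq).1; omega
  · exact (Finset.mem_sdiff.1 hq).2

/-- The star wheel from coordinates: along an admissible order `g` differs from `x` at the first
position only and `h` at the last position only. -/
theorem Coord.star (hc : Coord E y k C Φ) {a : ℕ} {e : ℕ → ℕ} {z : ℕ → V}
    (hA : AdmOrd E y k (a + 1) e z) {x g h : V} (hx : x ∈ C) (hg : g ∈ C) (hh : h ∈ C)
    (c d : ZMod 2) (h1 : ∀ i ≤ a + 1, Φ x (e i) + Φ g (e i) = c + if i = 0 then 1 else 0)
    (h2 : ∀ i ≤ a + 1, Φ x (e i) + Φ h (e i) = d + if i = a + 1 then 1 else 0) :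
    HasWheel (a + 1) E := by
  have k1 := hc.diff hx hg hA.le hA.inj c (fun i => if i = 0 then 1 else 0) h1
  have k2 := hc.diff hx hh hA.le hA.inj d (fun i => if i = a + 1 then 1 else 0) h2
  simp only [ite_smul, one_smul, zero_smul, Finset.sum_ite_eq', Finset.mem_range] at k1 k2
  rw [if_pos (by omega)] at k1 k2
  exact star_wheel hc.fan hA (hc.sub x hx) (hc.sub g hg) (hc.sub h hh) (hc.out x hx) k1 k2

/-- The pair wheel from coordinates: along an admissible order `g` differs from `x` exactly at
the first and at the last position. -/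
theorem Coord.pair (hc : Coord E y k C Φ) {a : ℕ} {e : ℕ → ℕ} {z : ℕ → V}
    (hA : AdmOrd E y k (a + 2) e z) {x g : V} (hx : x ∈ C) (hg : g ∈ C) (c : ZMod 2)
    (h1 : ∀ i ≤ a + 2, Φ x (e i) + Φ g (e i) =
      c + ((if i = 0 then 1 else 0) + if i = a + 2 then 1 else 0)) :
    HasWheel (a + 1) E := by
  have k1 := hc.diff hx hg hA.le hA.inj c
    (fun i => (if i = 0 then 1 else 0) + if i = a + 2 then 1 else 0) h1
  simp only [add_smul, Finset.sum_add_distrib, ite_smul, one_smul, zero_smul,
    Finset.sum_ite_eq', Finset.mem_range] at k1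
  rw [if_pos (by omega), if_pos (by omega)] at k1
  exact pair_wheel hc.fan hA (hc.sub x hx) (hc.sub g hg) (hc.out x hx) k1

/-- enumeration of a finite set of positions -/
lemma exists_enum_lt (M : Finset ℕ) : ∃ f : ℕ → ℕ, (∀ i j, i < j → j < M.card → f i < f j) ∧
    ∀ i < M.card, f i ∈ M := by
  refine ⟨fun i => if h : i < M.card then M.orderEmbOfFin rfl ⟨i, h⟩ else 0, ?_, ?_⟩
  · intro i j hij hj
    beta_reduce
    rw [dif_pos (hij.trans hj), dif_pos hj]
    exact (M.orderEmbOfFin rfl).strictMono (by rw [Fin.lt_def]; exact hij)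
  · intro i hi
    beta_reduce
    rw [dif_pos hi]
    exact Finset.orderEmbOfFin_mem M rfl ⟨i, hi⟩

end

end Pool.Agent.Lib.P68998g
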