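import Pool.Agent.Lib.P68998g.Glue
import Pool.Agent.Lib.P68998g.Pats

/-!
The elements outside a fan path which spans a hyperplane satisfy the predicate `Pair`.
-/

namespace Pool.Agent.Lib.P68998g

open Submodule Finset Pool.Agent.Lib.P68998c Pool.Agent.Lib.P68998f

universe u

section

variable {V : Type u} [AddCommGroup V] [Module (ZMod 2) V]

/-- the last coordinate vanishes on the span -/
lemma last_coordinate {y : ℕ → V} {k : ℕ} {Φ : V →ₗ[ZMod 2] (ℕ → ZMod 2)}
    (hΦy : ∀ p ≤ k, Φ (y p) = fun q => if q ≤ p then 1 else 0) :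
    ∀ u ∈ span (ZMod 2) (Set.range fun i : Fin (k + 1) => y i), Φ u (k + 1) = 0 := by
  intro u hu
  induction hu using span_induction with
  | mem v hv =>
    obtain ⟨i, rfl⟩ := hv
    have hi := i.2
    simp only
    rw [hΦy i (by omega)]
    beta_reduce
    rw [if_neg (by omega)]
  | zero => simp
  | add u w _ _ h1 h2 => rw [map_add, Pi.add_apply, h1, h2, add_zero]
  | smul s u _ h1 => rw [map_smul, Pi.smul_apply, h1, smul_zero]

/-- coordinates in the outer circuit, up to a constant -/
lemma rim_coordinates_const {y : ℕ → V} {k : ℕ} {Φ : V →ₗ[ZMod 2] (ℕ → ZMod 2)}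
    (hΦy : ∀ p ≤ k, Φ (y p) = fun q => if q ≤ p then 1 else 0) {u : V}
    (hu : u ∈ span (ZMod 2) (Set.range fun i : Fin (k + 1) => y i)) (c : ZMod 2) :
    u = ∑ q ∈ range (k + 2), (Φ u q + c) • rim y k q := by
  have e3 : ∑ q ∈ range (k + 2), (Φ u q + c) • rim y k q =
      ∑ q ∈ range (k + 2), Φ u q • rim y k q + c • ∑ q ∈ range (k + 2), rim y k q := by
    rw [Finset.smul_sum, ← Finset.sum_add_distrib]
    exact Finset.sum_congr rfl fun q _ => add_smul _ _ _
  rw [e3, sum_rim, smul_zero, add_zero, Finset.sum_range_succ, last_coordinate hΦy u hu,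
    zero_smul, add_zero]
  exact rim_coordinates hΦy hu

theorem pair_holds {a : ℕ} {E : Finset V} (hW : ¬ HasWheel (a + 1) (E : Set V)) {k : ℕ}
    {y : ℕ → V} (hy : FanPath (E : Set V) y k) (C : Finset V) (hC : C ⊆ E)
    (hCy : ∀ x ∈ C, x ∉ span (ZMod 2) (Set.range fun i : Fin (k + 1) => y i))
    (hCC : ∀ x ∈ C, ∀ x' ∈ C, x + x' ∈ span (ZMod 2) (Set.range fun i : Fin (k + 1) => y i))
    {Φ : V →ₗ[ZMod 2] (ℕ → ZMod 2)}
    (hΦy : ∀ p ≤ k, Φ (y p) = fun q => if q ≤ p then 1 else 0) :
    Pair a (k + 1) C (fun x : V => Φ x) := by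
  classical
  intro p p' M hp' hM hMp x hx w hw m₀ hm₀ hxw h1 h2
  have hm₀' := hMp m₀ hm₀
  set D : ℕ → ZMod 2 := fun q => Φ (x + w) q + (Φ (x + w) m₀ + 1) with hD
  have hval : ∀ q, Φ (x + w) q + Φ (x + w) m₀ = (Φ x q + Φ x m₀) + (Φ w q + Φ w m₀) := by
    intro q
    rw [map_add, Pi.add_apply, Pi.add_apply]
    abel
  have hDM : ∀ m ∈ M, D m = 1 := by
    intro m hm
    rw [hD]
    beta_reduce
    rw [← add_assoc, hval, hxw m hm, ZModModule.add_self, zero_add]
  have hD0 : ∀ q, Φ x q + Φ x m₀ ≠ Φ w q + Φ w m₀ → D q = 0 := by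
    intro q hq
    rw [hD]
    beta_reduce
    rw [← add_assoc, hval, Z_ne hq]
    decide
  have hDp := hD0 p h1
  have hDp' := hD0 p' h2
  have hsum : x + w = ∑ q ∈ range (k + 2), D q • rim y k q :=
    rim_coordinates_const hΦy (hCC x hx w hw) _
  -- the contracted elements
  set C₀ : Set V := insert x {v | ∃ q, q ≤ k + 1 ∧ (q < p ∨ p' < q) ∧ rim y k q = v} with hC₀
  have hrest : ∀ q, q ≤ k + 1 → (q < p ∨ p' < q) → rim y k q ∈ span (ZMod 2) C₀ :=
    fun q hq1 hq2 => subset_span (Or.inr ⟨q, hq1, hq2, rfl⟩)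
  set T : Finset ℕ := (range (p' - 1 - p)).filter (fun q => D (p + q + 1) = 1) with hT
  refine hW (wheel_of_path (m := a + 1) (y := fun i => y (p + i)) (k := p' - 1 - p) C₀ ?_ ?_ ?_ ?_
    T (Finset.filter_subset _ _) ?_ w (hC hw) ?_)
  · rintro v (rfl | ⟨q, hq, -, rfl⟩)
    · exact hC hx
    · exact rim_mem hy hq
  · intro i hi
    exact hy.1 _ (by omega)
  · intro i hi
    have := hy.2.1 (p + i) (by omega)
    rwa [← add_assoc p i 1]
  · intro f
    obtain ⟨φ, hφx, hφy⟩ := exists_map' hy.2.2 (hCy x hx) (0 : Fin (a + 1 + 1) → ZMod 2)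
      (fun j => if j < p then 0 else if j < p' then f (j - p) else 0)
    have hφ0 : ∀ j, j ≤ k → (j < p ∨ p' ≤ j) → φ (y j) = 0 := by
      intro j hj hj2
      rw [hφy j hj]
      rcases hj2 with h | h
      · rw [if_pos h]
      · rw [if_neg (by omega), if_neg (by omega)]
    refine ⟨φ, ?_, ?_⟩
    · rintro v (rfl | ⟨q, hq, hq2, rfl⟩)
      · exact hφx
      · rcases Nat.eq_zero_or_pos q with rfl | h
        · rw [rim_zero]
          exact hφ0 0 (by omega) (by omega)
        · rcases Nat.lt_or_ge k q with h3 | h3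
          · have : q = k + 1 := by omega
            subst this
            rw [rim_last]
            exact hφ0 k le_rfl (by omega)
          · obtain ⟨q, rfl⟩ : ∃ q', q = q' + 1 := ⟨q - 1, by omega⟩
            rw [rim_mid y h3, map_add, hφ0 q (by omega) (by omega), hφ0 (q + 1) h3 (by omega),
              add_zero]
    · intro i hi
      rw [hφy (p + i) (by omega), if_neg (by omega), if_pos (by omega), Nat.add_sub_cancel_left]
  · refine hM.trans ?_
    refine Finset.card_le_card_of_injOn (fun m => m - p - 1) ?_ ?_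
    · intro m hm
      have h3 := hMp m hm
      have h4 : p + (m - p - 1) + 1 = m := by omega
      have h5 : m - p - 1 ∈ T := by
        rw [hT, Finset.mem_filter, Finset.mem_range, h4]
        exact ⟨by omega, hDM m hm⟩
      exact h5
    · intro m hm m' hm' hmm
      have h3 := hMp m hm
      have h4 := hMp m' hm'
      simp only at hmm
      omega
  · -- the sum
    have e1 : ∑ q ∈ T, (y (p + q) + y (p + (q + 1))) =
        ∑ q ∈ Finset.Ioo p p', D q • rim y k q := by
      rw [hT, Finset.sum_filter]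
      have e2 : Finset.Ioo p p' = (range (p' - 1 - p)).image (fun q => p + q + 1) := by
        ext q
        simp only [Finset.mem_Ioo, Finset.mem_image, Finset.mem_range]
        constructor
        · rintro ⟨h3, h4⟩
          exact ⟨q - p - 1, by omega, by omega⟩
        · rintro ⟨r, h3, rfl⟩
          omega
      rw [e2, Finset.sum_image (fun r _ s _ h => by omega)]
      refine Finset.sum_congr rfl fun q hq => ?_
      rw [Finset.mem_range] at hq
      rcases z2_cases (D (p + q + 1)) with h3 | h3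
      · rw [h3, if_neg (by decide), zero_smul]
      · rw [h3, if_pos rfl, one_smul, rim_mid y (by omega), ← add_assoc p q 1]
    have e3 : ∑ q ∈ range (k + 2), D q • rim y k q = ∑ q ∈ Finset.Ioo p p', D q • rim y k q +
        ∑ q ∈ range (k + 2) \ Finset.Ioo p p', D q • rim y k q := by
      have hsub : Finset.Ioo p p' ⊆ range (k + 2) := by
        intro q hq
        rw [Finset.mem_Ioo] at hq
        rw [Finset.mem_range]
        omega
      exact (Finset.sum_sdiff hsub).symm.trans (add_comm _ _)
    have e4 : ∑ q ∈ range (k + 2) \ Finset.Ioo p p', D q • rim y k q ∈ span (ZMod 2) C₀ := by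
      refine sum_mem fun q hq => ?_
      rw [Finset.mem_sdiff, Finset.mem_range, Finset.mem_Ioo] at hq
      by_cases hqp : q = p
      · rw [hqp, hDp, zero_smul]; exact zero_mem _
      · by_cases hqp' : q = p'
        · rw [hqp', hDp', zero_smul]; exact zero_mem _
        · exact smul_mem _ _ (hrest q (by omega) (by omega))
    rw [e1]
    have e5 : w + ∑ q ∈ Finset.Ioo p p', D q • rim y k q =
        x + ∑ q ∈ range (k + 2) \ Finset.Ioo p p', D q • rim y k q := by
      have e6 := hsum.trans e3
      set S := ∑ q ∈ Finset.Ioo p p', D q • rim y k q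
      set R := ∑ q ∈ range (k + 2) \ Finset.Ioo p p', D q • rim y k q
      have e7 : R = S + (x + w) := by
        rw [e6, ← add_assoc, ZModModule.add_self, zero_add]
      rw [e7]
      have e8 : x + (S + (x + w)) = (x + x) + (w + S) := by abel
      rw [e8, ZModModule.add_self, zero_add]
    rw [e5]
    exact add_mem (subset_span (Or.inl rfl)) e4

end

end Pool.Agent.Lib.P68998g
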