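import Pool.Agent.Lib.P68998g.MFan
import Pool.Agent.Lib.P68998g.PairWheel
import Pool.Agent.Lib.P68998g.PatsL

/-!
The elements outside a fan path which spans a hyperplane satisfy the predicates `StarBL`, and the
pattern with an additional position at both ends.
-/

namespace Pool.Agent.Lib.P68998g

open Submodule Finset Pool.Agent.Lib.P68998c Pool.Agent.Lib.P68998f

universe u

section

variable {V : Type u} [AddCommGroup V] [Module (ZMod 2) V]

/-- Two elements which differ, among the positions of `Y`, at `r` only. -/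
lemma add_add_rim_mem {y : ℕ → V} {k : ℕ} {Φ : V →ₗ[ZMod 2] (ℕ → ZMod 2)}
    (hΦy : ∀ p ≤ k, Φ (y p) = fun q => if q ≤ p then 1 else 0) {x w : V}
    (hxw : x + w ∈ span (ZMod 2) (Set.range fun i : Fin (k + 1) => y i)) {Y : Finset ℕ}
    {r b : ℕ} (hr : r ≤ k + 1) (hne : Φ x r + Φ x b ≠ Φ w r + Φ w b)
    (heq : ∀ q ∈ Y, q ≠ r → Φ x q + Φ x b = Φ w q + Φ w b) :
    x + w + rim y k r ∈ span (ZMod 2) (Cset y k Y) := by
  have hval : ∀ q, Φ (x + w) q + Φ (x + w) b = (Φ x q + Φ x b) + (Φ w q + Φ w b) := by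
    intro q
    rw [map_add, Pi.add_apply, Pi.add_apply]
    abel
  have e2 := rim_coordinates_const hΦy hxw (Φ (x + w) b)
  have e4 : Φ (x + w) r + Φ (x + w) b = 1 := by
    rw [hval]
    exact Z_ne hne
  have e6 : x + w + rim y k r =
      ∑ q ∈ (range (k + 2)).erase r, (Φ (x + w) q + Φ (x + w) b) • rim y k q := by
    have hrr : r ∈ range (k + 2) := Finset.mem_range.2 (by omega)
    conv_lhs => rw [e2]
    rw [← Finset.add_sum_erase _ _ hrr, e4, one_smul]
    rw [add_comm (rim y k r), add_assoc, ZModModule.add_self, add_zero]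
  rw [e6]
  refine sum_mem fun q hq => ?_
  rw [Finset.mem_erase, Finset.mem_range] at hq
  by_cases hqY : q ∈ Y
  · have e8 : Φ (x + w) q + Φ (x + w) b = 0 := by
      rw [hval, heq q hqY hq.1, ZModModule.add_self]
    rw [e8, zero_smul]
    exact zero_mem _
  · exact smul_mem _ _ (subset_span ⟨q, by omega, hqY, rfl⟩)

/-- an increasing enumeration of the elements of a finite set -/
lemma exists_enum (M : Finset ℕ) : ∃ μ : ℕ → ℕ, (∀ i < M.card, μ i ∈ M) ∧
    ∀ i j, i < j → j < M.card → μ i < μ j := by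
  refine ⟨fun i => if h : i < M.card then M.orderEmbOfFin rfl ⟨i, h⟩ else 0, ?_, ?_⟩
  · intro i hi
    simp only [hi, dif_pos]
    exact Finset.orderEmbOfFin_mem _ _ _
  · intro i j hij hj
    have hi : i < M.card := hij.trans hj
    simp only [hi, hj, dif_pos]
    exact (M.orderEmbOfFin rfl).strictMono (by exact hij)

/-- The mirror image of `starB_holds`. -/
theorem starBL_holds {a : ℕ} (ha : 1 ≤ a) {E : Finset V}
    (hW : ¬ HasWheel (a + 1) (E : Set V)) {k : ℕ}
    {y : ℕ → V} (hy : FanPath (E : Set V) y k) (C : Finset V) (hC : C ⊆ E)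
    (hCy : ∀ x ∈ C, x ∉ span (ZMod 2) (Set.range fun i : Fin (k + 1) => y i))
    (hCC : ∀ x ∈ C, ∀ x' ∈ C, x + x' ∈ span (ZMod 2) (Set.range fun i : Fin (k + 1) => y i))
    {Φ : V →ₗ[ZMod 2] (ℕ → ZMod 2)}
    (hΦy : ∀ p ≤ k, Φ (y p) = fun q => if q ≤ p then 1 else 0) :
    StarBL a (k + 1) C (fun x : V => Φ x) := by
  classical
  intro s p p' M hsp hpp hp' hM hMp x hx g hg h hh hxg hxh h1 h2 h3 h4
  obtain ⟨b, rfl⟩ : ∃ b, a = b + 1 := ⟨a - 1, by omega⟩
  obtain ⟨M', hM'M, hM'⟩ := Finset.exists_subset_card_eq (s := M) (n := b) (by omega)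
  obtain ⟨μ, hμ, hμ'⟩ := exists_enum M'
  rw [hM'] at hμ hμ'
  have hμp : ∀ i < b, p < μ i ∧ μ i < p' := fun i hi => hMp _ (hM'M (hμ i hi))
  set q : ℕ → ℕ := fun i => if i = 0 then s else if i = 1 then p else
    if i < b + 2 then μ (i - 2) else p' with hq
  have hq0 : q 0 = s := by simp [hq]
  have hq1 : q 1 = p := by simp [hq]
  have hqm : ∀ i, i < b → q (i + 2) = μ i := by
    intro i hi
    simp only [hq]
    rw [if_neg (by omega), if_neg (by omega), if_pos (by omega), Nat.add_sub_cancel]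
  have hqn : q (b + 1 + 1) = p' := by
    simp only [hq]
    rw [if_neg (by omega), if_neg (by omega), if_neg (by omega)]
  have hcases : ∀ i, i ≤ b + 2 → i = 0 ∨ i = 1 ∨ (∃ j, j < b ∧ i = j + 2) ∨ i = b + 1 + 1 := by
    intro i hi
    rcases Nat.lt_or_ge i 2 with h | h
    · omega
    · rcases Nat.lt_or_ge i (b + 2) with h' | h'
      · exact Or.inr (Or.inr (Or.inl ⟨i - 2, by omega, by omega⟩))
      · omega
  have hmono : ∀ i j, i < j → j ≤ b + 1 + 1 → q i < q j := by
    intro i j hij hj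
    rcases hcases i (by omega) with rfl | rfl | ⟨i', hi', rfl⟩ | rfl <;>
      rcases hcases j (by omega) with rfl | rfl | ⟨j', hj', rfl⟩ | rfl
    all_goals first
      | omega
      | skip
    · rw [hq0, hqm _ hj']; have := hμp _ hj'; omega
    · rw [hq1, hqm _ hj']; have := hμp _ hj'; omega
    · rw [hqm _ hi', hqm _ hj']; exact hμ' _ _ (by omega) hj'
    · rw [hqm _ hi', hqn]; have := hμp _ hi'; omega
  have hF := mfan_of_fanPath (n := b + 1) hy (hCy x hx) hmono (by rw [hqn]; exact hp')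
  have hY : ∀ r ∈ (range (b + 1 + 2)).image q, r = s ∨ r = p ∨ r ∈ M ∨ r = p' := by
    intro r hr
    obtain ⟨i, hi, rfl⟩ := Finset.mem_image.1 hr
    rw [Finset.mem_range] at hi
    rcases hcases i (by omega) with rfl | rfl | ⟨j, hj, rfl⟩ | rfl
    · exact Or.inl hq0
    · exact Or.inr (Or.inl hq1)
    · rw [hqm j hj]
      exact Or.inr (Or.inr (Or.inl (hM'M (hμ j hj))))
    · exact Or.inr (Or.inr (Or.inr hqn))
  have k1 : x + g + rim y k p ∈
      span (ZMod 2) (Cset y k ((range (b + 1 + 2)).image q)) := by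
    refine add_add_rim_mem hΦy (hCC x hx g hg) (by omega) h1 ?_
    intro r hr hrp
    rcases hY r hr with rfl | rfl | hr | rfl
    · rw [ZModModule.add_self, ZModModule.add_self]
    · exact absurd rfl hrp
    · exact hxg r hr
    · exact h2
  have k2 : x + h + rim y k p' ∈
      span (ZMod 2) (Cset y k ((range (b + 1 + 2)).image q)) := by
    refine add_add_rim_mem hΦy (hCC x hx h hh) hp' h4 ?_
    intro r hr hrp
    rcases hY r hr with rfl | rfl | hr | rfl
    · rw [ZModModule.add_self, ZModModule.add_self]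
    · exact h3
    · exact hxh r hr
    · exact absurd rfl hrp
  refine hW ((hF.swapLeft (by omega)).wheel (hC hx) (hC hg) (hC hh) ?_ ?_)
  · simp only [if_true, hq1]
    exact k1
  · have e1 : b + 1 + 1 ≠ 0 := by omega
    have e2 : b + 1 + 1 ≠ 1 := by omega
    simp only [e1, e2, if_false, hqn]
    exact k2

end

end Pool.Agent.Lib.P68998g
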