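import Pool.Agent.Lib.P68998g.RankGen
import Pool.Agent.Lib.P68998g.WheelB
import Pool.Agent.Lib.P68998g.CountLt
import Pool.Agent.Lib.P68998g.StarWheelL

/-!
From bounds for families of functions with the properties `Star`, `Pair`, `StarB`, `StarBL` to
bounds for the number of elements outside a fan path which spans a hyperplane.
-/

namespace Pool.Agent.Lib.P68998g

open Submodule Finset Pool.Agent.Lib.P68998c Pool.Agent.Lib.P68998f

universe u

/-- A bound for the number of classes of a family of functions on at most `rho` positions. -/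
def PureR (a rho N : ℕ) : Prop :=
  ∀ (ι : Type u) (F : Finset ι) (v : ι → ℕ → ZMod 2) (L : ℕ), L + 1 ≤ rho →
    Star a L F v → Pair a L F v → StarB a L F v → StarBL a L F v →
    cnt F v (Icc 0 L) ≤ N

/-- A bound for the number of classes of a family of functions. -/
def Pure (a N : ℕ) : Prop :=
  ∀ (ι : Type u) (F : Finset ι) (v : ι → ℕ → ZMod 2) (L : ℕ),
    Star a L F v → Pair a L F v → StarB a L F v → StarBL a L F v →
    cnt F v (Icc 0 L) ≤ N

section

variable {V : Type u} [AddCommGroup V] [Module (ZMod 2) V]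

/-- The number of elements outside a fan path from a bound for the classes. -/
theorem card_le_of_pure {a N : ℕ} (ha : 1 ≤ a) {E : Finset V}
    (hW : ¬ HasWheel (a + 1) (E : Set V)) {k : ℕ} {y : ℕ → V}
    (hy : FanPath (E : Set V) y k) (C : Finset V) (hC : C ⊆ E)
    (hCy : ∀ x ∈ C, x ∉ span (ZMod 2) (Set.range fun i : Fin (k + 1) => y i))
    (hCC : ∀ x ∈ C, ∀ x' ∈ C, x + x' ∈ span (ZMod 2) (Set.range fun i : Fin (k + 1) => y i))
    (hN : C.Nonempty → ∀ v : V → ℕ → ZMod 2, Star a (k + 1) C v → Pair a (k + 1) C v →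
      StarB a (k + 1) C v → StarBL a (k + 1) C v → cnt C v (Icc 0 (k + 1)) ≤ N) :
    C.card ≤ N := by
  classical
  rcases C.eq_empty_or_nonempty with rfl | ⟨x₁, hx₁⟩
  · simp
  obtain ⟨Φ, -, hΦ⟩ := exists_map' hy.2.2 (hCy x₁ hx₁) (0 : ℕ → ZMod 2)
    (fun p q => if q ≤ p then 1 else 0)
  have h := hN ⟨x₁, hx₁⟩ (fun x : V => Φ x) (star_holds hW hy C hC hCy hCC hΦ)
    (pair_holds hW hy C hC hCy hCC hΦ)
    (starB_of_noWheel ha hW hy C hC hCy hCC hΦ (last_coordinate hΦ))
    (starBL_holds ha hW hy C hC hCy hCC hΦ)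
  rwa [cnt_eq_card C hCC hΦ] at h

/-- A fan path with an element outside its span has fewer elements than the rank. -/
lemma path_le_rank [FiniteDimensional (ZMod 2) V] {E : Finset V} {k : ℕ} {y : ℕ → V}
    (hy : FanPath (E : Set V) y k) {x : V} (hx : x ∈ E)
    (hxy : x ∉ span (ZMod 2) (Set.range fun i : Fin (k + 1) => y i)) :
    k + 1 + 1 ≤ Module.finrank (ZMod 2) (span (ZMod 2) (E : Set V)) := by
  set P := span (ZMod 2) (Set.range fun i : Fin (k + 1) => y i) with hP
  have hPr : Module.finrank (ZMod 2) P = k + 1 := by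
    rw [hP, finrank_span_eq_card hy.2.2, Fintype.card_fin]
  have hPE : P ≤ span (ZMod 2) (E : Set V) := by
    rw [hP, span_le]
    rintro _ ⟨i, rfl⟩
    exact subset_span (hy.1 i (by omega))
  have h2 : P < span (ZMod 2) (E : Set V) := by
    rw [lt_iff_le_and_ne]
    refine ⟨hPE, fun h => hxy ?_⟩
    rw [h]
    exact subset_span (Finset.mem_coe.2 hx)
  have h3 := Submodule.finrank_lt_finrank_of_lt h2
  omega

end

theorem outBound_of_pure {a N : ℕ} (ha : 1 ≤ a) (hN : Pure.{u} a N) : OutBound.{u} a N := by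
  intro V _ _ _ E hW k y hy C hC hCy hCC
  exact card_le_of_pure ha hW hy C hC hCy hCC fun _ v h1 h2 h3 h4 => hN V C v (k + 1) h1 h2 h3 h4

theorem outBoundR_of_pure {a rho N : ℕ} (ha : 1 ≤ a) (hN : PureR.{u} a rho N) :
    OutBoundR.{u} a rho N := by
  intro V _ _ _ E hW hr k y hy C hC hCy hCC
  refine card_le_of_pure ha hW hy C hC hCy hCC fun hne v h1 h2 h3 h4 =>
    hN V C v (k + 1) ?_ h1 h2 h3 h4
  obtain ⟨x, hx⟩ := hne
  have := path_le_rank hy (hC hx) (hCy x hx)
  omega

end Pool.Agent.Lib.P68998g
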