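import Pool.Agent.Lib.P68998g.Crit

/-!
Criticality for configurations of bounded rank.
-/

namespace Pool.Agent.Lib.P68998g

open Submodule Finset Pool.Agent.Lib.P68998c Pool.Agent.Lib.P68998f

universe u

/-- **Criticality** for rank at most `rho`. -/
theorem colour_of_smallR (a rho : ℕ) (ha : 1 ≤ a)
    (hS : ∀ (V : Type u) [AddCommGroup V] [Module (ZMod 2) V] [FiniteDimensional (ZMod 2) V]
      (X : Finset V), (0 : V) ∉ X → X.Nonempty → ¬ HasWheel (a + 1) (X : Set V) →
      Module.finrank (ZMod 2) (span (ZMod 2) (X : Set V)) ≤ rho →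
      ∃ f : V →ₗ[ZMod 2] ZMod 2, (X.filter fun x => f x = 1).Nonempty ∧
        (X.filter fun x => f x = 1).card ≤ 2 ^ (a + 1)) (m : ℕ) :
    ∀ (V : Type u) [AddCommGroup V] [Module (ZMod 2) V] [FiniteDimensional (ZMod 2) V]
      (X : Finset V), X.card ≤ m → (0 : V) ∉ X → ¬ HasWheel (a + 1) (X : Set V) →
      Module.finrank (ZMod 2) (span (ZMod 2) (X : Set V)) ≤ rho →
      ∃ Φ : Fin (a + 1) → Module.Dual (ZMod 2) V, ∀ x ∈ X, ∃ j, Φ j x ≠ 0 := by
  classical
  induction m with
  | zero =>
    intro V _ _ _ X hm h0 hW hr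
    have h1 : X = ∅ := Finset.card_eq_zero.1 (by omega)
    subst h1
    exact ⟨fun _ => 0, fun x hx => absurd hx (Finset.notMem_empty x)⟩
  | succ m ih =>
    intro V _ _ _ X hm h0 hW hr
    rcases X.eq_empty_or_nonempty with rfl | hX
    · exact ⟨fun _ => 0, fun x hx => absurd hx (Finset.notMem_empty x)⟩
    obtain ⟨f, hf1, hf2⟩ := hS V X h0 hX hW hr
    set X₀ := X.filter fun x => f x = 0 with hX₀
    set C := X.filter fun x => f x = 1 with hC
    have hsub : X₀ ⊂ X := by
      rw [hX₀, Finset.filter_ssubset]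
      obtain ⟨x, hx⟩ := hf1
      rw [hC, Finset.mem_filter] at hx
      refine ⟨x, hx.1, ?_⟩
      rw [hx.2]
      exact one_ne_zero
    have hcard₀ : X₀.card ≤ m := by
      have := Finset.card_lt_card hsub
      omega
    have hr₀ : Module.finrank (ZMod 2) (span (ZMod 2) (X₀ : Set V)) ≤ rho :=
      le_trans (Submodule.finrank_mono (span_mono (by exact_mod_cast hsub.1))) hr
    -- it is enough to colour the hyperplane so that a value is missing on `C`
    obtain ⟨Φ', hΦ', hlt⟩ : ∃ Φ' : Fin (a + 1) → Module.Dual (ZMod 2) V,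
        (∀ x ∈ X₀, ∃ j, Φ' j x ≠ 0) ∧
        (C.image fun x => fun j => Φ' j x).card < 2 ^ (a + 1) := by
      rcases lt_or_ge C.card (2 ^ (a + 1)) with hlt | hge
      · obtain ⟨Φ', hΦ'⟩ := ih V X₀ hcard₀ (fun h => h0 (hsub.1 h))
          (fun h => hW (h.mono (by exact_mod_cast hsub.1))) hr₀
        exact ⟨Φ', hΦ', lt_of_le_of_lt Finset.card_image_le hlt⟩
      · obtain ⟨c, hc, c', hc', hne, hgap⟩ := exists_gap ha hW f hge
        have hc2 := Finset.mem_filter.1 hc
        have hc2' := Finset.mem_filter.1 hc'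
        set π₁ := (span (ZMod 2) {c}).mkQ with hπ₁
        set π₂ := (span (ZMod 2) {π₁ c'}).mkQ with hπ₂
        have hk1 : π₁ c = 0 := by
          rw [hπ₁, mkQ_apply, Quotient.mk_eq_zero]; exact mem_span_singleton_self c
        have hker2 : ∀ w, π₂ w = 0 ↔ w ∈ span (ZMod 2) {π₁ c'} := fun w =>
          Quotient.mk_eq_zero (span (ZMod 2) {π₁ c'})
        have hk2 : π₂ (π₁ c') = 0 := (hker2 _).2 (mem_span_singleton_self _)
        set X₂ := X₀.image fun x => π₂ (π₁ x) with hX₂
        have hW₂ : ¬ HasWheel (a + 1) (X₂ : Set ((V ⧸ span (ZMod 2) {c}) ⧸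
            span (ZMod 2) {π₁ c'})) := by
          intro h
          refine hW (hasWheel_of_quotient (e := c) (Finset.mem_coe.2 hc2.1) (subset_refl _)
            (hasWheel_of_quotient (e := π₁ c') (Set.mem_image_of_mem _ (Finset.mem_coe.2 hc2'.1))
              ?_ h))
          intro w hw
          rw [Finset.mem_coe, hX₂, Finset.mem_image] at hw
          obtain ⟨x, hx, rfl⟩ := hw
          exact ⟨π₁ x, ⟨x, Finset.mem_coe.2 (hsub.1 hx), rfl⟩, rfl⟩
        have h0₂ : (0 : (V ⧸ span (ZMod 2) {c}) ⧸ span (ZMod 2) {π₁ c'}) ∉ X₂ := by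
          intro h
          rw [hX₂, Finset.mem_image] at h
          obtain ⟨x, hx, hx0⟩ := h
          rw [hX₀, Finset.mem_filter] at hx
          obtain ⟨t, ht⟩ := mem_span_singleton.1 ((hker2 _).1 hx0)
          have h1 : x - t • c' ∈ span (ZMod 2) {c} := by
            rw [← Quotient.mk_eq_zero, ← mkQ_apply, map_sub, map_smul, ← hπ₁, ht, sub_self]
          rw [mem_span_singleton] at h1
          obtain ⟨s, hs⟩ := h1
          have h2 : x = s • c + t • c' := by rw [hs, sub_add_cancel]
          have h3 := hx.2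
          rw [h2, map_add, map_smul, map_smul, hc2.2, hc2'.2, smul_eq_mul, smul_eq_mul, mul_one,
            mul_one] at h3
          rcases zc s with rfl | rfl
          · rw [zero_add] at h3
            subst h3
            rw [zero_smul, zero_smul, add_zero] at h2
            exact h0 (h2 ▸ hx.1)
          · have h4 : t = 1 := by
              revert h3
              rcases zc t with rfl | rfl <;> decide
            subst h4
            rw [one_smul, one_smul] at h2
            exact hgap (h2 ▸ hx.1)
        have hr₂ : Module.finrank (ZMod 2) (span (ZMod 2) (X₂ : Set ((V ⧸ span (ZMod 2) {c}) ⧸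
            span (ZMod 2) {π₁ c'}))) ≤ rho := by
          have h1 : (X₂ : Set ((V ⧸ span (ZMod 2) {c}) ⧸ span (ZMod 2) {π₁ c'})) =
              (π₂.comp π₁) '' (X₀ : Set V) := by
            rw [hX₂, Finset.coe_image]
            rfl
          rw [h1, ← Submodule.map_span]
          exact le_trans (Submodule.finrank_map_le _ _) hr₀
        obtain ⟨Φ₂, hΦ₂⟩ := ih _ X₂ (Finset.card_image_le.trans hcard₀) h0₂ hW₂ hr₂
        refine ⟨fun j => (Φ₂ j).comp (π₂.comp π₁), fun x hx => ?_, ?_⟩
        · exact hΦ₂ _ (Finset.mem_image_of_mem _ hx)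
        · have h1 : (C.image fun x => fun j => ((Φ₂ j).comp (π₂.comp π₁)) x) ⊆
              ((C.erase c).image fun x => fun j => ((Φ₂ j).comp (π₂.comp π₁)) x) := by
            intro w hw
            rw [Finset.mem_image] at hw
            obtain ⟨x, hx, rfl⟩ := hw
            by_cases hxc : x = c
            · subst hxc
              rw [Finset.mem_image]
              refine ⟨c', Finset.mem_erase.2 ⟨Ne.symm hne, hc'⟩, ?_⟩
              funext j
              simp only [LinearMap.comp_apply, hk1, hk2, map_zero]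
            · exact Finset.mem_image_of_mem _ (Finset.mem_erase.2 ⟨hxc, hx⟩)
          refine lt_of_le_of_lt ((Finset.card_le_card h1).trans Finset.card_image_le) ?_
          have h2 := Finset.card_erase_lt_of_mem hc
          exact lt_of_lt_of_le h2 hf2
    have hcard : (C.image fun x => fun j => Φ' j x).card <
        (Finset.univ : Finset (Fin (a + 1) → ZMod 2)).card := by
      rw [Finset.card_univ, Fintype.card_fun, ZMod.card, Fintype.card_fin]
      exact hlt
    obtain ⟨ε, -, hε⟩ := Finset.exists_mem_notMem_of_card_lt_card hcard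
    refine ⟨fun j => Φ' j + ε j • f, fun x hx => ?_⟩
    rcases zc (f x) with h00 | h1
    · obtain ⟨j, hj⟩ := hΦ' x (Finset.mem_filter.2 ⟨hx, h00⟩)
      refine ⟨j, ?_⟩
      rw [LinearMap.add_apply, LinearMap.smul_apply, h00, smul_zero, add_zero]
      exact hj
    · by_contra hcon
      push Not at hcon
      refine hε (Finset.mem_image.2 ⟨x, Finset.mem_filter.2 ⟨hx, h1⟩, funext fun j => ?_⟩)
      have h2 := hcon j
      rw [LinearMap.add_apply, LinearMap.smul_apply, h1, smul_eq_mul, mul_one] at h2
      have h3 : ∀ y z : ZMod 2, y + z = 0 → y = z := by decide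
      exact h3 _ _ h2

end Pool.Agent.Lib.P68998g
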