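import Pool.Agent.Lib.P68998g.RankGen
import Pool.Agent.Lib.P68998g.RankCrit

/-!
Colouring with `a + 1` functionals for configurations of bounded rank.
-/

namespace Pool.Agent.Lib.P68998g

open Submodule Finset Pool.Agent.Lib.P68998c Pool.Agent.Lib.P68998f

universe u

/-- **Colouring** with `a + 1` functionals if, for rank at most `rho`, at most `2 ^ (a + 1)`
elements lie outside a fan path which spans a hyperplane. -/
theorem colour_of_outBoundR (a rho : ℕ) (ha : 1 ≤ a) (hN : OutBoundR.{u} a rho (2 ^ (a + 1)))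
    (V : Type u) [AddCommGroup V] [Module (ZMod 2) V] [FiniteDimensional (ZMod 2) V]
    (X : Finset V) (h0 : (0 : V) ∉ X) (hW : ¬ HasWheel (a + 1) (X : Set V))
    (hr : Module.finrank (ZMod 2) (span (ZMod 2) (X : Set V)) ≤ rho) :
    ∃ Φ : Fin (a + 1) → Module.Dual (ZMod 2) V, ∀ x ∈ X, ∃ j, Φ j x ≠ 0 :=
  colour_of_smallR a rho ha
    (fun V _ _ _ X h0 hX hW hr =>
      small_cocircuit_of_outBoundR a rho (2 ^ (a + 1)) Nat.one_le_two_pow hN V X h0 hX hW hr)
    X.card V X le_rfl h0 hW hr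

end Pool.Agent.Lib.P68998g
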