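import Pool.Agent.Lib.P68998g.Pure
import Pool.Agent.Lib.P68998g.Cell
import Pool.Agent.Lib.P68998g.CritT

/-!
The bound `2 ^ (a + 1)` for rank at most `a + 8`.
-/

namespace Pool.Agent.Lib.P68998g

open Submodule Finset Pool.Agent.Lib.P68998c Pool.Agent.Lib.P68998f

universe u

theorem pureR_cell {a : ℕ} (ha : 1 ≤ a) : PureR.{u} a (a + 8) (2 ^ (a + 1)) := by
  intro ι F v L hL h1 h2 h3 h4
  rcases le_or_gt a 8 with ha8 | ha8
  · have h := cell_bound_all ha ha8 h1 h2 h3 h4 L 0 (by omega)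
    rwa [zero_add] at h
  · rcases le_or_gt L (a + 1) with hLa | hLa
    · have h := cnt_Icc_le (F := F) (v := v) 0 L
      rw [zero_add] at h
      exact h.trans (Nat.pow_le_pow_right (by norm_num) hLa)
    · obtain ⟨i, j, hi, hj, hij⟩ : ∃ i j, i ≤ 3 ∧ j ≤ 3 ∧ L = 0 + i + (a + 1) + j :=
        ⟨min 3 (L - (a + 1)), L - (a + 1) - min 3 (L - (a + 1)), by omega, by omega, by omega⟩
      have h := cell_bound h1 h2 h3 h4 (s := 0) (i := i) (j := j) hi hj (by omega) (by omega)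
      rwa [← hij] at h

/-- **Colouring** with `a + 1` functionals for rank at most `a + 8`. -/
theorem colour_rank (a : ℕ) (ha : 1 ≤ a) (V : Type u) [AddCommGroup V] [Module (ZMod 2) V]
    [FiniteDimensional (ZMod 2) V] (X : Finset V) (h0 : (0 : V) ∉ X)
    (hW : ¬ HasWheel (a + 1) (X : Set V))
    (hr : Module.finrank (ZMod 2) (span (ZMod 2) (X : Set V)) ≤ a + 8) :
    ∃ Φ : Fin (a + 1) → Module.Dual (ZMod 2) V, ∀ x ∈ X, ∃ j, Φ j x ≠ 0 :=
  colour_of_outBoundRT a (a + 1) (a + 8) (2 ^ (a + 1)) ha le_rfl le_rfl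
    (outBoundR_of_pure ha (pureR_cell ha)) V X h0 hW hr

end Pool.Agent.Lib.P68998g
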