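import Pool.Agent.Lib.P68998g.Crit
import Pool.Agent.Lib.P68998g.CountLt
import Pool.Agent.Lib.P68998g.WheelB
import Pool.Agent.Lib.P68998g.StarWheelL
import Pool.Agent.Lib.P68998g.CellB

/-!
Colouring with `a + 1` functionals for `a ≤ 9`.
-/

namespace Pool.Agent.Lib.P68998g

open Submodule Finset Pool.Agent.Lib.P68998c Pool.Agent.Lib.P68998f

universe u

theorem outBound_le (a : ℕ) (ha : 1 ≤ a) (ha9 : a ≤ 9) : OutBound.{u} a (2 ^ (a + 1)) := by
  classical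
  intro V _ _ _ E hW k y hy C hC hCy hCC
  rcases C.eq_empty_or_nonempty with rfl | ⟨x₁, hx₁⟩
  · simp
  obtain ⟨Φ, -, hΦ⟩ := exists_map' hy.2.2 (hCy x₁ hx₁) (0 : ℕ → ZMod 2)
    (fun p q => if q ≤ p then 1 else 0)
  have h := cell_bound_nine ha ha9 (star_holds hW hy C hC hCy hCC hΦ)
    (pair_holds hW hy C hC hCy hCC hΦ)
    (starB_of_noWheel ha hW hy C hC hCy hCC hΦ (last_coordinate hΦ))
    (starBL_holds ha hW hy C hC hCy hCC hΦ) (k + 1) 0 (by omega)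
  rw [zero_add, cnt_eq_card C hCC hΦ] at h
  exact h

/-- **Colouring** with `a + 1` functionals for `a ≤ 9`. -/
theorem colour_small (a : ℕ) (ha : 1 ≤ a) (ha9 : a ≤ 9) (V : Type u)
    [AddCommGroup V] [Module (ZMod 2) V] [FiniteDimensional (ZMod 2) V] (X : Finset V)
    (h0 : (0 : V) ∉ X) (hW : ¬ HasWheel (a + 1) (X : Set V)) :
    ∃ Φ : Fin (a + 1) → Module.Dual (ZMod 2) V, ∀ x ∈ X, ∃ j, Φ j x ≠ 0 :=
  colour_of_outBound a ha (outBound_le a ha ha9) V X h0 hW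

end Pool.Agent.Lib.P68998g
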