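import Pool.Agent.Lib.P68998g.Count

/-!
Families of functions `{0, ..., L} → ZMod 2` modulo constants, in which no function can be changed
at the first and at the last position of a set of `a + 2` positions: they have at most
`(a + 3) * 2 ^ (a - 2)` elements.
-/

namespace Pool.Agent.Lib.P68998g

open Finset

section

variable {ι : Type*}

/-- the class of `v x` on the set `S`, modulo constants -/
def cls (v : ι → ℕ → ZMod 2) (S : Finset ℕ) (x : ι) : ℕ → ℕ → ZMod 2 :=
  fun p q => if p ∈ S ∧ q ∈ S then v x p + v x q else 0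

open Classical in
/-- the number of classes -/
noncomputable def cnt (F : Finset ι) (v : ι → ℕ → ZMod 2) (S : Finset ℕ) : ℕ :=
  (F.image (cls v S)).card

/-- no member can be changed at both ends of a set with `a + 2` positions -/
def Star (a L : ℕ) (F : Finset ι) (v : ι → ℕ → ZMod 2) : Prop :=
  ∀ (p p' : ℕ) (M : Finset ℕ), p' ≤ L → a ≤ M.card → (∀ m ∈ M, p < m ∧ m < p') →
    ∀ x ∈ F, ∀ y ∈ F, ∀ z ∈ F, ∀ m₀ ∈ M,
      (∀ m ∈ M, v x m + v x m₀ = v y m + v y m₀) → (∀ m ∈ M, v x m + v x m₀ = v z m + v z m₀) →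
      v x p + v x m₀ ≠ v y p + v y m₀ → v x p' + v x m₀ = v y p' + v y m₀ →
      v x p + v x m₀ = v z p + v z m₀ → v x p' + v x m₀ ≠ v z p' + v z m₀ → False

variable {F : Finset ι} {v : ι → ℕ → ZMod 2}

lemma cls_eq_iff {S : Finset ℕ} {x y : ι} : cls v S x = cls v S y ↔
    ∀ p ∈ S, ∀ q ∈ S, v x p + v x q = v y p + v y q := by
  constructor
  · intro h p hp q hq
    have h1 := congrFun (congrFun h p) q
    simp only [cls, if_pos (And.intro hp hq)] at h1
    exact h1
  · intro h
    funext p q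
    simp only [cls]
    by_cases hpq : p ∈ S ∧ q ∈ S
    · rw [if_pos hpq, if_pos hpq]; exact h p hpq.1 q hpq.2
    · rw [if_neg hpq, if_neg hpq]

lemma cls_eq_iff_base {S : Finset ℕ} {x y : ι} {b : ℕ} (hb : b ∈ S) :
    cls v S x = cls v S y ↔ ∀ p ∈ S, v x p + v x b = v y p + v y b := by
  rw [cls_eq_iff]
  constructor
  · intro h p hp
    exact h p hp b hb
  · intro h p hp q hq
    have h1 := h p hp
    have h2 := h q hq
    have key : ∀ s t r s' t' r' : ZMod 2, s + r = s' + r' → t + r = t' + r' →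
        s + t = s' + t' := by decide
    exact key _ _ _ _ _ _ h1 h2

lemma cls_insert_iff {S : Finset ℕ} {x y : ι} {b q : ℕ} (hb : b ∈ S) :
    cls v (insert q S) x = cls v (insert q S) y ↔
      cls v S x = cls v S y ∧ v x q + v x b = v y q + v y b := by
  rw [cls_eq_iff_base (Finset.mem_insert_of_mem hb), cls_eq_iff_base hb]
  constructor
  · intro h
    exact ⟨fun p hp => h p (Finset.mem_insert_of_mem hp), h q (Finset.mem_insert_self _ _)⟩
  · rintro ⟨h1, h2⟩ p hp
    rcases Finset.mem_insert.1 hp with rfl | hp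
    · exact h2
    · exact h1 p hp

lemma cnt_singleton_le (i : ℕ) : cnt F v {i} ≤ 1 := by
  classical
  unfold cnt
  rw [Finset.card_le_one]
  intro c hc d hd
  obtain ⟨x, _, rfl⟩ := Finset.mem_image.1 hc
  obtain ⟨y, _, rfl⟩ := Finset.mem_image.1 hd
  rw [cls_eq_iff_base (Finset.mem_singleton_self i)]
  intro p hp
  rw [Finset.mem_singleton.1 hp, CharTwo.add_self_eq_zero, CharTwo.add_self_eq_zero]

lemma cnt_insert_le {S : Finset ℕ} {b q : ℕ} (hb : b ∈ S) :
    cnt F v (insert q S) ≤ 2 * cnt F v S := by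
  classical
  unfold cnt
  have h1 := card_image_le_of_ker F (cls v (insert q S))
    (fun x => (cls v S x, v x q + v x b)) (by
      intro x _ y _ h
      rw [cls_insert_iff hb]
      exact ⟨congrArg Prod.fst h, congrArg Prod.snd h⟩)
  refine h1.trans ?_
  have h2 : (F.image fun x => (cls v S x, v x q + v x b)) ⊆
      (F.image (cls v S)) ×ˢ (Finset.univ : Finset (ZMod 2)) := by
    intro z hz
    obtain ⟨x, hx, rfl⟩ := Finset.mem_image.1 hz
    exact Finset.mem_product.2 ⟨Finset.mem_image_of_mem _ hx, Finset.mem_univ _⟩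
  refine (Finset.card_le_card h2).trans ?_
  rw [Finset.card_product, Finset.card_univ, ZMod.card]
  omega

lemma cnt_Icc_le (i : ℕ) : ∀ l : ℕ, cnt F v (Icc i (i + l)) ≤ 2 ^ l := by
  intro l
  induction l with
  | zero =>
    rw [add_zero, Finset.Icc_self]
    exact cnt_singleton_le i
  | succ l ih =>
    have h1 : Icc i (i + (l + 1)) = insert (i + l + 1) (Icc i (i + l)) := by
      ext q; simp only [Finset.mem_Icc, Finset.mem_insert]; omega
    rw [h1, pow_succ]
    have := cnt_insert_le (F := F) (v := v) (S := Icc i (i + l)) (b := i) (q := i + l + 1)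
      (by simp)
    omega

lemma ne_iff_add_one : ∀ s t : ZMod 2, s ≠ t ↔ s + 1 = t := by decide

theorem step {a L : ℕ} (ha : 1 ≤ a) (hF : Star a L F v) {i l : ℕ} (hil : i + a ≤ l)
    (hl : l + 1 ≤ L) :
    cnt F v (Icc i (l + 1)) + cnt F v (Icc (i + 1) l) ≤
        cnt F v (Icc i l) + cnt F v (Icc (i + 1) (l + 1)) ∧
      2 * cnt F v (Icc i (l + 1)) ≤
        cnt F v (Icc i l) + cnt F v (Icc (i + 1) (l + 1)) + cnt F v (Icc (i + 1) l) := by
  classical
  set I := Icc (i + 1) l with hI
  have hb : l ∈ I := by rw [hI, Finset.mem_Icc]; omega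
  have e1 : Icc i l = insert i I := by
    ext q; rw [hI]; simp only [Finset.mem_Icc, Finset.mem_insert]; omega
  have e2 : Icc (i + 1) (l + 1) = insert (l + 1) I := by
    ext q; rw [hI]; simp only [Finset.mem_Icc, Finset.mem_insert]; omega
  have e3 : Icc i (l + 1) = insert i (insert (l + 1) I) := by
    ext q; rw [hI]; simp only [Finset.mem_Icc, Finset.mem_insert]; omega
  set A : Finset ((ℕ → ℕ → ZMod 2) × (ZMod 2 × ZMod 2)) :=
    F.image fun x => (cls v I x, (v x i + v x l, v x (l + 1) + v x l)) with hA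
  have h0 : (A.image Prod.fst).card = cnt F v I := by
    rw [hA, Finset.image_image]; rfl
  have h1 : (A.image fun z => (z.1, z.2.1)).card = cnt F v (Icc i l) := by
    rw [hA, Finset.image_image, e1]
    unfold cnt
    apply card_image_eq_of_ker
    intro x _ y _
    rw [cls_insert_iff hb]
    simp only [Function.comp_apply, Prod.mk.injEq]
  have h2 : (A.image fun z => (z.1, z.2.2)).card = cnt F v (Icc (i + 1) (l + 1)) := by
    rw [hA, Finset.image_image, e2]
    unfold cnt
    apply card_image_eq_of_ker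
    intro x _ y _
    rw [cls_insert_iff hb]
    simp only [Function.comp_apply, Prod.mk.injEq]
  have h3 : A.card = cnt F v (Icc i (l + 1)) := by
    rw [hA, e3]
    unfold cnt
    apply card_image_eq_of_ker
    intro x _ y _
    rw [cls_insert_iff (Finset.mem_insert_of_mem hb), cls_insert_iff hb]
    simp only [Prod.mk.injEq]
    tauto
  have key := count A (by
    rintro c u w ⟨k1, k2, k3⟩
    obtain ⟨x, hx, hx'⟩ := Finset.mem_image.1 k1
    obtain ⟨y, hy, hy'⟩ := Finset.mem_image.1 k2
    obtain ⟨z, hz, hz'⟩ := Finset.mem_image.1 k3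
    simp only [Prod.mk.injEq] at hx' hy' hz'
    have hxy := (cls_eq_iff_base hb).1 (hx'.1.trans hy'.1.symm)
    have hxz := (cls_eq_iff_base hb).1 (hx'.1.trans hz'.1.symm)
    refine hF i (l + 1) I hl ?_ ?_ x hx y hy z hz l hb hxy hxz ?_ ?_ ?_ ?_
    · rw [hI, Nat.card_Icc]; omega
    · intro m hm
      rw [hI, Finset.mem_Icc] at hm
      omega
    · rw [hx'.2.1, hy'.2.1]; exact (ne_iff_add_one _ _).2 rfl
    · rw [hx'.2.2, hy'.2.2]
    · rw [hx'.2.1, hz'.2.1]
    · rw [hx'.2.2, hz'.2.2]; exact (ne_iff_add_one _ _).2 rfl)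
  rw [h0, h1, h2, h3] at key
  exact key

theorem chain_left {a L : ℕ} (ha : 1 ≤ a) (hF : Star a L F v) (i : ℕ) : ∀ d : ℕ,
    i + a + 1 + d ≤ L →
    cnt F v (Icc i (i + a + 1 + d)) + cnt F v (Icc (i + 1) (i + a + 1)) ≤
      cnt F v (Icc i (i + a + 1)) + cnt F v (Icc (i + 1) (i + a + 1 + d)) := by
  intro d
  induction d with
  | zero => intro _; rw [add_zero]
  | succ d ih =>
    intro h
    have h1 := ih (by omega)
    have h2 := (step ha hF (i := i) (l := i + a + 1 + d) (by omega) (by omega)).1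
    rw [show i + a + 1 + (d + 1) = i + a + 1 + d + 1 by omega]
    omega

theorem chain_right {a L : ℕ} (ha : 1 ≤ a) (hF : Star a L F v) (i j : ℕ) (hj : j + 1 ≤ L) :
    ∀ d : ℕ, i + d + a ≤ j →
    cnt F v (Icc i (j + 1)) + cnt F v (Icc (i + d) j) ≤
      cnt F v (Icc i j) + cnt F v (Icc (i + d) (j + 1)) := by
  intro d
  induction d with
  | zero => intro _; rw [add_zero]; omega
  | succ d ih =>
    intro h
    have h1 := ih (by omega)
    have h2 := (step ha hF (i := i + d) (l := j) (by omega) hj).1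
    rw [show i + (d + 1) = i + d + 1 by omega]
    omega

theorem sum_left {a L : ℕ} (ha : 1 ≤ a) (hF : Star a L F v) : ∀ (m i : ℕ), i + a + m ≤ L →
    (cnt F v (Icc i (i + a + m)) : ℤ) ≤ 2 ^ a + ∑ r ∈ range m,
      ((cnt F v (Icc (i + r) (i + r + a + 1)) : ℤ) - cnt F v (Icc (i + r + 1) (i + r + a + 1))) := by
  intro m
  induction m with
  | zero =>
    intro i _
    rw [Finset.sum_range_zero, add_zero, add_zero]
    exact_mod_cast cnt_Icc_le i a
  | succ m ih =>
    intro i h
    have h1 := ih (i + 1) (by omega)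
    have h2 := chain_left ha hF i m (by omega)
    rw [Finset.sum_range_succ']
    have h3 : ∑ r ∈ range m, ((cnt F v (Icc (i + 1 + r) (i + 1 + r + a + 1)) : ℤ) -
        cnt F v (Icc (i + 1 + r + 1) (i + 1 + r + a + 1))) =
        ∑ r ∈ range m, ((cnt F v (Icc (i + (r + 1)) (i + (r + 1) + a + 1)) : ℤ) -
        cnt F v (Icc (i + (r + 1) + 1) (i + (r + 1) + a + 1))) := by
      refine Finset.sum_congr rfl fun r _ => ?_
      rw [show i + 1 + r = i + (r + 1) by omega]
    rw [← h3]
    rw [add_zero]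
    have h4 : i + 1 + a + m = i + a + 1 + m := by omega
    rw [h4] at h1
    have h5 : i + a + (m + 1) = i + a + 1 + m := by omega
    rw [h5]
    have h6 : (cnt F v (Icc i (i + a + 1 + m)) : ℤ) + cnt F v (Icc (i + 1) (i + a + 1)) ≤
      cnt F v (Icc i (i + a + 1)) + cnt F v (Icc (i + 1) (i + a + 1 + m)) := by exact_mod_cast h2
    linarith

theorem sum_right {a L : ℕ} (ha : 1 ≤ a) (hF : Star a L F v) (i : ℕ) : ∀ m : ℕ,
    i + a + m ≤ L →
    (cnt F v (Icc i (i + a + m)) : ℤ) ≤ 2 ^ a + ∑ r ∈ range m,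
      ((cnt F v (Icc (i + r) (i + r + a + 1)) : ℤ) - cnt F v (Icc (i + r) (i + r + a))) := by
  intro m
  induction m with
  | zero =>
    intro _
    rw [Finset.sum_range_zero, add_zero, add_zero]
    exact_mod_cast cnt_Icc_le i a
  | succ m ih =>
    intro h
    have h1 := ih (by omega)
    have h2 := chain_right ha hF i (i + a + m) (by omega) m (by omega)
    rw [Finset.sum_range_succ]
    have h5 : i + a + (m + 1) = i + a + m + 1 := by omega
    have h6 : i + m + a = i + a + m := by omega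
    rw [h5, h6]
    have h7 : (cnt F v (Icc i (i + a + m + 1)) : ℤ) + cnt F v (Icc (i + m) (i + a + m)) ≤
      cnt F v (Icc i (i + a + m)) + cnt F v (Icc (i + m) (i + a + m + 1)) := by exact_mod_cast h2
    linarith

/-- intervals with `a + 1 + m` positions -/
theorem window {a L : ℕ} (ha : 1 ≤ a) (hF : Star a L F v) (m i : ℕ) (h : i + a + m ≤ L) :
    4 * cnt F v (Icc i (i + a + m)) ≤ (m + 4) * 2 ^ a := by
  have h1 := sum_left ha hF m i h
  have h2 := sum_right ha hF i m h
  obtain ⟨b, rfl⟩ : ∃ b, a = b + 1 := ⟨a - 1, by omega⟩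
  have h3 : ∀ r ∈ range m,
      ((cnt F v (Icc (i + r) (i + r + (b + 1) + 1)) : ℤ) -
        cnt F v (Icc (i + r + 1) (i + r + (b + 1) + 1))) +
      ((cnt F v (Icc (i + r) (i + r + (b + 1) + 1)) : ℤ) -
        cnt F v (Icc (i + r) (i + r + (b + 1)))) ≤ 2 ^ b := by
    intro r hr
    rw [Finset.mem_range] at hr
    have k1 := (step ha hF (i := i + r) (l := i + r + (b + 1)) (by omega) (by omega)).2
    have k2 := cnt_Icc_le (F := F) (v := v) (i + r + 1) b
    rw [show i + r + 1 + b = i + r + (b + 1) by omega] at k2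
    have k3 : (2 : ℤ) * cnt F v (Icc (i + r) (i + r + (b + 1) + 1)) ≤
        cnt F v (Icc (i + r) (i + r + (b + 1))) +
        cnt F v (Icc (i + r + 1) (i + r + (b + 1) + 1)) +
        cnt F v (Icc (i + r + 1) (i + r + (b + 1))) := by exact_mod_cast k1
    have k4 : (cnt F v (Icc (i + r + 1) (i + r + (b + 1))) : ℤ) ≤ 2 ^ b := by exact_mod_cast k2
    linarith
  have h4 := Finset.sum_le_sum h3
  rw [Finset.sum_add_distrib, Finset.sum_const, Finset.card_range, nsmul_eq_mul] at h4
  have h5 : (4 : ℤ) * cnt F v (Icc i (i + (b + 1) + m)) ≤ (m + 4) * 2 ^ (b + 1) := by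
    rw [pow_succ] at h1 h2 ⊢
    nlinarith [h1, h2, h4]
  exact_mod_cast h5

lemma exists_split {S T : Finset ℕ} (h : cnt F v S < cnt F v T) :
    ∃ x ∈ F, ∃ y ∈ F, cls v S x = cls v S y ∧ cls v T x ≠ cls v T y := by
  classical
  by_contra hcon
  push Not at hcon
  have h1 : cnt F v T ≤ cnt F v S := by
    unfold cnt
    exact card_image_le_of_ker F (cls v T) (cls v S) fun x hx y hy hxy => hcon x hx y hy hxy
  omega

theorem short {a L : ℕ} (ha : 1 ≤ a) (hF : Star a L F v) {i d : ℕ} (hd : i + (d + 1) ≤ L)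
    (h1 : cnt F v (Icc (i + 1) (i + (d + 1))) < cnt F v (Icc i (i + (d + 1))))
    (h2 : cnt F v (Icc i (i + d)) < cnt F v (Icc i (i + (d + 1)))) : d + 1 ≤ 2 * a - 1 := by
  classical
  by_contra hcon
  obtain ⟨x, hx, x', hx', hxx, hxx'⟩ := exists_split h1
  obtain ⟨y, hy, y', hy', hyy, hyy'⟩ := exists_split h2
  set I := Icc (i + 1) (i + d) with hI
  have hw : ∀ s : ZMod 2, s = 0 ∨ s = 1 := by decide
  have hcard : (I.filter fun q => v x q + v y q = 0).card +
      (I.filter fun q => v x q + v y q = 1).card = d := by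
    have e : (I.filter fun q => v x q + v y q = 1) =
        I.filter fun q => ¬ (v x q + v y q = 0) := by
      apply Finset.filter_congr
      intro q _
      rcases hw (v x q + v y q) with h | h
      · rw [h]; decide
      · rw [h]; decide
    rw [e, Finset.card_filter_add_card_filter_not, hI, Nat.card_Icc]
    omega
  obtain ⟨c, hc⟩ : ∃ c : ZMod 2, a ≤ (I.filter fun q => v x q + v y q = c).card := by
    by_contra hno
    push Not at hno
    have k0 := hno 0
    have k1 := hno 1
    omega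
  set M := I.filter fun q => v x q + v y q = c with hM
  obtain ⟨m₀, hm₀⟩ : M.Nonempty := Finset.card_pos.1 (by omega)
  have hMI : ∀ m ∈ M, i + 1 ≤ m ∧ m ≤ i + d := by
    intro m hm
    have := (Finset.mem_filter.1 hm).1
    rw [hI, Finset.mem_Icc] at this
    exact this
  have hm₀I := hMI m₀ hm₀
  -- agreement on `M`
  have hb1 : m₀ ∈ Icc (i + 1) (i + (d + 1)) := by rw [Finset.mem_Icc]; omega
  have hb2 : m₀ ∈ Icc i (i + d) := by rw [Finset.mem_Icc]; omega
  have e1 : Icc i (i + (d + 1)) = insert i (Icc (i + 1) (i + (d + 1))) := by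
    ext q; simp only [Finset.mem_Icc, Finset.mem_insert]; omega
  have e2 : Icc i (i + (d + 1)) = insert (i + (d + 1)) (Icc i (i + d)) := by
    ext q; simp only [Finset.mem_Icc, Finset.mem_insert]; omega
  have kx : v x i + v x m₀ ≠ v x' i + v x' m₀ := by
    intro h
    apply hxx'
    rw [e1, cls_insert_iff hb1]
    exact ⟨hxx, h⟩
  have ky : v y (i + (d + 1)) + v y m₀ ≠ v y' (i + (d + 1)) + v y' m₀ := by
    intro h
    apply hyy'
    rw [e2, cls_insert_iff hb2]
    exact ⟨hyy, h⟩
  have hxx1 := (cls_eq_iff_base hb1).1 hxx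
  have hyy1 := (cls_eq_iff_base hb2).1 hyy
  have ax : ∀ m ∈ M, v x m + v x m₀ = v x' m + v x' m₀ := by
    intro m hm
    have := hMI m hm
    exact hxx1 m (by rw [Finset.mem_Icc]; omega)
  have ay : ∀ m ∈ M, v y m + v y m₀ = v y' m + v y' m₀ := by
    intro m hm
    have := hMI m hm
    exact hyy1 m (by rw [Finset.mem_Icc]; omega)
  have axy : ∀ m ∈ M, v x m + v x m₀ = v y m + v y m₀ := by
    intro m hm
    have k1 := (Finset.mem_filter.1 hm).2
    have k2 := (Finset.mem_filter.1 hm₀).2
    have key : ∀ s t s' t' c : ZMod 2, s + t = c → s' + t' = c → s + s' = t + t' := by decide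
    exact key _ _ _ _ _ k1 k2
  have hx2 : v x (i + (d + 1)) + v x m₀ = v x' (i + (d + 1)) + v x' m₀ :=
    hxx1 _ (by rw [Finset.mem_Icc]; omega)
  have hy2 : v y i + v y m₀ = v y' i + v y' m₀ := hyy1 _ (by rw [Finset.mem_Icc]; omega)
  have hMp : ∀ m ∈ M, i < m ∧ m < i + (d + 1) := by
    intro m hm
    have := hMI m hm
    omega
  -- the centre `f`, the neighbour `f'` at the first position, the neighbour `g` at the last one
  have main : ∀ f ∈ F, ∀ f' ∈ F, (∀ m ∈ M, v f m + v f m₀ = v f' m + v f' m₀) →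
      (∀ m ∈ M, v f m + v f m₀ = v y m + v y m₀) →
      v f i + v f m₀ ≠ v f' i + v f' m₀ →
      v f (i + (d + 1)) + v f m₀ = v f' (i + (d + 1)) + v f' m₀ →
      v f i + v f m₀ = v y i + v y m₀ → False := by
    intro f hf f' hf' aff' afy h3 h4 h5
    by_cases h6 : v f (i + (d + 1)) + v f m₀ = v y (i + (d + 1)) + v y m₀
    · exact hF i (i + (d + 1)) M hd hc hMp f hf f' hf' y' hy' m₀ hm₀ aff'
        (fun m hm => (afy m hm).trans (ay m hm)) h3 h4 (h5.trans hy2) (fun h => ky (h6.symm.trans h))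
    · exact hF i (i + (d + 1)) M hd hc hMp f hf f' hf' y hy m₀ hm₀ aff' afy h3 h4 h5 h6
  by_cases h7 : v x i + v x m₀ = v y i + v y m₀
  · exact main x hx x' hx' ax axy kx hx2 h7
  · have h8 : v x' i + v x' m₀ = v y i + v y m₀ := by
      have key : ∀ s t u : ZMod 2, s ≠ t → s ≠ u → t = u := by decide
      exact key _ _ _ kx h7
    exact main x' hx' x hx (fun m hm => (ax m hm).symm)
      (fun m hm => (ax m hm).symm.trans (axy m hm)) (Ne.symm kx) hx2.symm h8

/-- **The counting theorem.** -/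
theorem star_bound {a L : ℕ} (ha : 1 ≤ a) (hF : Star a L F v) : ∀ d i : ℕ, i + d ≤ L →
    4 * cnt F v (Icc i (i + d)) ≤ (a + 3) * 2 ^ a := by
  intro d
  induction d with
  | zero =>
    intro i _
    have h1 := cnt_Icc_le (F := F) (v := v) i 0
    have h2 : 1 ≤ 2 ^ a := Nat.one_le_two_pow
    rw [pow_zero] at h1
    nlinarith
  | succ d ih =>
    intro i hi
    by_cases hda : d + 1 ≤ a
    · have h1 := cnt_Icc_le (F := F) (v := v) i (d + 1)
      have h2 : 2 ^ (d + 1) ≤ 2 ^ a := Nat.pow_le_pow_right (by norm_num) hda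
      nlinarith
    by_cases h1 : cnt F v (Icc (i + 1) (i + (d + 1))) < cnt F v (Icc i (i + (d + 1)))
    · by_cases h2 : cnt F v (Icc i (i + d)) < cnt F v (Icc i (i + (d + 1)))
      · have h3 := short ha hF hi h1 h2
        obtain ⟨m, hm⟩ : ∃ m, d + 1 = a + m := ⟨d + 1 - a, by omega⟩
        have h4 := window ha hF m i (by omega)
        rw [show i + a + m = i + (d + 1) by omega] at h4
        refine h4.trans (Nat.mul_le_mul_right _ (by omega))
      · have h3 := ih i (by omega)
        omega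
    · have h3 := ih (i + 1) (by omega)
      rw [show i + 1 + d = i + (d + 1) by omega] at h3
      omega

end

end Pool.Agent.Lib.P68998g
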