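import Mathlib

/-!
Pairs of words of length `k`, read from a common root: a count of families without three
configurations of pairs of words, for `k ≤ 5`.
-/

namespace Pool.Agent.Lib.P68998g

open Finset

section

variable {α : Type*} {P : Finset α} {l r : α → ℕ → ZMod 2} {k : ℕ}

/-- the first `x` letters of the words `w e`, `w e'` agree -/
def Ag (w : α → ℕ → ZMod 2) (x : ℕ) (e e' : α) : Prop := ∀ i < x, w e i = w e' i

lemma Ag.symm {w : α → ℕ → ZMod 2} {x : ℕ} {e e' : α} (h : Ag w x e e') : Ag w x e' e :=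
  fun i hi => (h i hi).symm

lemma Ag.trans {w : α → ℕ → ZMod 2} {x : ℕ} {e e' e'' : α} (h : Ag w x e e')
    (h' : Ag w x e' e'') : Ag w x e e'' :=
  fun i hi => (h i hi).trans (h' i hi)

lemma Ag.refl {w : α → ℕ → ZMod 2} {x : ℕ} {e : α} : Ag w x e e := fun _ _ => rfl

lemma Ag.mono {w : α → ℕ → ZMod 2} {x x' : ℕ} {e e' : α} (h : Ag w x e e') (hx : x' ≤ x) :
    Ag w x' e e' :=
  fun i hi => h i (by omega)

lemma Ag.succ {w : α → ℕ → ZMod 2} {x : ℕ} {e e' : α} (h : Ag w x e e') (hx : w e x = w e' x) :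
    Ag w (x + 1) e e' := by
  intro i hi
  rcases Nat.lt_or_ge i x with h1 | h1
  · exact h i h1
  · have : i = x := by omega
    rw [this]; exact hx

/-- no other member has the same `l`-word and an `r`-word with the same first `k - x` letters -/
def Free (P : Finset α) (l r : α → ℕ → ZMod 2) (k : ℕ) (x : ℕ) (e : α) : Prop :=
  ∀ e' ∈ P, Ag l k e e' → Ag r (k - x) e e' → e' = e

/-- the conflict relation -/
def Conf (P : Finset α) (l r : α → ℕ → ZMod 2) (k : ℕ) (e e' : α) : Prop :=
  ∃ x y, x + y < k ∧ ¬ Free P l r k (x + 1) e ∧ ¬ Free P r l k (y + 1) e' ∧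
    Ag l x e e' ∧ Ag r y e e'

/-- the three forbidden configurations -/
structure Rooted (P : Finset α) (l r : α → ℕ → ZMod 2) (k : ℕ) : Prop where
  inj : ∀ e ∈ P, ∀ e' ∈ P, Ag l k e e' → Ag r k e e' → e = e'
  two : ∀ e ∈ P, ∀ e' ∈ P, ∀ x y, Ag l x e e' → Ag r y e e' → ¬ Ag l k e e' → ¬ Ag r k e e' →
    x + y < k
  one : ∀ f ∈ P, ∀ f' ∈ P, ∀ z ∈ P, ∀ x y, Ag l k f f' → ¬ Ag r k f f' → ¬ Ag l k f z →
    Ag l x f z → Ag r y f f' → Ag r y f z → x + y + 1 < k
  bon : ∀ e ∈ P, ∀ f ∈ P, ∀ g ∈ P, ∀ x y q, Ag l x e f → Ag l x f g → Ag r k f g →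
    ¬ Ag l k f g → Ag r y e f → r e y ≠ r f y → y < q → q < k → r e q = r f q → x + y + 2 < k

lemma free_zero (h : Rooted P l r k) {e : α} (he : e ∈ P) : Free P l r k 0 e := by
  intro e' he' h1 h2
  exact (h.inj e he e' he' h1 h2).symm

lemma free_zero' (h : Rooted P l r k) {e : α} (he : e ∈ P) : Free P r l k 0 e := by
  intro e' he' h1 h2
  exact (h.inj e he e' he' h2 h1).symm

/-- a failure of `Free` -/
lemma not_free (h : Rooted P l r k) {e : α} (he : e ∈ P) {x : ℕ}
    (hx : ¬ Free P l r k x e) : ∃ f ∈ P, Ag l k e f ∧ Ag r (k - x) e f ∧ ¬ Ag r k e f := by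
  unfold Free at hx
  push Not at hx
  obtain ⟨f, hf, h1, h2, h3⟩ := hx
  exact ⟨f, hf, h1, h2, fun h4 => h3 (h.inj e he f hf h1 h4).symm⟩

lemma not_free' (h : Rooted P l r k) {e : α} (he : e ∈ P) {y : ℕ}
    (hy : ¬ Free P r l k y e) : ∃ g ∈ P, Ag r k e g ∧ Ag l (k - y) e g ∧ ¬ Ag l k e g := by
  unfold Free at hy
  push Not at hy
  obtain ⟨f, hf, h1, h2, h3⟩ := hy
  exact ⟨f, hf, h1, h2, fun h4 => h3 (h.inj e he f hf h4 h1).symm⟩

/-- `Free` fails on both sides only with large indices -/
lemma corner (h : Rooted P l r k) {e : α} (he : e ∈ P) {x y : ℕ}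
    (hx : ¬ Free P l r k (x + 1) e) (hy : ¬ Free P r l k (y + 1) e) : k ≤ x + y := by
  by_contra hlt
  obtain ⟨f, hf, f1, f2, f3⟩ := not_free h he hx
  obtain ⟨g, hg, g1, g2, g3⟩ := not_free' h he hy
  have := h.one e he f hf g hg (k - (y + 1)) (k - (x + 1)) f1 f3 g3 g2 f2
    (g1.mono (by omega))
  omega

lemma conf_gap (h : Rooted P l r k) {e e' : α} (he : e ∈ P) (he' : e' ∈ P) {x y : ℕ}
    (hxy : x + y < k) (hx : ¬ Free P l r k (x + 1) e) (hy : ¬ Free P r l k (y + 1) e')
    (hl : Ag l x e e') (hr : Ag r y e e') : x + y + 3 ≤ k := by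
  by_contra hlt
  obtain ⟨f, hf, f1, f2, f3⟩ := not_free h he hx
  obtain ⟨g, hg, g1, g2, g3⟩ := not_free' h he' hy
  -- one of `e'`, `g` has another left word than `e`
  obtain ⟨z, hz, z1, z2, z3⟩ : ∃ z ∈ P, ¬ Ag l k e z ∧ Ag l x e z ∧ Ag r k e' z := by
    by_cases h1 : Ag l k e e'
    · refine ⟨g, hg, fun h2 => g3 (h1.symm.trans h2), hl.trans (g2.mono (by omega)), g1⟩
    · exact ⟨e', he', h1, hl, Ag.refl⟩
  rcases (show x + y + 1 = k ∨ x + y + 2 = k by omega) with h1 | h1
  · have := h.one e he f hf z hz x y f1 f3 z1 z2 (f2.mono (by omega))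
      (hr.trans (z3.mono (by omega)))
    omega
  · by_cases h2 : r e y = r e' y
    · have h3 : Ag r (y + 1) e e' := hr.succ h2
      have := h.one e he f hf z hz x (y + 1) f1 f3 z1 z2 (f2.mono (by omega))
        (h3.trans (z3.mono (by omega)))
      omega
    · -- a place at which `e` and `f` differ
      obtain ⟨q, hq, hqq⟩ : ∃ q < k, r e q ≠ r f q := by
        unfold Ag at f3
        push Not at f3
        exact f3
      have hyq : y < q := by
        by_contra h3
        exact hqq (f2 q (by omega))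
      have hfy : r e y = r f y := f2 y (by omega)
      have hcase : r e q = r e' q ∨ r f q = r e' q := by
        have key : ∀ s t u : ZMod 2, s ≠ t → s = u ∨ t = u := by decide
        exact key _ _ _ hqq
      have g2' : Ag l x e' g := g2.mono (by omega)
      rcases hcase with h3 | h3
      · have := h.bon e he e' he' g hg x y q hl g2' g1 g3 hr h2 hyq hq h3
        omega
      · have := h.bon f hf e' he' g hg x y q ((f1.symm.mono (by omega)).trans hl) g2' g1 g3
          ((f2.symm.mono (by omega)).trans hr) (fun h4 => h2 (hfy.trans h4)) hyq hq h3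
        omega

/-- there is no chain of two conflicts -/
lemma no_chain (h : Rooted P l r k) (hk : k ≤ 5) {e e' e'' : α} (he : e ∈ P) (he' : e' ∈ P)
    (he'' : e'' ∈ P) (h1 : Conf P l r k e e') (h2 : Conf P l r k e' e'') : False := by
  obtain ⟨x1, y1, a1, a2, a3, a4, a5⟩ := h1
  obtain ⟨x2, y2, b1, b2, b3, b4, b5⟩ := h2
  have c1 := conf_gap h he he' a1 a2 a3 a4 a5
  have c2 := conf_gap h he' he'' b1 b2 b3 b4 b5
  have c3 := corner h he' b2 a3
  omega

lemma conf_irrefl (h : Rooted P l r k) {e : α} (he : e ∈ P) : ¬ Conf P l r k e e := by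
  rintro ⟨x, y, h1, h2, h3, -, -⟩
  have := corner h he h2 h3
  omega

/-- a family without conflicts in a cell -/
lemma cell (h : Rooted P l r k) {A : Finset α} (hA : A ⊆ P)
    (hconf : ∀ e ∈ A, ∀ e' ∈ A, ¬ Conf P l r k e e') : ∀ (d x y : ℕ) (c : α), x + y + d = k →
    ∀ Q : Finset α, (∀ e, e ∈ Q ↔ e ∈ A ∧ Ag l x c e ∧ Ag r y c e) →
      (∀ e ∈ Q, Free P l r k x e) → (∀ e ∈ Q, Free P r l k y e) →
      Q.card ≤ 2 ^ d ∧ (Q.card = 2 ^ d → ∀ e ∈ P, Ag l x c e → Ag r y c e → e ∈ A) := by
  classical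
  intro d
  induction d with
  | zero =>
    intro x y c hxy Q hQ hl hr
    have key : ∀ e ∈ Q, ∀ e' ∈ P, Ag l x c e' → Ag r y c e' → e' = e := by
      intro e he e' he' h1 h2
      have h3 := (hQ e).1 he
      by_cases k1 : Ag l k e e'
      · refine hl e he e' he' k1 ?_
        rw [show k - x = y by omega]
        exact h3.2.2.symm.trans h2
      by_cases k2 : Ag r k e e'
      · refine hr e he e' he' k2 ?_
        rw [show k - y = x by omega]
        exact h3.2.1.symm.trans h1
      have := h.two e (hA h3.1) e' he' x y (h3.2.1.symm.trans h1) (h3.2.2.symm.trans h2) k1 k2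
      omega
    constructor
    · rw [pow_zero, Finset.card_le_one]
      intro e he e' he'
      have h3 := (hQ e').1 he'
      exact (key e he e' (hA h3.1) h3.2.1 h3.2.2).symm
    · intro hc e' he' h1 h2
      rw [pow_zero, Finset.card_eq_one] at hc
      obtain ⟨e, he⟩ := hc
      have he1 : e ∈ Q := by rw [he]; exact Finset.mem_singleton_self e
      rw [key e he1 e' he' h1 h2]
      exact ((hQ e).1 he1).1
  | succ d ih =>
    intro x y c hxy Q hQ hl hr
    -- split at a letter
    have main : ∀ (w : α → ℕ → ZMod 2) (i : ℕ), ∀ Q0 Q1 : Finset α,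
        Q0 = Q.filter (fun e => w e i = 0) → Q1 = Q.filter (fun e => w e i = 1) →
        Q.card = Q0.card + Q1.card := by
      intro w i Q0 Q1 e0 e1
      have hz : ∀ s : ZMod 2, s = 1 ↔ ¬ s = 0 := by decide
      have e2 : Q1 = Q.filter (fun e => ¬ (w e i = 0)) := by
        rw [e1]
        exact Finset.filter_congr fun e _ => hz _
      rw [e0, e2, Finset.card_filter_add_card_filter_not]
    have hsplit : (∀ e ∈ Q, Free P l r k (x + 1) e) ∨ (∀ e ∈ Q, Free P r l k (y + 1) e) := by
      by_contra hno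
      push Not at hno
      obtain ⟨⟨e, he, h1⟩, ⟨e', he', h2⟩⟩ := hno
      have k1 := (hQ e).1 he
      have k2 := (hQ e').1 he'
      exact hconf e k1.1 e' k2.1 ⟨x, y, by omega, h1, h2, k1.2.1.symm.trans k2.2.1,
        k1.2.2.symm.trans k2.2.2⟩
    have hz : ∀ s : ZMod 2, s = 0 ∨ s = 1 := by decide
    -- the bound for a half of the cell: either it is empty or it is a cell
    rcases hsplit with hs | hs
    · have half : ∀ b : ZMod 2, (Q.filter fun e => l e x = b).card ≤ 2 ^ d ∧
          ((Q.filter fun e => l e x = b).card = 2 ^ d → ∀ e ∈ P, Ag l x c e → Ag r y c e →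
            l e x = b → e ∈ A) := by
        intro b
        rcases (Q.filter fun e => l e x = b).eq_empty_or_nonempty with h0 | ⟨c', hc'⟩
        · rw [h0, Finset.card_empty]
          refine ⟨Nat.zero_le _, fun h1 => ?_⟩
          have := Nat.one_le_two_pow (n := d)
          omega
        · rw [Finset.mem_filter] at hc'
          have hc1 := (hQ c').1 hc'.1
          have h1 := ih (x + 1) y c' (by omega) (Q.filter fun e => l e x = b) (by
            intro e
            rw [Finset.mem_filter, hQ]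
            constructor
            · rintro ⟨⟨m1, m2, m3⟩, m4⟩
              exact ⟨m1, (hc1.2.1.symm.trans m2).succ (hc'.2.trans m4.symm),
                hc1.2.2.symm.trans m3⟩
            · rintro ⟨m1, m2, m3⟩
              exact ⟨⟨m1, hc1.2.1.trans (m2.mono (by omega)), hc1.2.2.trans m3⟩,
                (m2 x (by omega)).symm.trans hc'.2⟩)
            (fun e he => hs e (Finset.mem_filter.1 he).1)
            (fun e he => hr e (Finset.mem_filter.1 he).1)
          refine ⟨h1.1, fun h2 e he m2 m3 m4 => ?_⟩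
          exact h1.2 h2 e he ((hc1.2.1.symm.trans m2).succ (hc'.2.trans m4.symm))
            (hc1.2.2.symm.trans m3)
      have h0 := half 0
      have h1 := half 1
      have h2 := main l x _ _ rfl rfl
      refine ⟨by rw [pow_succ]; omega, fun h3 e he m2 m3 => ?_⟩
      rw [pow_succ] at h3
      rcases hz (l e x) with m4 | m4
      · exact h0.2 (by omega) e he m2 m3 m4
      · exact h1.2 (by omega) e he m2 m3 m4
    · have half : ∀ b : ZMod 2, (Q.filter fun e => r e y = b).card ≤ 2 ^ d ∧
          ((Q.filter fun e => r e y = b).card = 2 ^ d → ∀ e ∈ P, Ag l x c e → Ag r y c e →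
            r e y = b → e ∈ A) := by
        intro b
        rcases (Q.filter fun e => r e y = b).eq_empty_or_nonempty with h0 | ⟨c', hc'⟩
        · rw [h0, Finset.card_empty]
          refine ⟨Nat.zero_le _, fun h1 => ?_⟩
          have := Nat.one_le_two_pow (n := d)
          omega
        · rw [Finset.mem_filter] at hc'
          have hc1 := (hQ c').1 hc'.1
          have h1 := ih x (y + 1) c' (by omega) (Q.filter fun e => r e y = b) (by
            intro e
            rw [Finset.mem_filter, hQ]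
            constructor
            · rintro ⟨⟨m1, m2, m3⟩, m4⟩
              exact ⟨m1, hc1.2.1.symm.trans m2,
                (hc1.2.2.symm.trans m3).succ (hc'.2.trans m4.symm)⟩
            · rintro ⟨m1, m2, m3⟩
              exact ⟨⟨m1, hc1.2.1.trans m2, hc1.2.2.trans (m3.mono (by omega))⟩,
                (m3 y (by omega)).symm.trans hc'.2⟩)
            (fun e he => hl e (Finset.mem_filter.1 he).1)
            (fun e he => hs e (Finset.mem_filter.1 he).1)
          refine ⟨h1.1, fun h2 e he m2 m3 m4 => ?_⟩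
          exact h1.2 h2 e he (hc1.2.1.symm.trans m2)
            ((hc1.2.2.symm.trans m3).succ (hc'.2.trans m4.symm))
      have h0 := half 0
      have h1 := half 1
      have h2 := main r y _ _ rfl rfl
      refine ⟨by rw [pow_succ]; omega, fun h3 e he m2 m3 => ?_⟩
      rw [pow_succ] at h3
      rcases hz (r e y) with m4 | m4
      · exact h0.2 (by omega) e he m2 m3 m4
      · exact h1.2 (by omega) e he m2 m3 m4

/-- a family without conflicts -/
lemma antichain_card (h : Rooted P l r k) {A : Finset α} (hA : A ⊆ P)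
    (hconf : ∀ e ∈ A, ∀ e' ∈ A, ¬ Conf P l r k e e') :
    A.card ≤ 2 ^ k ∧ (A.card = 2 ^ k → P ⊆ A) := by
  classical
  rcases A.eq_empty_or_nonempty with h0 | ⟨c, hc⟩
  · rw [h0, Finset.card_empty]
    refine ⟨Nat.zero_le _, fun h1 => ?_⟩
    have := Nat.one_le_two_pow (n := k)
    omega
  · have h1 := cell h hA hconf k 0 0 c (by omega) A (by
      intro e
      exact ⟨fun h1 => ⟨h1, fun i hi => absurd hi (Nat.not_lt_zero i),
        fun i hi => absurd hi (Nat.not_lt_zero i)⟩, fun h1 => h1.1⟩)
      (fun e he => free_zero h (hA he)) (fun e he => free_zero' h (hA he))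
    exact ⟨h1.1, fun h2 e he => h1.2 h2 e he (fun i hi => absurd hi (Nat.not_lt_zero i))
      (fun i hi => absurd hi (Nat.not_lt_zero i))⟩

/-- **The count.** -/
theorem rooted_card (h : Rooted P l r k) (hk : k ≤ 5) : P.card + 1 ≤ 2 ^ (k + 1) := by
  classical
  set A := P.filter fun e => ¬ ∃ e' ∈ P, Conf P l r k e' e with hA
  set B := P.filter fun e => ∃ e' ∈ P, Conf P l r k e' e with hB
  have hcard : P.card = A.card + B.card := by
    rw [hA, hB, add_comm, Finset.card_filter_add_card_filter_not]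
  have h1 := antichain_card h (A := A) (Finset.filter_subset _ _) (by
    intro e he e' he' hc
    exact (Finset.mem_filter.1 he').2 ⟨e, (Finset.mem_filter.1 he).1, hc⟩)
  have h2 := antichain_card h (A := B) (Finset.filter_subset _ _) (by
    intro e he e' he' hc
    obtain ⟨he1, e0, he0, h3⟩ := Finset.mem_filter.1 he
    exact no_chain h hk he0 he1 (Finset.mem_filter.1 he').1 h3 hc)
  have h3 := Nat.one_le_two_pow (n := k)
  rw [pow_succ]
  by_cases h4 : A.card = 2 ^ k
  · have h5 := Finset.card_le_card (h1.2 h4)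
    omega
  · have := h1.1
    have := h2.1
    omega

end

end Pool.Agent.Lib.P68998g
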